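import Pool.Agent.W_448w4_h10.MD
import Pool.Agent.W_448v_h15.VG

/-!
MP_448cb3_co, G2, case B: a component with at most three sites and `w32 = 0` is natural.  helper10.
-/

namespace Pool.Agent.GaussPoset.Win.K2

set_option linter.unusedSectionVars false

open Finset I2

universe u

/-- twice the sum over the pairs -/
lemma two_pairs {α : Type*} [DecidableEq α] (D : Finset α) (s : α → ℤ)
    (p : Finset α → Prop) [DecidablePred p] :
    2 * ∑ G ∈ (D.powersetCard 2).filter p, ∏ k ∈ G, s k =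
      ∑ q ∈ D.offDiag.filter (fun q => p {q.1, q.2}), s q.1 * s q.2 := by
  have h1 : ∀ q ∈ D.offDiag.filter (fun q => p {q.1, q.2}),
      ({q.1, q.2} : Finset α) ∈ (D.powersetCard 2).filter p := by
    intro q hq
    rw [mem_filter, mem_offDiag] at hq
    rw [mem_filter, mem_powersetCard]
    refine ⟨⟨?_, card_pair hq.1.2.2⟩, hq.2⟩
    intro x hx
    rw [mem_insert, mem_singleton] at hx
    rcases hx with rfl | rfl
    · exact hq.1.1
    · exact hq.1.2.1
  rw [← Finset.sum_fiberwise_of_maps_to h1, mul_sum]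
  refine Finset.sum_congr rfl fun G hG => ?_
  rw [mem_filter, mem_powersetCard] at hG
  obtain ⟨⟨g1, g2⟩, g3⟩ := hG
  obtain ⟨a, b, hab, rfl⟩ := card_eq_two.1 g2
  have ha : a ∈ D := g1 (by simp)
  have hb : b ∈ D := g1 (by simp)
  have e1 : (D.offDiag.filter (fun q => p {q.1, q.2})).filter
      (fun q => ({q.1, q.2} : Finset α) = {a, b}) = {(a, b), (b, a)} := by
    ext ⟨x, y⟩
    rw [mem_filter, mem_filter, mem_offDiag, mem_insert, mem_singleton, Prod.mk.injEq,
      Prod.mk.injEq]
    constructor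
    · rintro ⟨⟨⟨h2, h3, h4⟩, -⟩, h5⟩
      simp only at h2 h3 h4 h5
      have hx : x = a ∨ x = b := by
        have : x ∈ ({a, b} : Finset α) := by rw [← h5]; simp
        rwa [mem_insert, mem_singleton] at this
      have hy : y = a ∨ y = b := by
        have : y ∈ ({a, b} : Finset α) := by rw [← h5]; simp
        rwa [mem_insert, mem_singleton] at this
      rcases hx with rfl | rfl <;> rcases hy with rfl | rfl
      · exact absurd rfl h4
      · exact Or.inl ⟨rfl, rfl⟩
      · exact Or.inr ⟨rfl, rfl⟩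
      · exact absurd rfl h4
    · rintro (⟨rfl, rfl⟩ | ⟨rfl, rfl⟩)
      · exact ⟨⟨⟨ha, hb, hab⟩, g3⟩, rfl⟩
      · exact ⟨⟨⟨hb, ha, hab.symm⟩, by rw [pair_comm]; exact g3⟩, pair_comm _ _⟩
  have hne : ((a, b) : α × α) ≠ (b, a) := by
    intro h
    exact hab (congrArg Prod.fst h)
  rw [e1, sum_pair hne, prod_pair hab]
  ring

variable {P : Type u} [Fintype P] [PartialOrder P] [DecidableEq P] {r i : ℕ} {e : P → ℕ}

variable {ι : Type*} [DecidableEq ι] {κ : P → ι} {K : Finset P} {psi : P → P}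

/-- two doubles with the same sites in `K` have the same sign -/
lemma sgn_same (R : EK.Red P i K psi) {k k' : P} (hk : k ∈ K) (hk' : k' ∈ K)
    (h : ns i k = ns i k') : sgn i k * sgn i k' = 1 := by
  rcases mem_union.1 (R.sub hk) with h1 | h1 <;> rcases mem_union.1 (R.sub hk') with h2 | h2
  · rw [EK.sgn_low h1, EK.sgn_low h2]; norm_num
  · exfalso
    rw [ns_L h1, ns_U h2] at h
    exact R.inv hk hk' h1 h2 h
  · exfalso
    rw [ns_U h1, ns_L h2] at h
    exact R.inv hk' hk h2 h1 h.symm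
  · rw [EK.sgn_upp h1, EK.sgn_upp h2]; norm_num

/-- A COMPONENT WITH AT MOST THREE SITES AND `w32 = 0` IS NATURAL -/
theorem three_natural (H : Gr P r) (hir : i ≤ r) (hq : NoQ P (i + 2))
    (hg : ∀ m, m + 1 = i → Good P m) (hκ : Split (i + 1) κ) (R : EK.Red P i K psi) {a : ι}
    (hb : bb i (i + 1) κ a ≤ 3)
    (h0 : w3 (bb i (i + 1) κ a) (VV i (i + 1) κ a) = 0) :
    KD i K (cext (i + 1) κ a) = ∅ := by
  classical
  have hC : Part (i + 1) (cext (i + 1) κ a) := part_cext H le_rfl hκ a
  obtain ⟨C, hCe⟩ : ∃ C, C = cext (i + 1) κ a := ⟨_, rfl⟩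
  have hb' : (st i C).card ≤ 3 := by rw [hCe]; exact hb
  rw [← hCe] at hC ⊢
  obtain ⟨D, hD⟩ : ∃ D, D = KD i K C := ⟨_, rfl⟩
  rw [← hD]
  have mD : ∀ k ∈ D, k ∈ K ∧ k ∈ C ∧ k ∈ dbL P i ∪ dbU P i ∧ (ns i k).card = 2 ∧
      ns i k ⊆ st i C := by
    intro k hk
    rw [hD, mem_KD] at hk
    exact ⟨hk.1, hk.2.1, hk.2.2, ns_card hk.2.2, ns_sub hC H hk.2.2 hk.2.1⟩
  -- two doubles meet
  have meet : ∀ S T : Finset P, S.card = 2 → T.card = 2 → S ⊆ st i C → T ⊆ st i C →
      1 ≤ (S ∩ T).card := by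
    intro S T h1 h2 h3 h4
    have := card_union_add_card_inter S T
    have := card_le_card (union_subset h3 h4)
    omega
  have hstar : Star i C K := by
    rw [hCe]
    exact star_small H hir hκ R (Or.inl hb)
  -- the signed sum
  have hs : ∑ k ∈ D, sgn i k = 0 := by
    have h2 : D = K.filter (fun k => κ k = a) := by
      ext k
      rw [hD, mem_KD, mem_filter]
      have hl : k ∈ K → lev k ≤ i + 1 := by
        intro hk
        rcases mem_union.1 (R.sub hk) with h | h
        · have := mem_dbL'.1 h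
          omega
        · have := mem_dbU'.1 h
          omega
      constructor
      · rintro ⟨h3, h4, -⟩
        rw [hCe] at h4
        exact ⟨h3, mem_cext.1 h4 k le_rfl (hl h3)⟩
      · rintro ⟨h3, h4⟩
        refine ⟨h3, ?_, R.sub h3⟩
        rw [hCe]
        exact mem_cext_of_le hκ (hl h3) h4
    rw [h2]
    exact EK.sum_K H hir hκ R.mat R.sub a
  -- the pairs with exactly one common site
  have hone : ∑ q ∈ D.offDiag.filter (fun q => (ns i q.1 ∩ ns i q.2).card = 1),
      sgn i q.1 * sgn i q.2 = 0 := by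
    have e1 : ∑ q ∈ D.offDiag.filter (fun q => (ns i q.1 ∩ ns i q.2).card = 1),
        sgn i q.1 * sgn i q.2 = 2 * c1 i K C := by
      unfold c1 I1
      rw [two_pairs, ← hD]
      refine Finset.sum_congr ?_ fun _ _ => rfl
      ext q
      rw [mem_filter, mem_filter, mem_offDiag]
      refine and_congr_right fun h => ?_
      have : cm i C {q.1, q.2} = ns i q.1 ∩ ns i q.2 := by
        ext x
        unfold cm
        rw [mem_filter, mem_inter]
        constructor
        · rintro ⟨-, h4⟩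
          exact ⟨h4 _ (by simp), h4 _ (by simp)⟩
        · rintro ⟨h4, h5⟩
          refine ⟨(mD _ h.1).2.2.2.2 h4, ?_⟩
          intro t ht
          rw [mem_insert, mem_singleton] at ht
          rcases ht with rfl | rfl <;> assumption
      rw [this]
    rw [e1]
    by_cases hb2 : 2 ≤ (st i C).card
    · have h3 := w3_VV H hir hq hg hκ R.mat a (by rw [← hCe]; exact hstar)
        (by unfold bb; rw [← hCe]; exact hb2)
      rw [h0, ← hCe] at h3
      have h4 : c2 i K C = 0 := by
        unfold c2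
        rw [Finset.sum_eq_zero]
        rintro ⟨⟨z, y⟩, k⟩ ht
        exfalso
        rw [mem_I2'] at ht
        obtain ⟨g1, g2, g3, g4⟩ := ht
        have hyC := Pvt.mem_C hC g2 g1
        have m1 := meet (ns i y) (ns i k) (ns_card g2.mem) (mD k (by rw [hD]; exact g3)).2.2.2.1
          (ns_sub hC H g2.mem hyC) (mD k (by rw [hD]; exact g3)).2.2.2.2
        rw [disjoint_iff_inter_eq_empty.1 g4, card_empty] at m1
        omega
      linarith
    · have : c1 i K C = 0 := by
        unfold c1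
        rw [Finset.sum_eq_zero]
        intro G hG
        exfalso
        obtain ⟨k, k', q, -, -, hk, -⟩ := mem_I1 hC H hG
        obtain ⟨-, -, -, h5, h6⟩ := mD k (by rw [hD]; exact hk)
        have := card_le_card h6
        omega
      rw [this, mul_zero]
  -- all ordered pairs
  have hall : ∑ q ∈ D ×ˢ D, sgn i q.1 * sgn i q.2 = 0 := by
    rw [Finset.sum_product, ← Finset.sum_mul_sum, hs, zero_mul]
  have hsplit : ∑ q ∈ D ×ˢ D, sgn i q.1 * sgn i q.2 =
      ∑ q ∈ (D ×ˢ D).filter (fun q => ns i q.1 = ns i q.2), sgn i q.1 * sgn i q.2 +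
      ∑ q ∈ (D ×ˢ D).filter (fun q => ¬ ns i q.1 = ns i q.2), sgn i q.1 * sgn i q.2 :=
    (Finset.sum_filter_add_sum_filter_not _ _ _).symm
  have e2 : (D ×ˢ D).filter (fun q => ¬ ns i q.1 = ns i q.2) =
      D.offDiag.filter (fun q => (ns i q.1 ∩ ns i q.2).card = 1) := by
    ext q
    rw [mem_filter, mem_product, mem_filter, mem_offDiag]
    constructor
    · rintro ⟨⟨h1, h2⟩, h3⟩
      refine ⟨⟨h1, h2, fun h => h3 (by rw [h])⟩, ?_⟩
      obtain ⟨-, -, -, p1, p2⟩ := mD _ h1
      obtain ⟨-, -, -, q1, q2⟩ := mD _ h2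
      have m1 := meet _ _ p1 q1 p2 q2
      have m2 : (ns i q.1 ∩ ns i q.2).card ≤ 2 := by
        rw [← p1]; exact card_le_card inter_subset_left
      by_contra h4
      have m3 : (ns i q.1 ∩ ns i q.2).card = 2 := by omega
      apply h3
      have m4 : ns i q.1 ∩ ns i q.2 = ns i q.1 :=
        Finset.eq_of_subset_of_card_le inter_subset_left (by omega)
      have m5 : ns i q.1 ∩ ns i q.2 = ns i q.2 :=
        Finset.eq_of_subset_of_card_le inter_subset_right (by omega)
      rw [← m4, m5]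
    · rintro ⟨⟨h1, h2, h3⟩, h4⟩
      refine ⟨⟨h1, h2⟩, fun h => ?_⟩
      rw [h, inter_self, (mD _ h2).2.2.2.1] at h4
      omega
  have e3 : ∑ q ∈ (D ×ˢ D).filter (fun q => ns i q.1 = ns i q.2), sgn i q.1 * sgn i q.2 =
      (((D ×ˢ D).filter (fun q => ns i q.1 = ns i q.2)).card : ℤ) := by
    rw [Finset.card_eq_sum_ones]
    push_cast
    refine Finset.sum_congr rfl fun q hq => ?_
    rw [mem_filter, mem_product] at hq
    exact sgn_same R (mD _ hq.1.1).1 (mD _ hq.1.2).1 hq.2
  rw [hall, e2, hone, e3, add_zero] at hsplit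
  have h5 : ((D ×ˢ D).filter (fun q => ns i q.1 = ns i q.2)).card = 0 := by
    exact_mod_cast hsplit.symm
  rw [card_eq_zero] at h5
  rw [Finset.eq_empty_iff_forall_notMem]
  intro k hk
  have : (k, k) ∈ (D ×ˢ D).filter (fun q => ns i q.1 = ns i q.2) :=
    mem_filter.2 ⟨mem_product.2 ⟨hk, hk⟩, rfl⟩
  rw [h5] at this
  exact notMem_empty _ this

end Pool.Agent.GaussPoset.Win.K2
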