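import Pool.Agent.W_448so_h64.SoW

/-!
MP_448cb3_co, G2, case B, window `j`: the window sum of a part as a sum over cores, general set `K` of
near elements which are not matched (`W_448so_h17.PtA` has `K = ∅`).  helper10.
-/

namespace Pool.Agent.GaussPoset.Win.W4

set_option linter.unusedSectionVars false

open Finset
open Pool.Agent.GaussPoset.Win.So (IV_Fe RC_near)

universe u

variable {P : Type u} [Fintype P] [PartialOrder P] [DecidableEq P] {r i : ℕ}
variable {e f : P → ℕ} {psi : P → P} {C K : Finset P}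

/-- a part is closed under the matching -/
lemma psi_memK (H : Gr P r) (hM : Mat P i K psi) (hC : Part (i + 1) C) {x : P}
    (hx : x ∈ dbL P i ∪ dbU P i) (hxK : x ∉ K) (hxC : x ∈ C) : psi x ∈ C := by
  rcases mem_union.1 hx with h | h
  · obtain ⟨h1, h2⟩ := hM.low x h hxK
    have h3 := (mem_dbL.1 h).2
    obtain ⟨v, hv⟩ : (uc x).Nonempty := by rw [← card_pos]; omega
    have hvC : v ∈ C := hC.up hxC (mem_uc.1 hv)
    rw [← h2] at hv
    exact hC.up hvC (mem_dc.1 hv)
  · obtain ⟨h1, h2⟩ := hM.upp x h hxK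
    have h3 := mem_dbU.1 h
    obtain ⟨v, hv⟩ : (dc x).Nonempty := by rw [← card_pos]; omega
    have hl := lev_dc H hv
    have hvC : v ∈ C := hC.dn hxC (by omega) (mem_dc.1 hv)
    rw [← h2] at hv
    exact hC.dn hvC (by omega) (mem_uc.1 hv)

/-- the free near elements of the part -/
noncomputable def RK (i : ℕ) (K : Finset P) (psi : P → P) (C : Finset P) (e : P → ℕ) : Finset P :=
  Rst i K psi e ∩ C

/-- the sum over the labellings of the free near elements of the part -/
noncomputable def GK (i : ℕ) (K : Finset P) (psi : P → P) (C : Finset P) (e : P → ℕ) (m : ℕ)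
    (S : Finset P) : A := ∑ l ∈ (RK i K psi C e).piAntidiag m, ∏ x ∈ RK i K psi C e, wt i e x (l x) S

lemma mem_RK {x : P} : x ∈ RK i K psi C e ↔ x ∈ Rst i K psi e ∧ x ∈ C := by
  unfold RK; rw [mem_inter]

lemma RK_near {x : P} (hx : x ∈ RK i K psi C e) : x ∈ near P i :=
  (mem_Rst.1 (mem_RK.1 hx).1).1

lemma psi_RstK (hM : Mat P i K psi) {x : P} (hx : x ∈ Rst i K psi e)
    (hd : x ∈ dbL P i ∪ dbU P i) : psi x ∈ Rst i K psi e := by
  obtain ⟨h1, h2, h3, h4⟩ := mem_Rst.mp hx
  have h5 := hM.invol x hd h2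
  refine mem_Rst.mpr ⟨?_, h5.2, fun h6 => h4 ⟨hd, h6⟩, ?_⟩
  · rcases Finset.mem_union.mp hd with h6 | h6
    · have h7 := (mem_dbU.mp (hM.low x h6 h2).1).1
      exact mem_near.mpr (Or.inr h7)
    · have h7 := (mem_dbL.mp (hM.upp x h6 h2).1).1
      exact mem_near.mpr (Or.inl h7)
  · rintro ⟨-, h6⟩
    rw [h5.1] at h6
    exact h3 h6

theorem GK_Rk (H : Gr P r) (hi : 1 ≤ i) (hi2 : i + 1 ≤ r) (hM : Mat P i K psi)
    (hC : Part (i + 1) C) (e : P → ℕ) (m : ℕ) : Rk (lv P i) 0 (GK i K psi C e m) := by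
  refine rest_prod H hi hi2 hM e (RK i K psi C e) (fun x hx => RK_near hx)
    (fun x hx => (mem_Rst.1 (mem_RK.1 hx).1).2.1) (fun x hx hd => ?_) m
  rw [mem_RK] at hx ⊢
  exact ⟨psi_RstK hM hx.1 hd, psi_memK H hM hC hd (mem_Rst.1 hx.1).2.1 hx.2⟩

lemma GK_zero (H : Gr P r) (hir : i ≤ r) (e : P → ℕ) (S : Finset P) :
    GK i K psi C e 0 S = 1 := by
  unfold GK
  rw [Finset.piAntidiag_zero, Finset.sum_singleton]
  refine Finset.prod_eq_one fun x hx => ?_
  show wt i e x ((0 : P → ℕ) x) S = 1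
  rw [Pi.zero_apply]
  exact wt_zero H hir (RK_near hx) e S

/-- the contribution of a core -/
noncomputable def JK (i : ℕ) (K : Finset P) (psi : P → P) (C : Finset P) (m : ℕ) (e : P → ℕ) : A :=
  So.IV (st i C) (fun S => Fe i e S * GK i K psi C e m S)

lemma JK_zero (H : Gr P r) (hir : i ≤ r) (hC : Part i C) (he : Spt C e) :
    JK i K psi C 0 e = tC i C e := by
  rw [← IV_Fe H hC he]
  unfold JK
  congr 1
  funext S
  rw [GK_zero H hir, mul_one]

/-- cores with at most `k` deficits -/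
theorem JK_dvd (H : Gr P r) (hi : 1 ≤ i) (hi2 : i + 1 ≤ r) (hM : Mat P i K psi)
    (hC : Part (i + 1) C) {k : ℕ} (hk : Rk (lv P i) k (Fe i e)) (m : ℕ) :
    dd ^ ((st i C).card - k) ∣ JK i K psi C m e := by
  have h1 := Rk_mul hk (GK_Rk H hi hi2 hM hC e m)
  rw [add_zero] at h1
  exact So.Rk_IV (So.Rk_sub (So.st_sub i C) h1)

open Classical in
/-- grouping by cores inside a part -/
theorem group_K {M : Type*} [AddCommMonoid M] (H : Gr P r) (F : (P → ℕ) → M) (i : ℕ)
    (K : Finset P) (psi : P → P) (C : Finset P) (n : ℕ) :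
    ∑ e ∈ C.piAntidiag n, F e =
      ∑ q ∈ range (n + 1), ∑ e0 ∈ (C.piAntidiag q).filter (IsCore i K psi),
        ∑ l ∈ (RK i K psi C e0).piAntidiag (n - q), F (e0 + l) := by
  classical
  have h := core_group H (fun e => if Spt C e then F e else 0) i K psi n
  have h1 : ∑ e ∈ (univ : Finset P).piAntidiag n, (if Spt C e then F e else 0) =
      ∑ e ∈ C.piAntidiag n, F e := by
    rw [← Finset.sum_filter]
    refine Finset.sum_congr ?_ fun _ _ => rfl
    ext e
    rw [mem_filter, I2.mem_pa, I2.mem_pa]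
    constructor
    · rintro ⟨⟨h1, -⟩, h2⟩
      exact ⟨h1, h2⟩
    · rintro ⟨h1, h2⟩
      exact ⟨⟨h1, fun x hx => absurd (mem_univ x) hx⟩, h2⟩
  rw [h1] at h
  rw [h]
  refine Finset.sum_congr rfl fun q _ => ?_
  have h2 : (C.piAntidiag q).filter (IsCore i K psi) =
      (((univ : Finset P).piAntidiag q).filter (IsCore i K psi)).filter (Spt C) := by
    ext e
    rw [mem_filter, mem_filter, mem_filter, I2.mem_pa, I2.mem_pa]
    constructor
    · rintro ⟨⟨h1, h2⟩, h3⟩
      exact ⟨⟨⟨h1, fun x hx => absurd (mem_univ x) hx⟩, h3⟩, h2⟩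
    · rintro ⟨⟨⟨h1, -⟩, h3⟩, h2⟩
      exact ⟨⟨h1, h2⟩, h3⟩
  rw [h2]
  conv_rhs => rw [Finset.sum_filter]
  refine Finset.sum_congr rfl fun e0 _ => ?_
  · by_cases hs : Spt C e0
    · rw [if_pos hs, ← Finset.sum_filter]
      refine Finset.sum_congr ?_ fun _ _ => rfl
      ext l
      rw [mem_filter, I2.mem_pa, I2.mem_pa]
      constructor
      · rintro ⟨⟨a1, a2⟩, a3⟩
        refine ⟨a1, fun x hx => ?_⟩
        rw [mem_RK, not_and_or] at hx
        rcases hx with hx | hx
        · exact a2 x hx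
        · have := a3 x hx
          rw [Pi.add_apply] at this
          omega
      · rintro ⟨a1, a2⟩
        have hl : ∀ x, x ∉ C → l x = 0 := fun x hx => a2 x (fun h => hx (mem_RK.1 h).2)
        refine ⟨⟨a1, fun x hx => a2 x (fun h => hx (mem_RK.1 h).1)⟩, fun x hx => ?_⟩
        rw [Pi.add_apply, hs x hx, hl x hx]
    · rw [if_neg hs]
      refine Finset.sum_eq_zero fun l _ => ?_
      rw [if_neg]
      intro h
      apply hs
      intro x hx
      have := h x hx
      rw [Pi.add_apply] at this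
      omega

open Classical in
/-- THE WINDOW SUM OF A PART as a sum over cores -/
theorem ZC_coresK (H : Gr P r) (hir : i ≤ r) (K : Finset P) (psi : P → P) (hC : Part i C) (n : ℕ) :
    ZC i C n = ∑ q ∈ range (n + 1), ∑ e ∈ (C.piAntidiag q).filter (IsCore i K psi),
      JK i K psi C (n - q) e := by
  unfold ZC
  rw [group_K H (tC i C) i K psi C n]
  refine Finset.sum_congr rfl fun q _ => Finset.sum_congr rfl fun e he => ?_
  rw [mem_filter, I2.mem_pa] at he
  obtain ⟨⟨h1, h2⟩, h3⟩ := he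
  have h4 : ∀ l ∈ (RK i K psi C e).piAntidiag (n - q), tC i C (e + l) =
      So.IV (st i C) (fun S => Fe i e S * ∏ x ∈ RK i K psi C e, wt i e x (l x) S) := by
    intro l hl
    rw [I2.mem_pa] at hl
    have hs : Spt C (e + l) := by
      intro x hx
      rw [Pi.add_apply, h2 x hx, hl.2 x (fun h => hx (mem_RK.1 h).2)]
    rw [← IV_Fe H hC hs]
    congr 1
    funext S
    refine fact_many H hir (RK i K psi C e) (fun x hx => RK_near hx) (fun x hx => ?_)
      (fun x hx => ?_) l hl.2 S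
    · exact (mem_Rst.1 (mem_RK.1 hx).1).2.2.1
    · exact h3 x (mem_RK.1 hx).1
  rw [Finset.sum_congr rfl h4]
  unfold JK GK So.IV
  rw [Finset.sum_comm]
  refine Finset.sum_congr rfl fun S _ => ?_
  rw [← Finset.mul_sum, ← Finset.mul_sum]

open Classical in
/-- if all cores of energy less than `n` have at most `k` deficits, then modulo `dd ^ (b - k)` only the
cores of energy `n` with more than `k` deficits count -/
theorem ZC_subK (H : Gr P r) (hi : 1 ≤ i) (hi2 : i + 1 ≤ r) (hM : Mat P i K psi)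
    (hC : Part (i + 1) C) {n k : ℕ}
    (hk : ∀ e : P → ℕ, IsCore i K psi e → Spt C e → ∑ x, e x < n → Cheap k i e) :
    dd ^ ((st i C).card - k) ∣ ZC i C n -
      ∑ e ∈ (C.piAntidiag n).filter (fun e => IsCore i K psi e ∧ ¬ Cheap k i e), tC i C e := by
  have hC' : Part i C := ⟨fun h1 h2 => hC.up h1 h2, fun h1 h2 h3 => hC.dn h1 (by omega) h3⟩
  have hir : i ≤ r := by omega
  rw [ZC_coresK H hir K psi hC' n, Finset.sum_range_succ, Nat.sub_self, add_sub_assoc]
  refine dvd_add ?_ ?_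
  · refine Finset.dvd_sum fun q hq => Finset.dvd_sum fun e he => ?_
    rw [mem_range] at hq
    rw [mem_filter, I2.mem_pa] at he
    exact JK_dvd H hi hi2 hM hC (Rk_of_cheap (hk e he.2 he.1.2 (by rw [he.1.1]; exact hq))) _
  · have h1 : ∑ e ∈ (C.piAntidiag n).filter (IsCore i K psi), JK i K psi C 0 e =
        ∑ e ∈ (C.piAntidiag n).filter (fun e => IsCore i K psi e ∧ ¬ Cheap k i e), tC i C e +
        ∑ e ∈ (C.piAntidiag n).filter (fun e => IsCore i K psi e ∧ Cheap k i e), tC i C e := by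
      have h2 : ∀ e ∈ (C.piAntidiag n).filter (IsCore i K psi), JK i K psi C 0 e = tC i C e := by
        intro e he
        rw [mem_filter, I2.mem_pa] at he
        exact JK_zero H hir hC' he.1.2
      rw [Finset.sum_congr rfl h2,
        ← Finset.sum_filter_add_sum_filter_not ((C.piAntidiag n).filter (IsCore i K psi))
          (fun e => ¬ Cheap k i e), Finset.filter_filter, Finset.filter_filter]
      simp only [not_not]
    rw [h1, add_sub_cancel_left]
    refine Finset.dvd_sum fun e he => ?_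
    rw [mem_filter, I2.mem_pa] at he
    rw [← JK_zero (K := K) (psi := psi) H hir hC' he.1.2]
    exact JK_dvd H hi hi2 hM hC (Rk_of_cheap he.2.2) 0

end Pool.Agent.GaussPoset.Win.W4
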