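import Mathlib

/-!
MP_448cb3_co, G2, case B: the truncated product.  helper10 (idea of helper44).

A finite product of power series over `ℤ` with constant term one which is `1` modulo `X^7`, the factors being
`(1 - X)^m`, or `1 + X + X^2 + c3 X^3 + c4 X^4`, or `1 + c3 X^3 + c4 X^4` with `c3 ≠ 0` (all modulo `X^7`), has only
trivial factors.
-/

namespace Pool.Agent.GaussPoset.Win.K2

set_option linter.unusedSectionVars false

open Finset

namespace Tr

open PowerSeries in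
/-- the logarithmic derivative of a power series with constant term one -/
noncomputable def LD (F : PowerSeries ℤ) : PowerSeries ℤ :=
  PowerSeries.derivative ℤ F * PowerSeries.invOfUnit F 1

lemma LD_spec {F : PowerSeries ℤ} (h : PowerSeries.coeff 0 F = 1) :
    LD F * F = PowerSeries.derivative ℤ F := by
  unfold LD
  rw [mul_assoc, PowerSeries.invOfUnit_mul F 1 (by simpa using h), mul_one]

lemma coeff_zero_mul' (F G : PowerSeries ℤ) :
    PowerSeries.coeff 0 (F * G) = PowerSeries.coeff 0 F * PowerSeries.coeff 0 G := by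
  simp

lemma isReg {F : PowerSeries ℤ} (h : PowerSeries.coeff 0 F = 1) : F ≠ 0 := by
  rintro rfl
  simp at h

lemma LD_mul {F G : PowerSeries ℤ} (hF : PowerSeries.coeff 0 F = 1)
    (hG : PowerSeries.coeff 0 G = 1) : LD (F * G) = LD F + LD G := by
  have h0 : PowerSeries.coeff 0 (F * G) = 1 := by rw [coeff_zero_mul', hF, hG, mul_one]
  apply mul_right_cancel₀ (isReg h0)
  rw [LD_spec h0, add_mul, Derivation.leibniz]
  have e1 := LD_spec hF
  have e2 := LD_spec hG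
  rw [smul_eq_mul, smul_eq_mul, ← e1, ← e2]
  ring

lemma LD_one : LD 1 = 0 := by
  have h := LD_spec (F := 1) (by simp)
  rw [mul_one] at h
  rw [h]
  simp

lemma LD_prod {ι : Type*} (s : Finset ι) (F : ι → PowerSeries ℤ)
    (h : ∀ a ∈ s, PowerSeries.coeff 0 (F a) = 1) :
    PowerSeries.coeff 0 (∏ a ∈ s, F a) = 1 ∧ LD (∏ a ∈ s, F a) = ∑ a ∈ s, LD (F a) := by
  classical
  induction s using Finset.induction_on with
  | empty => exact ⟨by simp, by rw [prod_empty, sum_empty, LD_one]⟩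
  | insert a s ha ih =>
    obtain ⟨i1, i2⟩ := ih fun b hb => h b (mem_insert_of_mem hb)
    have ha1 := h a (mem_insert_self a s)
    rw [prod_insert ha, sum_insert ha]
    refine ⟨by rw [coeff_zero_mul', ha1, i1, mul_one], ?_⟩
    rw [LD_mul ha1 i1, i2]

/-- Newton up to the order six -/
theorem newton {F : PowerSeries ℤ} (h : PowerSeries.coeff 0 F = 1) {f1 f2 f3 f4 f5 f6 : ℤ}
    (h1 : PowerSeries.coeff 1 F = f1) (h2 : PowerSeries.coeff 2 F = f2)
    (h3 : PowerSeries.coeff 3 F = f3) (h4 : PowerSeries.coeff 4 F = f4)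
    (h5 : PowerSeries.coeff 5 F = f5) (h6 : PowerSeries.coeff 6 F = f6) :
    PowerSeries.coeff 0 (LD F) = f1 ∧
    PowerSeries.coeff 1 (LD F) + PowerSeries.coeff 0 (LD F) * f1 = 2 * f2 ∧
    PowerSeries.coeff 2 (LD F) + PowerSeries.coeff 1 (LD F) * f1 +
      PowerSeries.coeff 0 (LD F) * f2 = 3 * f3 ∧
    PowerSeries.coeff 3 (LD F) + PowerSeries.coeff 2 (LD F) * f1 +
      PowerSeries.coeff 1 (LD F) * f2 + PowerSeries.coeff 0 (LD F) * f3 = 4 * f4 ∧
    PowerSeries.coeff 4 (LD F) + PowerSeries.coeff 3 (LD F) * f1 +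
      PowerSeries.coeff 2 (LD F) * f2 + PowerSeries.coeff 1 (LD F) * f3 +
      PowerSeries.coeff 0 (LD F) * f4 = 5 * f5 ∧
    PowerSeries.coeff 5 (LD F) + PowerSeries.coeff 4 (LD F) * f1 +
      PowerSeries.coeff 3 (LD F) * f2 + PowerSeries.coeff 2 (LD F) * f3 +
      PowerSeries.coeff 1 (LD F) * f4 + PowerSeries.coeff 0 (LD F) * f5 = 6 * f6 := by
  have hs := LD_spec h
  have hn : ∀ n, PowerSeries.coeff n (LD F * F) = PowerSeries.coeff (n + 1) F * (n + 1) := by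
    intro n
    rw [hs]
    exact PowerSeries.coeff_derivative _ _
  have g0 := hn 0
  have g1 := hn 1
  have g2 := hn 2
  have g3 := hn 3
  have g4 := hn 4
  have g5 := hn 5
  rw [PowerSeries.coeff_mul, Finset.Nat.sum_antidiagonal_eq_sum_range_succ_mk] at g0 g1 g2 g3 g4 g5
  simp only [Finset.sum_range_succ, Finset.sum_range_zero, Nat.sub_zero, Nat.sub_self, h, h1, h2,
    h3, h4, h5, h6, zero_add, Nat.reduceAdd, Nat.reduceSub, Nat.cast_ofNat, Nat.cast_one,
    Nat.cast_zero, mul_one, Nat.succ_eq_add_one] at g0 g1 g2 g3 g4 g5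
  refine ⟨by linarith, by linarith, by linarith, by linarith, by linarith, by linarith⟩

/-- two power series which agree up to the order six have the same logarithmic derivative up to
the order five -/
theorem LD_congr {F G : PowerSeries ℤ} (hF : PowerSeries.coeff 0 F = 1)
    (hG : PowerSeries.coeff 0 G = 1)
    (h : ∀ k, 1 ≤ k → k ≤ 6 → PowerSeries.coeff k F = PowerSeries.coeff k G) :
    ∀ k, k ≤ 5 → PowerSeries.coeff k (LD F) = PowerSeries.coeff k (LD G) := by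
  obtain ⟨a0, a1, a2, a3, a4, a5⟩ := newton hF rfl rfl rfl rfl rfl rfl
  obtain ⟨b0, b1, b2, b3, b4, b5⟩ := newton hG rfl rfl rfl rfl rfl rfl
  rw [h 1 (by norm_num) (by norm_num)] at a0 a1 a2 a3 a4 a5
  rw [h 2 (by norm_num) (by norm_num)] at a1 a2 a3 a4 a5
  rw [h 3 (by norm_num) (by norm_num)] at a2 a3 a4 a5
  rw [h 4 (by norm_num) (by norm_num)] at a3 a4 a5
  rw [h 5 (by norm_num) (by norm_num)] at a4 a5
  rw [h 6 (by norm_num) (by norm_num)] at a5
  have c0 : PowerSeries.coeff 0 (LD F) = PowerSeries.coeff 0 (LD G) := by rw [a0, b0]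
  rw [c0] at a1 a2 a3 a4 a5
  have c1 : PowerSeries.coeff 1 (LD F) = PowerSeries.coeff 1 (LD G) := by linarith
  rw [c1] at a2 a3 a4 a5
  have c2 : PowerSeries.coeff 2 (LD F) = PowerSeries.coeff 2 (LD G) := by linarith
  rw [c2] at a3 a4 a5
  have c3 : PowerSeries.coeff 3 (LD F) = PowerSeries.coeff 3 (LD G) := by linarith
  rw [c3] at a4 a5
  have c4 : PowerSeries.coeff 4 (LD F) = PowerSeries.coeff 4 (LD G) := by linarith
  rw [c4] at a5
  have c5 : PowerSeries.coeff 5 (LD F) = PowerSeries.coeff 5 (LD G) := by linarith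
  intro k hk
  interval_cases k
  exacts [c0, c1, c2, c3, c4, c5]

lemma coeff_zero_pow (m : ℕ) :
    PowerSeries.coeff 0 ((1 - PowerSeries.X : PowerSeries ℤ) ^ m) = 1 := by
  simp

lemma LD_pow (m : ℕ) (k : ℕ) (hk : k ≤ 5) :
    PowerSeries.coeff k (LD ((1 - PowerSeries.X : PowerSeries ℤ) ^ m)) = - (m : ℤ) := by
  have h1 : ∀ k, k ≤ 5 →
      PowerSeries.coeff k (LD (1 - PowerSeries.X : PowerSeries ℤ)) = -1 := by
    obtain ⟨a0, a1, a2, a3, a4, a5⟩ := newton (F := 1 - PowerSeries.X) (by simp)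
      (f1 := -1) (f2 := 0) (f3 := 0) (f4 := 0) (f5 := 0) (f6 := 0)
      (by simp [PowerSeries.coeff_one])
      (by simp [PowerSeries.coeff_one, PowerSeries.coeff_X])
      (by simp [PowerSeries.coeff_one, PowerSeries.coeff_X])
      (by simp [PowerSeries.coeff_one, PowerSeries.coeff_X])
      (by simp [PowerSeries.coeff_one, PowerSeries.coeff_X])
      (by simp [PowerSeries.coeff_one, PowerSeries.coeff_X])
    intro k hk
    interval_cases k <;> linarith
  induction m with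
  | zero => simp [LD_one]
  | succ m ih =>
    rw [pow_succ, LD_mul (coeff_zero_pow m) (by simp), map_add, ih, h1 k hk]
    push_cast
    ring

/-- natural part -/
def Nt (F : PowerSeries ℤ) : Prop := ∃ m : ℕ, ∀ k, 1 ≤ k → k ≤ 6 →
  PowerSeries.coeff k F = PowerSeries.coeff k ((1 - PowerSeries.X : PowerSeries ℤ) ^ m)

/-- the first kind: `1 + t + t^2 + c3 t^3 + c4 t^4` -/
def Ka (F : PowerSeries ℤ) : Prop := PowerSeries.coeff 1 F = 1 ∧ PowerSeries.coeff 2 F = 1 ∧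
  PowerSeries.coeff 5 F = 0 ∧ PowerSeries.coeff 6 F = 0

/-- the second kind: `1 + c3 t^3 + c4 t^4` with `c3 ≠ 0` -/
def Kb (F : PowerSeries ℤ) : Prop := PowerSeries.coeff 1 F = 0 ∧ PowerSeries.coeff 2 F = 0 ∧
  PowerSeries.coeff 3 F ≠ 0 ∧ PowerSeries.coeff 5 F = 0 ∧ PowerSeries.coeff 6 F = 0

/-- coefficients of the logarithmic derivative of the first kind -/
lemma Ka.ld {F : PowerSeries ℤ} (h0 : PowerSeries.coeff 0 F = 1) (h : Ka F) :
    PowerSeries.coeff 0 (LD F) = 1 ∧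
    PowerSeries.coeff 3 (LD F) = 1 - 4 * PowerSeries.coeff 3 F + 4 * PowerSeries.coeff 4 F ∧
    PowerSeries.coeff 4 (LD F) = 1 - 5 * PowerSeries.coeff 4 F ∧
    PowerSeries.coeff 5 (LD F) = - 2 + 6 * PowerSeries.coeff 3 F -
      3 * PowerSeries.coeff 3 F ^ 2 := by
  obtain ⟨h1, h2, h5, h6⟩ := h
  obtain ⟨a0, a1, a2, a3, a4, a5⟩ := newton h0 h1 h2 rfl rfl h5 h6
  set x := PowerSeries.coeff 3 F
  set y := PowerSeries.coeff 4 F
  rw [a0] at a1 a2 a3 a4 a5
  have b1 : PowerSeries.coeff 1 (LD F) = 1 := by linarith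
  rw [b1] at a2 a3 a4 a5
  have b2 : PowerSeries.coeff 2 (LD F) = 3 * x - 2 := by linarith
  rw [b2] at a3 a4 a5
  have b3 : PowerSeries.coeff 3 (LD F) = 1 - 4 * x + 4 * y := by linarith
  rw [b3] at a4 a5
  have b4 : PowerSeries.coeff 4 (LD F) = 1 - 5 * y := by linarith
  rw [b4] at a5
  refine ⟨a0, b3, b4, by nlinarith⟩

/-- coefficients of the logarithmic derivative of the second kind -/
lemma Kb.ld {F : PowerSeries ℤ} (h0 : PowerSeries.coeff 0 F = 1) (h : Kb F) :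
    PowerSeries.coeff 0 (LD F) = 0 ∧
    PowerSeries.coeff 5 (LD F) = - 3 * PowerSeries.coeff 3 F ^ 2 := by
  obtain ⟨h1, h2, -, h5, h6⟩ := h
  obtain ⟨a0, a1, a2, a3, a4, a5⟩ := newton h0 h1 h2 rfl rfl h5 h6
  set x := PowerSeries.coeff 3 F
  set y := PowerSeries.coeff 4 F
  rw [a0] at a1 a2 a3 a4 a5
  have b1 : PowerSeries.coeff 1 (LD F) = 0 := by linarith
  rw [b1] at a2 a3 a4 a5
  have b2 : PowerSeries.coeff 2 (LD F) = 3 * x := by linarith
  rw [b2] at a3 a4 a5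
  have b3 : PowerSeries.coeff 3 (LD F) = 4 * y := by linarith
  rw [b3] at a4 a5
  have b4 : PowerSeries.coeff 4 (LD F) = 0 := by linarith
  rw [b4] at a5
  refine ⟨a0, by nlinarith⟩

lemma Nt.ld {F : PowerSeries ℤ} (h0 : PowerSeries.coeff 0 F = 1) (h : Nt F) :
    ∃ m : ℕ, (∀ k, k ≤ 5 → PowerSeries.coeff k (LD F) = - (m : ℤ)) ∧ ∀ k, 1 ≤ k → k ≤ 6 →
      PowerSeries.coeff k F = PowerSeries.coeff k ((1 - PowerSeries.X : PowerSeries ℤ) ^ m) := by
  obtain ⟨m, hm⟩ := h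
  refine ⟨m, fun k hk => ?_, hm⟩
  rw [LD_congr h0 (coeff_zero_pow m) hm k hk, LD_pow m k hk]

/-- THE TRUNCATED PRODUCT -/
theorem trunc_kill {ι : Type*} (s : Finset ι) (F : ι → PowerSeries ℤ)
    (h0 : ∀ a ∈ s, PowerSeries.coeff 0 (F a) = 1)
    (hP : ∀ k, 1 ≤ k → k ≤ 6 → PowerSeries.coeff k (∏ a ∈ s, F a) = 0)
    (hF : ∀ a ∈ s, Nt (F a) ∨ Ka (F a) ∨ Kb (F a)) :
    ∀ a ∈ s, ∀ k, 1 ≤ k → k ≤ 6 → PowerSeries.coeff k (F a) = 0 := by
  obtain ⟨p0, pL⟩ := LD_prod s F h0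
  have hz : ∀ k, k ≤ 5 → ∑ a ∈ s, PowerSeries.coeff k (LD (F a)) = 0 := by
    intro k hk
    have h1 : PowerSeries.coeff k (LD (∏ a ∈ s, F a)) = PowerSeries.coeff k (LD 1) := by
      apply LD_congr p0 (by simp) _ k hk
      intro j j1 j2
      rw [hP j j1 j2, PowerSeries.coeff_one, if_neg (by omega)]
    rw [LD_one, map_zero, pL, map_sum] at h1
    exact h1
  -- the sixth minus the first power sum
  have q1 : ∀ a ∈ s, 0 ≤ PowerSeries.coeff 0 (LD (F a)) - PowerSeries.coeff 5 (LD (F a)) := by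
    intro a ha
    rcases hF a ha with h | h | h
    · obtain ⟨m, hm, -⟩ := h.ld (h0 a ha)
      rw [hm 0 (by norm_num), hm 5 (by norm_num), sub_self]
    · obtain ⟨b0, -, -, b5⟩ := h.ld (h0 a ha)
      rw [b0, b5]
      nlinarith [sq_nonneg (PowerSeries.coeff 3 (F a) - 1)]
    · obtain ⟨b0, b5⟩ := h.ld (h0 a ha)
      rw [b0, b5]
      nlinarith [sq_nonneg (PowerSeries.coeff 3 (F a))]
  have q2 : ∀ a ∈ s, PowerSeries.coeff 0 (LD (F a)) - PowerSeries.coeff 5 (LD (F a)) = 0 := by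
    apply (sum_eq_zero_iff_of_nonneg q1).1
    rw [sum_sub_distrib, hz 0 (by norm_num), hz 5 (by norm_num), sub_self]
  have q3 : ∀ a ∈ s, ¬ Kb (F a) := by
    intro a ha h
    obtain ⟨b0, b5⟩ := h.ld (h0 a ha)
    have h1 := q2 a ha
    rw [b0, b5] at h1
    have h2 : PowerSeries.coeff 3 (F a) ^ 2 = 0 := by linarith
    exact h.2.2.1 (pow_eq_zero_iff (two_ne_zero) |>.1 h2)
  have q4 : ∀ a ∈ s, Ka (F a) → PowerSeries.coeff 3 (F a) = 1 := by
    intro a ha h
    obtain ⟨b0, -, -, b5⟩ := h.ld (h0 a ha)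
    have h1 := q2 a ha
    rw [b0, b5] at h1
    have h2 : (PowerSeries.coeff 3 (F a) - 1) ^ 2 = 0 := by nlinarith
    have h3 := (pow_eq_zero_iff (two_ne_zero)).1 h2
    linarith
  have q5 : ∀ a ∈ s, 0 ≤ 9 * PowerSeries.coeff 0 (LD (F a)) -
      5 * PowerSeries.coeff 3 (LD (F a)) - 4 * PowerSeries.coeff 4 (LD (F a)) := by
    intro a ha
    rcases hF a ha with h | h | h
    · obtain ⟨m, hm, -⟩ := h.ld (h0 a ha)
      rw [hm 0 (by norm_num), hm 3 (by norm_num), hm 4 (by norm_num)]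
      linarith
    · obtain ⟨b0, b3, b4, b5⟩ := h.ld (h0 a ha)
      rw [b0, b3, b4, q4 a ha h]
      linarith
    · exact absurd h (q3 a ha)
  have q6 : ∀ a ∈ s, 9 * PowerSeries.coeff 0 (LD (F a)) -
      5 * PowerSeries.coeff 3 (LD (F a)) - 4 * PowerSeries.coeff 4 (LD (F a)) = 0 := by
    apply (sum_eq_zero_iff_of_nonneg q5).1
    rw [sum_sub_distrib, sum_sub_distrib, ← mul_sum, ← mul_sum, ← mul_sum, hz 0 (by norm_num),
      hz 3 (by norm_num), hz 4 (by norm_num)]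
    norm_num
  have q7 : ∀ a ∈ s, ¬ Ka (F a) := by
    intro a ha h
    obtain ⟨b0, b3, b4, b5⟩ := h.ld (h0 a ha)
    have h1 := q6 a ha
    rw [b0, b3, b4, q4 a ha h] at h1
    linarith
  have q8 : ∀ a ∈ s, Nt (F a) := by
    intro a ha
    rcases hF a ha with h | h | h
    · exact h
    · exact absurd h (q7 a ha)
    · exact absurd h (q3 a ha)
  have q9 : ∀ a ∈ s, 0 ≤ - PowerSeries.coeff 0 (LD (F a)) := by
    intro a ha
    obtain ⟨m, hm, -⟩ := (q8 a ha).ld (h0 a ha)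
    rw [hm 0 (by norm_num)]
    have := Int.natCast_nonneg m
    linarith
  have q10 : ∀ a ∈ s, - PowerSeries.coeff 0 (LD (F a)) = 0 := by
    apply (sum_eq_zero_iff_of_nonneg q9).1
    rw [sum_neg_distrib, hz 0 (by norm_num), neg_zero]
  intro a ha k k1 k6
  obtain ⟨m, hm, hm'⟩ := (q8 a ha).ld (h0 a ha)
  have h1 := q10 a ha
  rw [hm 0 (by norm_num), neg_neg] at h1
  have h2 : m = 0 := by exact_mod_cast h1
  rw [hm' k k1 k6, h2, pow_zero, PowerSeries.coeff_one, if_neg (by omega)]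

end Tr

end Pool.Agent.GaussPoset.Win.K2
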