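import Pool.Agent.W_448w4_h10.KG

/-!
MP_448cb3_co, G2, case B, window `j`: the quadratic form of a natural part in the coefficients (2,4), (1,2).
helper10.
-/

namespace Pool.Agent.GaussPoset.Win.W4

set_option linter.unusedSectionVars false

open Finset
open Pool.Agent.GaussPoset.Win.SO (PN vp mem_PN num_PN)

universe u

variable {P : Type u} [Fintype P] [PartialOrder P] [DecidableEq P] {r i : ℕ}
variable {e f : P → ℕ} {psi : P → P} {C K : Finset P}

open Classical in
/-- ordered pairs of pendants with a common site -/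
noncomputable def M4 (i : ℕ) (C : Finset P) : Finset (P × P) :=
  (PN i C ×ˢ PN i C).filter (fun q => ¬ Disjoint (sit i q.1) (sit i q.2))

lemma pairs_split (i : ℕ) (C : Finset P) :
    (∑ p ∈ PN i C, vp i p) ^ 2 = ∑ q ∈ P4 i C, vp i q.1 * vp i q.2 +
      ∑ q ∈ M4 i C, vp i q.1 * vp i q.2 := by
  classical
  rw [pow_two, Finset.sum_mul_sum, ← Finset.sum_product' (f := fun a b => vp i a * vp i b)]
  unfold P4 M4
  exact (Finset.sum_filter_add_sum_filter_not _ _ _).symm

/-- THE FORM of a natural part -/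
theorem Nat4.form (Q : Nat4 r i K psi C) (hb : 1 ≤ (st i C).card) :
    I2.al 2 (st i C).card (ZS i C) ^ 2 - 2 * I2.be 4 (st i C).card (ZS i C) =
      ∑ q ∈ M4 i C, vp i q.1 * vp i q.2 + 2 * ((Z4 i C).card - (T4 i C).card : ℤ) := by
  rw [Q.be4 hb, Q.al2, pairs_split]
  ring

end Pool.Agent.GaussPoset.Win.W4
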