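import Pool.Agent.W_448w4_h10.LB
import Pool.Agent.W_448w4_h10.KH

/-!
MP_448cb3_co, G2, case B, window `j`: orders, profile and quadratic form of the component with a lower and an upper
unmatched double which share a site.  helper10.
-/

namespace Pool.Agent.GaussPoset.Win.W4

set_option linter.unusedSectionVars false

open Finset
open Pool.Agent.GaussPoset.Win.So (IV IV_chi IV_Fe)
open Pool.Agent.GaussPoset.Win.SO (LowD UppD val_gen PN vp con on)

universe u

variable {P : Type u} [Fintype P] [PartialOrder P] [DecidableEq P] {r i : ℕ}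
variable {e f : P → ℕ} {psi : P → P} {C K : Finset P} {w v : P}

/-- a vanishing leading coefficient lowers the order -/
lemma od_drop {b k : ℕ} {X : A} (h : od b (k + 1) X) (h0 : lc b (k + 1) X = 0) : od b k X := by
  unfold od lc at *
  unfold dd at *
  have h1 : (PowerSeries.X : A) ^ (b + 1) ∣ PowerSeries.X ^ (k + 1) * X := by
    rw [PowerSeries.X_pow_dvd_iff] at h ⊢
    intro m hm
    rcases Nat.lt_succ_iff_lt_or_eq.1 hm with h2 | h2
    · exact h m h2
    · rw [h2]; exact h0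
  obtain ⟨Y, hY⟩ := h1
  refine ⟨Y, ?_⟩
  have h2 : (PowerSeries.X : A) * (PowerSeries.X ^ k * X) = PowerSeries.X * (PowerSeries.X ^ b * Y) := by
    rw [← mul_assoc, ← pow_succ', hY, pow_succ', mul_assoc]
  exact mul_left_cancel₀ (PowerSeries.X_ne_zero) h2

section

variable (Q : K5 r i K psi C w v)
include Q

lemma K5.od1 : od (st i C).card 1 (ZC i C 1) := by
  refine Q.od_ZC fun q hq e he p hp t ht => ?_
  obtain ⟨g1, g2, g3⟩ := mem_Co.1 he
  rw [HasAntidiagonal.mem_antidiagonal] at hp ht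
  refine od_mono ?_ (Q.Jx_od g3 (Q.cheap0 g3 g2 (by omega)) p.1 t.1 t.2)
  unfold ind
  split_ifs <;> omega

variable {q : P} (hq : q ∈ uc w) (hq' : q ∈ dc v)
include hq hq'

lemma q_lev : lev q = i := by
  have h1 := lev_uc Q.H hq
  have := Q.lw0
  omega

lemma K5.od2 : od (st i C).card 1 (ZC i C 2) := by
  refine Q.od_ZC fun n hn e he p hp t ht => ?_
  obtain ⟨g1, g2, g3⟩ := mem_Co.1 he
  rw [HasAntidiagonal.mem_antidiagonal] at hp ht
  by_cases h2 : n = 2
  · have hp0 : p.1 = 0 := by omega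
    have ht0 : t.1 = 0 := by omega
    refine od_mono ?_ (Q.Jx_od g3 (Q.cheap1 g3 g2 (by omega)) p.1 t.1 t.2)
    rw [hp0, ht0, ind_zero]
  by_cases h3 : p.1 ≠ 0 ∧ t.1 ≠ 0
  · have hn0 : n = 0 := by omega
    have he0 : e q = 0 := by
      have : ∑ x, e x = 0 := by omega
      rw [sum_eq_zero_iff] at this
      exact this q (mem_univ q)
    rw [Q.Jx_both g3 hq hq' he0 h3.1 h3.2]
    exact od_zero _ _
  · refine od_mono ?_ (Q.Jx_od g3 (Q.cheap0 g3 g2 (by omega)) p.1 t.1 t.2)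
    unfold ind
    split_ifs <;> omega

lemma K5.od3 : od (st i C).card 2 (ZC i C 3) := by
  refine Q.od_ZC fun n hn e he p hp t ht => ?_
  obtain ⟨g1, g2, g3⟩ := mem_Co.1 he
  rw [HasAntidiagonal.mem_antidiagonal] at hp ht
  by_cases h2 : n < 2
  · refine od_mono ?_ (Q.Jx_od g3 (Q.cheap0 g3 g2 (by omega)) p.1 t.1 t.2)
    unfold ind
    split_ifs <;> omega
  · refine od_mono ?_ (Q.Jx_od g3 (Q.cheap1 g3 g2 (by omega)) p.1 t.1 t.2)
    unfold ind
    split_ifs <;> omega

lemma K5.od4 : od (st i C).card 2 (ZC i C 4) := by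
  refine Q.od_ZC fun n hn e he p hp t ht => ?_
  obtain ⟨g1, g2, g3⟩ := mem_Co.1 he
  rw [HasAntidiagonal.mem_antidiagonal] at hp ht
  by_cases h2 : n < 2
  · refine od_mono ?_ (Q.Jx_od g3 (Q.cheap0 g3 g2 (by omega)) p.1 t.1 t.2)
    unfold ind
    split_ifs <;> omega
  by_cases h4 : n = 4
  · have hp0 : p.1 = 0 := by omega
    have ht0 : t.1 = 0 := by omega
    refine od_mono ?_ (Q.Jx_od g3 (Q.cheap2 g3 g2 (by omega)) p.1 t.1 t.2)
    rw [hp0, ht0, ind_zero]
  by_cases h3 : n = 3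
  · refine od_mono ?_ (Q.Jx_od g3 (Q.cheap1 g3 g2 (by omega)) p.1 t.1 t.2)
    unfold ind
    split_ifs <;> omega
  have hn2 : n = 2 := by omega
  rcases Q.cls2 g3 g2 (by omega) with h | ⟨h, h'⟩
  · refine od_mono ?_ (Q.Jx_od g3 h p.1 t.1 t.2)
    unfold ind
    split_ifs <;> omega
  · by_cases h5 : p.1 ≠ 0 ∧ t.1 ≠ 0
    · obtain ⟨z, hz, rfl⟩ := L2_index Q.H g2 h'
      rw [Q.Jx_both g3 hq hq' (pd_site Q.H hz (q_lev Q hq hq')) h5.1 h5.2]
      exact od_zero _ _
    · refine od_mono ?_ (Q.Jx_od g3 h p.1 t.1 t.2)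
      unfold ind
      split_ifs <;> omega

end

section

variable (Q : K5 r i K psi C w v) {p q s : P} (hw : uc w = {p, q}) (hv : dc v = {q, s})
  (hpq : p ≠ q) (hqs : q ≠ s) (hps : p ≠ s)
include Q hw hv hpq hqs hps

/-- PROFILE of the component when `w32 = 0` -/
theorem K5.prof (h3 : ∑ z ∈ PN i C, vp i z * (Nx i w z - Nx i v z) = 1) :
    I2.Prof 2 4 (st i C).card (ZS i C) := by
  obtain ⟨-, -, hq, hq'⟩ := Q.cards hw hv hpq hqs hps
  have z0 : od (st i C).card 0 (ZC i C 0) := by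
    rw [ZC_zero Q.H Q.hir C]
    unfold od
    rw [pow_zero, one_mul]
  have z1 : od (st i C).card 0 (ZC i C 1) := od_drop Q.od1 (Q.al1_raw hw hv hpq hqs hps)
  have z3 : od (st i C).card 1 (ZC i C 3) := by
    refine od_drop (Q.od3 hq hq') ?_
    rw [Q.be3_raw hw hv hpq hqs hps, h3]
    norm_num
  refine ⟨?_, ?_, ?_⟩
  · intro n hn
    rw [coeff_ZS]
    have : n = 0 ∨ n = 1 := by omega
    rcases this with rfl | rfl
    · unfold od at z0; rwa [pow_zero, one_mul] at z0
    · unfold od at z1; rwa [pow_zero, one_mul] at z1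
  · intro n hn
    rw [coeff_ZS]
    have : n = 0 ∨ n = 1 ∨ n = 2 ∨ n = 3 := by omega
    rcases this with rfl | rfl | rfl | rfl
    · have := od_succ z0
      unfold od at this; rwa [pow_one] at this
    · have := od_succ z1
      unfold od at this; rwa [pow_one] at this
    · have := Q.od2 hq hq'
      unfold od at this; rwa [pow_one] at this
    · unfold od at z3; rwa [pow_one] at z3
  · rw [coeff_ZS]
    exact Q.od4 hq hq'

theorem K5.eps1 : I2.eps (st i C).card (ZS i C) = 1 := by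
  unfold I2.eps
  rw [coeff_ZS, ZC_zero Q.H Q.hir C]
  unfold dd
  rw [PowerSeries.coeff_X_pow_self]

theorem K5.al2 : I2.al 2 (st i C).card (ZS i C) =
    ∑ z ∈ PN i C, vp i z + (dg i K C p - dg i K C s - mm i K C {p, q} + mm i K C {q, s}) := by
  rw [← Q.al2_raw hw hv hpq hqs hps]
  unfold I2.al lc
  rw [coeff_ZS, pow_one]

theorem K5.be4 : I2.be 4 (st i C).card (ZS i C) = lc (st i C).card 2 (ZC i C 4) := by
  unfold I2.be lc
  rw [coeff_ZS]

/-- the number of near elements at the sites of a pendant and of a double -/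
noncomputable def Ds (i : ℕ) (K C T U : Finset P) : ℤ :=
  ∑ y ∈ T, dg i K C y - mm i K C (T ∪ U)

lemma Dg_split {T U : Finset P} (h : Disjoint U T) :
    Dg i K C (T ∪ U) = Vc i K C + ∑ y ∈ U, dg i K C y + Ds i K C T U := by
  unfold Dg Ds
  rw [sum_union h.symm]
  ring

/-- THE FORM of the component when `w32 = 0` -/
theorem K5.form (h3 : ∑ z ∈ PN i C, vp i z * (Nx i w z - Nx i v z) = 1) :
    I2.al 2 (st i C).card (ZS i C) ^ 2 - 2 * I2.be 4 (st i C).card (ZS i C) =
      ∑ q ∈ M4 i C, vp i q.1 * vp i q.2 + 2 * ((Z4 i C).card - (T4 i C).card : ℤ) + 6 -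
      2 * ∑ z ∈ Z4 i C, tz i z * (Nx i w z - Nx i v z) -
      ∑ z ∈ PN i C, vp i z * (ch i C z * (Nx i w z - Nx i v z) + 2 * (Mx i w z - Mx i v z)) -
      2 * ∑ z ∈ PN i C, vp i z * (Nx i w z * (dg i K C p + Ds i K C (sit i z) {p, q}) -
        Nx i v z * (dg i K C s + Ds i K C (sit i z) {q, s})) +
      2 * (dg i K C p + dg i K C s + dg i K C q - 2 * mm i K C {p, q}
        - 2 * mm i K C {q, s} - mm i K C {p, s}) +
      2 * (∑ z ∈ PN i C, vp i z) *
        (dg i K C p - dg i K C s - mm i K C {p, q} + mm i K C {q, s}) +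
      (dg i K C p - dg i K C s - mm i K C {p, q} + mm i K C {q, s}) ^ 2 := by
  obtain ⟨hw2, hv2, hq, hq'⟩ := Q.cards hw hv hpq hqs hps
  have nw := Q.nzw hw hv hpq hqs hps
  have nv := Q.nzv hw hv hpq hqs hps
  have hb : 1 ≤ (st i C).card := by
    obtain ⟨l1, l2, l3⟩ := Q.lpq hw hv hpq hqs hps
    obtain ⟨m1, m2, m3⟩ := Q.memC hw hv hpq hqs hps
    exact card_pos.2 ⟨p, mem_st.2 ⟨m1, l1⟩⟩
  rw [Q.be4 hw hv hpq hqs hps, Q.be4_raw hw hv hpq hqs hps hb, Q.al2 hw hv hpq hqs hps]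
  have e1 : ∑ z ∈ PN i C, vp i z * (Nx i w z * (1 + Dg i K C (sit i z ∪ nz i w)) -
      Nx i v z * (1 + Dg i K C (sit i z ∪ nz i v))) =
      (1 + Vc i K C + dg i K C q) * ∑ z ∈ PN i C, vp i z * (Nx i w z - Nx i v z) +
      ∑ z ∈ PN i C, vp i z * (Nx i w z * (dg i K C p + Ds i K C (sit i z) {p, q}) -
        Nx i v z * (dg i K C s + Ds i K C (sit i z) {q, s})) := by
    rw [mul_sum, ← sum_add_distrib]
    refine sum_congr rfl fun z _ => ?_
    have a1 : Nx i w z * (1 + Dg i K C (sit i z ∪ nz i w)) =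
        Nx i w z * (1 + (Vc i K C + (dg i K C p + dg i K C q) + Ds i K C (sit i z) {p, q})) := by
      unfold Nx
      by_cases h : Disjoint (nz i w) (sit i z)
      · rw [Dg_split Q hw hv hpq hqs hps h, nw, sum_pair hpq]
      · rw [if_neg h, zero_mul, zero_mul]
    have a2 : Nx i v z * (1 + Dg i K C (sit i z ∪ nz i v)) =
        Nx i v z * (1 + (Vc i K C + (dg i K C q + dg i K C s) + Ds i K C (sit i z) {q, s})) := by
      unfold Nx
      by_cases h : Disjoint (nz i v) (sit i z)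
      · rw [Dg_split Q hw hv hpq hqs hps h, nv, sum_pair hqs]
      · rw [if_neg h, zero_mul, zero_mul]
    rw [a1, a2]
    ring
  have e2 : ∑ z ∈ PN i C, vp i z * ((2 * ((st i C).card - 8) + ch i C z) *
      (Nx i w z - Nx i v z) + 2 * (Mx i w z - Mx i v z)) =
      2 * ((st i C).card - 8) * ∑ z ∈ PN i C, vp i z * (Nx i w z - Nx i v z) +
      ∑ z ∈ PN i C, vp i z * (ch i C z * (Nx i w z - Nx i v z) + 2 * (Mx i w z - Mx i v z)) := by
    rw [mul_sum, ← sum_add_distrib]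
    exact sum_congr rfl fun z _ => by ring
  have e3 := pairs_split i C
  rw [e1, e2, h3]
  linear_combination e3

end

end Pool.Agent.GaussPoset.Win.W4
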