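import Pool.Agent.W_448w4_h10.NA

/-!
MP_448cb3_co, G2, case B: the truncated product, second version.  helper10.

The kinds `Ka2`, `Kb2` need only `c3 ≠ 1` (resp. `c3 ≠ 0`) or `0 < c4`.
-/

namespace Pool.Agent.GaussPoset.Win.K2

set_option linter.unusedSectionVars false

open Finset

namespace Tr

/-- the first kind -/
def Ka2 (F : PowerSeries ℤ) : Prop := Ka F ∧
  (PowerSeries.coeff 3 F ≠ 1 ∨ 0 < PowerSeries.coeff 4 F)

/-- the second kind -/
def Kb2 (F : PowerSeries ℤ) : Prop := PowerSeries.coeff 1 F = 0 ∧ PowerSeries.coeff 2 F = 0 ∧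
  PowerSeries.coeff 5 F = 0 ∧ PowerSeries.coeff 6 F = 0 ∧
  (PowerSeries.coeff 3 F ≠ 0 ∨ 0 < PowerSeries.coeff 4 F)

lemma Kb2.ld {F : PowerSeries ℤ} (h0 : PowerSeries.coeff 0 F = 1) (h : Kb2 F) :
    PowerSeries.coeff 0 (LD F) = 0 ∧
    PowerSeries.coeff 3 (LD F) = 4 * PowerSeries.coeff 4 F ∧
    PowerSeries.coeff 4 (LD F) = 0 ∧
    PowerSeries.coeff 5 (LD F) = - 3 * PowerSeries.coeff 3 F ^ 2 := by
  obtain ⟨h1, h2, h5, h6, -⟩ := h
  obtain ⟨a0, a1, a2, a3, a4, a5⟩ := newton h0 h1 h2 rfl rfl h5 h6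
  set x := PowerSeries.coeff 3 F
  set y := PowerSeries.coeff 4 F
  rw [a0] at a1 a2 a3 a4 a5
  have b1 : PowerSeries.coeff 1 (LD F) = 0 := by linarith
  rw [b1] at a2 a3 a4 a5
  have b2 : PowerSeries.coeff 2 (LD F) = 3 * x := by linarith
  rw [b2] at a3 a4 a5
  have b3 : PowerSeries.coeff 3 (LD F) = 4 * y := by linarith
  rw [b3] at a4 a5
  have b4 : PowerSeries.coeff 4 (LD F) = 0 := by linarith
  rw [b4] at a5
  refine ⟨a0, b3, b4, by nlinarith⟩

/-- THE TRUNCATED PRODUCT, second version -/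
theorem trunc_kill2 {ι : Type*} (s : Finset ι) (F : ι → PowerSeries ℤ)
    (h0 : ∀ a ∈ s, PowerSeries.coeff 0 (F a) = 1)
    (hP : ∀ k, 1 ≤ k → k ≤ 6 → PowerSeries.coeff k (∏ a ∈ s, F a) = 0)
    (hF : ∀ a ∈ s, Nt (F a) ∨ Ka2 (F a) ∨ Kb2 (F a)) :
    ∀ a ∈ s, (∀ k, 1 ≤ k → k ≤ 6 → PowerSeries.coeff k (F a) = 0) ∧ Nt (F a) := by
  obtain ⟨p0, pL⟩ := LD_prod s F h0
  have hz : ∀ k, k ≤ 5 → ∑ a ∈ s, PowerSeries.coeff k (LD (F a)) = 0 := by
    intro k hk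
    have h1 : PowerSeries.coeff k (LD (∏ a ∈ s, F a)) = PowerSeries.coeff k (LD 1) := by
      apply LD_congr p0 (by simp) _ k hk
      intro j j1 j2
      rw [hP j j1 j2, PowerSeries.coeff_one, if_neg (by omega)]
    rw [LD_one, map_zero, pL, map_sum] at h1
    exact h1
  have q1 : ∀ a ∈ s, 0 ≤ PowerSeries.coeff 0 (LD (F a)) - PowerSeries.coeff 5 (LD (F a)) := by
    intro a ha
    rcases hF a ha with h | h | h
    · obtain ⟨m, hm, -⟩ := h.ld (h0 a ha)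
      rw [hm 0 (by norm_num), hm 5 (by norm_num), sub_self]
    · obtain ⟨b0, -, -, b5⟩ := h.1.ld (h0 a ha)
      rw [b0, b5]
      nlinarith [sq_nonneg (PowerSeries.coeff 3 (F a) - 1)]
    · obtain ⟨b0, -, -, b5⟩ := h.ld (h0 a ha)
      rw [b0, b5]
      nlinarith [sq_nonneg (PowerSeries.coeff 3 (F a))]
  have q2 : ∀ a ∈ s, PowerSeries.coeff 0 (LD (F a)) - PowerSeries.coeff 5 (LD (F a)) = 0 := by
    apply (sum_eq_zero_iff_of_nonneg q1).1
    rw [sum_sub_distrib, hz 0 (by norm_num), hz 5 (by norm_num), sub_self]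
  have q3 : ∀ a ∈ s, Kb2 (F a) → PowerSeries.coeff 3 (F a) = 0 := by
    intro a ha h
    obtain ⟨b0, -, -, b5⟩ := h.ld (h0 a ha)
    have h1 := q2 a ha
    rw [b0, b5] at h1
    have h2 : PowerSeries.coeff 3 (F a) ^ 2 = 0 := by linarith
    exact (pow_eq_zero_iff (two_ne_zero)).1 h2
  have q4 : ∀ a ∈ s, Ka2 (F a) → PowerSeries.coeff 3 (F a) = 1 := by
    intro a ha h
    obtain ⟨b0, -, -, b5⟩ := h.1.ld (h0 a ha)
    have h1 := q2 a ha
    rw [b0, b5] at h1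
    have h2 : (PowerSeries.coeff 3 (F a) - 1) ^ 2 = 0 := by nlinarith
    have h3 := (pow_eq_zero_iff (two_ne_zero)).1 h2
    linarith
  have r3 : ∀ a ∈ s, Kb2 (F a) → 0 < PowerSeries.coeff 4 (F a) := by
    intro a ha h
    rcases h.2.2.2.2 with h1 | h1
    · exact absurd (q3 a ha h) h1
    · exact h1
  have r4 : ∀ a ∈ s, Ka2 (F a) → 0 < PowerSeries.coeff 4 (F a) := by
    intro a ha h
    rcases h.2 with h1 | h1
    · exact absurd (q4 a ha h) h1
    · exact h1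
  -- the fifth minus the first power sum
  have q5 : ∀ a ∈ s, 0 ≤ PowerSeries.coeff 0 (LD (F a)) - PowerSeries.coeff 4 (LD (F a)) := by
    intro a ha
    rcases hF a ha with h | h | h
    · obtain ⟨m, hm, -⟩ := h.ld (h0 a ha)
      rw [hm 0 (by norm_num), hm 4 (by norm_num), sub_self]
    · obtain ⟨b0, -, b4, -⟩ := h.1.ld (h0 a ha)
      have := r4 a ha h
      rw [b0, b4]
      linarith
    · obtain ⟨b0, -, b4, -⟩ := h.ld (h0 a ha)
      rw [b0, b4, sub_self]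
  have q6 : ∀ a ∈ s, PowerSeries.coeff 0 (LD (F a)) - PowerSeries.coeff 4 (LD (F a)) = 0 := by
    apply (sum_eq_zero_iff_of_nonneg q5).1
    rw [sum_sub_distrib, hz 0 (by norm_num), hz 4 (by norm_num), sub_self]
  have q7 : ∀ a ∈ s, ¬ Ka2 (F a) := by
    intro a ha h
    obtain ⟨b0, -, b4, -⟩ := h.1.ld (h0 a ha)
    have h1 := q6 a ha
    have h2 := r4 a ha h
    rw [b0, b4] at h1
    linarith
  -- the fourth minus the first power sum
  have q8 : ∀ a ∈ s, 0 ≤ PowerSeries.coeff 3 (LD (F a)) - PowerSeries.coeff 0 (LD (F a)) := by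
    intro a ha
    rcases hF a ha with h | h | h
    · obtain ⟨m, hm, -⟩ := h.ld (h0 a ha)
      rw [hm 0 (by norm_num), hm 3 (by norm_num), sub_self]
    · exact absurd h (q7 a ha)
    · obtain ⟨b0, b3, -, -⟩ := h.ld (h0 a ha)
      have := r3 a ha h
      rw [b0, b3]
      linarith
  have q9 : ∀ a ∈ s, PowerSeries.coeff 3 (LD (F a)) - PowerSeries.coeff 0 (LD (F a)) = 0 := by
    apply (sum_eq_zero_iff_of_nonneg q8).1
    rw [sum_sub_distrib, hz 0 (by norm_num), hz 3 (by norm_num), sub_self]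
  have q10 : ∀ a ∈ s, ¬ Kb2 (F a) := by
    intro a ha h
    obtain ⟨b0, b3, -, -⟩ := h.ld (h0 a ha)
    have h1 := q9 a ha
    have h2 := r3 a ha h
    rw [b0, b3] at h1
    linarith
  have q11 : ∀ a ∈ s, Nt (F a) := by
    intro a ha
    rcases hF a ha with h | h | h
    · exact h
    · exact absurd h (q7 a ha)
    · exact absurd h (q10 a ha)
  exact fun a ha => ⟨trunc_kill s F h0 hP (fun a ha => Or.inl (q11 a ha)) a ha, q11 a ha⟩

/-- no factor of the kinds `Ka2`, `Kb2` -/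
theorem not_Ka2_Kb2 {ι : Type*} (s : Finset ι) (F : ι → PowerSeries ℤ)
    (h0 : ∀ a ∈ s, PowerSeries.coeff 0 (F a) = 1)
    (hP : ∀ k, 1 ≤ k → k ≤ 6 → PowerSeries.coeff k (∏ a ∈ s, F a) = 0)
    (hF : ∀ a ∈ s, Nt (F a) ∨ Ka2 (F a) ∨ Kb2 (F a)) {a : ι} (ha : a ∈ s) :
    ¬ Ka2 (F a) ∧ ¬ Kb2 (F a) := by
  obtain ⟨h1, -⟩ := trunc_kill2 s F h0 hP hF a ha
  constructor
  · intro h
    have := h1 1 (by norm_num) (by norm_num)
    rw [h.1.1] at this
    exact one_ne_zero this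
  · intro h
    rcases h.2.2.2.2 with h2 | h2
    · exact h2 (h1 3 (by norm_num) (by norm_num))
    · rw [h1 4 (by norm_num) (by norm_num)] at h2
      exact lt_irrefl _ h2

end Tr

end Pool.Agent.GaussPoset.Win.K2
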