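import Pool.Agent.W_448so_h64.SoB

/-!
MP_448cb3_co, G2, case B, window `j`: classification of the cores of energy at most four of a part in which
all near doubles are matched.  Lower joins of every kind are allowed, except elements with two double covers
without common site.  Abstract setting of `W_448so_h64.SoA`, `SoB`.  helper10.
-/

namespace Pool.Agent.GaussPoset.Win.W4

set_option linter.unusedSectionVars false

open Finset
open Pool.Agent.GaussPoset.Win.SO (Sde Pen TD On kS)
open Pool.Agent.GaussPoset.Win.I2 (kd gu kl kn kr so cc fr KK KD mem_kn mem_kr mem_so kd_iff kl_iff)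

universe u

variable {P : Type u} [Fintype P] [DecidableEq P]
variable {c c' : P → Finset P} {t t' : P → ℕ} {V Sd Sd' : Finset P} {e : P → ℕ}

/-- a configuration of a part with matched doubles -/
structure Cf (c c' : P → Finset P) (t t' : P → ℕ) (V Sd Sd' : Finset P) (e : P → ℕ) : Prop where
  s1 : Sde c c' t V Sd
  s2 : Sde c' c t' V Sd'
  d1 : Disjoint Sd V
  d2 : Disjoint Sd' V
  d3 : Disjoint Sd Sd'
  adm1 : ∀ z ∈ Sd, ¬ (kd c' e z ∧ gu c e z)
  adm2 : ∀ z ∈ Sd', ¬ (kd c e z ∧ gu c' e z)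
  dis : Disjoint (KD c' e V) (KD c e V)
  core1 : ∀ x ∈ Sd, t x = 1 → 0 < e x → (∃ z ∈ c' x, 0 < e z) ∨
    ∃ y ∈ Sd', t' y = 1 ∧ c' y = c x ∧ (c x).card = 2 ∧ ∃ z ∈ c y, 0 < e z
  core2 : ∀ x ∈ Sd', t' x = 1 → 0 < e x → (∃ z ∈ c x, 0 < e z) ∨
    ∃ y ∈ Sd, t y = 1 ∧ c y = c' x ∧ (c' x).card = 2 ∧ ∃ z ∈ c' y, 0 < e z

lemma Cf.symm (C : Cf c c' t t' V Sd Sd' e) : Cf c' c t' t V Sd' Sd e :=
  ⟨C.s2, C.s1, C.d2, C.d1, C.d3.symm, C.adm2, C.adm1, C.dis.symm, C.core2, C.core1⟩

/-- no excited element at distance two with two double covers without common site -/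
def NQ (c : P → Finset P) (t : P → ℕ) (Sd : Finset P) (e : P → ℕ) : Prop :=
  ∀ w ∈ Sd, t w = 2 → 0 < e w → ∀ x ∈ c w, ∀ x' ∈ c w, (c x).card = 2 → (c x').card = 2 →
    (c x ∩ c x').Nonempty

/-- two pendants of one side with disjoint sites -/
def PP (c : P → Finset P) (t : P → ℕ) (Sd : Finset P) (e : P → ℕ) : Prop :=
  ∃ p y p' y', Pen c t Sd p y ∧ Pen c t Sd p' y' ∧ p ≠ p' ∧ y ≠ y' ∧ Disjoint (c y) (c y') ∧
    On e {p, y, p', y'}

/-- a pendant of each side, disjoint sites -/
def PQ (c c' : P → Finset P) (t t' : P → ℕ) (Sd Sd' : Finset P) (e : P → ℕ) : Prop :=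
  ∃ p y p' u, Pen c t Sd p y ∧ Pen c' t' Sd' p' u ∧ Disjoint (c y) (c' u) ∧
    On e {p, y, p', u}

/-- label two on an element at distance two with three sites, label one on its covers -/
def A4 (c : P → Finset P) (t : P → ℕ) (Sd : Finset P) (e : P → ℕ) : Prop :=
  ∃ z x x', z ∈ Sd ∧ t z = 2 ∧ c z = {x, x'} ∧ x ≠ x' ∧ (c x ∪ c x').card = 3 ∧
    ∀ y, e y = if y = z then 2 else if y = x ∨ y = x' then 1 else 0

/-- labels one on a T-element, its covers and their common site -/
def B4 (c : P → Finset P) (t : P → ℕ) (Sd : Finset P) (e : P → ℕ) : Prop :=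
  ∃ z x x' s, TD c t Sd z x x' s ∧ On e {z, x, x', s}

/-! ### basic facts -/

lemma card_le_energy {s : Finset P} (h : ∀ x ∈ s, 1 ≤ e x) : s.card ≤ ∑ x, e x := by
  calc s.card = ∑ _x ∈ s, 1 := by simp
    _ ≤ ∑ x ∈ s, e x := Finset.sum_le_sum h
    _ ≤ ∑ x, e x := Finset.sum_le_sum_of_subset (subset_univ s)

lemma sum_le_energy (s : Finset P) : ∑ x ∈ s, e x ≤ ∑ x, e x :=
  Finset.sum_le_sum_of_subset (subset_univ s)

/-- an element outside `s` has at most the rest of the energy -/
lemma rest_le {s : Finset P} {w : P} (hw : w ∉ s) : e w + ∑ x ∈ s, e x ≤ ∑ x, e x := by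
  rw [← Finset.sum_insert hw]
  exact sum_le_energy _

/-- a cover of an excited element is excited -/
lemma pos_cov (S : Sde c c' t V Sd) (adm : ∀ z ∈ Sd, ¬ (kd c' e z ∧ gu c e z)) {z x : P}
    (hx : x ∈ Sd) (hz : z ∈ c' x) (he : 0 < e z) : 0 < e x := by
  by_contra h
  obtain ⟨a, ha⟩ := S.ne x hx
  exact adm x hx ⟨⟨z, hz, by omega⟩, a, ha, by omega⟩

/-- sites above a near element -/
lemma near_site (S : Sde c c' t V Sd) {x a : P} (hx : x ∈ Sd) (ht : t x = 1) (ha : a ∈ c x) :
    a ∈ V := by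
  obtain ⟨h1, h2⟩ := S.cin x hx a ha
  rcases h1 with h1 | h1
  · have := S.tS a h1
    omega
  · exact h1

/-- covers of a far element -/
lemma far_cov (S : Sde c c' t V Sd) {z a : P} (hz : z ∈ Sd) (ht : 2 ≤ t z) (ha : a ∈ c z) :
    a ∈ Sd ∧ t z = t a + 1 := by
  obtain ⟨h1, h2⟩ := S.cin z hz a ha
  rcases h1 with h1 | h1
  · exact ⟨h1, h2⟩
  · have := S.tV a h1
    omega

/-- below an excited far element there is an excited one at distance two and an excited near one -/
lemma far_two (S : Sde c c' t V Sd) (adm : ∀ z ∈ Sd, ¬ (kd c' e z ∧ gu c e z)) :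
    ∀ n, ∀ z ∈ Sd, t z = n + 1 → 0 < e z → ∃ x ∈ Sd, t x = 1 ∧ 0 < e x := by
  intro n
  induction n with
  | zero => intro z hz ht he; exact ⟨z, hz, by omega, he⟩
  | succ n ih =>
    intro z hz ht he
    obtain ⟨a, ha⟩ := S.ne z hz
    obtain ⟨h1, h2⟩ := far_cov S hz (by omega) ha
    exact ih a h1 (by omega) (pos_cov S adm h1 ((S.dual z a).1 ha) he)

/-- no excited near element: the side is not excited -/
lemma side_zero (S : Sde c c' t V Sd) (adm : ∀ z ∈ Sd, ¬ (kd c' e z ∧ gu c e z))
    (h : ∀ x ∈ Sd, t x = 1 → e x = 0) : ∀ z ∈ Sd, e z = 0 := by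
  intro z hz
  by_contra hne
  have h1 := S.tS z hz
  obtain ⟨x, hx, h2, h3⟩ := far_two S adm (t z - 1) z hz (by omega) (by omega)
  have := h x hx h2
  omega

open Classical in
lemma mem_KD {a : P} {W : Finset P} : a ∈ KD c' e W ↔ a ∈ W ∧ kd c' e a := by
  unfold KD
  rw [mem_filter]

/-- the surplus of a side which is not excited -/
lemma kS_zero (S : Sde c c' t V Sd) (h : ∀ z ∈ Sd, e z = 0) : kS c c' V Sd e ≤ 0 := by
  have h1 : KD c' e V = ∅ := by
    rw [eq_empty_iff_forall_notMem]
    intro v hv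
    rw [mem_KD] at hv
    obtain ⟨h1, y, hy, hlt⟩ := hv
    have := h y (S.cout v (Or.inr h1) y hy)
    omega
  unfold kS
  rw [h1, card_empty]
  have : (0 : ℤ) ≤ ((fr c c' e Sd).card : ℤ) := Nat.cast_nonneg _
  push_cast
  omega

/-- killed sites are below excited near elements -/
lemma KD_mem (S : Sde c c' t V Sd) {v : P} (hv : v ∈ KD c' e V) :
    v ∈ V ∧ ∃ y ∈ Sd, t y = 1 ∧ v ∈ c y ∧ e v < e y := by
  rw [mem_KD] at hv
  obtain ⟨h1, y, hy, hlt⟩ := hv
  have h2 := S.cout v (Or.inr h1) y hy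
  have h3 := (S.dual y v).2 hy
  obtain ⟨-, h4⟩ := S.cin y h2 v h3
  have := S.tV v h1
  exact ⟨h1, y, h2, by omega, h3, hlt⟩

open Classical in
lemma mem_fr {z : P} : z ∈ fr c c' e Sd ↔ z ∈ Sd ∧ ¬ kd c' e z ∧ ¬ gu c e z := by
  unfold fr
  rw [mem_filter]

/-- TOUCHED: for energy at most four the excited near elements are touched -/
lemma Cf.touched (C : Cf c c' t t' V Sd Sd' e) (hE : ∑ x, e x ≤ 4) {x : P} (hx : x ∈ Sd)
    (ht : t x = 1) (he : 0 < e x) : ∃ z ∈ c' x, 0 < e z := by
  rcases C.core1 x hx ht he with h | ⟨y, hy, hty, hyx, hc, z, hz, hez⟩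
  · exact h
  exfalso
  have hyp : 0 < e y := pos_cov C.s2 C.adm2 hy hz hez
  have hzS : z ∈ Sd' := C.s2.cout y (Or.inl hy) z hz
  have hzt : t' z = t' y + 1 := (C.s2.cin z hzS y ((C.s2.dual z y).2 hz)).2
  have hsite : ∀ a ∈ c x, 1 ≤ e a := by
    intro a ha
    have haV := near_site C.s1 hx ht ha
    by_contra hlt
    have h1 : a ∈ KD c' e V := by
      rw [mem_KD]
      exact ⟨haV, x, (C.s1.dual x a).1 ha, by omega⟩
    have h2 : a ∈ KD c e V := by
      rw [mem_KD]
      rw [← hyx] at ha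
      exact ⟨haV, y, (C.s2.dual y a).1 ha, by omega⟩
    exact (disjoint_left.1 C.dis h1) h2
  have hcV : ∀ a ∈ c x, a ∈ V := fun a ha => near_site C.s1 hx ht ha
  have hxc : x ∉ c x := fun h => disjoint_left.1 C.d1 hx (hcV x h)
  have hyc : y ∉ c x := fun h => disjoint_left.1 C.d2 hy (hcV y h)
  have hzc : z ∉ c x := fun h => disjoint_left.1 C.d2 hzS (hcV z h)
  have hxy : x ≠ y := by
    rintro rfl
    exact disjoint_left.1 C.d3 hx hy
  have hxz : x ≠ z := by
    rintro rfl
    exact disjoint_left.1 C.d3 hx hzS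
  have hyz : y ≠ z := by
    rintro rfl
    omega
  have h5 : (insert x (insert y (insert z (c x)))).card ≤ ∑ x, e x := by
    apply card_le_energy
    intro a ha
    rw [mem_insert, mem_insert, mem_insert] at ha
    rcases ha with rfl | rfl | rfl | ha
    · exact he
    · exact hyp
    · exact hez
    · exact hsite a ha
  rw [card_insert_of_notMem, card_insert_of_notMem, card_insert_of_notMem, hc] at h5
  · omega
  · exact hzc
  · rw [mem_insert, not_or]; exact ⟨hyz, hyc⟩
  · rw [mem_insert, mem_insert, not_or, not_or]; exact ⟨hxy, hxz, hxc⟩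

/-- one excited near element: the surplus is at most one -/
lemma Cf.one (C : Cf c c' t t' V Sd Sd' e) (hE : ∑ x, e x ≤ 4) {x : P} (hx : x ∈ Sd)
    (ht : t x = 1) (he : 0 < e x) (huniq : ∀ y ∈ Sd, t y = 1 → 0 < e y → y = x) :
    kS c c' V Sd e ≤ 1 := by
  have h1 : KD c' e V ⊆ c x := by
    intro v hv
    obtain ⟨-, y, hy, hty, hvy, hlt⟩ := KD_mem C.s1 hv
    rw [huniq y hy hty (by omega)] at hvy
    exact hvy
  have h2 := card_le_card h1
  have h3 := C.s1.c2 x
  by_contra hcon
  unfold kS at hcon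
  have h4 : (KD c' e V).card = 2 := by
    have : (0 : ℤ) ≤ ((fr c c' e Sd).card : ℤ) := Nat.cast_nonneg _
    omega
  have h5 : fr c c' e Sd = ∅ := by
    rw [← card_eq_zero]
    omega
  have h6 : KD c' e V = c x := Finset.eq_of_subset_of_card_le h1 (by omega)
  have h7 : ¬ gu c e x := by
    rintro ⟨a, ha, hle⟩
    rw [← h6] at ha
    obtain ⟨-, y, hy, hty, hvy, hlt⟩ := KD_mem C.s1 ha
    rw [huniq y hy hty (by omega)] at hlt
    omega
  have h8 : kd c' e x := by
    by_contra h8
    have : x ∈ fr c c' e Sd := mem_fr.2 ⟨hx, h8, h7⟩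
    rw [h5] at this
    exact absurd this (notMem_empty _)
  obtain ⟨z, hz, hlt⟩ := h8
  have hzS : z ∈ Sd := C.s1.cout x (Or.inl hx) z hz
  have hzx : x ∈ c z := (C.s1.dual z x).2 hz
  have htz : t z = t x + 1 := (C.s1.cin z hzS x hzx).2
  have h9 : ¬ gu c e z := by
    rintro ⟨a, ha, hle⟩
    obtain ⟨haS, hta⟩ := far_cov C.s1 hzS (by omega) ha
    have hax : a = x := huniq a haS (by omega) (by omega)
    rw [hax] at hle
    omega
  have h10 : kd c' e z := by
    by_contra h10
    have : z ∈ fr c c' e Sd := mem_fr.2 ⟨hzS, h10, h9⟩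
    rw [h5] at this
    exact absurd this (notMem_empty _)
  obtain ⟨z2, hz2, hlt2⟩ := h10
  have hz2S : z2 ∈ Sd := C.s1.cout z (Or.inl hzS) z2 hz2
  have htz2 : t z2 = t z + 1 := (C.s1.cin z2 hz2S z ((C.s1.dual z2 z).2 hz2)).2
  have hne1 : x ≠ z := by rintro rfl; omega
  have hne2 : x ≠ z2 := by rintro rfl; omega
  have hne3 : z ≠ z2 := by rintro rfl; omega
  have h11 := sum_le_energy (e := e) ({x, z, z2} : Finset P)
  rw [sum_insert (by rw [mem_insert, mem_singleton, not_or]; exact ⟨hne1, hne2⟩),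
    sum_insert (by rw [mem_singleton]; exact hne3), sum_singleton] at h11
  omega

/-- covers of an element at distance two -/
lemma cov_two (S : Sde c c' t V Sd) (adm : ∀ z ∈ Sd, ¬ (kd c' e z ∧ gu c e z)) {z a : P}
    (hz : z ∈ Sd) (ht : t z = 2) (he : 0 < e z) (ha : a ∈ c z) : a ∈ Sd ∧ t a = 1 ∧ 0 < e a := by
  obtain ⟨h1, h2⟩ := far_cov S hz (by omega) ha
  exact ⟨h1, by omega, pos_cov S adm h1 ((S.dual z a).1 ha) he⟩

/-- a near element with label one without excited sites and without lower label two is free -/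
lemma fr_near {x : P} (hx : x ∈ Sd) (hk : ∀ z ∈ c' x, e z ≤ e x) (hs : ∀ a ∈ c x, e a < e x) : x ∈ fr c c' e Sd := by
  rw [mem_fr]
  refine ⟨hx, ?_, ?_⟩
  · rintro ⟨z, hz, hlt⟩
    have := hk z hz
    omega
  · rintro ⟨a, ha, hle⟩
    have := hs a ha
    omega

/-- one pendant on each side -/
lemma Cf.sides (C : Cf c c' t t' V Sd Sd' e) (hE : ∑ x, e x ≤ 4) {x u : P} (hx : x ∈ Sd)
    (htx : t x = 1) (hex : 0 < e x) (hu : u ∈ Sd') (htu : t' u = 1) (heu : 0 < e u)
    (hk : 1 < kS c c' V Sd e + kS c' c V Sd' e) :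
    PQ c c' t t' Sd Sd' e ∧ kS c c' V Sd e + kS c' c V Sd' e ≤ 2 := by
  obtain ⟨z, hz, hez⟩ := C.touched hE hx htx hex
  obtain ⟨w, hw, hew⟩ := C.symm.touched hE hu htu heu
  have hzS : z ∈ Sd := C.s1.cout x (Or.inl hx) z hz
  have hwS : w ∈ Sd' := C.s2.cout u (Or.inl hu) w hw
  have htz : t z = t x + 1 := (C.s1.cin z hzS x ((C.s1.dual z x).2 hz)).2
  have htw : t' w = t' u + 1 := (C.s2.cin w hwS u ((C.s2.dual w u).2 hw)).2
  have n1 : z ≠ x := by rintro rfl; omega
  have n2 : w ≠ u := by rintro rfl; omega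
  have n3 : ∀ {a b : P}, a ∈ Sd → b ∈ Sd' → a ≠ b := by
    rintro a b ha hb rfl
    exact disjoint_left.1 C.d3 ha hb
  have hsum : ∑ y ∈ ({z, x, w, u} : Finset P), e y = e z + (e x + (e w + e u)) := by
    rw [sum_insert, sum_insert, sum_insert, sum_singleton]
    · rw [mem_singleton]; exact n2
    · rw [mem_insert, mem_singleton, not_or]; exact ⟨n3 hx hwS, n3 hx hu⟩
    · rw [mem_insert, mem_insert, mem_singleton, not_or, not_or]
      exact ⟨n1, n3 hzS hwS, n3 hzS hu⟩
  have hle := sum_le_energy (e := e) ({z, x, w, u} : Finset P)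
  rw [hsum] at hle
  have g1 : e z = 1 := by omega
  have g2 : e x = 1 := by omega
  have g3 : e w = 1 := by omega
  have g4 : e u = 1 := by omega
  have hrest : ∀ y, y ∉ ({z, x, w, u} : Finset P) → e y = 0 := by
    intro y hy
    have := rest_le (e := e) hy
    rw [hsum] at this
    omega
  have hle1 : ∀ y, e y ≤ 1 := by
    intro y
    by_cases hy : y ∈ ({z, x, w, u} : Finset P)
    · rw [mem_insert, mem_insert, mem_insert, mem_singleton] at hy
      rcases hy with rfl | rfl | rfl | rfl <;> omega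
    · rw [hrest y hy]; omega
  have hsite : ∀ a ∈ V, e a = 0 := by
    intro a ha
    apply hrest
    rw [mem_insert, mem_insert, mem_insert, mem_singleton]
    rintro (rfl | rfl | rfl | rfl)
    · exact disjoint_left.1 C.d1 hzS ha
    · exact disjoint_left.1 C.d1 hx ha
    · exact disjoint_left.1 C.d2 hwS ha
    · exact disjoint_left.1 C.d2 hu ha
  have hux : ∀ y ∈ Sd, t y = 1 → 0 < e y → y = x := by
    intro y hy hty hey
    by_contra hne
    have : e y = 0 := by
      apply hrest
      rw [mem_insert, mem_insert, mem_insert, mem_singleton]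
      rintro (rfl | rfl | rfl | rfl)
      · omega
      · exact hne rfl
      · exact n3 hy hwS rfl
      · exact n3 hy hu rfl
    omega
  have huu : ∀ y ∈ Sd', t' y = 1 → 0 < e y → y = u := by
    intro y hy hty hey
    by_contra hne
    have : e y = 0 := by
      apply hrest
      rw [mem_insert, mem_insert, mem_insert, mem_singleton]
      rintro (rfl | rfl | rfl | rfl)
      · exact n3 hzS hy rfl
      · exact n3 hx hy rfl
      · omega
      · exact hne rfl
    omega
  have k1 := C.one hE hx htx hex hux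
  have k2 := C.symm.one hE hu htu heu huu
  have e1 : kS c c' V Sd e = 1 := by omega
  have e2 : kS c' c V Sd' e = 1 := by omega
  have f1 : x ∈ fr c c' e Sd := fr_near hx (fun y _ => by rw [g2]; exact hle1 y)
    (fun a ha => by rw [hsite a (near_site C.s1 hx htx ha)]; omega)
  have f2 : u ∈ fr c' c e Sd' := fr_near hu (fun y _ => by rw [g4]; exact hle1 y)
    (fun a ha => by rw [hsite a (near_site C.s2 hu htu ha)]; omega)
  have s1 : KD c' e V ⊆ c x := by
    intro v hv
    obtain ⟨-, y, hy, hty, hvy, hlt⟩ := KD_mem C.s1 hv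
    rw [hux y hy hty (by omega)] at hvy
    exact hvy
  have s2 : KD c e V ⊆ c' u := by
    intro v hv
    obtain ⟨-, y, hy, hty, hvy, hlt⟩ := KD_mem C.s2 hv
    rw [huu y hy hty (by omega)] at hvy
    exact hvy
  have p1 : 1 ≤ (fr c c' e Sd).card := card_pos.2 ⟨x, f1⟩
  have p2 : 1 ≤ (fr c' c e Sd').card := card_pos.2 ⟨u, f2⟩
  have q1 := card_le_card s1
  have q2 := card_le_card s2
  have r1 := C.s1.c2 x
  have r2 := C.s2.c2 u
  unfold kS at e1 e2
  have h1 : KD c' e V = c x := Finset.eq_of_subset_of_card_le s1 (by omega)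
  have h2 : KD c e V = c' u := Finset.eq_of_subset_of_card_le s2 (by omega)
  have c1 : c z = {x} := by
    obtain ⟨a, ha⟩ := C.s1.ne z hzS
    apply eq_singleton_iff_unique_mem.2
    refine ⟨(C.s1.dual z x).2 hz, fun b hb => ?_⟩
    obtain ⟨b1, b2, b3⟩ := cov_two C.s1 C.adm1 hzS (by omega) hez hb
    exact hux b b1 b2 b3
  have c2 : c' w = {u} := by
    apply eq_singleton_iff_unique_mem.2
    refine ⟨(C.s2.dual w u).2 hw, fun b hb => ?_⟩
    obtain ⟨b1, b2, b3⟩ := cov_two C.s2 C.adm2 hwS (by omega) hew hb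
    exact huu b b1 b2 b3
  refine ⟨⟨z, x, w, u, ⟨hzS, by omega, c1, by omega⟩, ⟨hwS, by omega, c2, by omega⟩, ?_, ?_⟩,
    by unfold kS; omega⟩
  · rw [← h1, ← h2]
    exact C.dis
  · intro y
    split_ifs with hy
    · rw [mem_insert, mem_insert, mem_insert, mem_singleton] at hy
      rcases hy with rfl | rfl | rfl | rfl <;> assumption
    · exact hrest y hy

/-- the union of the sites of two near elements below a common element has at most three elements -/
lemma union_three (S : Sde c c' t V Sd) (nq : NQ c t Sd e) {z x x' : P} (hz : z ∈ Sd)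
    (ht : t z = 2) (he : 0 < e z) (hx : x ∈ c z) (hx' : x' ∈ c z) : (c x ∪ c x').card ≤ 3 := by
  have h1 := card_union_add_card_inter (c x) (c x')
  have h2 := S.c2 x
  have h3 := S.c2 x'
  by_contra hcon
  have h4 := card_pos.2 (nq z hz ht he x hx x' hx' (by omega) (by omega))
  omega

/-- two excited near elements without common excited lower element -/
lemma Cf.apart (C : Cf c c' t t' V Sd Sd' e) (hE : ∑ x, e x ≤ 4) {x x' : P} (hx : x ∈ Sd)
    (htx : t x = 1) (hex : 0 < e x) (hx' : x' ∈ Sd) (htx' : t x' = 1) (hex' : 0 < e x')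
    (hne : x ≠ x') (hno : ∀ z ∈ Sd, t z = 2 → 0 < e z → x ∈ c z → x' ∉ c z) :
    kS c c' V Sd e ≤ 1 ∨ (kS c c' V Sd e ≤ 2 ∧ PP c t Sd e) := by
  obtain ⟨z, hz, hez⟩ := C.touched hE hx htx hex
  obtain ⟨w, hw, hew⟩ := C.touched hE hx' htx' hex'
  have hzS : z ∈ Sd := C.s1.cout x (Or.inl hx) z hz
  have hwS : w ∈ Sd := C.s1.cout x' (Or.inl hx') w hw
  have hzx : x ∈ c z := (C.s1.dual z x).2 hz
  have hwx : x' ∈ c w := (C.s1.dual w x').2 hw
  have htz : t z = t x + 1 := (C.s1.cin z hzS x hzx).2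
  have htw : t w = t x' + 1 := (C.s1.cin w hwS x' hwx).2
  have nzw : z ≠ w := by
    rintro rfl
    exact hno z hzS (by omega) hez hzx hwx
  have n1 : z ≠ x := by rintro rfl; omega
  have n2 : w ≠ x' := by rintro rfl; omega
  have n3 : z ≠ x' := by rintro rfl; omega
  have n4 : w ≠ x := by rintro rfl; omega
  have hsum : ∑ y ∈ ({z, x, w, x'} : Finset P), e y = e z + (e x + (e w + e x')) := by
    rw [sum_insert, sum_insert, sum_insert, sum_singleton]
    · rw [mem_singleton]; exact n2
    · rw [mem_insert, mem_singleton, not_or]; exact ⟨Ne.symm n4, hne⟩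
    · rw [mem_insert, mem_insert, mem_singleton, not_or, not_or]
      exact ⟨n1, nzw, n3⟩
  have hle := sum_le_energy (e := e) ({z, x, w, x'} : Finset P)
  rw [hsum] at hle
  have g1 : e z = 1 := by omega
  have g2 : e x = 1 := by omega
  have g3 : e w = 1 := by omega
  have g4 : e x' = 1 := by omega
  have hrest : ∀ y, y ∉ ({z, x, w, x'} : Finset P) → e y = 0 := by
    intro y hy
    have := rest_le (e := e) hy
    rw [hsum] at this
    omega
  have hle1 : ∀ y, e y ≤ 1 := by
    intro y
    by_cases hy : y ∈ ({z, x, w, x'} : Finset P)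
    · rw [mem_insert, mem_insert, mem_insert, mem_singleton] at hy
      rcases hy with rfl | rfl | rfl | rfl <;> omega
    · rw [hrest y hy]; omega
  have hsite : ∀ a ∈ V, e a = 0 := by
    intro a ha
    apply hrest
    rw [mem_insert, mem_insert, mem_insert, mem_singleton]
    rintro (rfl | rfl | rfl | rfl)
    · exact disjoint_left.1 C.d1 hzS ha
    · exact disjoint_left.1 C.d1 hx ha
    · exact disjoint_left.1 C.d1 hwS ha
    · exact disjoint_left.1 C.d1 hx' ha
  have hux : ∀ y ∈ Sd, t y = 1 → 0 < e y → y = x ∨ y = x' := by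
    intro y hy hty hey
    by_contra hcon
    rw [not_or] at hcon
    have : e y = 0 := by
      apply hrest
      rw [mem_insert, mem_insert, mem_insert, mem_singleton]
      rintro (rfl | rfl | rfl | rfl)
      · omega
      · exact hcon.1 rfl
      · omega
      · exact hcon.2 rfl
    omega
  have f1 : x ∈ fr c c' e Sd := fr_near hx (fun y _ => by rw [g2]; exact hle1 y)
    (fun a ha => by rw [hsite a (near_site C.s1 hx htx ha)]; omega)
  have f2 : x' ∈ fr c c' e Sd := fr_near hx' (fun y _ => by rw [g4]; exact hle1 y)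
    (fun a ha => by rw [hsite a (near_site C.s1 hx' htx' ha)]; omega)
  have s1 : KD c' e V ⊆ c x ∪ c x' := by
    intro v hv
    obtain ⟨-, y, hy, hty, hvy, hlt⟩ := KD_mem C.s1 hv
    rcases hux y hy hty (by omega) with rfl | rfl
    · exact mem_union_left _ hvy
    · exact mem_union_right _ hvy
  have p1 : 2 ≤ (fr c c' e Sd).card := by
    rw [← card_pair hne]
    apply card_le_card
    intro y hy
    rw [mem_insert, mem_singleton] at hy
    rcases hy with rfl | rfl
    · exact f1
    · exact f2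
  have q1 := card_le_card s1
  have r1 := C.s1.c2 x
  have r2 := C.s1.c2 x'
  have r3 := card_union_add_card_inter (c x) (c x')
  by_cases hk : kS c c' V Sd e ≤ 1
  · exact Or.inl hk
  right
  unfold kS at hk ⊢
  refine ⟨by omega, ?_⟩
  have c1 : c z = {x} := by
    apply eq_singleton_iff_unique_mem.2
    refine ⟨hzx, fun b hb => ?_⟩
    obtain ⟨b1, b2, b3⟩ := cov_two C.s1 C.adm1 hzS (by omega) hez hb
    rcases hux b b1 b2 b3 with rfl | rfl
    · rfl
    · exact absurd hb (hno z hzS (by omega) hez hzx)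
  have c2 : c w = {x'} := by
    apply eq_singleton_iff_unique_mem.2
    refine ⟨hwx, fun b hb => ?_⟩
    obtain ⟨b1, b2, b3⟩ := cov_two C.s1 C.adm1 hwS (by omega) hew hb
    rcases hux b b1 b2 b3 with rfl | rfl
    · exact absurd hwx (hno w hwS (by omega) hew hb)
    · rfl
  refine ⟨z, x, w, x', ⟨hzS, by omega, c1, by omega⟩, ⟨hwS, by omega, c2, by omega⟩, nzw, hne,
    ?_, ?_⟩
  · rw [disjoint_iff_inter_eq_empty, ← card_eq_zero]
    omega
  · intro y
    split_ifs with hy
    · rw [mem_insert, mem_insert, mem_insert, mem_singleton] at hy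
      rcases hy with rfl | rfl | rfl | rfl <;> assumption
    · exact hrest y hy

/-- two excited near elements below a common excited element -/
lemma Cf.join (C : Cf c c' t t' V Sd Sd' e) (hE : ∑ x, e x ≤ 4) (nq : NQ c t Sd e)
    {x x' z : P} (hx : x ∈ Sd)
    (htx : t x = 1) (hex : 0 < e x) (hx' : x' ∈ Sd) (htx' : t x' = 1) (hex' : 0 < e x')
    (hne : x ≠ x') (hzS : z ∈ Sd) (htz : t z = 2) (hez : 0 < e z) (hzx : x ∈ c z)
    (hzx' : x' ∈ c z) :
    kS c c' V Sd e ≤ 1 ∨ (kS c c' V Sd e ≤ 2 ∧ (A4 c t Sd e ∨ B4 c t Sd e)) := by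
  have hcz : c z = {x, x'} := by
    symm
    apply Finset.eq_of_subset_of_card_le
    · intro y hy
      rw [mem_insert, mem_singleton] at hy
      rcases hy with rfl | rfl
      · exact hzx
      · exact hzx'
    · rw [card_pair hne]; exact C.s1.c2 z
  have n1 : z ≠ x := by rintro rfl; omega
  have n3 : z ≠ x' := by rintro rfl; omega
  have hsum : ∑ y ∈ ({z, x, x'} : Finset P), e y = e z + (e x + e x') := by
    rw [sum_insert, sum_insert, sum_singleton]
    · rw [mem_singleton]; exact hne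
    · rw [mem_insert, mem_singleton, not_or]; exact ⟨n1, n3⟩
  have hle := sum_le_energy (e := e) ({z, x, x'} : Finset P)
  rw [hsum] at hle
  have hrest : ∀ y, y ∉ ({z, x, x'} : Finset P) → e y + (e z + (e x + e x')) ≤ 4 := by
    intro y hy
    have := rest_le (e := e) hy
    rw [hsum] at this
    omega
  have hrest2 : ∀ y y', y ∉ ({z, x, x'} : Finset P) → y' ∉ ({z, x, x'} : Finset P) → y ≠ y' →
      e y + e y' + (e z + (e x + e x')) ≤ 4 := by
    intro y y' hy hy' hyy
    have h1 := rest_le (e := e) (s := insert y' ({z, x, x'} : Finset P)) (w := y) (by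
      rw [mem_insert, not_or]; exact ⟨hyy, hy⟩)
    rw [sum_insert hy', hsum] at h1
    omega
  have hVn : ∀ a ∈ V, a ∉ ({z, x, x'} : Finset P) := by
    intro a ha
    rw [mem_insert, mem_insert, mem_singleton]
    rintro (rfl | rfl | rfl)
    · exact disjoint_left.1 C.d1 hzS ha
    · exact disjoint_left.1 C.d1 hx ha
    · exact disjoint_left.1 C.d1 hx' ha
  have hux : ∀ y ∈ Sd, t y = 1 → 0 < e y → y = x ∨ y = x' := by
    intro y hy hty hey
    by_contra hcon
    rw [not_or] at hcon
    obtain ⟨w, hw, hew⟩ := C.touched hE hy hty hey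
    have hwS : w ∈ Sd := C.s1.cout y (Or.inl hy) w hw
    have hwy : y ∈ c w := (C.s1.dual w y).2 hw
    have htw : t w = t y + 1 := (C.s1.cin w hwS y hwy).2
    have hyn : y ∉ ({z, x, x'} : Finset P) := by
      rw [mem_insert, mem_insert, mem_singleton]
      rintro (rfl | rfl | rfl)
      · omega
      · exact hcon.1 rfl
      · exact hcon.2 rfl
    have hwn : w ∉ ({z, x, x'} : Finset P) := by
      rw [mem_insert, mem_insert, mem_singleton]
      rintro (rfl | rfl | rfl)
      · rw [hcz, mem_insert, mem_singleton] at hwy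
        exact hwy.elim hcon.1 hcon.2
      · omega
      · omega
    have := hrest2 y w hyn hwn (by rintro rfl; omega)
    omega
  have s1 : KD c' e V ⊆ c x ∪ c x' := by
    intro v hv
    obtain ⟨-, y, hy, hty, hvy, hlt⟩ := KD_mem C.s1 hv
    rcases hux y hy hty (by omega) with rfl | rfl
    · exact mem_union_left _ hvy
    · exact mem_union_right _ hvy
  have q1 := card_le_card s1
  have r1 := C.s1.c2 x
  have r2 := C.s1.c2 x'
  have r3 := card_union_add_card_inter (c x) (c x')
  have r4 := union_three C.s1 nq hzS htz hez hzx hzx'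
  have hcV : ∀ a ∈ c x ∪ c x', a ∈ V := by
    intro a ha
    rcases mem_union.1 ha with ha | ha
    · exact near_site C.s1 hx htx ha
    · exact near_site C.s1 hx' htx' ha
  -- lower covers of `x`, `x'` other than `z`
  have hlow : ∀ y ∈ Sd, t y = 2 → y ≠ z → e y + (e z + (e x + e x')) ≤ 4 := by
    intro y hy hty hyz
    apply hrest
    rw [mem_insert, mem_insert, mem_singleton]
    rintro (rfl | rfl | rfl)
    · exact hyz rfl
    · omega
    · omega
  have htl : ∀ {a y : P}, a ∈ Sd → y ∈ c' a → y ∈ Sd ∧ t y = t a + 1 := by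
    intro a y ha hy
    have h1 := C.s1.cout a (Or.inl ha) y hy
    exact ⟨h1, (C.s1.cin y h1 a ((C.s1.dual y a).2 hy)).2⟩
  by_cases h2 : 2 ≤ e z
  · -- label two on `z`
    have g1 : e z = 2 := by omega
    have g2 : e x = 1 := by omega
    have g3 : e x' = 1 := by omega
    have hz0 : ∀ y, y ∉ ({z, x, x'} : Finset P) → e y = 0 := by
      intro y hy
      have := hrest y hy
      omega
    have f1 : z ∈ fr c c' e Sd := by
      rw [mem_fr]
      refine ⟨hzS, ?_, ?_⟩
      · rintro ⟨y, hy, hlt⟩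
        obtain ⟨h3, h4⟩ := htl hzS hy
        have : e y = 0 := by
          apply hz0
          rw [mem_insert, mem_insert, mem_singleton]
          rintro (rfl | rfl | rfl) <;> omega
        omega
      · rintro ⟨a, ha, hle'⟩
        rw [hcz, mem_insert, mem_singleton] at ha
        rcases ha with rfl | rfl <;> omega
    have p1 : 1 ≤ (fr c c' e Sd).card := card_pos.2 ⟨z, f1⟩
    by_cases hk : kS c c' V Sd e ≤ 1
    · exact Or.inl hk
    right
    unfold kS at hk ⊢
    refine ⟨by omega, Or.inl ⟨z, x, x', hzS, htz, hcz, hne, by omega, ?_⟩⟩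
    intro y
    split_ifs with h3 h4
    · rw [h3, g1]
    · rcases h4 with rfl | rfl <;> assumption
    · apply hz0
      rw [mem_insert, mem_insert, mem_singleton]
      rintro (h5 | h5 | h5)
      · exact h3 h5
      · exact h4 (Or.inl h5)
      · exact h4 (Or.inr h5)
  · have g1 : e z = 1 := by omega
    -- if the sites of `x` have smaller labels, `x` is free
    have hfx : (∀ a ∈ c x, e a < e x) → x ∈ fr c c' e Sd := by
      intro h
      refine fr_near hx (fun y hy => ?_) h
      obtain ⟨h3, h4⟩ := htl hx hy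
      by_cases hyz : y = z
      · rw [hyz]; omega
      · have := hlow y h3 (by omega) hyz
        omega
    have hfx' : (∀ a ∈ c x', e a < e x') → x' ∈ fr c c' e Sd := by
      intro h
      refine fr_near hx' (fun y hy => ?_) h
      obtain ⟨h3, h4⟩ := htl hx' hy
      by_cases hyz : y = z
      · rw [hyz]; omega
      · have := hlow y h3 (by omega) hyz
        omega
    have htwo : x ∈ fr c c' e Sd → x' ∈ fr c c' e Sd → 2 ≤ (fr c c' e Sd).card := by
      intro f1 f2
      rw [← card_pair hne]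
      apply card_le_card
      intro y hy
      rw [mem_insert, mem_singleton] at hy
      rcases hy with rfl | rfl
      · exact f1
      · exact f2
    by_cases h3 : ∀ a ∈ c x ∪ c x', e a = 0
    · left
      have p1 := htwo (hfx fun a ha => by rw [h3 a (mem_union_left _ ha)]; exact hex)
        (hfx' fun a ha => by rw [h3 a (mem_union_right _ ha)]; exact hex')
      unfold kS
      omega
    · push Not at h3
      obtain ⟨s, hs, hes⟩ := h3
      have hsV := hcV s hs
      have hsn := hVn s hsV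
      have h4 := hrest s hsn
      have g2 : e x = 1 := by omega
      have g3 : e x' = 1 := by omega
      have g4 : e s = 1 := by omega
      have hz0 : ∀ y, y ∉ ({z, x, x'} : Finset P) → y ≠ s → e y = 0 := by
        intro y hy hys
        have := hrest2 y s hy hsn hys
        omega
      have s2 : KD c' e V ⊆ (c x ∪ c x').erase s := by
        intro v hv
        rw [mem_erase]
        refine ⟨?_, s1 hv⟩
        rintro rfl
        obtain ⟨-, y, hy, hty, hvy, hlt⟩ := KD_mem C.s1 hv
        rcases hux y hy hty (by omega) with rfl | rfl <;> omega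
      have q2 := card_le_card s2
      rw [card_erase_of_mem hs] at q2
      have hpos : 1 ≤ (c x ∪ c x').card := card_pos.2 ⟨s, hs⟩
      by_cases k1 : s ∈ c x
      · by_cases k2 : s ∈ c x'
        · by_cases hk : kS c c' V Sd e ≤ 1
          · exact Or.inl hk
          right
          unfold kS at hk ⊢
          refine ⟨by omega, Or.inr ⟨z, x, x', s, ?_, ?_⟩⟩
          · have h5 : (1 : ℕ) ≤ (c x ∩ c x').card := card_pos.2 ⟨s, mem_inter.2 ⟨k1, k2⟩⟩
            have h6 : (c x ∩ c x').card = 1 := by omega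
            refine ⟨hzS, htz, hcz, hne, by omega, by omega, k1, k2, fun v hv hv' => ?_⟩
            obtain ⟨a, ha⟩ := card_eq_one.1 h6
            have h7 : s ∈ c x ∩ c x' := mem_inter.2 ⟨k1, k2⟩
            have h8 : v ∈ c x ∩ c x' := mem_inter.2 ⟨hv, hv'⟩
            rw [ha, mem_singleton] at h7 h8
            rw [h7, h8]
          · intro y
            split_ifs with hy
            · rw [mem_insert, mem_insert, mem_insert, mem_singleton] at hy
              rcases hy with rfl | rfl | rfl | rfl <;> assumption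
            · rw [mem_insert, mem_insert, mem_insert, mem_singleton] at hy
              push Not at hy
              apply hz0 y _ hy.2.2.2
              rw [mem_insert, mem_insert, mem_singleton]
              rintro (h5 | h5 | h5)
              · exact hy.1 h5
              · exact hy.2.1 h5
              · exact hy.2.2.1 h5
        · left
          have f2 := hfx' fun a ha => by
            rw [hz0 a (hVn a (hcV a (mem_union_right _ ha))) (by rintro rfl; exact k2 ha)]
            exact hex'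
          have p1 : 1 ≤ (fr c c' e Sd).card := card_pos.2 ⟨x', f2⟩
          unfold kS
          omega
      · left
        have f2 := hfx fun a ha => by
          rw [hz0 a (hVn a (hcV a (mem_union_left _ ha))) (by rintro rfl; exact k1 ha)]
          exact hex
        have p1 : 1 ≤ (fr c c' e Sd).card := card_pos.2 ⟨x, f2⟩
        unfold kS
        omega

/-- one excited side -/
lemma Cf.lone (C : Cf c c' t t' V Sd Sd' e) (hE : ∑ x, e x ≤ 4) (nq : NQ c t Sd e) :
    kS c c' V Sd e ≤ 1 ∨
      (kS c c' V Sd e ≤ 2 ∧ (PP c t Sd e ∨ A4 c t Sd e ∨ B4 c t Sd e)) := by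
  by_cases h : ∀ x ∈ Sd, t x = 1 → e x = 0
  · left
    have := kS_zero C.s1 (side_zero C.s1 C.adm1 h)
    omega
  push Not at h
  obtain ⟨x, hx, htx, hex⟩ := h
  by_cases h1 : ∀ y ∈ Sd, t y = 1 → 0 < e y → y = x
  · exact Or.inl (C.one hE hx htx (by omega) h1)
  push Not at h1
  obtain ⟨x', hx', htx', hex', hne⟩ := h1
  by_cases h2 : ∀ z ∈ Sd, t z = 2 → 0 < e z → x ∈ c z → x' ∉ c z
  · rcases C.apart hE hx htx (by omega) hx' htx' hex' hne.symm h2 with h3 | ⟨h3, h4⟩
    · exact Or.inl h3
    · exact Or.inr ⟨h3, Or.inl h4⟩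
  · push Not at h2
    obtain ⟨z, hz, htz, hez, k1, k2⟩ := h2
    rcases C.join hE nq hx htx (by omega) hx' htx' hex' hne.symm hz htz hez k1 k2 with
      h3 | ⟨h3, h4⟩
    · exact Or.inl h3
    · exact Or.inr ⟨h3, Or.inr h4⟩

/-- CLASSIFICATION, energy at most four -/
theorem Cf.classify (C : Cf c c' t t' V Sd Sd' e) (hE : ∑ x, e x ≤ 4) (nq : NQ c t Sd e)
    (nq' : NQ c' t' Sd' e) :
    kS c c' V Sd e + kS c' c V Sd' e ≤ 1 ∨ (kS c c' V Sd e + kS c' c V Sd' e ≤ 2 ∧
      (PP c t Sd e ∨ PP c' t' Sd' e ∨ PQ c c' t t' Sd Sd' e ∨ A4 c t Sd e ∨ A4 c' t' Sd' e ∨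
        B4 c t Sd e ∨ B4 c' t' Sd' e)) := by
  by_cases hk : kS c c' V Sd e + kS c' c V Sd' e ≤ 1
  · exact Or.inl hk
  right
  by_cases h1 : ∀ x ∈ Sd, t x = 1 → e x = 0
  · have k1 := kS_zero C.s1 (side_zero C.s1 C.adm1 h1)
    rcases C.symm.lone hE nq' with h2 | ⟨h2, h3⟩
    · omega
    · refine ⟨by omega, ?_⟩
      rcases h3 with h3 | h3 | h3
      · exact Or.inr (Or.inl h3)
      · exact Or.inr (Or.inr (Or.inr (Or.inr (Or.inl h3))))
      · exact Or.inr (Or.inr (Or.inr (Or.inr (Or.inr (Or.inr h3)))))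
  by_cases h1' : ∀ x ∈ Sd', t' x = 1 → e x = 0
  · have k1 := kS_zero C.s2 (side_zero C.s2 C.adm2 h1')
    rcases C.lone hE nq with h2 | ⟨h2, h3⟩
    · omega
    · refine ⟨by omega, ?_⟩
      rcases h3 with h3 | h3 | h3
      · exact Or.inl h3
      · exact Or.inr (Or.inr (Or.inr (Or.inl h3)))
      · exact Or.inr (Or.inr (Or.inr (Or.inr (Or.inr (Or.inl h3)))))
  push Not at h1 h1'
  obtain ⟨x, hx, htx, hex⟩ := h1
  obtain ⟨u, hu, htu, heu⟩ := h1'
  obtain ⟨h2, h3⟩ := C.sides hE hx htx (by omega) hu htu (by omega) (by omega)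
  exact ⟨h3, Or.inr (Or.inr (Or.inl h2))⟩

end Pool.Agent.GaussPoset.Win.W4
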