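import Pool.Agent.W_448w4_h10.KA
import Pool.Agent.W_448w4_h10.KB

/-!
MP_448cb3_co, G2, case B, window `j`: classification of the cores of energy at most four of a natural part.
helper10.
-/

namespace Pool.Agent.GaussPoset.Win.W4

set_option linter.unusedSectionVars false

open Finset
open Pool.Agent.GaussPoset.Win.SO (Sde Pen TD On kS tL tU sde_low sde_up kS_sum cheap_of PN vp mem_PN
  num_PN NumG con mem_con self_con con_two_low con_two_upp con_cls con_disj)
open Pool.Agent.GaussPoset.Win.I2 (kd gu kl kn kr so cc fr KK KD lS uS mem_lS mem_uS kd_dc kd_uc gu_uc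
  gu_dc adm_low adm_up KD_low KD_up fr_low fr_up)

universe u

variable {P : Type u} [Fintype P] [PartialOrder P] [DecidableEq P] {r i : ℕ}
variable {e f : P → ℕ} {psi : P → P} {C K : Finset P}

/-- a part with matched near doubles -/
structure Nat4 (r i : ℕ) (K : Finset P) (psi : P → P) (C : Finset P) : Prop where
  H : Gr P r
  hi : 1 ≤ i
  hi2 : i + 1 ≤ r
  hM : Mat P i K psi
  hC : Part (i + 1) C
  hK : ∀ x ∈ C, x ∉ K
  nq : ∀ w ∈ C, lev w = i + 2 → ∀ x ∈ uc w, ∀ x' ∈ uc w, (uc x).card = 2 → (uc x').card = 2 →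
    (uc x ∩ uc x').Nonempty
  nq' : ∀ w ∈ C, lev w + 2 = i → ∀ x ∈ dc w, ∀ x' ∈ dc w, (dc x).card = 2 → (dc x').card = 2 →
    (dc x ∩ dc x').Nonempty

lemma Nat4.part (Q : Nat4 r i K psi C) : Part i C :=
  ⟨fun h1 h2 => Q.hC.up h1 h2, fun h1 h2 h3 => Q.hC.dn h1 (by omega) h3⟩

lemma mem_of_pos (hs : Spt C e) {x : P} (h : 0 < e x) : x ∈ C := by
  by_contra hx
  have := hs x hx
  omega

/-- an excited near element of the part is touched or its partner is -/
lemma core_nearK (hc : IsCore i K psi e) {x : P} (hx : x ∈ near P i) (hK : x ∉ K) (he : 0 < e x) :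
    x ∈ Tch i e ∨ (x ∈ dbL P i ∪ dbU P i ∧ psi x ∈ Tch i e) := by
  by_contra h
  rw [not_or] at h
  have h1 : x ∈ Rst i K psi e := mem_Rst.2 ⟨hx, hK, h.1, h.2⟩
  have := hc x h1
  omega

/-- the abstract configuration of a core -/
theorem Nat4.cf (Q : Nat4 r i K psi C) (hc : IsCore i K psi e) (hs : Spt C e)
    (hA : AdmL i e) (hB : AdmU i e) (hd : Disjoint (AL i e) (AU i e)) :
    Cf uc dc (tL (P := P) i) (tU i) (lv P i) (lS P i) (uS P i) e where
  s1 := sde_low Q.H i
  s2 := sde_up Q.H (by have := Q.hi2; omega)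
  d1 := by
    rw [disjoint_left]
    intro x hx hx'
    rw [mem_lS] at hx
    rw [mem_lv] at hx'
    omega
  d2 := by
    rw [disjoint_left]
    intro x hx hx'
    rw [mem_uS] at hx
    rw [mem_lv] at hx'
    omega
  d3 := by
    rw [disjoint_left]
    intro x hx hx'
    rw [mem_lS] at hx
    rw [mem_uS] at hx'
    omega
  adm1 := adm_low hA
  adm2 := adm_up hB
  dis := by rw [KD_low, KD_up]; exact hd
  core1 := by
    classical
    intro x hx ht he
    rw [mem_lS] at hx
    unfold tL at ht
    have hl : lev x = i + 1 := by omega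
    have hn : x ∈ near P i := mem_near.2 (Or.inl hl)
    have hxK := Q.hK x (mem_of_pos hs he)
    rcases core_nearK hc hn hxK he with h | ⟨h1, h2⟩
    · left
      rw [mem_Tch] at h
      rcases h with ⟨-, z, hz, hz'⟩ | ⟨h3, -⟩
      · exact ⟨z, mem_dc.2 hz, hz'⟩
      · omega
    · right
      have hd : x ∈ dbL P i := by
        rcases mem_union.1 h1 with h1 | h1
        · exact h1
        · rw [mem_dbU] at h1; omega
      obtain ⟨g1, g2⟩ := Q.hM.low x hd hxK
      rw [mem_dbL] at hd
      rw [mem_dbU] at g1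
      refine ⟨psi x, mem_uS.2 (by omega), by unfold tU; omega, g2, hd.2, ?_⟩
      rw [mem_Tch] at h2
      rcases h2 with ⟨h3, -⟩ | ⟨-, z, hz, hz'⟩
      · omega
      · exact ⟨z, mem_uc.2 hz, hz'⟩
  core2 := by
    classical
    intro x hx ht he
    rw [mem_uS] at hx
    unfold tU at ht
    have hl : lev x + 1 = i := by omega
    have hn : x ∈ near P i := mem_near.2 (Or.inr hl)
    have hxK := Q.hK x (mem_of_pos hs he)
    rcases core_nearK hc hn hxK he with h | ⟨h1, h2⟩
    · left
      rw [mem_Tch] at h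
      rcases h with ⟨h3, -⟩ | ⟨-, z, hz, hz'⟩
      · omega
      · exact ⟨z, mem_uc.2 hz, hz'⟩
    · right
      have hd : x ∈ dbU P i := by
        rcases mem_union.1 h1 with h1 | h1
        · rw [mem_dbL] at h1; omega
        · exact h1
      obtain ⟨g1, g2⟩ := Q.hM.upp x hd hxK
      rw [mem_dbU] at hd
      rw [mem_dbL] at g1
      refine ⟨psi x, mem_lS.2 (by omega), by unfold tL; omega, g2, hd.2, ?_⟩
      rw [mem_Tch] at h2
      rcases h2 with ⟨-, z, hz, hz'⟩ | ⟨h3, -⟩
      · exact ⟨z, mem_dc.2 hz, hz'⟩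
      · omega

/-- the list of the cores with two deficits -/
def L4 (i : ℕ) (e : P → ℕ) : Prop :=
  PP uc (tL (P := P) i) (lS P i) e ∨ PP dc (tU (P := P) i) (uS P i) e ∨
    PQ uc dc (tL (P := P) i) (tU i) (lS P i) (uS P i) e ∨
    A4 uc (tL (P := P) i) (lS P i) e ∨ A4 dc (tU (P := P) i) (uS P i) e ∨
    B4 uc (tL (P := P) i) (lS P i) e ∨ B4 dc (tU (P := P) i) (uS P i) e

/-- CLASSIFICATION for a natural part -/
theorem Nat4.cls (Q : Nat4 r i K psi C) (hc : IsCore i K psi e) (hs : Spt C e)
    (hE : ∑ x, e x ≤ 4) : Cheap 1 i e ∨ (Cheap 2 i e ∧ L4 i e) := by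
  by_cases hA : AdmL i e
  swap
  · exact Or.inl (Or.inl hA)
  by_cases hB : AdmU i e
  swap
  · exact Or.inl (Or.inr (Or.inl hB))
  by_cases hd : Disjoint (AL i e) (AU i e)
  swap
  · exact Or.inl (Or.inr (Or.inr (Or.inl hd)))
  have nq1 : NQ uc (tL (P := P) i) (lS P i) e := by
    intro w hw ht he x hx x' hx' h1 h2
    rw [mem_lS] at hw
    unfold tL at ht
    exact Q.nq w (mem_of_pos hs he) (by omega) x hx x' hx' h1 h2
  have nq2 : NQ dc (tU (P := P) i) (uS P i) e := by
    intro w hw ht he x hx x' hx' h1 h2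
    rw [mem_uS] at hw
    unfold tU at ht
    exact Q.nq' w (mem_of_pos hs he) (by omega) x hx x' hx' h1 h2
  rcases (Q.cf hc hs hA hB hd).classify hE nq1 nq2 with h | ⟨h1, h2⟩
  · exact Or.inl (cheap_of (by exact_mod_cast h))
  · exact Or.inr ⟨cheap_of (by exact_mod_cast h1), h2⟩

/-! ### energies -/

lemma on_energy {s : Finset P} (h : On e s) : ∑ x, e x = s.card := by
  rw [sum_congr rfl fun x _ => h x, sum_ite_mem, univ_inter, sum_const, smul_eq_mul, mul_one]

lemma A4.energy {c : P → Finset P} {t : P → ℕ} {Sd : Finset P} (h : A4 c t Sd e)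
    (hz : ∀ z x, x ∈ c z → x ≠ z) : ∑ x, e x = 4 := by
  obtain ⟨z, x, x', h1, h2, h3, h4, h5, h6⟩ := h
  have n1 : x ≠ z := hz z x (by rw [h3]; simp)
  have n2 : x' ≠ z := hz z x' (by rw [h3]; simp)
  have h7 : ∀ y, e y = (if y = z then 2 else 0) + if y ∈ ({x, x'} : Finset P) then 1 else 0 := by
    intro y
    rw [h6 y]
    by_cases h8 : y = z
    · rw [if_pos h8, if_pos h8, if_neg]
      rw [mem_insert, mem_singleton, h8]
      rintro (h9 | h9)
      · exact n1 h9.symm
      · exact n2 h9.symm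
    · rw [if_neg h8, if_neg h8, zero_add]
      simp only [mem_insert, mem_singleton]
  rw [sum_congr rfl fun y _ => h7 y, sum_add_distrib, sum_ite_eq' univ z, if_pos (mem_univ _),
    sum_ite_mem, univ_inter, sum_const, card_pair h4]
  simp

/-- the energy of a configuration of the list is four -/
lemma L4.energy (H : Gr P r) (h : L4 i e) : ∑ x, e x = 4 := by
  have u1 : ∀ z x : P, x ∈ uc z → x ≠ z := by
    rintro z x hx rfl
    have := lev_uc H hx
    omega
  have u2 : ∀ z x : P, x ∈ dc z → x ≠ z := by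
    rintro z x hx rfl
    have := lev_dc H hx
    omega
  rcases h with h | h | h | h | h | h | h
  · obtain ⟨p, y, p', y', h1, h2, h3, h4, h5, h6⟩ := h
    obtain ⟨-, a1, a2, -⟩ := SO.pen_low H h1
    obtain ⟨-, b1, b2, -⟩ := SO.pen_low H h2
    rw [on_energy h6, card_insert_of_notMem, card_insert_of_notMem, card_pair]
    · rintro rfl; omega
    · rw [mem_insert, mem_singleton, not_or]
      exact ⟨by rintro rfl; omega, h4⟩
    · rw [mem_insert, mem_insert, mem_singleton, not_or, not_or]
      exact ⟨by rintro rfl; omega, h3, by rintro rfl; omega⟩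
  · obtain ⟨p, y, p', y', h1, h2, h3, h4, h5, h6⟩ := h
    obtain ⟨-, a1, a2, -⟩ := SO.pen_up H h1
    obtain ⟨-, b1, b2, -⟩ := SO.pen_up H h2
    rw [on_energy h6, card_insert_of_notMem, card_insert_of_notMem, card_pair]
    · rintro rfl; omega
    · rw [mem_insert, mem_singleton, not_or]
      exact ⟨by rintro rfl; omega, h4⟩
    · rw [mem_insert, mem_insert, mem_singleton, not_or, not_or]
      exact ⟨by rintro rfl; omega, h3, by rintro rfl; omega⟩
  · obtain ⟨p, y, p', y', h1, h2, h5, h6⟩ := h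
    obtain ⟨-, a1, a2, -⟩ := SO.pen_low H h1
    obtain ⟨-, b1, b2, -⟩ := SO.pen_up H h2
    rw [on_energy h6, card_insert_of_notMem, card_insert_of_notMem, card_pair]
    · rintro rfl; omega
    · rw [mem_insert, mem_singleton, not_or]
      exact ⟨by rintro rfl; omega, by rintro rfl; omega⟩
    · rw [mem_insert, mem_insert, mem_singleton, not_or, not_or]
      exact ⟨by rintro rfl; omega, by rintro rfl; omega, by rintro rfl; omega⟩
  · exact h.energy u1
  · exact h.energy u2
  · obtain ⟨w, x, x', s, T, h6⟩ := h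
    have a1 := T.lw
    obtain ⟨a2, a3⟩ := T.lx H
    have a4 := T.site H (mem_union_left _ T.sx)
    rw [on_energy h6, card_insert_of_notMem, card_insert_of_notMem, card_pair]
    · rintro rfl; omega
    · rw [mem_insert, mem_singleton, not_or]
      exact ⟨T.ne, by rintro rfl; omega⟩
    · rw [mem_insert, mem_insert, mem_singleton, not_or, not_or]
      exact ⟨by rintro rfl; omega, by rintro rfl; omega, by rintro rfl; omega⟩
  · obtain ⟨w, x, x', s, T, h6⟩ := h
    have a1 := T.lw'
    obtain ⟨a2, a3⟩ := T.lx' H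
    have a4 := T.site' H (mem_union_left _ T.sx)
    rw [on_energy h6, card_insert_of_notMem, card_insert_of_notMem, card_pair]
    · rintro rfl; omega
    · rw [mem_insert, mem_singleton, not_or]
      exact ⟨T.ne, by rintro rfl; omega⟩
    · rw [mem_insert, mem_insert, mem_singleton, not_or, not_or]
      exact ⟨by rintro rfl; omega, by rintro rfl; omega, by rintro rfl; omega⟩

/-- cores of energy at most three have at most one deficit -/
theorem Nat4.cheap1 (Q : Nat4 r i K psi C) (hc : IsCore i K psi e) (hs : Spt C e)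
    (hE : ∑ x, e x < 4) : Cheap 1 i e := by
  rcases Q.cls hc hs hE.le with h | ⟨-, h⟩
  · exact h
  · have := h.energy Q.H
    omega

end Pool.Agent.GaussPoset.Win.W4
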