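import Pool.Agent.W_448w4_h10.KC

/-!
MP_448cb3_co, G2, case B, window `j`: values of the cores of energy four of a natural part.  helper10.
-/

namespace Pool.Agent.GaussPoset.Win.W4

set_option linter.unusedSectionVars false

open Finset
open Pool.Agent.GaussPoset.Win.SO (Sde Pen TD On kS tL tU LowD UppD val_of)
open Pool.Agent.GaussPoset.Win.I2 (lS uS mem_lS mem_uS)

universe u

variable {P : Type u} [Fintype P] [PartialOrder P] [DecidableEq P] {r i : ℕ}
variable {e f : P → ℕ} {psi : P → P} {C K : Finset P}

/-- labels `z = 2`, `x = x' = 1` below the window -/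
lemma lowA (H : Gr P r) {z x x' : P} (hz : lev z = i + 2) (hc : uc z = {x, x'})
    (he : ∀ y, e y = if y = z then 2 else if y = x ∨ y = x' then 1 else 0) :
    LowD i e {x, x'} {z} (uc x ∪ uc x') := by
  have lx : lev x = i + 1 := by
    have := lev_uc H (x := z) (v := x) (by rw [hc]; simp)
    omega
  have lx' : lev x' = i + 1 := by
    have := lev_uc H (x := z) (v := x') (by rw [hc]; simp)
    omega
  have hzx : z ⋖ x := by rw [← mem_uc, hc]; simp
  have hzx' : z ⋖ x' := by rw [← mem_uc, hc]; simp
  have ez : e z = 2 := by rw [he z, if_pos rfl]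
  have ex : e x = 1 := by
    rw [he x, if_neg (by rintro rfl; omega), if_pos (Or.inl rfl)]
  have ex' : e x' = 1 := by
    rw [he x', if_neg (by rintro rfl; omega), if_pos (Or.inr rfl)]
  have h0 : ∀ y, y ≠ z → y ≠ x → y ≠ x' → e y = 0 := by
    intro y h1 h2 h3
    rw [he y, if_neg h1, if_neg]
    rintro (h | h)
    · exact h2 h
    · exact h3 h
  have hsite : ∀ v, lev v = i → e v = 0 := by
    intro v hv
    refine h0 v ?_ ?_ ?_ <;> rintro rfl <;> omega
  refine ⟨?_, ?_, ?_, ?_, ?_, ?_⟩
  · intro v hv
    rw [mem_insert, mem_singleton]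
    constructor
    · rintro ⟨y, hy, hlt⟩
      have hl := lev_cov H hy
      by_cases h1 : y = z
      · subst h1
        rw [← mem_uc, hc, mem_insert, mem_singleton] at hy
        exact hy
      by_cases h2 : y = x
      · subst h2; omega
      by_cases h3 : y = x'
      · subst h3; omega
      · rw [h0 y h1 h2 h3] at hlt
        omega
    · rintro (rfl | rfl)
      · exact ⟨z, hzx, by omega⟩
      · exact ⟨z, hzx', by omega⟩
  · intro v hv
    rw [mem_union]
    constructor
    · rintro ⟨y, hy, hlt⟩
      have hl := lev_cov H hy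
      by_cases h1 : y = z
      · subst h1; omega
      by_cases h2 : y = x
      · subst h2; exact Or.inl (mem_uc.2 hy)
      by_cases h3 : y = x'
      · subst h3; exact Or.inr (mem_uc.2 hy)
      · rw [h0 y h1 h2 h3] at hlt
        omega
    · rintro (h | h)
      · exact ⟨x, mem_uc.1 h, by rw [hsite v hv]; omega⟩
      · exact ⟨x', mem_uc.1 h, by rw [hsite v hv]; omega⟩
  · intro v hv
    rw [mem_insert, mem_singleton, mem_singleton]
    constructor
    · rintro ⟨y, hy, hle⟩
      have hl := lev_cov H hy
      refine ⟨?_, ?_⟩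
      · rintro (rfl | rfl)
        · rw [hsite y (by omega)] at hle; omega
        · rw [hsite y (by omega)] at hle; omega
      · rintro rfl
        rw [← mem_uc, hc, mem_insert, mem_singleton] at hy
        rcases hy with rfl | rfl <;> omega
    · rintro ⟨h1, h2⟩
      push Not at h1
      obtain ⟨y, hy⟩ := uc_nonempty H (x := v) (by omega)
      refine ⟨y, mem_uc.1 hy, ?_⟩
      rw [h0 v h2 h1.1 h1.2]
      exact Nat.zero_le _
  · intro v hv
    rw [mem_insert, mem_singleton] at hv
    rcases hv with rfl | rfl <;> omega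
  · intro v hv
    rw [mem_singleton] at hv
    subst hv
    refine ⟨by omega, ?_⟩
    rw [mem_insert, mem_singleton]
    rintro (rfl | rfl) <;> omega
  · intro v hv
    rcases mem_union.1 hv with h | h
    · have := lev_uc H h
      omega
    · have := lev_uc H h
      omega

/-- labels `z = 2`, `x = x' = 1` above the window -/
lemma uppA (H : Gr P r) (hir : i ≤ r) {z x x' : P} (hz : lev z + 2 = i) (hc : dc z = {x, x'})
    (he : ∀ y, e y = if y = z then 2 else if y = x ∨ y = x' then 1 else 0) :
    UppD i e {x, x'} {z} (dc x ∪ dc x') := by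
  have lx : lev x + 1 = i := by
    have := lev_dc H (x := z) (v := x) (by rw [hc]; simp)
    omega
  have lx' : lev x' + 1 = i := by
    have := lev_dc H (x := z) (v := x') (by rw [hc]; simp)
    omega
  have hzx : x ⋖ z := by rw [← mem_dc, hc]; simp
  have hzx' : x' ⋖ z := by rw [← mem_dc, hc]; simp
  have ez : e z = 2 := by rw [he z, if_pos rfl]
  have ex : e x = 1 := by
    rw [he x, if_neg (by rintro rfl; omega), if_pos (Or.inl rfl)]
  have ex' : e x' = 1 := by
    rw [he x', if_neg (by rintro rfl; omega), if_pos (Or.inr rfl)]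
  have h0 : ∀ y, y ≠ z → y ≠ x → y ≠ x' → e y = 0 := by
    intro y h1 h2 h3
    rw [he y, if_neg h1, if_neg]
    rintro (h | h)
    · exact h2 h
    · exact h3 h
  have hsite : ∀ v, lev v = i → e v = 0 := by
    intro v hv
    refine h0 v ?_ ?_ ?_ <;> rintro rfl <;> omega
  refine ⟨?_, ?_, ?_, ?_, ?_, ?_⟩
  · intro v hv
    rw [mem_insert, mem_singleton]
    constructor
    · rintro ⟨y, hy, hlt⟩
      have hl := lev_cov H hy
      by_cases h1 : y = z
      · subst h1
        rw [← mem_dc, hc, mem_insert, mem_singleton] at hy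
        exact hy
      by_cases h2 : y = x
      · subst h2; omega
      by_cases h3 : y = x'
      · subst h3; omega
      · rw [h0 y h1 h2 h3] at hlt
        omega
    · rintro (rfl | rfl)
      · exact ⟨z, hzx, by omega⟩
      · exact ⟨z, hzx', by omega⟩
  · intro v hv
    rw [mem_union]
    constructor
    · rintro ⟨y, hy, hlt⟩
      have hl := lev_cov H hy
      by_cases h1 : y = z
      · subst h1; omega
      by_cases h2 : y = x
      · subst h2; exact Or.inl (mem_dc.2 hy)
      by_cases h3 : y = x'
      · subst h3; exact Or.inr (mem_dc.2 hy)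
      · rw [h0 y h1 h2 h3] at hlt
        omega
    · rintro (h | h)
      · exact ⟨x, mem_dc.1 h, by rw [hsite v hv]; omega⟩
      · exact ⟨x', mem_dc.1 h, by rw [hsite v hv]; omega⟩
  · intro v hv
    rw [mem_insert, mem_singleton, mem_singleton]
    constructor
    · rintro ⟨y, hy, hle⟩
      have hl := lev_cov H hy
      refine ⟨?_, ?_⟩
      · rintro (rfl | rfl)
        · rw [hsite y (by omega)] at hle; omega
        · rw [hsite y (by omega)] at hle; omega
      · rintro rfl
        rw [← mem_dc, hc, mem_insert, mem_singleton] at hy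
        rcases hy with rfl | rfl <;> omega
    · rintro ⟨h1, h2⟩
      push Not at h1
      obtain ⟨y, hy⟩ := dc_nonempty H (x := v) (by omega)
      refine ⟨y, mem_dc.1 hy, ?_⟩
      rw [h0 v h2 h1.1 h1.2]
      exact Nat.zero_le _
  · intro v hv
    rw [mem_insert, mem_singleton] at hv
    rcases hv with rfl | rfl <;> omega
  · intro v hv
    rw [mem_singleton] at hv
    subst hv
    refine ⟨by omega, ?_⟩
    rw [mem_insert, mem_singleton]
    rintro (rfl | rfl) <;> omega
  · intro v hv
    rcases mem_union.1 hv with h | h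
    · have := lev_dc H h
      omega
    · have := lev_dc H h
      omega

/-- labels one on `z`, `x`, `x'` and the common site `s`, below the window -/
lemma lowB (H : Gr P r) {z x x' s : P} (T : TD uc (tL (P := P) i) (lS P i) z x x' s)
    (he : On e {z, x, x', s}) :
    LowD i e ∅ ∅ ((uc x ∪ uc x').erase s) := by
  have hz := T.lw
  obtain ⟨lx, lx'⟩ := T.lx H
  have ls := T.site H (mem_union_left _ T.sx)
  have hc := T.cw
  have hzx : z ⋖ x := by rw [← mem_uc, hc]; simp
  have hzx' : z ⋖ x' := by rw [← mem_uc, hc]; simp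
  have hxs : x ⋖ s := mem_uc.1 T.sx
  have hxs' : x' ⋖ s := mem_uc.1 T.sx'
  have ez : e z = 1 := by rw [he z, if_pos (by simp)]
  have ex : e x = 1 := by rw [he x, if_pos (by simp)]
  have ex' : e x' = 1 := by rw [he x', if_pos (by simp)]
  have es : e s = 1 := by rw [he s, if_pos (by simp)]
  have h0 : ∀ y, y ≠ z → y ≠ x → y ≠ x' → y ≠ s → e y = 0 := by
    intro y h1 h2 h3 h4
    rw [he y, if_neg]
    rw [mem_insert, mem_insert, mem_insert, mem_singleton]
    rintro (h | h | h | h)
    · exact h1 h
    · exact h2 h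
    · exact h3 h
    · exact h4 h
  have hle : ∀ y, e y ≤ 1 := by
    intro y
    rw [he y]
    split_ifs <;> omega
  have hsite : ∀ v, lev v = i → v ≠ s → e v = 0 := by
    intro v hv hvs
    refine h0 v ?_ ?_ ?_ hvs <;> rintro rfl <;> omega
  refine ⟨?_, ?_, ?_, ?_, ?_, ?_⟩
  · intro v hv
    constructor
    · rintro ⟨y, hy, hlt⟩
      exfalso
      have hl := lev_cov H hy
      have hy1 := hle y
      have hv0 : e v = 0 := by omega
      have hy2 : e y = 1 := by omega
      by_cases h1 : y = z
      · subst h1
        rw [← mem_uc, hc, mem_insert, mem_singleton] at hy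
        rcases hy with rfl | rfl <;> omega
      by_cases h2 : y = x
      · subst h2; omega
      by_cases h3 : y = x'
      · subst h3; omega
      by_cases h4 : y = s
      · subst h4; omega
      · rw [h0 y h1 h2 h3 h4] at hy2
        omega
    · intro h
      exact absurd h (notMem_empty _)
  · intro v hv
    rw [mem_erase, mem_union]
    constructor
    · rintro ⟨y, hy, hlt⟩
      have hl := lev_cov H hy
      have hy1 := hle y
      have hv0 : e v = 0 := by omega
      have hy2 : e y = 1 := by omega
      refine ⟨by rintro rfl; omega, ?_⟩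
      by_cases h1 : y = z
      · subst h1; omega
      by_cases h2 : y = x
      · subst h2; exact Or.inl (mem_uc.2 hy)
      by_cases h3 : y = x'
      · subst h3; exact Or.inr (mem_uc.2 hy)
      by_cases h4 : y = s
      · subst h4; omega
      · rw [h0 y h1 h2 h3 h4] at hy2
        omega
    · rintro ⟨hvs, h | h⟩
      · exact ⟨x, mem_uc.1 h, by rw [hsite v hv hvs]; omega⟩
      · exact ⟨x', mem_uc.1 h, by rw [hsite v hv hvs]; omega⟩
  · intro v hv
    constructor
    · intro _
      exact ⟨notMem_empty _, notMem_empty _⟩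
    · intro _
      by_cases h1 : v = z
      · subst h1; exact ⟨x, hzx, by omega⟩
      by_cases h2 : v = x
      · subst h2; exact ⟨s, hxs, by omega⟩
      by_cases h3 : v = x'
      · subst h3; exact ⟨s, hxs', by omega⟩
      · obtain ⟨y, hy⟩ := uc_nonempty H (x := v) (by omega)
        refine ⟨y, mem_uc.1 hy, ?_⟩
        rw [h0 v h1 h2 h3 (by rintro rfl; omega)]
        exact Nat.zero_le _
  · intro v hv
    exact absurd hv (notMem_empty _)
  · intro v hv
    exact absurd hv (notMem_empty _)
  · intro v hv
    exact T.site H (mem_of_mem_erase hv)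

/-- labels one on `z`, `x`, `x'` and the common site `s`, above the window -/
lemma uppB (H : Gr P r) (hir : i ≤ r) {z x x' s : P}
    (T : TD dc (tU (P := P) i) (uS P i) z x x' s) (he : On e {z, x, x', s}) :
    UppD i e ∅ ∅ ((dc x ∪ dc x').erase s) := by
  have hz := T.lw'
  obtain ⟨lx, lx'⟩ := T.lx' H
  have ls := T.site' H (mem_union_left _ T.sx)
  have hc := T.cw
  have hzx : x ⋖ z := by rw [← mem_dc, hc]; simp
  have hzx' : x' ⋖ z := by rw [← mem_dc, hc]; simp
  have hxs : s ⋖ x := mem_dc.1 T.sx
  have hxs' : s ⋖ x' := mem_dc.1 T.sx'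
  have ez : e z = 1 := by rw [he z, if_pos (by simp)]
  have ex : e x = 1 := by rw [he x, if_pos (by simp)]
  have ex' : e x' = 1 := by rw [he x', if_pos (by simp)]
  have es : e s = 1 := by rw [he s, if_pos (by simp)]
  have h0 : ∀ y, y ≠ z → y ≠ x → y ≠ x' → y ≠ s → e y = 0 := by
    intro y h1 h2 h3 h4
    rw [he y, if_neg]
    rw [mem_insert, mem_insert, mem_insert, mem_singleton]
    rintro (h | h | h | h)
    · exact h1 h
    · exact h2 h
    · exact h3 h
    · exact h4 h
  have hle : ∀ y, e y ≤ 1 := by
    intro y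
    rw [he y]
    split_ifs <;> omega
  have hsite : ∀ v, lev v = i → v ≠ s → e v = 0 := by
    intro v hv hvs
    refine h0 v ?_ ?_ ?_ hvs <;> rintro rfl <;> omega
  refine ⟨?_, ?_, ?_, ?_, ?_, ?_⟩
  · intro v hv
    constructor
    · rintro ⟨y, hy, hlt⟩
      exfalso
      have hl := lev_cov H hy
      have hy1 := hle y
      have hv0 : e v = 0 := by omega
      have hy2 : e y = 1 := by omega
      by_cases h1 : y = z
      · subst h1
        rw [← mem_dc, hc, mem_insert, mem_singleton] at hy
        rcases hy with rfl | rfl <;> omega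
      by_cases h2 : y = x
      · subst h2; omega
      by_cases h3 : y = x'
      · subst h3; omega
      by_cases h4 : y = s
      · subst h4; omega
      · rw [h0 y h1 h2 h3 h4] at hy2
        omega
    · intro h
      exact absurd h (notMem_empty _)
  · intro v hv
    rw [mem_erase, mem_union]
    constructor
    · rintro ⟨y, hy, hlt⟩
      have hl := lev_cov H hy
      have hy1 := hle y
      have hv0 : e v = 0 := by omega
      have hy2 : e y = 1 := by omega
      refine ⟨by rintro rfl; omega, ?_⟩
      by_cases h1 : y = z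
      · subst h1; omega
      by_cases h2 : y = x
      · subst h2; exact Or.inl (mem_dc.2 hy)
      by_cases h3 : y = x'
      · subst h3; exact Or.inr (mem_dc.2 hy)
      by_cases h4 : y = s
      · subst h4; omega
      · rw [h0 y h1 h2 h3 h4] at hy2
        omega
    · rintro ⟨hvs, h | h⟩
      · exact ⟨x, mem_dc.1 h, by rw [hsite v hv hvs]; omega⟩
      · exact ⟨x', mem_dc.1 h, by rw [hsite v hv hvs]; omega⟩
  · intro v hv
    constructor
    · intro _
      exact ⟨notMem_empty _, notMem_empty _⟩
    · intro _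
      by_cases h1 : v = z
      · subst h1; exact ⟨x, hzx, by omega⟩
      by_cases h2 : v = x
      · subst h2; exact ⟨s, hxs, by omega⟩
      by_cases h3 : v = x'
      · subst h3; exact ⟨s, hxs', by omega⟩
      · obtain ⟨y, hy⟩ := dc_nonempty H (x := v) (by omega)
        refine ⟨y, mem_dc.1 hy, ?_⟩
        rw [h0 v h1 h2 h3 (by rintro rfl; omega)]
        exact Nat.zero_le _
  · intro v hv
    exact absurd hv (notMem_empty _)
  · intro v hv
    exact absurd hv (notMem_empty _)
  · intro v hv
    exact T.site' H (mem_of_mem_erase hv)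

/-- value of `A4` below the window -/
theorem A4_val (H : Gr P r) (hir : i ≤ r) (hC : Part (i + 1) C) (hs : Spt C e)
    (h : A4 uc (tL (P := P) i) (lS P i) e) :
    AdmL i e ∧ AdmU i e ∧ Disjoint (AL i e) (AU i e) ∧
      PowerSeries.coeff (st i C).card (dd ^ 2 * tC i C e : A) = -1 := by
  obtain ⟨z, x, x', h1, h2, h3, h4, h5, h6⟩ := h
  have hz : lev z = i + 2 := by
    rw [mem_lS] at h1
    unfold tL at h2
    omega
  have lx : lev x = i + 1 := by
    have := lev_uc H (x := z) (v := x) (by rw [h3]; simp)
    omega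
  have lx' : lev x' = i + 1 := by
    have := lev_uc H (x := z) (v := x') (by rw [h3]; simp)
    omega
  have D := lowA H hz h3 h6
  have D' : UppD i e (∅ : Finset P) ∅ ∅ := SO.upp_none H hir fun y hy => by
    rw [h6 y, if_neg (by rintro rfl; omega), if_neg]
    rintro (rfl | rfl) <;> omega
  obtain ⟨g1, g2, g3, -, g5⟩ := val_of H hC hs D D' (disjoint_empty_right _) (by
    rw [h5, card_empty, card_singleton])
  refine ⟨g1, g2, g3, ?_⟩
  rw [g5, card_pair h4, h5, card_empty]
  norm_num

/-- value of `A4` above the window -/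
theorem A4_val' (H : Gr P r) (hir : i ≤ r) (hC : Part (i + 1) C) (hs : Spt C e)
    (h : A4 dc (tU (P := P) i) (uS P i) e) :
    AdmL i e ∧ AdmU i e ∧ Disjoint (AL i e) (AU i e) ∧
      PowerSeries.coeff (st i C).card (dd ^ 2 * tC i C e : A) = -1 := by
  obtain ⟨z, x, x', h1, h2, h3, h4, h5, h6⟩ := h
  have hz : lev z + 2 = i := by
    rw [mem_uS] at h1
    unfold tU at h2
    omega
  have lx : lev x + 1 = i := by
    have := lev_dc H (x := z) (v := x) (by rw [h3]; simp)
    omega
  have lx' : lev x' + 1 = i := by
    have := lev_dc H (x := z) (v := x') (by rw [h3]; simp)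
    omega
  have D' := uppA H hir hz h3 h6
  have D : LowD i e (∅ : Finset P) ∅ ∅ := SO.low_none H fun y hy => by
    rw [h6 y, if_neg (by rintro rfl; omega), if_neg]
    rintro (rfl | rfl) <;> omega
  obtain ⟨g1, g2, g3, -, g5⟩ := val_of H hC hs D D' (disjoint_empty_left _) (by
    rw [h5, card_empty, card_singleton])
  refine ⟨g1, g2, g3, ?_⟩
  rw [g5, card_pair h4, card_singleton, card_empty]
  norm_num

/-- value of `B4` below the window -/
theorem B4_val (H : Gr P r) (hir : i ≤ r) (hC : Part (i + 1) C) (hs : Spt C e)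
    (h : B4 uc (tL (P := P) i) (lS P i) e) :
    AdmL i e ∧ AdmU i e ∧ Disjoint (AL i e) (AU i e) ∧
      PowerSeries.coeff (st i C).card (dd ^ 2 * tC i C e : A) = 1 := by
  obtain ⟨z, x, x', s, T, h6⟩ := h
  have hz := T.lw
  obtain ⟨lx, lx'⟩ := T.lx H
  have ls := T.site H (mem_union_left _ T.sx)
  have D := lowB H T h6
  have D' : UppD i e (∅ : Finset P) ∅ ∅ := SO.upp_none H hir fun y hy => by
    rw [h6 y, if_neg]
    rw [mem_insert, mem_insert, mem_insert, mem_singleton]
    rintro (rfl | rfl | rfl | rfl) <;> omega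
  have h5 := T.three
  have h7 : ((uc x ∪ uc x').erase s).card = 2 := by
    rw [card_erase_of_mem (mem_union_left _ T.sx), h5]
  obtain ⟨g1, g2, g3, -, g5⟩ := val_of H hC hs D D' (disjoint_empty_right _) (by
    rw [h7, card_empty])
  refine ⟨g1, g2, g3, ?_⟩
  rw [g5, h7, card_empty]
  norm_num

/-- value of `B4` above the window -/
theorem B4_val' (H : Gr P r) (hir : i ≤ r) (hC : Part (i + 1) C) (hs : Spt C e)
    (h : B4 dc (tU (P := P) i) (uS P i) e) :
    AdmL i e ∧ AdmU i e ∧ Disjoint (AL i e) (AU i e) ∧
      PowerSeries.coeff (st i C).card (dd ^ 2 * tC i C e : A) = 1 := by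
  obtain ⟨z, x, x', s, T, h6⟩ := h
  have hz := T.lw'
  obtain ⟨lx, lx'⟩ := T.lx' H
  have ls := T.site' H (mem_union_left _ T.sx)
  have D' := uppB H hir T h6
  have D : LowD i e (∅ : Finset P) ∅ ∅ := SO.low_none H fun y hy => by
    rw [h6 y, if_neg]
    rw [mem_insert, mem_insert, mem_insert, mem_singleton]
    rintro (rfl | rfl | rfl | rfl) <;> omega
  have h5 := T.three
  have h7 : ((dc x ∪ dc x').erase s).card = 2 := by
    rw [card_erase_of_mem (mem_union_left _ T.sx), h5]
  obtain ⟨g1, g2, g3, -, g5⟩ := val_of H hC hs D D' (disjoint_empty_left _) (by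
    rw [h7, card_empty])
  refine ⟨g1, g2, g3, ?_⟩
  rw [g5, card_empty]
  norm_num

end Pool.Agent.GaussPoset.Win.W4
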