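import Pool.Agent.W_448w4_h10.KD

/-!
MP_448cb3_co, G2, case B, window `j`: index sets for the cores of energy four of a natural part.  helper10.
-/

namespace Pool.Agent.GaussPoset.Win.W4

set_option linter.unusedSectionVars false

open Finset
open Pool.Agent.GaussPoset.Win.SO (Sde Pen TD On kS tL tU LowD UppD val_of PN vp mem_PN num_PN NumG con
  mem_con self_con con_two_low con_two_upp con_cls con_disj on con_sub on_inj Mn Mn_biUnion sit_PD
  sit_PU con_PD con_PU PD_data PU_data pair_gen)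
open Pool.Agent.GaussPoset.Win.I2 (lS uS mem_lS mem_uS)

universe u

variable {P : Type u} [Fintype P] [PartialOrder P] [DecidableEq P] {r i : ℕ}
variable {e f : P → ℕ} {psi : P → P} {C K : Finset P}

open Classical in
/-- ordered pairs of pendants with disjoint sites -/
noncomputable def P4 (i : ℕ) (C : Finset P) : Finset (P × P) :=
  (PN i C ×ˢ PN i C).filter (fun q => Disjoint (sit i q.1) (sit i q.2))

/-- the configuration of a pair of pendants -/
noncomputable def c4 (i : ℕ) (q : P × P) : P → ℕ := on (con i q.1 ∪ con i q.2)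

/-- elements at distance two with three sites -/
noncomputable def Z4 (i : ℕ) (C : Finset P) : Finset P := ZL i C ∪ ZU i C

open Classical in
/-- the configuration of type A -/
noncomputable def cA (i : ℕ) (z : P) : P → ℕ :=
  fun y => if y = z then 2 else if y ∈ con i z then 1 else 0

open Classical in
/-- the common sites of the covers of `z` -/
noncomputable def cS (i : ℕ) (z : P) : Finset P :=
  univ.filter (fun v => lev v = i ∧ (i < lev z → ∀ x ∈ uc z, v ∈ uc x) ∧
    (lev z < i → ∀ x ∈ dc z, v ∈ dc x))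

open Classical in
/-- the T-elements -/
noncomputable def T4 (i : ℕ) (C : Finset P) : Finset P :=
  (ZL i C).filter (fun z => ∀ x ∈ uc z, (uc x).card = 2) ∪
    (ZU i C).filter (fun z => ∀ x ∈ dc z, (dc x).card = 2)

/-- the configuration of type B -/
noncomputable def cB (i : ℕ) (z : P) : P → ℕ := on (con i z ∪ cS i z)

lemma mem_P4 {q : P × P} : q ∈ P4 i C ↔ q.1 ∈ PN i C ∧ q.2 ∈ PN i C ∧
    Disjoint (sit i q.1) (sit i q.2) := by
  classical
  unfold P4
  simp only [mem_filter, mem_product, and_assoc]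

lemma mem_Z4 {z : P} : z ∈ Z4 i C ↔ z ∈ ZL i C ∨ z ∈ ZU i C := by
  unfold Z4; rw [mem_union]

lemma mem_cS {z v : P} : v ∈ cS i z ↔ lev v = i ∧ (i < lev z → ∀ x ∈ uc z, v ∈ uc x) ∧
    (lev z < i → ∀ x ∈ dc z, v ∈ dc x) := by
  classical
  unfold cS
  simp only [mem_filter, mem_univ, true_and]

lemma mem_T4 {z : P} : z ∈ T4 i C ↔ (z ∈ ZL i C ∧ ∀ x ∈ uc z, (uc x).card = 2) ∨
    (z ∈ ZU i C ∧ ∀ x ∈ dc z, (dc x).card = 2) := by
  classical
  unfold T4
  rw [mem_union, mem_filter, mem_filter]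

lemma T4_sub {z : P} (h : z ∈ T4 i C) : z ∈ Z4 i C := by
  rw [mem_Z4]
  rcases mem_T4.1 h with h | h
  · exact Or.inl h.1
  · exact Or.inr h.1

/-! ### the number of sites -/

lemma up_two (H : Gr P r) {z x x' : P} (hz : lev z = i + 2) (hc : uc z = {x, x'}) :
    up i z = (uc x ∪ uc x').card := by
  rw [← card_sts]
  congr 1
  ext v
  rw [mem_sts_iff H hz, hc, mem_union]
  simp

lemma dn_two (H : Gr P r) {z x x' : P} (hz : lev z + 2 = i) (hc : dc z = {x, x'}) :
    dn i z = (dc x ∪ dc x').card := by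
  rw [← card_stD]
  congr 1
  ext v
  rw [mem_stD_iff H hz, hc, mem_union]
  simp

/-! ### configurations of type A -/

lemma cA_low (H : Gr P r) {z x x' : P} (hz : lev z = i + 2) (hc : uc z = {x, x'}) (y : P) :
    cA i z y = if y = z then 2 else if y = x ∨ y = x' then 1 else 0 := by
  unfold cA
  rw [con_two_low H hz, hc]
  by_cases h1 : y = z
  · rw [if_pos h1, if_pos h1]
  · rw [if_neg h1, if_neg h1]
    simp only [mem_insert, mem_singleton, h1, false_or]

lemma cA_upp (H : Gr P r) {z x x' : P} (hz : lev z + 2 = i) (hc : dc z = {x, x'}) (y : P) :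
    cA i z y = if y = z then 2 else if y = x ∨ y = x' then 1 else 0 := by
  unfold cA
  rw [con_two_upp H hz, hc]
  by_cases h1 : y = z
  · rw [if_pos h1, if_pos h1]
  · rw [if_neg h1, if_neg h1]
    simp only [mem_insert, mem_singleton, h1, false_or]

lemma A4_index (H : Gr P r) (hs : Spt C e) (h : A4 uc (tL (P := P) i) (lS P i) e) :
    ∃ z ∈ Z4 i C, cA i z = e := by
  obtain ⟨z, x, x', h1, h2, h3, h4, h5, h6⟩ := h
  have hz : lev z = i + 2 := by
    rw [mem_lS] at h1
    unfold tL at h2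
    omega
  refine ⟨z, mem_Z4.2 (Or.inl (mem_ZL.2 ⟨?_, hz, ?_⟩)), ?_⟩
  · exact mem_of_pos hs (by rw [h6 z, if_pos rfl]; omega)
  · rw [up_two H hz h3, h5]
  · funext y
    rw [cA_low H hz h3, h6 y]

lemma A4_index' (H : Gr P r) (hs : Spt C e) (h : A4 dc (tU (P := P) i) (uS P i) e) :
    ∃ z ∈ Z4 i C, cA i z = e := by
  obtain ⟨z, x, x', h1, h2, h3, h4, h5, h6⟩ := h
  have hz : lev z + 2 = i := by
    rw [mem_uS] at h1
    unfold tU at h2
    omega
  refine ⟨z, mem_Z4.2 (Or.inr (mem_ZU.2 ⟨?_, hz, ?_⟩)), ?_⟩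
  · exact mem_of_pos hs (by rw [h6 z, if_pos rfl]; omega)
  · rw [dn_two H hz h3, h5]
  · funext y
    rw [cA_upp H hz h3, h6 y]

lemma A4_of (H : Gr P r) {z : P} (hz : z ∈ ZL i C) : A4 uc (tL (P := P) i) (lS P i) (cA i z) := by
  obtain ⟨h1, h2, h3⟩ := mem_ZL.1 hz
  obtain ⟨x, x', hne, hc⟩ := card_eq_two.1 (card_uc_of_up H h2 h3)
  exact ⟨z, x, x', mem_lS.2 (by omega), by unfold tL; omega, hc, hne, by rw [← up_two H h2 hc, h3],
    fun y => cA_low H h2 hc y⟩

lemma A4_of' (H : Gr P r) {z : P} (hz : z ∈ ZU i C) : A4 dc (tU (P := P) i) (uS P i) (cA i z) := by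
  obtain ⟨h1, h2, h3⟩ := mem_ZU.1 hz
  obtain ⟨x, x', hne, hc⟩ := card_eq_two.1 (card_dc_of_dn H h2 h3)
  exact ⟨z, x, x', mem_uS.2 (by omega), by unfold tU; omega, hc, hne, by rw [← dn_two H h2 hc, h3],
    fun y => cA_upp H h2 hc y⟩

lemma cA_spt (H : Gr P r) (hC : Part (i + 1) C) {z : P} (hz : z ∈ Z4 i C) : Spt C (cA i z) := by
  have h1 : z ∈ C ∧ lev z ≠ i := by
    rcases mem_Z4.1 hz with h | h
    · have := mem_ZL.1 h
      exact ⟨this.1, by omega⟩
    · have := mem_ZU.1 h
      exact ⟨this.1, by omega⟩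
  intro x hx
  have h2 := con_sub H hC h1.1 h1.2
  unfold cA
  rw [if_neg (by rintro rfl; exact hx h1.1), if_neg (fun h => hx (h2 h))]

lemma cA_inj {z z' : P} (h : cA i z = cA i z') : z = z' := by
  have h1 : cA i z z = 2 := by unfold cA; rw [if_pos rfl]
  rw [h] at h1
  unfold cA at h1
  split_ifs at h1 with h2 <;> first | exact h2 | omega

/-- touched near elements: cores -/
lemma core_of_touch (h : ∀ x ∈ near P i, 0 < e x → x ∈ Tch i e) : IsCore i K psi e := by
  intro x hx
  obtain ⟨a1, -, a3, -⟩ := mem_Rst.1 hx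
  by_contra hne
  exact a3 (h x a1 (by omega))

lemma A4_core (H : Gr P r) (h : A4 uc (tL (P := P) i) (lS P i) e) : IsCore i K psi e := by
  obtain ⟨z, x, x', h1, h2, h3, h4, h5, h6⟩ := h
  have hz : lev z = i + 2 := by
    rw [mem_lS] at h1
    unfold tL at h2
    omega
  have ez : e z = 2 := by rw [h6 z, if_pos rfl]
  apply core_of_touch
  intro y hy hpos
  rw [h6 y] at hpos
  split_ifs at hpos with g1 g2
  · rw [mem_near] at hy
    rw [g1] at hy
    omega
  · rw [mem_Tch]
    have hzy : z ⋖ y := by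
      rw [← mem_uc, h3, mem_insert, mem_singleton]
      exact g2
    have := lev_cov H hzy
    exact Or.inl ⟨by omega, z, hzy, by omega⟩
  · omega

lemma A4_core' (H : Gr P r) (h : A4 dc (tU (P := P) i) (uS P i) e) : IsCore i K psi e := by
  obtain ⟨z, x, x', h1, h2, h3, h4, h5, h6⟩ := h
  have hz : lev z + 2 = i := by
    rw [mem_uS] at h1
    unfold tU at h2
    omega
  have ez : e z = 2 := by rw [h6 z, if_pos rfl]
  apply core_of_touch
  intro y hy hpos
  rw [h6 y] at hpos
  split_ifs at hpos with g1 g2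
  · rw [mem_near] at hy
    rw [g1] at hy
    omega
  · rw [mem_Tch]
    have hzy : y ⋖ z := by
      rw [← mem_dc, h3, mem_insert, mem_singleton]
      exact g2
    have := lev_cov H hzy
    exact Or.inr ⟨by omega, z, hzy, by omega⟩
  · omega

/-! ### configurations of type B -/

lemma cS_low (H : Gr P r) {z x x' s : P} (T : TD uc (tL (P := P) i) (lS P i) z x x' s) :
    cS i z = {s} := by
  have hz := T.lw
  have ls := T.site H (mem_union_left _ T.sx)
  ext v
  rw [mem_cS, mem_singleton, T.cw]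
  constructor
  · rintro ⟨h1, h2, -⟩
    have h3 := h2 (by omega)
    exact T.only v (h3 x (by simp)) (h3 x' (by simp))
  · rintro rfl
    refine ⟨ls, fun _ y hy => ?_, fun h => by omega⟩
    rw [mem_insert, mem_singleton] at hy
    rcases hy with rfl | rfl
    · exact T.sx
    · exact T.sx'

lemma cS_upp (H : Gr P r) {z x x' s : P} (T : TD dc (tU (P := P) i) (uS P i) z x x' s) :
    cS i z = {s} := by
  have hz := T.lw'
  have ls := T.site' H (mem_union_left _ T.sx)
  ext v
  rw [mem_cS, mem_singleton, T.cw]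
  constructor
  · rintro ⟨h1, -, h2⟩
    have h3 := h2 (by omega)
    exact T.only v (h3 x (by simp)) (h3 x' (by simp))
  · rintro rfl
    refine ⟨ls, fun h => by omega, fun _ y hy => ?_⟩
    rw [mem_insert, mem_singleton] at hy
    rcases hy with rfl | rfl
    · exact T.sx
    · exact T.sx'

lemma on_On {s s' : Finset P} (h : s = s') : On (on s) s' := by
  subst h
  intro y
  rfl

lemma cB_low (H : Gr P r) {z x x' s : P} (T : TD uc (tL (P := P) i) (lS P i) z x x' s) :
    On (cB i z) {z, x, x', s} := by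
  apply on_On
  rw [con_two_low H T.lw, T.cw, cS_low H T]
  ext v
  simp only [mem_union, mem_insert, mem_singleton]
  tauto

lemma cB_upp (H : Gr P r) {z x x' s : P} (T : TD dc (tU (P := P) i) (uS P i) z x x' s) :
    On (cB i z) {z, x, x', s} := by
  apply on_On
  rw [con_two_upp H T.lw', T.cw, cS_upp H T]
  ext v
  simp only [mem_union, mem_insert, mem_singleton]
  tauto

lemma On_eq {s : Finset P} (h : On e s) (h' : On f s) : e = f := by
  funext y
  rw [h y, h' y]

/-- the T data of a T-element -/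
lemma T4_low (H : Gr P r) {z : P} (hz : z ∈ ZL i C) (h : ∀ x ∈ uc z, (uc x).card = 2) :
    ∃ x x' s, TD uc (tL (P := P) i) (lS P i) z x x' s := by
  obtain ⟨h1, h2, h3⟩ := mem_ZL.1 hz
  obtain ⟨x, x', hne, hc⟩ := card_eq_two.1 (card_uc_of_up H h2 h3)
  have k1 := h x (by rw [hc]; simp)
  have k2 := h x' (by rw [hc]; simp)
  have k3 := up_two H h2 hc
  have k4 := card_union_add_card_inter (uc x) (uc x')
  have k5 : (uc x ∩ uc x').card = 1 := by omega
  obtain ⟨s, hs⟩ := card_eq_one.1 k5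
  have k6 : s ∈ uc x ∩ uc x' := by rw [hs]; simp
  rw [mem_inter] at k6
  refine ⟨x, x', s, ⟨mem_lS.2 (by omega), by unfold tL; omega, hc, hne, k1, k2, k6.1, k6.2, ?_⟩⟩
  intro v hv hv'
  have : v ∈ uc x ∩ uc x' := mem_inter.2 ⟨hv, hv'⟩
  rw [hs, mem_singleton] at this
  exact this

lemma T4_upp (H : Gr P r) {z : P} (hz : z ∈ ZU i C) (h : ∀ x ∈ dc z, (dc x).card = 2) :
    ∃ x x' s, TD dc (tU (P := P) i) (uS P i) z x x' s := by
  obtain ⟨h1, h2, h3⟩ := mem_ZU.1 hz
  obtain ⟨x, x', hne, hc⟩ := card_eq_two.1 (card_dc_of_dn H h2 h3)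
  have k1 := h x (by rw [hc]; simp)
  have k2 := h x' (by rw [hc]; simp)
  have k3 := dn_two H h2 hc
  have k4 := card_union_add_card_inter (dc x) (dc x')
  have k5 : (dc x ∩ dc x').card = 1 := by omega
  obtain ⟨s, hs⟩ := card_eq_one.1 k5
  have k6 : s ∈ dc x ∩ dc x' := by rw [hs]; simp
  rw [mem_inter] at k6
  refine ⟨x, x', s, ⟨mem_uS.2 (by omega), by unfold tU; omega, hc, hne, k1, k2, k6.1, k6.2, ?_⟩⟩
  intro v hv hv'
  have : v ∈ dc x ∩ dc x' := mem_inter.2 ⟨hv, hv'⟩
  rw [hs, mem_singleton] at this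
  exact this

lemma B4_index (H : Gr P r) (hs : Spt C e) (h : B4 uc (tL (P := P) i) (lS P i) e) :
    ∃ z ∈ T4 i C, cB i z = e := by
  obtain ⟨z, x, x', s, T, h6⟩ := h
  have hz := T.lw
  have h3 := T.three
  refine ⟨z, mem_T4.2 (Or.inl ⟨mem_ZL.2 ⟨?_, hz, ?_⟩, ?_⟩), On_eq (cB_low H T) h6⟩
  · exact mem_of_pos hs (by rw [h6 z, if_pos (by simp)]; omega)
  · rw [up_two H hz T.cw, h3]
  · intro y hy
    rw [T.cw, mem_insert, mem_singleton] at hy
    rcases hy with rfl | rfl
    · exact T.cx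
    · exact T.cx'

lemma B4_index' (H : Gr P r) (hs : Spt C e) (h : B4 dc (tU (P := P) i) (uS P i) e) :
    ∃ z ∈ T4 i C, cB i z = e := by
  obtain ⟨z, x, x', s, T, h6⟩ := h
  have hz := T.lw'
  have h3 := T.three
  refine ⟨z, mem_T4.2 (Or.inr ⟨mem_ZU.2 ⟨?_, hz, ?_⟩, ?_⟩), On_eq (cB_upp H T) h6⟩
  · exact mem_of_pos hs (by rw [h6 z, if_pos (by simp)]; omega)
  · rw [dn_two H hz T.cw, h3]
  · intro y hy
    rw [T.cw, mem_insert, mem_singleton] at hy
    rcases hy with rfl | rfl
    · exact T.cx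
    · exact T.cx'

lemma B4_of (H : Gr P r) {z : P} (hz : z ∈ T4 i C) :
    B4 uc (tL (P := P) i) (lS P i) (cB i z) ∨ B4 dc (tU (P := P) i) (uS P i) (cB i z) := by
  rcases mem_T4.1 hz with ⟨h1, h2⟩ | ⟨h1, h2⟩
  · obtain ⟨x, x', s, T⟩ := T4_low H h1 h2
    exact Or.inl ⟨z, x, x', s, T, cB_low H T⟩
  · obtain ⟨x, x', s, T⟩ := T4_upp H h1 h2
    exact Or.inr ⟨z, x, x', s, T, cB_upp H T⟩

lemma B4_core (H : Gr P r) (h : B4 uc (tL (P := P) i) (lS P i) e) : IsCore i K psi e := by
  obtain ⟨z, x, x', s, T, h6⟩ := h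
  have hz := T.lw
  have ls := T.site H (mem_union_left _ T.sx)
  have ez : e z = 1 := by rw [h6 z, if_pos (by simp)]
  apply core_of_touch
  intro y hy hpos
  rw [h6 y] at hpos
  split_ifs at hpos with g1
  · rw [mem_insert, mem_insert, mem_insert, mem_singleton] at g1
    rw [mem_near] at hy
    have g2 : y = x ∨ y = x' := by
      rcases g1 with rfl | rfl | rfl | rfl
      · omega
      · exact Or.inl rfl
      · exact Or.inr rfl
      · omega
    have hzy : z ⋖ y := by
      rw [← mem_uc, T.cw, mem_insert, mem_singleton]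
      exact g2
    have := lev_cov H hzy
    rw [mem_Tch]
    exact Or.inl ⟨by omega, z, hzy, by omega⟩
  · omega

lemma B4_core' (H : Gr P r) (h : B4 dc (tU (P := P) i) (uS P i) e) : IsCore i K psi e := by
  obtain ⟨z, x, x', s, T, h6⟩ := h
  have hz := T.lw'
  have ls := T.site' H (mem_union_left _ T.sx)
  have ez : e z = 1 := by rw [h6 z, if_pos (by simp)]
  apply core_of_touch
  intro y hy hpos
  rw [h6 y] at hpos
  split_ifs at hpos with g1
  · rw [mem_insert, mem_insert, mem_insert, mem_singleton] at g1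
    rw [mem_near] at hy
    have g2 : y = x ∨ y = x' := by
      rcases g1 with rfl | rfl | rfl | rfl
      · omega
      · exact Or.inl rfl
      · exact Or.inr rfl
      · omega
    have hzy : y ⋖ z := by
      rw [← mem_dc, T.cw, mem_insert, mem_singleton]
      exact g2
    have := lev_cov H hzy
    rw [mem_Tch]
    exact Or.inr ⟨by omega, z, hzy, by omega⟩
  · omega

lemma cB_spt (H : Gr P r) (hC : Part (i + 1) C) {z : P} (hz : z ∈ T4 i C) : Spt C (cB i z) := by
  have key : ∀ {x x' s : P}, z ∈ C → x ∈ C → x' ∈ C → s ∈ C → On (cB i z) {z, x, x', s} →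
      Spt C (cB i z) := by
    intro x x' s h1 h2 h3 h4 ho y hy
    rw [ho y, if_neg]
    rw [mem_insert, mem_insert, mem_insert, mem_singleton]
    rintro (rfl | rfl | rfl | rfl)
    · exact hy h1
    · exact hy h2
    · exact hy h3
    · exact hy h4
  rcases mem_T4.1 hz with ⟨h1, h2⟩ | ⟨h1, h2⟩
  · obtain ⟨x, x', s, T⟩ := T4_low H h1 h2
    have hzC := (mem_ZL.1 h1).1
    have hxC := hC.up hzC (show z ⋖ x by rw [← mem_uc, T.cw]; simp)
    have hxC' := hC.up hzC (show z ⋖ x' by rw [← mem_uc, T.cw]; simp)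
    exact key hzC hxC hxC' (hC.up hxC (mem_uc.1 T.sx)) (cB_low H T)
  · obtain ⟨x, x', s, T⟩ := T4_upp H h1 h2
    have hzC := (mem_ZU.1 h1).1
    have l1 := T.lw'
    obtain ⟨l2, l3⟩ := T.lx' H
    have hxC := hC.dn hzC (by omega) (show x ⋖ z by rw [← mem_dc, T.cw]; simp)
    have hxC' := hC.dn hzC (by omega) (show x' ⋖ z by rw [← mem_dc, T.cw]; simp)
    exact key hzC hxC hxC' (hC.dn hxC (by omega) (mem_dc.1 T.sx)) (cB_upp H T)

/-- levels of the elements of a configuration of type B -/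
lemma cB_far (H : Gr P r) {z y : P} (hz : z ∈ T4 i C) (hy : lev y = i + 2 ∨ lev y + 2 = i) :
    0 < cB i z y ↔ y = z := by
  rcases mem_T4.1 hz with ⟨h1, h2⟩ | ⟨h1, h2⟩
  · obtain ⟨x, x', s, T⟩ := T4_low H h1 h2
    have l1 := T.lw
    obtain ⟨l2, l3⟩ := T.lx H
    have l4 := T.site H (mem_union_left _ T.sx)
    rw [cB_low H T y]
    simp only [mem_insert, mem_singleton]
    constructor
    · intro h
      split_ifs at h with h'
      · rcases h' with rfl | rfl | rfl | rfl
        · rfl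
        all_goals omega
      · omega
    · rintro rfl
      simp
  · obtain ⟨x, x', s, T⟩ := T4_upp H h1 h2
    have l1 := T.lw'
    obtain ⟨l2, l3⟩ := T.lx' H
    have l4 := T.site' H (mem_union_left _ T.sx)
    rw [cB_upp H T y]
    simp only [mem_insert, mem_singleton]
    constructor
    · intro h
      split_ifs at h with h'
      · rcases h' with rfl | rfl | rfl | rfl
        · rfl
        all_goals omega
      · omega
    · rintro rfl
      simp

lemma T4_lev {z : P} (hz : z ∈ T4 i C) : lev z = i + 2 ∨ lev z + 2 = i := by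
  rcases mem_T4.1 hz with ⟨h1, -⟩ | ⟨h1, -⟩
  · exact Or.inl (mem_ZL.1 h1).2.1
  · exact Or.inr (mem_ZU.1 h1).2.1

lemma cB_inj (H : Gr P r) {z z' : P} (hz : z ∈ T4 i C) (hz' : z' ∈ T4 i C)
    (h : cB i z = cB i z') : z = z' := by
  have h1 := (cB_far H hz (T4_lev hz)).2 rfl
  rw [h] at h1
  exact (cB_far H hz' (T4_lev hz)).1 h1

end Pool.Agent.GaussPoset.Win.W4
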