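import Pool.Agent.W_448w4_h10.KE

/-!
MP_448cb3_co, G2, case B, window `j`: second order data (2,1), (4,2) of a natural part.  helper10.
-/

namespace Pool.Agent.GaussPoset.Win.W4

set_option linter.unusedSectionVars false

open Finset
open Pool.Agent.GaussPoset.Win.SO (Sde Pen TD On kS tL tU LowD UppD val_of PN vp mem_PN num_PN NumG con
  mem_con self_con con_two_low con_two_upp con_cls con_disj on con_sub on_inj Mn Mn_biUnion sit_PD
  sit_PU con_PD con_PU PD_data PU_data pair_gen cheap_coeff cheap_dvd vp_PD vp_PU sit_ne)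
open Pool.Agent.GaussPoset.Win.I2 (lS uS mem_lS mem_uS)

universe u

variable {P : Type u} [Fintype P] [PartialOrder P] [DecidableEq P] {r i : ℕ}
variable {e f : P → ℕ} {psi : P → P} {C K : Finset P}

/-! ### pairs of pendants -/

lemma PN_lev {p : P} (hp : p ∈ PN i C) : p ∈ C ∧ (lev p = i + 2 ∨ lev p + 2 = i) := by
  rw [mem_PN] at hp
  refine ⟨hp.1, ?_⟩
  rcases hp.2 with h | h
  · exact Or.inl (lev_PD h).1
  · exact Or.inr (lev_PU h).1

/-- the covers of a pendant are touched -/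
lemma PN_touch (H : Gr P r) {p x : P} (hp : p ∈ PN i C) (hx : x ∈ con i p) (hne : x ≠ p)
    (he : 0 < e p) : x ∈ Tch i e := by
  rw [mem_Tch]
  rcases (PN_lev hp).2 with h | h
  · rw [con_two_low H h, mem_insert] at hx
    rcases hx with hx | hx
    · exact absurd hx hne
    · have h1 := lev_uc H hx
      exact Or.inl ⟨by omega, p, mem_uc.1 hx, he⟩
  · rw [con_two_upp H h, mem_insert] at hx
    rcases hx with hx | hx
    · exact absurd hx hne
    · have h1 := lev_dc H hx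
      exact Or.inr ⟨by omega, p, mem_dc.1 hx, he⟩

lemma on_pos {s : Finset P} {x : P} : 0 < on s x ↔ x ∈ s := by
  unfold on
  split_ifs with h
  · exact ⟨fun _ => h, fun _ => by omega⟩
  · exact ⟨fun h' => by omega, fun h' => absurd h' h⟩

lemma c4_core (H : Gr P r) {q : P × P} (hq : q ∈ P4 i C) : IsCore i K psi (c4 i q) := by
  obtain ⟨h1, h2, h3⟩ := mem_P4.1 hq
  have l1 := (PN_lev h1).2
  have l2 := (PN_lev h2).2
  apply core_of_touch
  intro x hx hpos
  unfold c4 at hpos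
  rw [on_pos, mem_union] at hpos
  rw [mem_near] at hx
  rcases hpos with h | h
  · refine PN_touch H h1 h (by rintro rfl; omega) ?_
    unfold c4
    rw [on_pos]
    exact mem_union_left _ (self_con (by omega))
  · refine PN_touch H h2 h (by rintro rfl; omega) ?_
    unfold c4
    rw [on_pos]
    exact mem_union_right _ (self_con (by omega))

lemma c4_spt (H : Gr P r) (hC : Part (i + 1) C) {q : P × P} (hq : q ∈ P4 i C) :
    Spt C (c4 i q) := by
  obtain ⟨h1, h2, h3⟩ := mem_P4.1 hq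
  have l1 := PN_lev h1
  have l2 := PN_lev h2
  exact SO.on_spt (union_subset (con_sub H hC l1.1 (by omega)) (con_sub H hC l2.1 (by omega)))

/-- the value of a pair -/
theorem c4_value (H : Gr P r) (hi : 1 ≤ i) (hi2 : i + 1 ≤ r) (hC : Part (i + 1) C)
    {q : P × P} (hq : q ∈ P4 i C) : ∑ x, c4 i q x = 4 ∧
    PowerSeries.coeff (st i C).card (dd ^ 2 * tC i C (c4 i q) : A) = vp i q.1 * vp i q.2 := by
  obtain ⟨h1, h2, h3⟩ := mem_P4.1 hq
  exact pair_gen H hi hi2 hC (num_PN H h1) (num_PN H h2) h3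

lemma vp_ne (p : P) : vp i p ≠ 0 := by
  unfold vp
  split_ifs <;> norm_num

/-- the two pendants are the minimal elements of the configuration -/
lemma c4_Mn (H : Gr P r) (hir : i ≤ r) {q : P × P} (hq : q ∈ P4 i C) :
    Mn i (con i q.1 ∪ con i q.2) = {q.1, q.2} := by
  obtain ⟨h1, h2, h3⟩ := mem_P4.1 hq
  have N := num_PN H h1
  have N' := num_PN H h2
  have := Mn_biUnion H hir (T := {q.1, q.2}) (by
    intro z hz
    rw [mem_insert, mem_singleton] at hz
    rcases hz with rfl | rfl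
    · exact N.ns
    · exact N'.ns) (by
    intro z hz z' hz' hne
    rw [mem_insert, mem_singleton] at hz hz'
    rcases hz with rfl | rfl <;> rcases hz' with rfl | rfl
    · exact absurd rfl hne
    · exact h3
    · exact h3.symm
    · exact absurd rfl hne)
  rwa [biUnion_insert, singleton_biUnion] at this

lemma P4_ne (H : Gr P r) (hir : i ≤ r) {q : P × P} (hq : q ∈ P4 i C) : q.1 ≠ q.2 := by
  obtain ⟨h1, h2, h3⟩ := mem_P4.1 hq
  intro h
  rw [h] at h3
  obtain ⟨v, hv⟩ := sit_ne H hir (num_PN H h2).ns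
  exact disjoint_left.1 h3 hv hv

lemma P4_swap {q : P × P} (hq : q ∈ P4 i C) : q.swap ∈ P4 i C := by
  obtain ⟨h1, h2, h3⟩ := mem_P4.1 hq
  exact mem_P4.2 ⟨h2, h1, h3.symm⟩

lemma c4_swap (q : P × P) : c4 i q.swap = c4 i q := by
  unfold c4
  show on (con i q.2 ∪ con i q.1) = _
  rw [union_comm]

/-- the fibre of a pair -/
lemma c4_fib (H : Gr P r) (hir : i ≤ r) {q q' : P × P} (hq : q ∈ P4 i C) (hq' : q' ∈ P4 i C)
    (h : c4 i q' = c4 i q) : q' = q ∨ q' = q.swap := by
  have h1 : ({q'.1, q'.2} : Finset P) = {q.1, q.2} := by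
    rw [← c4_Mn H hir hq, ← c4_Mn H hir hq']
    congr 1
    exact on_inj h
  have hne := P4_ne H hir hq'
  have a1 : q'.1 ∈ ({q.1, q.2} : Finset P) := by rw [← h1]; simp
  have a2 : q'.2 ∈ ({q.1, q.2} : Finset P) := by rw [← h1]; simp
  rw [mem_insert, mem_singleton] at a1 a2
  rcases a1 with a1 | a1 <;> rcases a2 with a2 | a2
  · exact absurd (a1.trans a2.symm) hne
  · exact Or.inl (Prod.ext a1 a2)
  · exact Or.inr (Prod.ext a1 a2)
  · exact absurd (a1.trans a2.symm) hne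

open Classical in
/-- the sum over the configurations of pairs -/
theorem c4_sum (H : Gr P r) (hi : 1 ≤ i) (hi2 : i + 1 ≤ r) (hC : Part (i + 1) C) :
    2 * ∑ e ∈ (P4 i C).image (c4 i), PowerSeries.coeff (st i C).card (dd ^ 2 * tC i C e : A) =
      ∑ q ∈ P4 i C, vp i q.1 * vp i q.2 := by
  have hir : i ≤ r := by omega
  have h1 : ∑ q ∈ P4 i C, vp i q.1 * vp i q.2 =
      ∑ e ∈ (P4 i C).image (c4 i), ∑ q ∈ (P4 i C).filter (fun q => c4 i q = e),
        vp i q.1 * vp i q.2 :=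
    (Finset.sum_fiberwise_of_maps_to (fun q hq => mem_image_of_mem _ hq) _).symm
  rw [h1, Finset.mul_sum]
  refine Finset.sum_congr rfl fun e he => ?_
  rw [mem_image] at he
  obtain ⟨q, hq, rfl⟩ := he
  have h2 : (P4 i C).filter (fun q' => c4 i q' = c4 i q) = {q, q.swap} := by
    ext q'
    rw [mem_filter, mem_insert, mem_singleton]
    constructor
    · rintro ⟨h3, h4⟩
      exact c4_fib H hir hq h3 h4
    · rintro (rfl | rfl)
      · exact ⟨hq, rfl⟩
      · exact ⟨P4_swap hq, c4_swap q⟩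
  have hne := P4_ne H hir hq
  rw [h2, Finset.sum_pair, (c4_value H hi hi2 hC hq).2]
  · show 2 * (vp i q.1 * vp i q.2) = vp i q.1 * vp i q.2 + vp i q.2 * vp i q.1
    ring
  · intro h
    exact hne (congrArg Prod.fst h)

lemma PP_index (H : Gr P r) (hs : Spt C e) (h : PP uc (tL (P := P) i) (lS P i) e) :
    ∃ q ∈ P4 i C, c4 i q = e := by
  obtain ⟨p, y, p', y', h1, h2, h3, h4, h5, h6⟩ := h
  obtain ⟨a0, a1, a2, a3, a4⟩ := SO.pen_low H h1
  obtain ⟨b0, b1, b2, b3, b4⟩ := SO.pen_low H h2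
  refine ⟨(p, p'), mem_P4.2 ⟨mem_PN.2 ⟨?_, Or.inl a0⟩, mem_PN.2 ⟨?_, Or.inl b0⟩, ?_⟩, ?_⟩
  · exact mem_of_pos hs (by rw [h6 p, if_pos (by simp)]; omega)
  · exact mem_of_pos hs (by rw [h6 p', if_pos (by simp)]; omega)
  · show Disjoint (sit i p) (sit i p')
    rw [sit_PD H a1 a3, sit_PD H b1 b3]
    exact h5
  · apply On_eq (on_On _) h6
    show con i p ∪ con i p' = _
    rw [con_PD H a1 a3, con_PD H b1 b3]
    ext v
    simp only [mem_union, mem_insert, mem_singleton]
    tauto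

lemma PP_index' (H : Gr P r) (hs : Spt C e) (h : PP dc (tU (P := P) i) (uS P i) e) :
    ∃ q ∈ P4 i C, c4 i q = e := by
  obtain ⟨p, y, p', y', h1, h2, h3, h4, h5, h6⟩ := h
  obtain ⟨a0, a1, a2, a3, a4⟩ := SO.pen_up H h1
  obtain ⟨b0, b1, b2, b3, b4⟩ := SO.pen_up H h2
  refine ⟨(p, p'), mem_P4.2 ⟨mem_PN.2 ⟨?_, Or.inr a0⟩, mem_PN.2 ⟨?_, Or.inr b0⟩, ?_⟩, ?_⟩
  · exact mem_of_pos hs (by rw [h6 p, if_pos (by simp)]; omega)
  · exact mem_of_pos hs (by rw [h6 p', if_pos (by simp)]; omega)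
  · show Disjoint (sit i p) (sit i p')
    rw [sit_PU H a1 a3, sit_PU H b1 b3]
    exact h5
  · apply On_eq (on_On _) h6
    show con i p ∪ con i p' = _
    rw [con_PU H a1 a3, con_PU H b1 b3]
    ext v
    simp only [mem_union, mem_insert, mem_singleton]
    tauto

lemma PQ_index (H : Gr P r) (hs : Spt C e)
    (h : PQ uc dc (tL (P := P) i) (tU i) (lS P i) (uS P i) e) :
    ∃ q ∈ P4 i C, c4 i q = e := by
  obtain ⟨p, y, p', y', h1, h2, h5, h6⟩ := h
  obtain ⟨a0, a1, a2, a3, a4⟩ := SO.pen_low H h1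
  obtain ⟨b0, b1, b2, b3, b4⟩ := SO.pen_up H h2
  refine ⟨(p, p'), mem_P4.2 ⟨mem_PN.2 ⟨?_, Or.inl a0⟩, mem_PN.2 ⟨?_, Or.inr b0⟩, ?_⟩, ?_⟩
  · exact mem_of_pos hs (by rw [h6 p, if_pos (by simp)]; omega)
  · exact mem_of_pos hs (by rw [h6 p', if_pos (by simp)]; omega)
  · show Disjoint (sit i p) (sit i p')
    rw [sit_PD H a1 a3, sit_PU H b1 b3]
    exact h5
  · apply On_eq (on_On _) h6
    show con i p ∪ con i p' = _
    rw [con_PD H a1 a3, con_PU H b1 b3]
    ext v
    simp only [mem_union, mem_insert, mem_singleton]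
    tauto

/-! ### the sum -/

/-- value of a configuration of type A -/
theorem cA_value (H : Gr P r) (hir : i ≤ r) (hC : Part (i + 1) C) {z : P} (hz : z ∈ Z4 i C) :
    ∑ x, cA i z x = 4 ∧
      PowerSeries.coeff (st i C).card (dd ^ 2 * tC i C (cA i z) : A) = -1 := by
  rcases mem_Z4.1 hz with h | h
  · exact ⟨L4.energy H (Or.inr (Or.inr (Or.inr (Or.inl (A4_of H h))))),
      (A4_val H hir hC (cA_spt H hC hz) (A4_of H h)).2.2.2⟩
  · exact ⟨L4.energy H (Or.inr (Or.inr (Or.inr (Or.inr (Or.inl (A4_of' H h)))))),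
      (A4_val' H hir hC (cA_spt H hC hz) (A4_of' H h)).2.2.2⟩

lemma cA_core (H : Gr P r) {z : P} (hz : z ∈ Z4 i C) : IsCore i K psi (cA i z) := by
  rcases mem_Z4.1 hz with h | h
  · exact A4_core H (A4_of H h)
  · exact A4_core' H (A4_of' H h)

/-- value of a configuration of type B -/
theorem cB_value (H : Gr P r) (hir : i ≤ r) (hC : Part (i + 1) C) {z : P} (hz : z ∈ T4 i C) :
    ∑ x, cB i z x = 4 ∧
      PowerSeries.coeff (st i C).card (dd ^ 2 * tC i C (cB i z) : A) = 1 := by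
  rcases B4_of H hz with h | h
  · exact ⟨L4.energy H (Or.inr (Or.inr (Or.inr (Or.inr (Or.inr (Or.inl h)))))),
      (B4_val H hir hC (cB_spt H hC hz) h).2.2.2⟩
  · exact ⟨L4.energy H (Or.inr (Or.inr (Or.inr (Or.inr (Or.inr (Or.inr h)))))),
      (B4_val' H hir hC (cB_spt H hC hz) h).2.2.2⟩

lemma cB_core (H : Gr P r) {z : P} (hz : z ∈ T4 i C) : IsCore i K psi (cB i z) := by
  rcases B4_of H hz with h | h
  · exact B4_core H h
  · exact B4_core' H h

lemma not_cheap (Q : Nat4 r i K psi C) (hb : 1 ≤ (st i C).card) (hs : Spt C e)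
    (h : PowerSeries.coeff (st i C).card (dd ^ 2 * tC i C e : A) ≠ 0) : ¬ Cheap 1 i e :=
  fun h1 => h (cheap_coeff Q.H Q.hC hs h1 hb)

open Classical in
/-- the remaining class -/
theorem Nat4.class_eq (Q : Nat4 r i K psi C) (hb : 1 ≤ (st i C).card) :
    (C.piAntidiag 4).filter (fun e => IsCore i K psi e ∧ ¬ Cheap 1 i e) =
      (P4 i C).image (c4 i) ∪ ((Z4 i C).image (cA i) ∪ (T4 i C).image (cB i)) := by
  have H := Q.H
  have hir : i ≤ r := by have := Q.hi2; omega
  ext e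
  simp only [mem_filter, mem_union, mem_image, I2.mem_pa]
  constructor
  · rintro ⟨⟨g1, g2⟩, g3, g4⟩
    rcases Q.cls g3 g2 g1.le with h | ⟨-, h⟩
    · exact absurd h g4
    rcases h with h | h | h | h | h | h | h
    · exact Or.inl (PP_index H g2 h)
    · exact Or.inl (PP_index' H g2 h)
    · exact Or.inl (PQ_index H g2 h)
    · exact Or.inr (Or.inl (A4_index H g2 h))
    · exact Or.inr (Or.inl (A4_index' H g2 h))
    · exact Or.inr (Or.inr (B4_index H g2 h))
    · exact Or.inr (Or.inr (B4_index' H g2 h))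
  · rintro (⟨q, hq, rfl⟩ | ⟨z, hz, rfl⟩ | ⟨z, hz, rfl⟩)
    · have hv := c4_value H Q.hi Q.hi2 Q.hC hq
      refine ⟨⟨hv.1, c4_spt H Q.hC hq⟩, c4_core H hq, not_cheap Q hb (c4_spt H Q.hC hq) ?_⟩
      rw [hv.2]
      exact mul_ne_zero (vp_ne _) (vp_ne _)
    · have hv := cA_value H hir Q.hC hz
      refine ⟨⟨hv.1, cA_spt H Q.hC hz⟩, cA_core H hz, not_cheap Q hb (cA_spt H Q.hC hz) ?_⟩
      rw [hv.2]
      norm_num
    · have hv := cB_value H hir Q.hC hz
      refine ⟨⟨hv.1, cB_spt H Q.hC hz⟩, cB_core H hz, not_cheap Q hb (cB_spt H Q.hC hz) ?_⟩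
      rw [hv.2]
      norm_num

lemma on_le_one (s : Finset P) (y : P) : on s y ≤ 1 := by
  unfold on
  split_ifs <;> omega

lemma cA_two (z : P) : cA i z z = 2 := by unfold cA; rw [if_pos rfl]

/-- a configuration of type B has an excited site, the others have none -/
lemma cB_site (H : Gr P r) {z : P} (hz : z ∈ T4 i C) : ∃ v, lev v = i ∧ 0 < cB i z v := by
  rcases mem_T4.1 hz with ⟨h1, h2⟩ | ⟨h1, h2⟩
  · obtain ⟨x, x', s, T⟩ := T4_low H h1 h2
    exact ⟨s, T.site H (mem_union_left _ T.sx), by rw [cB_low H T s, if_pos (by simp)]; omega⟩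
  · obtain ⟨x, x', s, T⟩ := T4_upp H h1 h2
    exact ⟨s, T.site' H (mem_union_left _ T.sx), by rw [cB_upp H T s, if_pos (by simp)]; omega⟩

lemma c4_site (H : Gr P r) {q : P × P} (hq : q ∈ P4 i C) {v : P} (hv : lev v = i) :
    c4 i q v = 0 := by
  obtain ⟨h1, h2, h3⟩ := mem_P4.1 hq
  unfold c4 on
  rw [if_neg]
  intro h
  rcases mem_union.1 h with h | h
  · exact (con_cls H (num_PN H h1).ns).ns v h hv
  · exact (con_cls H (num_PN H h2).ns).ns v h hv

/-- THE VALUE OF (4,2) for a natural part -/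
theorem Nat4.be4 (Q : Nat4 r i K psi C) (hb : 1 ≤ (st i C).card) :
    2 * I2.be 4 (st i C).card (ZS i C) = ∑ q ∈ P4 i C, vp i q.1 * vp i q.2
      - 2 * ((Z4 i C).card - (T4 i C).card : ℤ) := by
  classical
  have H := Q.H
  have hir : i ≤ r := by have := Q.hi2; omega
  have h0 := ZC_subK H Q.hi Q.hi2 Q.hM Q.hC (fun e hc hs (hE : ∑ x, e x < 4) => Q.cheap1 hc hs hE)
  have h1 := So.be_sum (n := 4) (fun e => IsCore i K psi e ∧ ¬ Cheap 1 i e) hb (by convert h0)
  have h2 : I2.be 4 (st i C).card (ZS i C) = ∑ e ∈ (P4 i C).image (c4 i) ∪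
      ((Z4 i C).image (cA i) ∪ (T4 i C).image (cB i)),
        PowerSeries.coeff (st i C).card (dd ^ 2 * tC i C e : A) := by
    rw [h1, ← Q.class_eq hb]
    refine Finset.sum_congr ?_ fun _ _ => rfl
    ext e
    simp only [mem_filter]
  rw [h2, sum_union, sum_union]
  rotate_left
  · rw [disjoint_left]
    intro e he he'
    rw [mem_image] at he he'
    obtain ⟨z, hz, rfl⟩ := he
    obtain ⟨z', hz', h⟩ := he'
    have h2 := cA_two (i := i) z
    rw [← h] at h2
    have h3 := on_le_one (con i z' ∪ cS i z') z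
    unfold cB at h2
    omega
  · rw [disjoint_union_right]
    constructor
    · rw [disjoint_left]
      intro e he he'
      rw [mem_image] at he he'
      obtain ⟨q, hq, rfl⟩ := he
      obtain ⟨z, hz, h⟩ := he'
      have h2 := cA_two (i := i) z
      rw [h] at h2
      have h3 := on_le_one (con i q.1 ∪ con i q.2) z
      unfold c4 at h2
      omega
    · rw [disjoint_left]
      intro e he he'
      rw [mem_image] at he he'
      obtain ⟨q, hq, rfl⟩ := he
      obtain ⟨z, hz, h⟩ := he'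
      obtain ⟨v, hv, hv2⟩ := cB_site H hz
      rw [h, c4_site H hq hv] at hv2
      omega
  have e1 := c4_sum H Q.hi Q.hi2 Q.hC
  have e2 : ∑ e ∈ (Z4 i C).image (cA i),
      PowerSeries.coeff (st i C).card (dd ^ 2 * tC i C e : A) = - ((Z4 i C).card : ℤ) := by
    rw [sum_image (fun a _ b _ h => cA_inj h),
      sum_congr rfl (g := fun _ => (-1 : ℤ)) fun z hz => (cA_value H hir Q.hC hz).2, sum_const]
    simp
  have e3 : ∑ e ∈ (T4 i C).image (cB i),
      PowerSeries.coeff (st i C).card (dd ^ 2 * tC i C e : A) = ((T4 i C).card : ℤ) := by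
    rw [sum_image (fun a ha b hb h => cB_inj H ha hb h),
      sum_congr rfl (g := fun _ => (1 : ℤ)) fun z hz => (cB_value H hir Q.hC hz).2, sum_const]
    simp
  rw [e2, e3]
  linarith

end Pool.Agent.GaussPoset.Win.W4
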