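import Pool.Agent.W_448w4_h10.KF

/-!
MP_448cb3_co, G2, case B, window `j`: first order data (1,2) and the profile of a natural part.  helper10.
-/

namespace Pool.Agent.GaussPoset.Win.W4

set_option linter.unusedSectionVars false

open Finset
open Pool.Agent.GaussPoset.Win.SO (Sde Pen TD On kS tL tU LowD UppD val_of PN vp mem_PN num_PN NumG con
  mem_con self_con con_two_low con_two_upp con_cls con_disj on con_sub on_inj Mn Mn_biUnion sit_PD
  sit_PU con_PD con_PU PD_data PU_data pair_gen cheap_coeff cheap_dvd vp_PD vp_PU sit_ne)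
open Pool.Agent.GaussPoset.Win.I2 (kd gu kl kn kr so cc fr KK KD lS uS mem_lS mem_uS)

universe u

section Abstract

variable {P : Type u} [Fintype P] [DecidableEq P]
variable {c c' : P → Finset P} {t t' : P → ℕ} {V Sd Sd' : Finset P} {e : P → ℕ}

/-- energy at most two, an excited near element on the first side -/
lemma Cf.low2a (C : Cf c c' t t' V Sd Sd' e) (hE : ∑ x, e x ≤ 2) {x : P} (hx : x ∈ Sd)
    (htx : t x = 1) (hex : 0 < e x) :
    kS c c' V Sd e + kS c' c V Sd' e ≤ 0 ∨ (kS c c' V Sd e + kS c' c V Sd' e ≤ 1 ∧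
      ∃ p y, Pen c t Sd p y ∧ On e {p, y}) := by
  obtain ⟨z, hz, hez⟩ := C.touched (by omega) hx htx hex
  have hzS : z ∈ Sd := C.s1.cout x (Or.inl hx) z hz
  have htz : t z = t x + 1 := (C.s1.cin z hzS x ((C.s1.dual z x).2 hz)).2
  have n1 : z ≠ x := by rintro rfl; omega
  have hsum : ∑ y ∈ ({z, x} : Finset P), e y = e z + e x := by
    rw [sum_insert, sum_singleton]
    rw [mem_singleton]; exact n1
  have hle := sum_le_energy (e := e) ({z, x} : Finset P)
  rw [hsum] at hle
  have g1 : e z = 1 := by omega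
  have g2 : e x = 1 := by omega
  have hrest : ∀ y, y ∉ ({z, x} : Finset P) → e y = 0 := by
    intro y hy
    have := rest_le (e := e) hy
    rw [hsum] at this
    omega
  have hle1 : ∀ y, e y ≤ 1 := by
    intro y
    by_cases hy : y ∈ ({z, x} : Finset P)
    · rw [mem_insert, mem_singleton] at hy
      rcases hy with rfl | rfl <;> omega
    · rw [hrest y hy]; omega
  have hsite : ∀ a ∈ V, e a = 0 := by
    intro a ha
    apply hrest
    rw [mem_insert, mem_singleton]
    rintro (rfl | rfl)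
    · exact disjoint_left.1 C.d1 hzS ha
    · exact disjoint_left.1 C.d1 hx ha
  have hux : ∀ y ∈ Sd, t y = 1 → 0 < e y → y = x := by
    intro y hy hty hey
    by_contra hne
    have : e y = 0 := by
      apply hrest
      rw [mem_insert, mem_singleton]
      rintro (rfl | rfl)
      · omega
      · exact hne rfl
    omega
  have hU : ∀ y ∈ Sd', e y = 0 := by
    intro y hy
    apply hrest
    rw [mem_insert, mem_singleton]
    rintro (rfl | rfl)
    · exact disjoint_left.1 C.d3 hzS hy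
    · exact disjoint_left.1 C.d3 hx hy
  have k2 := kS_zero C.s2 hU
  have f1 : x ∈ fr c c' e Sd := fr_near hx (fun y _ => by rw [g2]; exact hle1 y)
    (fun a ha => by rw [hsite a (near_site C.s1 hx htx ha)]; omega)
  have s1 : KD c' e V ⊆ c x := by
    intro v hv
    obtain ⟨-, y, hy, hty, hvy, hlt⟩ := KD_mem C.s1 hv
    rw [hux y hy hty (by omega)] at hvy
    exact hvy
  have p1 : 1 ≤ (fr c c' e Sd).card := card_pos.2 ⟨x, f1⟩
  have q1 := card_le_card s1
  have r1 := C.s1.c2 x
  by_cases hcx : (c x).card = 2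
  · right
    have k1 : kS c c' V Sd e ≤ 1 := by unfold kS; omega
    refine ⟨by omega, z, x, ⟨hzS, by omega, ?_, hcx⟩, ?_⟩
    · apply eq_singleton_iff_unique_mem.2
      refine ⟨(C.s1.dual z x).2 hz, fun b hb => ?_⟩
      obtain ⟨b1, b2, b3⟩ := cov_two C.s1 C.adm1 hzS (by omega) hez hb
      exact hux b b1 b2 b3
    · intro y
      split_ifs with hy
      · rw [mem_insert, mem_singleton] at hy
        rcases hy with rfl | rfl <;> assumption
      · exact hrest y hy
  · left
    have k1 : kS c c' V Sd e ≤ 0 := by unfold kS; omega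
    omega

/-- CLASSIFICATION, energy at most two -/
theorem Cf.low2 (C : Cf c c' t t' V Sd Sd' e) (hE : ∑ x, e x ≤ 2) :
    kS c c' V Sd e + kS c' c V Sd' e ≤ 0 ∨ (kS c c' V Sd e + kS c' c V Sd' e ≤ 1 ∧
      ((∃ p y, Pen c t Sd p y ∧ On e {p, y}) ∨ ∃ p y, Pen c' t' Sd' p y ∧ On e {p, y})) := by
  by_cases h1 : ∀ x ∈ Sd, t x = 1 → e x = 0
  · have k1 := kS_zero C.s1 (side_zero C.s1 C.adm1 h1)
    by_cases h2 : ∀ x ∈ Sd', t' x = 1 → e x = 0
    · have k2 := kS_zero C.s2 (side_zero C.s2 C.adm2 h2)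
      left
      omega
    · push Not at h2
      obtain ⟨x, hx, htx, hex⟩ := h2
      rcases C.symm.low2a hE hx htx (by omega) with h | ⟨h, h'⟩
      · left; omega
      · right; exact ⟨by omega, Or.inr h'⟩
  · push Not at h1
    obtain ⟨x, hx, htx, hex⟩ := h1
    rcases C.low2a hE hx htx (by omega) with h | ⟨h, h'⟩
    · exact Or.inl h
    · exact Or.inr ⟨h, Or.inl h'⟩

end Abstract

variable {P : Type u} [Fintype P] [PartialOrder P] [DecidableEq P] {r i : ℕ}
variable {e f : P → ℕ} {psi : P → P} {C K : Finset P}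

/-- the list of the cores with one deficit and energy two -/
def L2 (i : ℕ) (e : P → ℕ) : Prop :=
  (∃ p y, Pen uc (tL (P := P) i) (lS P i) p y ∧ On e {p, y}) ∨
    ∃ p y, Pen dc (tU (P := P) i) (uS P i) p y ∧ On e {p, y}

/-- CLASSIFICATION for a natural part, energy at most two -/
theorem Nat4.cls2 (Q : Nat4 r i K psi C) (hc : IsCore i K psi e) (hs : Spt C e)
    (hE : ∑ x, e x ≤ 2) : Cheap 0 i e ∨ (Cheap 1 i e ∧ L2 i e) := by
  by_cases hA : AdmL i e
  swap
  · exact Or.inl (Or.inl hA)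
  by_cases hB : AdmU i e
  swap
  · exact Or.inl (Or.inr (Or.inl hB))
  by_cases hd : Disjoint (AL i e) (AU i e)
  swap
  · exact Or.inl (Or.inr (Or.inr (Or.inl hd)))
  rcases (Q.cf hc hs hA hB hd).low2 hE with h | ⟨h1, h2⟩
  · exact Or.inl (SO.cheap_of (by exact_mod_cast h))
  · exact Or.inr ⟨SO.cheap_of (by exact_mod_cast h1), h2⟩

lemma L2.energy (H : Gr P r) (h : L2 i e) : ∑ x, e x = 2 := by
  rcases h with ⟨p, y, h1, h2⟩ | ⟨p, y, h1, h2⟩
  · obtain ⟨-, a1, a2, -⟩ := SO.pen_low H h1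
    rw [on_energy h2, card_pair]
    rintro rfl; omega
  · obtain ⟨-, a1, a2, -⟩ := SO.pen_up H h1
    rw [on_energy h2, card_pair]
    rintro rfl; omega

theorem Nat4.cheap0 (Q : Nat4 r i K psi C) (hc : IsCore i K psi e) (hs : Spt C e)
    (hE : ∑ x, e x < 2) : Cheap 0 i e := by
  rcases Q.cls2 hc hs hE.le with h | ⟨-, h⟩
  · exact h
  · have := h.energy Q.H
    omega

lemma L2_index (H : Gr P r) (hs : Spt C e) (h : L2 i e) : ∃ p ∈ PN i C, on (con i p) = e := by
  rcases h with ⟨p, y, h1, h2⟩ | ⟨p, y, h1, h2⟩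
  · obtain ⟨a0, a1, a2, a3, a4⟩ := SO.pen_low H h1
    refine ⟨p, mem_PN.2 ⟨mem_of_pos hs (by rw [h2 p, if_pos (by simp)]; omega), Or.inl a0⟩, ?_⟩
    exact On_eq (on_On (con_PD H a1 a3)) h2
  · obtain ⟨a0, a1, a2, a3, a4⟩ := SO.pen_up H h1
    refine ⟨p, mem_PN.2 ⟨mem_of_pos hs (by rw [h2 p, if_pos (by simp)]; omega), Or.inr a0⟩, ?_⟩
    exact On_eq (on_On (con_PU H a1 a3)) h2

lemma c2_core (H : Gr P r) {p : P} (hp : p ∈ PN i C) : IsCore i K psi (on (con i p)) := by
  have l1 := (PN_lev hp).2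
  apply core_of_touch
  intro x hx hpos
  rw [on_pos] at hpos
  rw [mem_near] at hx
  refine PN_touch H hp hpos (by rintro rfl; omega) ?_
  rw [on_pos]
  exact self_con (by omega)

lemma c2_spt (H : Gr P r) (hC : Part (i + 1) C) {p : P} (hp : p ∈ PN i C) :
    Spt C (on (con i p)) := by
  have l1 := PN_lev hp
  exact SO.on_spt (con_sub H hC l1.1 (by omega))

/-- the value of a pendant -/
theorem c2_value (H : Gr P r) (hi : 1 ≤ i) (hi2 : i + 1 ≤ r) (hC : Part (i + 1) C)
    {p : P} (hp : p ∈ PN i C) : ∑ x, on (con i p) x = 2 ∧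
    PowerSeries.coeff (st i C).card (dd * tC i C (on (con i p)) : A) = vp i p := by
  have N := num_PN H hp
  have own : Disjoint (SO.BL i (con i p)) (SO.BU i (con i p)) := by
    rcases Nat.lt_or_gt_of_ne N.ns with h | h
    · rw [SO.BL_con_upp H h]; exact disjoint_empty_left _
    · rw [SO.BU_con_low H h]; exact disjoint_empty_right _
  refine ⟨by rw [SO.on_sum, N.cd], ?_⟩
  rw [SO.on_coeff1 H hi hi2 hC (con_cls H N.ns) (con_sub H hC N.mC N.ns) own N.num, N.sgn]

/-- no deficit: no first order coefficient -/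
lemma cheap_coeff1 (H : Gr P r) (hC : Part (i + 1) C) (hs : Spt C e) (h : Cheap 0 i e) :
    PowerSeries.coeff (st i C).card (dd * tC i C e : A) = 0 := by
  obtain ⟨q, hq⟩ := cheap_dvd H hC hs h
  have h1 : dd ^ ((st i C).card + 1) ∣ (dd * tC i C e : A) := by
    rw [hq, ← mul_assoc, ← pow_succ']
    exact dvd_mul_of_dvd_left (pow_dvd_pow _ (by omega)) _
  exact I2.coeff_eq_zero_of_dvd h1

lemma not_cheap0 (Q : Nat4 r i K psi C) (hs : Spt C e)
    (h : PowerSeries.coeff (st i C).card (dd * tC i C e : A) ≠ 0) : ¬ Cheap 0 i e :=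
  fun h1 => h (cheap_coeff1 Q.H Q.hC hs h1)

open Classical in
theorem Nat4.class_eq2 (Q : Nat4 r i K psi C) :
    (C.piAntidiag 2).filter (fun e => IsCore i K psi e ∧ ¬ Cheap 0 i e) =
      (PN i C).image (fun p => on (con i p)) := by
  have H := Q.H
  ext e
  simp only [mem_filter, mem_image, I2.mem_pa]
  constructor
  · rintro ⟨⟨g1, g2⟩, g3, g4⟩
    rcases Q.cls2 g3 g2 g1.le with h | ⟨-, h⟩
    · exact absurd h g4
    · exact L2_index H g2 h
  · rintro ⟨p, hp, rfl⟩
    have hv := c2_value H Q.hi Q.hi2 Q.hC hp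
    refine ⟨⟨hv.1, c2_spt H Q.hC hp⟩, c2_core H hp, not_cheap0 Q (c2_spt H Q.hC hp) ?_⟩
    rw [hv.2]
    exact vp_ne _

lemma c2_inj (H : Gr P r) {p p' : P} (hp : p ∈ PN i C) (hp' : p' ∈ PN i C)
    (h : on (con i p) = on (con i p')) : p = p' := by
  have e1 := on_inj h
  have l1 := (PN_lev hp).2
  have l2 := (PN_lev hp').2
  have h1 : p ∈ con i p' := by rw [← e1]; exact self_con (by omega)
  rcases l2 with l2 | l2
  · rw [con_two_low H l2, mem_insert] at h1
    rcases h1 with h1 | h1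
    · exact h1
    · have := lev_uc H h1
      omega
  · rw [con_two_upp H l2, mem_insert] at h1
    rcases h1 with h1 | h1
    · exact h1
    · have := lev_dc H h1
      omega

/-- THE VALUE OF (1,2) for a natural part -/
theorem Nat4.al2 (Q : Nat4 r i K psi C) :
    I2.al 2 (st i C).card (ZS i C) = ∑ p ∈ PN i C, vp i p := by
  classical
  have H := Q.H
  have hir : i ≤ r := by have := Q.hi2; omega
  have h0 := ZC_subK H Q.hi Q.hi2 Q.hM Q.hC
    (fun e hc hs (hE : ∑ x, e x < 2) => Q.cheap0 hc hs hE)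
  rw [Nat.sub_zero] at h0
  have h1 : I2.al 2 (st i C).card (ZS i C) =
      ∑ e ∈ (C.piAntidiag 2).filter (fun e => IsCore i K psi e ∧ ¬ Cheap 0 i e),
        PowerSeries.coeff (st i C).card (dd * tC i C e : A) := by
    unfold I2.al
    rw [coeff_ZS, ← map_sum, ← Finset.mul_sum, ← sub_eq_zero, ← map_sub, ← mul_sub]
    apply I2.coeff_eq_zero_of_dvd
    have h2 := mul_dvd_mul_left dd h0
    rw [← pow_succ'] at h2
    convert h2
  rw [h1, Q.class_eq2, sum_image (fun a ha b hb h => c2_inj H ha hb h)]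
  exact sum_congr rfl fun p hp => (c2_value H Q.hi Q.hi2 Q.hC hp).2

/-- the profile of a natural part -/
theorem Nat4.prof (Q : Nat4 r i K psi C) : I2.Prof 2 4 (st i C).card (ZS i C) where
  lo := by
    classical
    intro n hn
    rw [coeff_ZS]
    have h0 := ZC_subK (n := n) Q.H Q.hi Q.hi2 Q.hM Q.hC
      (fun e hc hs (hE : ∑ x, e x < n) => Q.cheap0 hc hs (by omega))
    rw [Nat.sub_zero] at h0
    rwa [Finset.sum_eq_zero, sub_zero] at h0
    intro e he
    rw [mem_filter, I2.mem_pa] at he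
    exact absurd (Q.cheap0 he.2.1 he.1.2 (by omega)) he.2.2
  mid := by
    classical
    intro n hn
    rw [coeff_ZS]
    have h0 := ZC_subK (n := n) Q.H Q.hi Q.hi2 Q.hM Q.hC
      (fun e hc hs (hE : ∑ x, e x < n) => Q.cheap1 hc hs (by omega))
    rw [Finset.sum_eq_zero, sub_zero] at h0
    · have h2 := SO.dvd_up h0
      rwa [pow_one] at h2
    · intro e he
      rw [mem_filter, I2.mem_pa] at he
      exact absurd (Q.cheap1 he.2.1 he.1.2 (by omega)) he.2.2
  top := by
    classical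
    rw [coeff_ZS]
    have h0 := ZC_subK (n := 4) Q.H Q.hi Q.hi2 Q.hM Q.hC
      (fun e hc hs (hE : ∑ x, e x < 4) => Q.cheap1 hc hs hE)
    have h3 := (pow_dvd_pow (dd : A) (by omega : (st i C).card - 2 ≤ (st i C).card - 1)).trans h0
    have h4 := dvd_add h3 (Finset.dvd_sum (s := (C.piAntidiag 4).filter
      (fun e => IsCore i K psi e ∧ ¬ Cheap 1 i e)) (f := fun e => tC i C e) fun e he => by
        rw [mem_filter, I2.mem_pa] at he
        rcases Q.cls he.2.1 he.1.2 he.1.1.le with h | h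
        · exact absurd h he.2.2
        · exact cheap_dvd Q.H Q.hC he.1.2 h.1)
    have h5 : dd ^ ((st i C).card - 2) ∣ ZC i C 4 := by
      refine h4.trans (dvd_of_eq ?_)
      rw [sub_add_cancel]
    exact SO.dvd_up h5

/-- the leading coefficient of a natural part -/
theorem Nat4.eps1 (Q : Nat4 r i K psi C) : I2.eps (st i C).card (ZS i C) = 1 := by
  unfold I2.eps
  rw [coeff_ZS, ZC_zero Q.H (by have := Q.hi2; omega) C]
  unfold dd
  rw [PowerSeries.coeff_X_pow_self]

end Pool.Agent.GaussPoset.Win.W4
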