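import Pool.Agent.W_448w4_h10.KH

/-!
MP_448cb3_co, G2, case B, window `j`: adding a label on an untouched near element; leading coefficients.
helper10.
-/

namespace Pool.Agent.GaussPoset.Win.W4

set_option linter.unusedSectionVars false

open Finset
open Pool.Agent.GaussPoset.Win.So (IV IV_chi IV_Fe)

universe u

variable {P : Type u} [Fintype P] [PartialOrder P] [DecidableEq P] {r i : ℕ}
variable {e f : P → ℕ} {psi : P → P} {C K : Finset P}

/-! ### leading coefficients -/

/-- order at most `k` -/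
def od (b k : ℕ) (X : A) : Prop := dd ^ b ∣ dd ^ k * X

/-- the coefficient of order `k` -/
noncomputable def lc (b k : ℕ) (X : A) : ℤ := PowerSeries.coeff b (dd ^ k * X)

lemma od_zero (b k : ℕ) : od b k 0 := by
  unfold od; rw [mul_zero]; exact dvd_zero _

lemma lc_zero (b k : ℕ) : lc b k 0 = 0 := by
  unfold lc; rw [mul_zero, map_zero]

lemma od_add {b k : ℕ} {X Y : A} (h : od b k X) (h' : od b k Y) : od b k (X + Y) := by
  unfold od at *
  rw [mul_add]
  exact dvd_add h h'

lemma lc_add (b k : ℕ) (X Y : A) : lc b k (X + Y) = lc b k X + lc b k Y := by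
  unfold lc
  rw [mul_add, map_add]

lemma lc_sum {ι : Type*} (b k : ℕ) (s : Finset ι) (X : ι → A) :
    lc b k (∑ x ∈ s, X x) = ∑ x ∈ s, lc b k (X x) := by
  unfold lc
  rw [mul_sum, map_sum]

lemma od_sum {ι : Type*} {b k : ℕ} {s : Finset ι} {X : ι → A} (h : ∀ x ∈ s, od b k (X x)) :
    od b k (∑ x ∈ s, X x) := by
  unfold od at *
  rw [mul_sum]
  exact dvd_sum h

lemma od_succ {b k : ℕ} {X : A} (h : od b k X) : od b (k + 1) X := by
  unfold od at *
  rw [pow_succ', mul_assoc]
  exact dvd_mul_of_dvd_right h _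

lemma od_mono {b k l : ℕ} {X : A} (hkl : k ≤ l) (h : od b k X) : od b l X := by
  induction l, hkl using Nat.le_induction with
  | base => exact h
  | succ n hn ih => exact od_succ ih

lemma lc_of_od {b k : ℕ} {X : A} (h : od b k X) : lc b (k + 1) X = 0 := by
  unfold lc
  obtain ⟨q, hq⟩ := h
  have h1 : dd ^ (b + 1) ∣ dd ^ (k + 1) * X := by
    rw [pow_succ', pow_succ', mul_assoc, hq]
    exact mul_dvd_mul_left _ (dvd_mul_right _ _)
  exact I2.coeff_eq_zero_of_dvd h1

lemma lc_lt {b k l : ℕ} {X : A} (hkl : k < l) (h : od b k X) : lc b l X = 0 := by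
  obtain ⟨n, rfl⟩ : ∃ n, l = n + 1 := ⟨l - 1, by omega⟩
  exact lc_of_od (od_mono (by omega) h)

lemma od_mul {b k : ℕ} {X : A} (g : A) (h : od b k X) : od b k (g * X) := by
  unfold od at *
  rw [mul_left_comm]
  exact dvd_mul_of_dvd_right h _

lemma lc_mul {b k : ℕ} {X : A} (g : A) (h : od b k X) :
    lc b k (g * X) = PowerSeries.constantCoeff g * lc b k X := by
  unfold od at h
  unfold lc
  obtain ⟨q, hq⟩ := h
  rw [mul_left_comm, hq]
  have h1 : PowerSeries.coeff b (g * (dd ^ b * q) : A) = PowerSeries.coeff 0 (g * q : A) := by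
    rw [mul_left_comm]
    have h := PowerSeries.coeff_X_pow_mul (g * q : A) b 0
    rw [zero_add] at h
    exact h
  have h2 : PowerSeries.coeff b (dd ^ b * q : A) = PowerSeries.coeff 0 (q : A) := by
    have h := PowerSeries.coeff_X_pow_mul (q : A) b 0
    rw [zero_add] at h
    exact h
  rw [h1, h2, PowerSeries.coeff_zero_eq_constantCoeff_apply,
    PowerSeries.coeff_zero_eq_constantCoeff_apply, map_mul]

lemma dd_ne : (dd : A) ≠ 0 := by
  unfold dd
  exact PowerSeries.X_ne_zero

lemma dd_cancel {X Y : A} (h : dd * X = dd * Y) : X = Y := mul_left_cancel₀ dd_ne h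

lemma cc_xx : PowerSeries.constantCoeff (xx : A) = -1 := by
  unfold xx dd
  simp

lemma cc_xi : PowerSeries.constantCoeff (xi : A) = -1 := by
  unfold xi
  rw [map_neg, ← PowerSeries.coeff_zero_eq_constantCoeff_apply, PowerSeries.coeff_mk]

lemma cc_dd : PowerSeries.constantCoeff (dd : A) = 0 := by
  unfold dd
  simp

lemma od_up {b k : ℕ} {Y Z : A} (h : dd * Y = Z) (hZ : od b k Z) : od b (k + 1) Y := by
  unfold od at *
  rw [pow_succ, mul_assoc, h]
  exact hZ

lemma lc_up {b k : ℕ} {Y Z : A} (h : dd * Y = Z) : lc b (k + 1) Y = lc b k Z := by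
  unfold lc
  rw [pow_succ, mul_assoc, h]

/-- the factor of a matched pair -/
noncomputable def kap : A := (dd ^ 2 - 3 * dd + 3) * xi

lemma kap_eq : (xx ^ 2 + xi : A) = dd * kap := by
  unfold kap
  have h := xx_mul_xi
  have h1 : (dd : A) = 1 + xx := one_add_xx.symm
  rw [h1]
  linear_combination (-xx ^ 2) * h

lemma cc_kap : PowerSeries.constantCoeff (kap : A) = -3 := by
  unfold kap
  rw [map_mul, cc_xi, map_add, map_sub, map_pow, map_mul, cc_dd]
  have : PowerSeries.constantCoeff (3 : A) = 3 := by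
    have := map_ofNat (PowerSeries.constantCoeff (R := ℤ)) 3
    exact this
  rw [this]
  norm_num

/-! ### near elements -/

/-- the sites of a near element -/
noncomputable def nz (i : ℕ) (x : P) : Finset P := if lev x = i + 1 then uc x else dc x

/-- the sites with a label smaller than `a` -/
noncomputable def kz (i : ℕ) (e : P → ℕ) (x : P) (a : ℕ) : Finset P :=
  (nz i x).filter (fun v => e v < a)

open Classical in
/-- the factor of a near element with label `a` -/
noncomputable def fz (i : ℕ) (e : P → ℕ) (x : P) (a : ℕ) : A :=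
  if kz i e x a = nz i x then (if lev x = i + 1 then dd else xi * dd) else 1

/-- the sign -/
noncomputable def sg1 (i : ℕ) (x : P) : ℤ := if lev x = i + 1 then 1 else -1

/-- the killed sites on the side of `x` -/
noncomputable def KO (i : ℕ) (e : P → ℕ) (x : P) : Finset P :=
  if lev x = i + 1 then AL i e else AU i e

/-- the killed sites on the other side -/
noncomputable def KP (i : ℕ) (e : P → ℕ) (x : P) : Finset P :=
  if lev x = i + 1 then AU i e else AL i e

/-- the factor of a new killed site -/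
noncomputable def gz (i : ℕ) (x : P) : A := if lev x = i + 1 then xx else 1

lemma nz_low {x : P} (h : lev x = i + 1) : nz i x = uc x := by unfold nz; rw [if_pos h]

lemma nz_upp {x : P} (h : lev x + 1 = i) : nz i x = dc x := by
  unfold nz; rw [if_neg (by omega)]

lemma mem_kz {x v : P} {a : ℕ} : v ∈ kz i e x a ↔ v ∈ nz i x ∧ e v < a := by
  unfold kz; rw [mem_filter]

lemma kz_sub {x : P} {a : ℕ} : kz i e x a ⊆ nz i x := filter_subset _ _

lemma kz_eq_iff {x : P} {a : ℕ} : kz i e x a = nz i x ↔ ∀ v ∈ nz i x, e v < a := by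
  unfold kz
  rw [filter_eq_self]

lemma nz_lev (H : Gr P r) {x v : P} (hx : x ∈ near P i) (hv : v ∈ nz i x) : lev v = i := by
  rw [mem_near] at hx
  rcases hx with h | h
  · rw [nz_low h] at hv
    have := lev_uc H hv
    omega
  · rw [nz_upp h] at hv
    have := lev_dc H hv
    omega

lemma nz_st (H : Gr P r) (hC : Part (i + 1) C) {x : P} (hx : x ∈ near P i) (hxC : x ∈ C) :
    nz i x ⊆ st i C := by
  intro v hv
  have hl := nz_lev H hx hv
  rw [mem_near] at hx
  rcases hx with h | h
  · rw [nz_low h] at hv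
    exact mem_st.2 ⟨hC.up hxC (mem_uc.1 hv), hl⟩
  · rw [nz_upp h] at hv
    exact mem_st.2 ⟨hC.dn hxC (by omega) (mem_dc.1 hv), hl⟩

lemma wt_low {x : P} (hx : lev x = i + 1) (a : ℕ) (S : Finset P) :
    wt i e x a S = fz i e x a * chi (kz i e x a) ∅ S := by
  classical
  unfold wt wtL fz chi
  rw [if_pos hx, if_pos hx]
  have h1 : kz i e x a = nz i x ↔ ∀ v ∈ uc x, e v < a := by rw [kz_eq_iff, nz_low hx]
  have h2 : (kz i e x a ⊆ S ∧ Disjoint ∅ S) ↔ ∀ v ∈ uc x, e v < a → v ∈ S := by
    constructor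
    · rintro ⟨h, -⟩ v hv hlt
      exact h (mem_kz.2 ⟨by rw [nz_low hx]; exact hv, hlt⟩)
    · intro h
      refine ⟨fun v hv => ?_, disjoint_empty_left _⟩
      rw [mem_kz, nz_low hx] at hv
      exact h v hv.1 hv.2
  by_cases h3 : ∀ v ∈ uc x, e v < a
  · rw [if_pos h3, if_pos (h1.2 h3)]
    by_cases h4 : ∀ v ∈ uc x, e v < a → v ∈ S
    · rw [if_pos h4, if_pos (h2.2 h4)]
    · rw [if_neg h4, if_neg (fun h => h4 (h2.1 h))]
  · rw [if_neg h3, if_neg (fun h => h3 (h1.1 h))]
    by_cases h4 : ∀ v ∈ uc x, e v < a → v ∈ S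
    · rw [if_pos h4, if_pos (h2.2 h4)]
    · rw [if_neg h4, if_neg (fun h => h4 (h2.1 h))]

lemma wt_upp {x : P} (hx : lev x + 1 = i) (a : ℕ) (S : Finset P) :
    wt i e x a S = fz i e x a * chi ∅ (kz i e x a) S := by
  classical
  have hn : ¬ lev x = i + 1 := by omega
  unfold wt wtU fz chi
  simp only [if_neg hn]
  have h1 : kz i e x a = nz i x ↔ ∀ v ∈ dc x, e v < a := by rw [kz_eq_iff, nz_upp hx]
  have h2 : ((∅ : Finset P) ⊆ S ∧ Disjoint (kz i e x a) S) ↔
      ∀ v ∈ dc x, e v < a → v ∉ S := by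
    constructor
    · rintro ⟨-, h⟩ v hv hlt hS
      exact disjoint_left.1 h (mem_kz.2 ⟨by rw [nz_upp hx]; exact hv, hlt⟩) hS
    · intro h
      refine ⟨empty_subset _, ?_⟩
      rw [disjoint_left]
      intro v hv
      rw [mem_kz, nz_upp hx] at hv
      exact h v hv.1 hv.2
  by_cases h3 : ∀ v ∈ dc x, e v < a
  · rw [if_pos h3, if_pos (h1.2 h3)]
    by_cases h4 : ∀ v ∈ dc x, e v < a → v ∉ S
    · rw [if_pos h4, if_pos (h2.2 h4)]
    · rw [if_neg h4, if_neg (fun h => h4 (h2.1 h))]
  · rw [if_neg h3, if_neg (fun h => h3 (h1.1 h))]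
    by_cases h4 : ∀ v ∈ dc x, e v < a → v ∉ S
    · rw [if_pos h4, if_pos (h2.2 h4)]
    · rw [if_neg h4, if_neg (fun h => h4 (h2.1 h))]

lemma chi_mul (B D B' D' S : Finset P) :
    chi B D S * chi B' D' S = chi (B ∪ B') (D ∪ D') S := by
  unfold chi
  by_cases h1 : B ⊆ S ∧ Disjoint D S
  · by_cases h2 : B' ⊆ S ∧ Disjoint D' S
    · rw [if_pos h1, if_pos h2, if_pos, mul_one]
      exact ⟨union_subset h1.1 h2.1, disjoint_union_left.2 ⟨h1.2, h2.2⟩⟩
    · rw [if_neg h2, mul_zero, if_neg]
      rintro ⟨h3, h4⟩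
      exact h2 ⟨(union_subset_iff.1 h3).2, (disjoint_union_left.1 h4).2⟩
  · rw [if_neg h1, zero_mul, if_neg]
    rintro ⟨h3, h4⟩
    exact h1 ⟨(union_subset_iff.1 h3).1, (disjoint_union_left.1 h4).1⟩

/-- adding a label on an untouched near element -/
lemma tC_add (H : Gr P r) (hir : i ≤ r) (hC : Part i C) (hs : Spt C e) {x : P}
    (hx : x ∈ near P i) (hxC : x ∈ C) (hT : x ∉ Tch i e) (h0 : e x = 0) (a : ℕ) :
    tC i C (e + Pi.single x a) = IV (st i C) (fun S => Fe i e S * wt i e x a S) := by
  have hs' : Spt C (e + Pi.single x a) := by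
    intro y hy
    rw [Pi.add_apply, hs y hy, Pi.single_apply, if_neg (by rintro rfl; exact hy hxC), add_zero]
  rw [← IV_Fe H hC hs']
  congr 1
  funext S
  have h := fact_many H hir (e := e) {x} (singleton_subset_iff.2 hx)
    (fun y hy => by rw [mem_singleton] at hy; rw [hy]; exact hT)
    (fun y hy => by rw [mem_singleton] at hy; rw [hy]; exact h0) (Pi.single x a)
    (fun y hy => by
      rw [mem_singleton] at hy
      rw [Pi.single_apply, if_neg hy]) S
  rw [h, prod_singleton, Pi.single_eq_same]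

lemma IV_cmul {V : Finset P} (c : A) (g : Finset P → A) :
    IV V (fun S => c * g S) = c * IV V g := by
  unfold IV
  rw [mul_sum]
  exact sum_congr rfl fun S _ => by ring

/-- the common evaluation -/
lemma add_eval (H : Gr P r) (hC : Part (i + 1) C) (hs : Spt C e)
    (hA : Disjoint (AL i e) (AU i e)) {c : A} {B D : Finset P} (hB : B ⊆ st i C)
    (hD : D ⊆ st i C) (h0 : B = ∅ ∨ D = ∅) :
    (¬ Disjoint B (AU i e) ∨ ¬ Disjoint D (AL i e) →
      IV (st i C) (fun S => Fe i e S * (c * chi B D S)) = 0) ∧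
    (Disjoint B (AU i e) → Disjoint D (AL i e) →
      dd ^ ((B \ AL i e).card + (D \ AU i e).card) *
        IV (st i C) (fun S => Fe i e S * (c * chi B D S)) =
          c * xx ^ (B \ AL i e).card * tC i C e) := by
  have hCi : Part i C := ⟨fun h1 h2 => hC.up h1 h2, fun h1 h2 h3 => hC.dn h1 (by omega) h3⟩
  have sL := AL_sub hCi hs
  have sU := AU_sub H hCi hs
  have h1 : IV (st i C) (fun S => Fe i e S * (c * chi B D S)) =
      (cw i e * c) * IV (st i C) (chi (AL i e ∪ B) (AU i e ∪ D)) := by
    rw [← IV_cmul]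
    congr 1
    funext S
    unfold Fe
    rw [← chi_mul]
    ring
  rw [h1, IV_chi (union_subset sL hB) (union_subset sU hD)]
  constructor
  · intro h
    rw [if_neg, mul_zero]
    intro hd
    rw [disjoint_union_left, disjoint_union_right, disjoint_union_right] at hd
    rcases h with h | h
    · exact h hd.2.1
    · exact h hd.1.2.symm
  · intro hBU hDL
    have hBD : Disjoint B D := by
      rcases h0 with h | h
      · rw [h]; exact disjoint_empty_left _
      · rw [h]; exact disjoint_empty_right _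
    have hd : Disjoint (AL i e ∪ B) (AU i e ∪ D) := by
      rw [disjoint_union_left, disjoint_union_right, disjoint_union_right]
      exact ⟨⟨hA, hDL.symm⟩, hBU, hBD⟩
    rw [if_pos hd]
    unfold tC
    rw [if_pos hA]
    have e1 : (AL i e ∪ B).card = (AL i e).card + (B \ AL i e).card := by
      rw [← card_union_of_disjoint disjoint_sdiff, union_sdiff_self_eq_union]
    have e2 : (AU i e ∪ D).card = (AU i e).card + (D \ AU i e).card := by
      rw [← card_union_of_disjoint disjoint_sdiff, union_sdiff_self_eq_union]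
    have e3 : (AL i e ∪ B).card + (AU i e ∪ D).card ≤ (st i C).card := by
      rw [← card_union_of_disjoint hd]
      exact card_le_card (union_subset (union_subset sL hB) (union_subset sU hD))
    rw [e1, e2] at *
    have e4 : (st i C).card - (AL i e).card - (AU i e).card =
        ((B \ AL i e).card + (D \ AU i e).card) + ((st i C).card -
          ((AL i e).card + (B \ AL i e).card) - ((AU i e).card + (D \ AU i e).card)) := by
      omega
    rw [e4, pow_add (dd : A) ((B \ AL i e).card + (D \ AU i e).card), pow_add (xx : A)]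
    ring

/-- ADDING A LABEL on an untouched near element -/
theorem add_near (H : Gr P r) (hir : i ≤ r) (hC : Part (i + 1) C) (hs : Spt C e)
    (hA : Disjoint (AL i e) (AU i e)) {x : P} (hx : x ∈ near P i) (hxC : x ∈ C)
    (hT : x ∉ Tch i e) (hx0 : e x = 0) (a : ℕ) :
    (¬ Disjoint (kz i e x a) (KP i e x) → tC i C (e + Pi.single x a) = 0) ∧
    (Disjoint (kz i e x a) (KP i e x) →
      dd ^ (kz i e x a \ KO i e x).card * tC i C (e + Pi.single x a) =
        fz i e x a * gz i x ^ (kz i e x a \ KO i e x).card * tC i C e) := by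
  have hCi : Part i C := ⟨fun h1 h2 => hC.up h1 h2, fun h1 h2 h3 => hC.dn h1 (by omega) h3⟩
  have hk : kz i e x a ⊆ st i C := kz_sub.trans (nz_st H hC hx hxC)
  rw [tC_add H hir hCi hs hx hxC hT hx0 a]
  rcases mem_near.1 hx with h | h
  · have e1 : (fun S => Fe i e S * wt i e x a S) =
        fun S => Fe i e S * (fz i e x a * chi (kz i e x a) ∅ S) := by
      funext S; rw [wt_low h]
    have hev := add_eval H hC hs hA (c := fz i e x a) hk (empty_subset (st i C)) (Or.inr rfl)
    unfold KP KO gz
    rw [if_pos h, if_pos h, if_pos h, e1]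
    constructor
    · intro h1
      exact hev.1 (Or.inl h1)
    · intro h1
      have := hev.2 h1 (disjoint_empty_left _)
      rwa [empty_sdiff, card_empty, add_zero] at this
  · have hn : ¬ lev x = i + 1 := by omega
    have e1 : (fun S => Fe i e S * wt i e x a S) =
        fun S => Fe i e S * (fz i e x a * chi ∅ (kz i e x a) S) := by
      funext S; rw [wt_upp h]
    have hev := add_eval H hC hs hA (c := fz i e x a) (empty_subset (st i C)) hk (Or.inl rfl)
    unfold KP KO gz
    rw [if_neg hn, if_neg hn, if_neg hn, e1]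
    constructor
    · intro h1
      exact hev.1 (Or.inr h1)
    · intro h1
      have := hev.2 (disjoint_empty_left _) h1
      rw [empty_sdiff, card_empty, zero_add, pow_zero, mul_one] at this
      rw [one_pow, mul_one]
      exact this

/-! ### values -/

section values

variable (H : Gr P r) (hir : i ≤ r) (hC : Part (i + 1) C) (hs : Spt C e)
  (hA : Disjoint (AL i e) (AU i e)) {x : P} (hx : x ∈ near P i) (hxC : x ∈ C)
  (hT : x ∉ Tch i e) (hx0 : e x = 0) {a k : ℕ}

/-- all sites of `x` get killed and are free -/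
def Fx (i : ℕ) (e : P → ℕ) (x : P) (a : ℕ) : Prop :=
  (∀ v ∈ nz i x, e v < a) ∧ Disjoint (nz i x) (AL i e ∪ AU i e)

/-- exactly one site of `x` gets killed, and it is free -/
def Gx (i : ℕ) (e : P → ℕ) (x : P) (a : ℕ) : Prop :=
  (kz i e x a).card = 1 ∧ (nz i x).card = 2 ∧ Disjoint (kz i e x a) (AL i e ∪ AU i e)

lemma KO_or (i : ℕ) (e : P → ℕ) (x : P) :
    (KO i e x = AL i e ∧ KP i e x = AU i e) ∨ (KO i e x = AU i e ∧ KP i e x = AL i e) := by
  unfold KO KP
  by_cases h : lev x = i + 1
  · left; rw [if_pos h, if_pos h]; exact ⟨rfl, rfl⟩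
  · right; rw [if_neg h, if_neg h]; exact ⟨rfl, rfl⟩

lemma disj_KO {B : Finset P} (h : Disjoint B (AL i e ∪ AU i e)) :
    Disjoint B (KO i e x) ∧ Disjoint B (KP i e x) := by
  rw [disjoint_union_right] at h
  rcases KO_or i e x with ⟨h1, h2⟩ | ⟨h1, h2⟩
  · rw [h1, h2]; exact h
  · rw [h1, h2]; exact h.symm

lemma not_disj_KO {B : Finset P} (h : ¬ Disjoint B (AL i e ∪ AU i e)) :
    ¬ Disjoint B (KO i e x) ∨ ¬ Disjoint B (KP i e x) := by
  rw [disjoint_union_right, not_and_or] at h
  rcases KO_or i e x with ⟨h1, h2⟩ | ⟨h1, h2⟩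
  · rw [h1, h2]; exact h
  · rw [h1, h2]; exact h.symm

include H hir hC hs hA hx hxC hT hx0

/-- type F for a double near element -/
theorem val_F (h2 : (nz i x).card = 2) (hF : Fx i e x a) (ho : od (st i C).card k (tC i C e)) :
    od (st i C).card (k + 1) (tC i C (e + Pi.single x a)) ∧
      lc (st i C).card (k + 1) (tC i C (e + Pi.single x a)) =
        sg1 i x * lc (st i C).card k (tC i C e) := by
  have hkz : kz i e x a = nz i x := kz_eq_iff.2 hF.1
  obtain ⟨d1, d2⟩ := disj_KO (x := x) hF.2
  have h := (add_near H hir hC hs hA hx hxC hT hx0 a).2 (by rw [hkz]; exact d2)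
  rw [hkz, sdiff_eq_self_of_disjoint d1, h2] at h
  obtain ⟨ρ, h3, h4⟩ : ∃ ρ : A, fz i e x a * gz i x ^ 2 = dd * ρ ∧
      PowerSeries.constantCoeff ρ = sg1 i x := by
    unfold fz gz sg1
    rw [if_pos hkz]
    by_cases hl : lev x = i + 1
    · rw [if_pos hl, if_pos hl, if_pos hl]
      exact ⟨xx ^ 2, rfl, by rw [map_pow, cc_xx]; norm_num⟩
    · rw [if_neg hl, if_neg hl, if_neg hl]
      exact ⟨xi, by ring, cc_xi⟩
  have h5 : dd * tC i C (e + Pi.single x a) = ρ * tC i C e := by
    apply dd_cancel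
    rw [← mul_assoc, ← mul_assoc, ← h3, ← h]
    ring
  refine ⟨od_up h5 (od_mul _ ho), ?_⟩
  rw [lc_up h5, lc_mul _ ho, h4]

/-- type G for a double near element -/
theorem val_G (hG : Gx i e x a) (ho : od (st i C).card k (tC i C e)) :
    od (st i C).card (k + 1) (tC i C (e + Pi.single x a)) ∧
      lc (st i C).card (k + 1) (tC i C (e + Pi.single x a)) =
        -sg1 i x * lc (st i C).card k (tC i C e) := by
  obtain ⟨g1, g2, g3⟩ := hG
  have hkz : ¬ kz i e x a = nz i x := by
    intro h
    rw [h, g2] at g1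
    omega
  obtain ⟨d1, d2⟩ := disj_KO (x := x) g3
  have h := (add_near H hir hC hs hA hx hxC hT hx0 a).2 d2
  rw [sdiff_eq_self_of_disjoint d1, g1, pow_one, pow_one] at h
  have h3 : fz i e x a = 1 := by unfold fz; rw [if_neg hkz]
  rw [h3, one_mul] at h
  refine ⟨od_up h (od_mul _ ho), ?_⟩
  rw [lc_up h, lc_mul _ ho]
  congr 1
  unfold gz sg1
  by_cases hl : lev x = i + 1
  · rw [if_pos hl, if_pos hl, cc_xx]
  · rw [if_neg hl, if_neg hl, map_one]
    norm_num

/-- the order does not grow otherwise -/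
theorem val_N (h2 : (nz i x).card ≤ 2) (hF : (nz i x).card = 2 → ¬ Fx i e x a)
    (hG : ¬ Gx i e x a) (ho : od (st i C).card k (tC i C e)) :
    od (st i C).card k (tC i C (e + Pi.single x a)) := by
  by_cases hd : Disjoint (kz i e x a) (KP i e x)
  swap
  · rw [(add_near H hir hC hs hA hx hxC hT hx0 a).1 hd]
    exact od_zero _ _
  have h := (add_near H hir hC hs hA hx hxC hT hx0 a).2 hd
  have hcs := card_le_card (kz_sub (i := i) (e := e) (x := x) (a := a))
  have hcd : (kz i e x a \ KO i e x).card ≤ (kz i e x a).card := card_le_card sdiff_subset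
  by_cases hkz : kz i e x a = nz i x
  · -- all sites
    have h3 : (kz i e x a \ KO i e x).card ≤ 1 := by
      by_contra hcon
      have h4 : (nz i x).card = 2 := by omega
      refine hF h4 ⟨kz_eq_iff.1 hkz, ?_⟩
      have h5 : (kz i e x a \ KO i e x) = kz i e x a :=
        eq_of_subset_of_card_le sdiff_subset (by omega)
      by_contra h6
      rw [← hkz] at h6
      rcases not_disj_KO (x := x) h6 with h7 | h7
      · exact h7 (sdiff_eq_self_iff_disjoint.1 h5)
      · exact h7 hd
    obtain ⟨ρ, hρ⟩ : ∃ ρ : A, fz i e x a = dd * ρ := by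
      unfold fz
      rw [if_pos hkz]
      by_cases hl : lev x = i + 1
      · rw [if_pos hl]; exact ⟨1, by ring⟩
      · rw [if_neg hl]; exact ⟨xi, by ring⟩
    rw [hρ] at h
    interval_cases hn : (kz i e x a \ KO i e x).card
    · rw [pow_zero, one_mul, pow_zero, mul_one] at h
      rw [h]
      exact od_mul _ ho
    · rw [pow_one, pow_one] at h
      have h5 : tC i C (e + Pi.single x a) = (ρ * gz i x) * tC i C e := by
        apply dd_cancel
        rw [h]
        ring
      rw [h5]
      exact od_mul _ ho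
  · have h3 : (kz i e x a).card < (nz i x).card :=
      card_lt_card ((ssubset_iff_subset_ne).2 ⟨kz_sub, hkz⟩)
    have h4 : (kz i e x a \ KO i e x).card = 0 := by
      by_contra hcon
      refine hG ⟨by omega, by omega, ?_⟩
      have h5 : (kz i e x a \ KO i e x) = kz i e x a :=
        eq_of_subset_of_card_le sdiff_subset (by omega)
      by_contra h6
      rcases not_disj_KO (x := x) h6 with h7 | h7
      · exact h7 (sdiff_eq_self_iff_disjoint.1 h5)
      · exact h7 hd
    rw [h4, pow_zero, one_mul, pow_zero, mul_one] at h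
    rw [h]
    exact od_mul _ ho

end values

end Pool.Agent.GaussPoset.Win.W4
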