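import Pool.Agent.W_448w4_h10.KI

/-!
MP_448cb3_co, G2, case B, window `j`: the contribution of one label on the free near elements.
helper10.
-/

namespace Pool.Agent.GaussPoset.Win.W4

set_option linter.unusedSectionVars false

open Finset
open Pool.Agent.GaussPoset.Win.So (IV IV_chi IV_Fe)
open Pool.Agent.GaussPoset.Win.SO (sde_low sde_up)

universe u

variable {P : Type u} [Fintype P] [PartialOrder P] [DecidableEq P] {r i : ℕ}
variable {e f : P → ℕ} {psi : P → P} {C K : Finset P}

/-- a near element has one or two sites -/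
lemma nz_card (H : Gr P r) (hi : 1 ≤ i) (hi2 : i + 1 ≤ r) {x : P} (hx : x ∈ near P i) :
    1 ≤ (nz i x).card ∧ (nz i x).card ≤ 2 := by
  rcases mem_near.1 hx with h | h
  · rw [nz_low h]
    exact ⟨card_pos.2 (uc_nonempty H (by omega)), (sde_low H i).c2 x⟩
  · rw [nz_upp h]
    exact ⟨card_pos.2 (dc_nonempty H (by omega)), (sde_up H (by omega : i ≤ r)).c2 x⟩

/-- the local factor of a free near element (a matched pair counts at its lower element) -/
noncomputable def om (i : ℕ) (e : P → ℕ) (x : P) : ℤ :=
  if kz i e x 1 = nz i x then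
    (if (nz i x).card = 1 then -1 + ((nz i x ∩ (AL i e ∪ AU i e)).card : ℤ)
      else -3 + 2 * ((nz i x ∩ (AL i e ∪ AU i e)).card : ℤ) -
        (if (nz i x ∩ (AL i e ∪ AU i e)).card = 2 then 1 else 0))
  else ((nz i x).card : ℤ) - ((kz i e x 1).card : ℤ)

lemma AL_or_AU {v : P} : v ∈ AL i e ∪ AU i e → ∀ x : P, v ∈ KO i e x ∨ v ∈ KP i e x := by
  intro h x
  rw [mem_union] at h
  rcases KO_or i e x with ⟨h1, h2⟩ | ⟨h1, h2⟩
  · rw [h1, h2]; exact h
  · rw [h1, h2]; exact h.symm

section values

variable (H : Gr P r) (hi : 1 ≤ i) (hi2 : i + 1 ≤ r) (hC : Part (i + 1) C) (hs : Spt C e)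
  (hA : Disjoint (AL i e) (AU i e)) {k : ℕ}

include H hi hi2 hC hs hA

/-- a single near element -/
theorem val_single {x : P} (hx : x ∈ near P i) (hxC : x ∈ C)
    (hT : x ∉ Tch i e) (hx0 : e x = 0) (h1 : (nz i x).card = 1)
    (ho : od (st i C).card k (tC i C e)) :
    lc (st i C).card k (tC i C (e + Pi.single x 1)) =
      om i e x * lc (st i C).card k (tC i C e) := by
  have hir : i ≤ r := by omega
  obtain ⟨v, hv⟩ := card_eq_one.1 h1
  have hadd := add_near H hir hC hs hA hx hxC hT hx0 1
  unfold om
  by_cases hkz : kz i e x 1 = nz i x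
  · rw [if_pos hkz, if_pos h1]
    rw [hkz] at hadd
    obtain ⟨ρ, hρ, hρ2⟩ : ∃ ρ : A, fz i e x 1 = dd * ρ ∧
        PowerSeries.constantCoeff (ρ * gz i x) = -1 := by
      unfold fz gz
      rw [if_pos hkz]
      by_cases hl : lev x = i + 1
      · rw [if_pos hl, if_pos hl]; exact ⟨1, by ring, by rw [one_mul, cc_xx]⟩
      · rw [if_neg hl, if_neg hl]; exact ⟨xi, by ring, by rw [mul_one, cc_xi]⟩
    by_cases hk : v ∈ AL i e ∪ AU i e
    · have h2 : (nz i x ∩ (AL i e ∪ AU i e)) = {v} := by
        rw [hv, singleton_inter_of_mem hk]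
      rw [h2, card_singleton]
      norm_num
      rcases AL_or_AU hk x with h3 | h3
      · by_cases hd : Disjoint (nz i x) (KP i e x)
        · have h4 := hadd.2 hd
          have h5 : nz i x \ KO i e x = ∅ := by
            rw [sdiff_eq_empty_iff_subset, hv, singleton_subset_iff]
            exact h3
          rw [h5, card_empty, pow_zero, one_mul, pow_zero, mul_one, hρ] at h4
          rw [h4, mul_assoc, lc_mul _ (od_mul _ ho), cc_dd, zero_mul]
        · rw [hadd.1 hd, lc_zero]
      · rw [hadd.1, lc_zero]
        rw [hv, disjoint_singleton_left, not_not]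
        exact h3
    · have h2 : (nz i x ∩ (AL i e ∪ AU i e)) = ∅ := by
        rw [hv, singleton_inter_of_notMem hk]
      have hd : Disjoint (nz i x) (AL i e ∪ AU i e) := by rw [disjoint_iff_inter_eq_empty, h2]
      obtain ⟨d1, d2⟩ := disj_KO (x := x) hd
      have h4 := hadd.2 d2
      rw [sdiff_eq_self_of_disjoint d1, h1, pow_one, pow_one, hρ] at h4
      have h5 : tC i C (e + Pi.single x 1) = (ρ * gz i x) * tC i C e := by
        apply dd_cancel
        rw [h4]
        ring
      rw [h2, card_empty, h5, lc_mul _ ho, hρ2]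
      norm_num
  · rw [if_neg hkz]
    have h2 : kz i e x 1 = ∅ := by
      rw [← card_eq_zero]
      have h3 : (kz i e x 1).card < (nz i x).card :=
        card_lt_card ((ssubset_iff_subset_ne).2 ⟨kz_sub, hkz⟩)
      omega
    have h4 := hadd.2 (by rw [h2]; exact disjoint_empty_left _)
    have h3 : fz i e x 1 = 1 := by unfold fz; rw [if_neg hkz]
    rw [h2, empty_sdiff, card_empty, pow_zero, one_mul, pow_zero, mul_one, h3, one_mul] at h4
    rw [h4, h2, h1, card_empty]
    norm_num

/-- a matched pair -/
theorem val_pair {x x' : P} (lx : lev x = i + 1) (lx' : lev x' + 1 = i) (hxC : x ∈ C)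
    (hxC' : x' ∈ C) (hT : x ∉ Tch i e) (hT' : x' ∉ Tch i e) (hx0 : e x = 0) (hx0' : e x' = 0)
    (h2 : (nz i x).card = 2) (hn : nz i x' = nz i x) (ho : od (st i C).card k (tC i C e)) :
    lc (st i C).card k (tC i C (e + Pi.single x 1) + tC i C (e + Pi.single x' 1)) =
      om i e x * lc (st i C).card k (tC i C e) := by
  have hir : i ≤ r := by omega
  have hx : x ∈ near P i := mem_near.2 (Or.inl lx)
  have hx' : x' ∈ near P i := mem_near.2 (Or.inr lx')
  have nx' : ¬ lev x' = i + 1 := by omega
  have hadd := add_near H hir hC hs hA hx hxC hT hx0 1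
  have hadd' := add_near H hir hC hs hA hx' hxC' hT' hx0' 1
  have hkk : kz i e x' 1 = kz i e x 1 := by unfold kz; rw [hn]
  have o1 : KO i e x = AL i e := by unfold KO; rw [if_pos lx]
  have o2 : KP i e x = AU i e := by unfold KP; rw [if_pos lx]
  have o3 : KO i e x' = AU i e := by unfold KO; rw [if_neg nx']
  have o4 : KP i e x' = AL i e := by unfold KP; rw [if_neg nx']
  have g1 : gz i x = xx := by unfold gz; rw [if_pos lx]
  have g2 : gz i x' = 1 := by unfold gz; rw [if_neg nx']
  rw [hkk, o3, o4, g2, one_pow, mul_one] at hadd'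
  rw [o1, o2, g1] at hadd
  unfold om
  by_cases hkz : kz i e x 1 = nz i x
  · have f1 : fz i e x 1 = dd := by unfold fz; rw [if_pos hkz, if_pos lx]
    have f2 : fz i e x' 1 = xi * dd := by
      unfold fz; rw [hkk, hn, if_pos hkz, if_neg nx']
    rw [f1, hkz] at hadd
    rw [f2, hkz] at hadd'
    rw [if_pos hkz, if_neg (by omega)]
    -- the number of killed sites on each side
    have hcL := card_sdiff_add_card_inter (nz i x) (AL i e)
    have hcU := card_sdiff_add_card_inter (nz i x) (AU i e)
    have hun : (nz i x ∩ (AL i e ∪ AU i e)).card =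
        (nz i x ∩ AL i e).card + (nz i x ∩ AU i e).card := by
      rw [inter_union_distrib_left, card_union_of_disjoint]
      exact disjoint_of_subset_left inter_subset_right
        (disjoint_of_subset_right inter_subset_right hA)
    have hdL : Disjoint (nz i x) (AL i e) ↔ (nz i x ∩ AL i e).card = 0 := by
      rw [card_eq_zero, disjoint_iff_inter_eq_empty]
    have hdU : Disjoint (nz i x) (AU i e) ↔ (nz i x ∩ AU i e).card = 0 := by
      rw [card_eq_zero, disjoint_iff_inter_eq_empty]
    obtain ⟨α, hα⟩ : ∃ α, α = (nz i x ∩ AL i e).card := ⟨_, rfl⟩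
    obtain ⟨β, hβ⟩ : ∃ β, β = (nz i x ∩ AU i e).card := ⟨_, rfl⟩
    rw [← hα] at hcL hun hdL
    rw [← hβ] at hcU hun hdU
    have hle : α + β ≤ 2 := by
      rw [← hun, ← h2]
      exact card_le_card inter_subset_left
    have eL : (nz i x \ AL i e).card = 2 - α := by omega
    have eU : (nz i x \ AU i e).card = 2 - β := by omega
    rw [eL, hdU] at hadd
    rw [eU, hdL] at hadd'
    rw [hun]
    by_cases hα0 : α = 0
    · by_cases hβ0 : β = 0
      · -- free
        have h4 := hadd.2 hβ0
        have h5 := hadd'.2 hα0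
        rw [hα0, Nat.sub_zero] at h4
        rw [hβ0, Nat.sub_zero] at h5
        have h6 : tC i C (e + Pi.single x 1) + tC i C (e + Pi.single x' 1) =
            kap * tC i C e := by
          apply dd_cancel
          apply dd_cancel
          have h7 := kap_eq
          linear_combination h4 + h5 + dd * tC i C e * h7
        rw [h6, lc_mul _ ho, cc_kap, hα0, hβ0]
        norm_num
      · -- killed above
        rw [hadd.1 hβ0, zero_add]
        have h5 := hadd'.2 hα0
        rw [hα0]
        have hβ12 : β = 1 ∨ β = 2 := by omega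
        rcases hβ12 with hb | hb
        · rw [hb] at h5
          have h6 : tC i C (e + Pi.single x' 1) = xi * tC i C e := by
            apply dd_cancel
            linear_combination h5
          rw [h6, lc_mul _ ho, cc_xi, hb]
          norm_num
        · rw [hb] at h5
          have h6 : tC i C (e + Pi.single x' 1) = (xi * dd) * tC i C e := by
            linear_combination h5
          rw [h6, lc_mul _ ho, map_mul, cc_dd, hb]
          norm_num
    · rw [hadd'.1 hα0, add_zero]
      by_cases hβ0 : β = 0
      · have h4 := hadd.2 hβ0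
        rw [hβ0]
        have hα12 : α = 1 ∨ α = 2 := by omega
        rcases hα12 with hb | hb
        · rw [hb] at h4
          have h6 : tC i C (e + Pi.single x 1) = xx * tC i C e := by
            apply dd_cancel
            linear_combination h4
          rw [h6, lc_mul _ ho, cc_xx, hb]
          norm_num
        · rw [hb] at h4
          have h6 : tC i C (e + Pi.single x 1) = dd * tC i C e := by
            linear_combination h4
          rw [h6, lc_mul _ ho, cc_dd, hb]
          norm_num
      · rw [hadd.1 hβ0, lc_zero]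
        have ha1 : α = 1 := by omega
        have hb1 : β = 1 := by omega
        rw [ha1, hb1]
        norm_num
  · have f1 : fz i e x 1 = 1 := by unfold fz; rw [if_neg hkz]
    have f2 : fz i e x' 1 = 1 := by unfold fz; rw [hkk, hn, if_neg hkz]
    rw [f1, one_mul] at hadd
    rw [f2, one_mul] at hadd'
    rw [if_neg hkz]
    have h3 : (kz i e x 1).card < (nz i x).card :=
      card_lt_card ((ssubset_iff_subset_ne).2 ⟨kz_sub, hkz⟩)
    have hcL := card_sdiff_add_card_inter (kz i e x 1) (AL i e)
    have hcU := card_sdiff_add_card_inter (kz i e x 1) (AU i e)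
    have hdL : Disjoint (kz i e x 1) (AL i e) ↔ (kz i e x 1 ∩ AL i e).card = 0 := by
      rw [card_eq_zero, disjoint_iff_inter_eq_empty]
    have hdU : Disjoint (kz i e x 1) (AU i e) ↔ (kz i e x 1 ∩ AU i e).card = 0 := by
      rw [card_eq_zero, disjoint_iff_inter_eq_empty]
    have hun : (kz i e x 1 ∩ AL i e).card + (kz i e x 1 ∩ AU i e).card ≤
        (kz i e x 1).card := by
      rw [← card_union_of_disjoint]
      · exact card_le_card (union_subset inter_subset_left inter_subset_left)
      · exact disjoint_of_subset_left inter_subset_right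
          (disjoint_of_subset_right inter_subset_right hA)
    obtain ⟨α, hα⟩ : ∃ α, α = (kz i e x 1 ∩ AL i e).card := ⟨_, rfl⟩
    obtain ⟨β, hβ⟩ : ∃ β, β = (kz i e x 1 ∩ AU i e).card := ⟨_, rfl⟩
    obtain ⟨m, hm⟩ : ∃ m, m = (kz i e x 1).card := ⟨_, rfl⟩
    rw [← hα] at hcL hun hdL
    rw [← hβ] at hcU hun hdU
    rw [← hm] at hcL hcU hun h3 ⊢
    have eL : (kz i e x 1 \ AL i e).card = m - α := by omega
    have eU : (kz i e x 1 \ AU i e).card = m - β := by omega
    rw [eL, hdU] at hadd
    rw [eU, hdL] at hadd'
    have hm2 : m = 0 ∨ m = 1 := by omega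
    rcases hm2 with hm0 | hm1
    · have ha0 : α = 0 := by omega
      have hb0 : β = 0 := by omega
      have h4 := hadd.2 hb0
      have h5 := hadd'.2 ha0
      rw [hm0, Nat.zero_sub, pow_zero, one_mul, pow_zero, one_mul] at h4
      rw [hm0, Nat.zero_sub, pow_zero, one_mul] at h5
      rw [h4, h5, lc_add, h2, hm0]
      push_cast
      ring
    · rw [hm1, h2]
      by_cases hα0 : α = 0
      · by_cases hβ0 : β = 0
        · have h4 := hadd.2 hβ0
          have h5 := hadd'.2 hα0
          rw [hm1, hα0] at h4
          rw [hm1, hβ0] at h5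
          have h6 : tC i C (e + Pi.single x 1) + tC i C (e + Pi.single x' 1) = tC i C e := by
            apply dd_cancel
            have h7 : (1 : A) + xx = dd := one_add_xx
            linear_combination h4 + h5 + tC i C e * h7
          rw [h6]
          push_cast
          ring
        · have hb1 : β = 1 := by omega
          have h5 := hadd'.2 hα0
          rw [hadd.1 hβ0, zero_add]
          rw [hm1, hb1, Nat.sub_self, pow_zero, one_mul] at h5
          rw [h5]
          push_cast
          ring
      · have ha1 : α = 1 := by omega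
        have hb0 : β = 0 := by omega
        have h4 := hadd.2 hb0
        rw [hadd'.1 hα0, add_zero]
        rw [hm1, ha1, Nat.sub_self, pow_zero, one_mul, pow_zero, one_mul] at h4
        rw [h4]
        push_cast
        ring

end values

end Pool.Agent.GaussPoset.Win.W4
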