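import Pool.Agent.W_448w4_h10.KJ

/-!
MP_448cb3_co, G2, case B, window `j`: the window sum of the component with two unmatched doubles `w`, `u` as a
sum over the natural cores and the labels of `w`, `u`.  helper10.
-/

namespace Pool.Agent.GaussPoset.Win.W4

set_option linter.unusedSectionVars false

open Finset
open Pool.Agent.GaussPoset.Win.So (IV IV_chi IV_Fe)
open Pool.Agent.GaussPoset.Win.SO (sde_low sde_up)

universe u

variable {P : Type u} [Fintype P] [PartialOrder P] [DecidableEq P] {r i : ℕ}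
variable {e f : P → ℕ} {psi : P → P} {C K : Finset P} {w v : P}

/-! ### sums over labellings -/

lemma sum_pa_insert (g : P → ℕ → A) {R : Finset P} (hw : w ∉ R) (m : ℕ) :
    ∑ l ∈ (insert w R).piAntidiag m, ∏ x ∈ insert w R, g x (l x) =
      ∑ p ∈ antidiagonal m, g w p.1 * ∑ l ∈ R.piAntidiag p.2, ∏ x ∈ R, g x (l x) := by
  rw [← cons_eq_insert _ _ hw, piAntidiag_cons hw, sum_disjiUnion]
  refine sum_congr rfl ?_
  rintro ⟨a, b⟩ -
  rw [sum_map, mul_sum]
  refine sum_congr rfl ?_
  intro l hl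
  have hlw : l w = 0 := by
    rw [mem_piAntidiag] at hl
    by_contra h
    exact hw (hl.2 w h)
  rw [prod_cons]
  have h1 : (addRightEmbedding (fun t => if t = w then a else 0)) l w = a := by
    show (l + fun t => if t = w then a else 0) w = a
    rw [Pi.add_apply, if_pos rfl, hlw, zero_add]
  have h2 : ∀ x ∈ R, (addRightEmbedding (fun t => if t = w then a else 0)) l x = l x := by
    intro x hx
    show (l + fun t => if t = w then a else 0) x = l x
    rw [Pi.add_apply, if_neg (by rintro rfl; exact hw hx), add_zero]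
  show g w ((addRightEmbedding (fun t => if t = w then a else 0)) l w) * _ = _
  rw [h1]
  congr 1
  refine prod_congr rfl fun x hx => ?_
  show g x ((addRightEmbedding (fun t => if t = w then a else 0)) l x) = _
  rw [h2 x hx]

lemma sum_pa_one {M : Type*} [AddCommMonoid M] (F : (P → ℕ) → M) (R : Finset P) :
    ∑ l ∈ R.piAntidiag 1, F l = ∑ x ∈ R, F (Pi.single x 1) := by
  classical
  have h1 : R.piAntidiag 1 = R.image (fun x => (Pi.single x 1 : P → ℕ)) := by
    ext l
    rw [I2.mem_pa, mem_image]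
    constructor
    · rintro ⟨h1, h2⟩
      obtain ⟨x, -, hx⟩ : ∃ x ∈ (univ : Finset P), l x ≠ 0 := by
        by_contra hcon
        push Not at hcon
        rw [sum_eq_zero hcon] at h1
        omega
      refine ⟨x, ?_, ?_⟩
      · by_contra h3
        exact hx (h2 x h3)
      · funext y
        rw [← add_sum_erase _ _ (mem_univ x)] at h1
        have h3 : ∑ y ∈ univ.erase x, l y = 0 := by omega
        rw [sum_eq_zero_iff] at h3
        by_cases hy : y = x
        · rw [hy, Pi.single_eq_same]; omega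
        · rw [Pi.single_eq_of_ne hy]
          exact (h3 y (mem_erase.2 ⟨hy, mem_univ y⟩)).symm
    · rintro ⟨x, hx, rfl⟩
      refine ⟨by rw [sum_pi_single']; simp, fun y hy => ?_⟩
      rw [Pi.single_eq_of_ne]
      rintro rfl
      exact hy hx
  rw [h1, sum_image]
  intro x _ y _ h
  by_contra hne
  have h2 := congrFun h x
  simp only [Pi.single_eq_same] at h2
  rw [Pi.single_eq_of_ne hne] at h2
  omega

/-! ### the matching extended by the identity -/

/-- the matching, identity on `K` -/
noncomputable def ps (K : Finset P) (psi : P → P) : P → P := fun x => if x ∈ K then x else psi x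

lemma mem_RK_ps {x : P} : x ∈ RK i ∅ (ps K psi) C e ↔
    x ∈ RK i K psi C e ∨ (x ∈ K ∧ x ∈ near P i ∧ x ∈ C ∧ x ∉ Tch i e) := by
  rw [mem_RK, mem_RK, mem_Rst, mem_Rst]
  unfold ps
  by_cases hK : x ∈ K
  · rw [if_pos hK]
    constructor
    · rintro ⟨⟨h1, -, h2, -⟩, h3⟩
      exact Or.inr ⟨hK, h1, h3, h2⟩
    · rintro (⟨⟨-, h1, -⟩, -⟩ | ⟨-, h1, h2, h3⟩)
      · exact absurd hK h1
      · exact ⟨⟨h1, notMem_empty x, h3, fun h => h3 h.2⟩, h2⟩
  · rw [if_neg hK]
    constructor
    · rintro ⟨⟨h1, -, h2, h3⟩, h4⟩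
      exact Or.inl ⟨⟨h1, hK, h2, h3⟩, h4⟩
    · rintro (⟨⟨h1, -, h2, h3⟩, h4⟩ | ⟨h1, -⟩)
      · exact ⟨⟨h1, notMem_empty x, h2, h3⟩, h4⟩
      · exact absurd h1 hK

/-- a component with exactly two unmatched doubles, one lower and one upper -/
structure K5 (r i : ℕ) (K : Finset P) (psi : P → P) (C : Finset P) (w v : P) : Prop where
  H : Gr P r
  hi : 1 ≤ i
  hi2 : i + 1 ≤ r
  hM : Mat P i K psi
  hC : Part (i + 1) C
  hK : ∀ x ∈ C, x ∈ K ↔ x = w ∨ x = v
  wC : w ∈ C
  vC : v ∈ C
  lw0 : lev w = i + 1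
  lv0 : lev v + 1 = i
  nq : ∀ z ∈ C, lev z = i + 2 → ∀ x ∈ uc z, ∀ x' ∈ uc z, (uc x).card = 2 → (uc x').card = 2 →
    (uc x ∩ uc x').Nonempty
  nq' : ∀ z ∈ C, lev z + 2 = i → ∀ x ∈ dc z, ∀ x' ∈ dc z, (dc x).card = 2 → (dc x').card = 2 →
    (dc x ∩ dc x').Nonempty

lemma K5.part (Q : K5 r i K psi C w v) : Part i C :=
  ⟨fun h1 h2 => Q.hC.up h1 h2, fun h1 h2 h3 => Q.hC.dn h1 (by omega) h3⟩

lemma K5.hir (Q : K5 r i K psi C w v) : i ≤ r := by have := Q.hi2; omega

lemma K5.ne (Q : K5 r i K psi C w v) : w ≠ v := by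
  have := Q.lw0
  have := Q.lv0
  rintro rfl
  omega

lemma K5.nw (Q : K5 r i K psi C w v) : w ∈ near P i := mem_near.2 (Or.inl Q.lw0)

lemma K5.nv (Q : K5 r i K psi C w v) : v ∈ near P i := mem_near.2 (Or.inr Q.lv0)

lemma K5.wK (Q : K5 r i K psi C w v) : w ∈ K := (Q.hK w Q.wC).2 (Or.inl rfl)

lemma K5.vK (Q : K5 r i K psi C w v) : v ∈ K := (Q.hK v Q.vC).2 (Or.inr rfl)

lemma notMem_RK {x : P} (hx : x ∈ K) : x ∉ RK i K psi C e := fun h =>
  (mem_Rst.1 (mem_RK.1 h).1).2.1 hx

/-- the allowed labels of an element of `K` -/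
def Ac (i : ℕ) (e : P → ℕ) (x : P) (a : ℕ) : Prop := a = 0 ∨ x ∉ Tch i e

open Classical in
/-- THE SPLIT of the sum over the labellings of the free near elements -/
theorem K5.GK_split (Q : K5 r i K psi C w v) (e : P → ℕ) (m : ℕ) (S : Finset P) :
    GK i ∅ (ps K psi) C e m S = ∑ p ∈ antidiagonal m, ∑ q ∈ antidiagonal p.2,
      if Ac i e w p.1 ∧ Ac i e v q.1 then
        wt i e w p.1 S * (wt i e v q.1 S * GK i K psi C e q.2 S) else 0 := by
  have hir := Q.hir
  have w0 : wt i e w 0 S = 1 := wt_zero Q.H hir Q.nw e S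
  have v0 : wt i e v 0 S = 1 := wt_zero Q.H hir Q.nv e S
  have hwR : w ∉ RK i K psi C e := notMem_RK Q.wK
  have hvR : v ∉ RK i K psi C e := notMem_RK Q.vK
  have hne := Q.ne
  unfold GK
  by_cases hw : w ∈ Tch i e
  · by_cases hv : v ∈ Tch i e
    · have hR : RK i ∅ (ps K psi) C e = RK i K psi C e := by
        ext x
        rw [mem_RK_ps]
        constructor
        · rintro (h | ⟨h1, h2, h3, h4⟩)
          · exact h
          · rcases (Q.hK x h3).1 h1 with rfl | rfl
            · exact absurd hw h4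
            · exact absurd hv h4
        · exact Or.inl
      rw [hR, sum_eq_single (0, m), sum_eq_single (0, m)]
      · rw [if_pos ⟨Or.inl rfl, Or.inl rfl⟩, w0, v0, one_mul, one_mul]
      · rintro ⟨a, b⟩ h1 h2
        rw [if_neg]
        rintro ⟨-, h3 | h3⟩
        · apply h2
          rw [HasAntidiagonal.mem_antidiagonal] at h1
          simp only at h1 h3
          rw [h3, zero_add] at h1
          rw [h3, h1]
        · exact h3 hv
      · intro h
        exact absurd (HasAntidiagonal.mem_antidiagonal.2 (zero_add m)) h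
      · rintro ⟨a, b⟩ h1 h2
        refine sum_eq_zero fun q _ => ?_
        rw [if_neg]
        rintro ⟨h3 | h3, -⟩
        · apply h2
          rw [HasAntidiagonal.mem_antidiagonal] at h1
          simp only at h1 h3
          rw [h3, zero_add] at h1
          rw [h3, h1]
        · exact h3 hw
      · intro h
        exact absurd (HasAntidiagonal.mem_antidiagonal.2 (zero_add m)) h
    · have hR : RK i ∅ (ps K psi) C e = insert v (RK i K psi C e) := by
        ext x
        rw [mem_RK_ps, mem_insert]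
        constructor
        · rintro (h | ⟨h1, h2, h3, h4⟩)
          · exact Or.inr h
          · rcases (Q.hK x h3).1 h1 with rfl | rfl
            · exact absurd hw h4
            · exact Or.inl rfl
        · rintro (h | h)
          · rw [h]
            exact Or.inr ⟨Q.vK, Q.nv, Q.vC, hv⟩
          · exact Or.inl h
      rw [hR, sum_pa_insert (fun x a => wt i e x a S) hvR]
      symm
      rw [sum_eq_single (0, m)]
      · refine sum_congr rfl fun q _ => ?_
        rw [if_pos ⟨Or.inl rfl, Or.inr hv⟩, w0, one_mul]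
      · rintro ⟨a, b⟩ h1 h2
        refine sum_eq_zero fun q _ => ?_
        rw [if_neg]
        rintro ⟨h3 | h3, -⟩
        · apply h2
          rw [HasAntidiagonal.mem_antidiagonal] at h1
          simp only at h1 h3
          rw [h3, zero_add] at h1
          rw [h3, h1]
        · exact h3 hw
      · intro h
        exact absurd (HasAntidiagonal.mem_antidiagonal.2 (zero_add m)) h
  · by_cases hv : v ∈ Tch i e
    · have hR : RK i ∅ (ps K psi) C e = insert w (RK i K psi C e) := by
        ext x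
        rw [mem_RK_ps, mem_insert]
        constructor
        · rintro (h | ⟨h1, h2, h3, h4⟩)
          · exact Or.inr h
          · rcases (Q.hK x h3).1 h1 with rfl | rfl
            · exact Or.inl rfl
            · exact absurd hv h4
        · rintro (h | h)
          · rw [h]
            exact Or.inr ⟨Q.wK, Q.nw, Q.wC, hw⟩
          · exact Or.inl h
      rw [hR, sum_pa_insert (fun x a => wt i e x a S) hwR]
      refine sum_congr rfl fun p _ => ?_
      rw [sum_eq_single (0, p.2)]
      · rw [if_pos ⟨Or.inr hw, Or.inl rfl⟩, v0, one_mul]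
      · rintro ⟨a, b⟩ h1 h2
        rw [if_neg]
        rintro ⟨-, h3 | h3⟩
        · apply h2
          rw [HasAntidiagonal.mem_antidiagonal] at h1
          simp only at h1 h3
          rw [h3, zero_add] at h1
          rw [h3, h1]
        · exact h3 hv
      · intro h
        exact absurd (HasAntidiagonal.mem_antidiagonal.2 (zero_add p.2)) h
    · have hR : RK i ∅ (ps K psi) C e = insert w (insert v (RK i K psi C e)) := by
        ext x
        rw [mem_RK_ps, mem_insert, mem_insert]
        constructor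
        · rintro (h | ⟨h1, h2, h3, h4⟩)
          · exact Or.inr (Or.inr h)
          · rcases (Q.hK x h3).1 h1 with rfl | rfl
            · exact Or.inl rfl
            · exact Or.inr (Or.inl rfl)
        · rintro (h | h | h)
          · rw [h]
            exact Or.inr ⟨Q.wK, Q.nw, Q.wC, hw⟩
          · rw [h]
            exact Or.inr ⟨Q.vK, Q.nv, Q.vC, hv⟩
          · exact Or.inl h
      have hwR2 : w ∉ insert v (RK i K psi C e) := by
        rw [mem_insert, not_or]
        exact ⟨hne, hwR⟩
      rw [hR, sum_pa_insert (fun x a => wt i e x a S) hwR2]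
      refine sum_congr rfl fun p _ => ?_
      rw [sum_pa_insert (fun x a => wt i e x a S) hvR, mul_sum]
      refine sum_congr rfl fun q _ => ?_
      rw [if_pos ⟨Or.inr hw, Or.inr hv⟩]

lemma Fe_add1 (H : Gr P r) (hir : i ≤ r) {x : P} (hx : x ∈ near P i) (hT : x ∉ Tch i e)
    (h0 : e x = 0) (a : ℕ) (S : Finset P) :
    Fe i (e + Pi.single x a) S = Fe i e S * wt i e x a S := by
  have h := fact_many H hir (e := e) {x} (singleton_subset_iff.2 hx)
    (fun y hy => by rw [mem_singleton] at hy; rw [hy]; exact hT)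
    (fun y hy => by rw [mem_singleton] at hy; rw [hy]; exact h0) (Pi.single x a)
    (fun y hy => by
      rw [mem_singleton] at hy
      rw [Pi.single_apply, if_neg hy]) S
  rw [h, prod_singleton, Pi.single_eq_same]

lemma Tch_add (H : Gr P r) {l : P → ℕ} (hl : ∀ x, x ∉ near P i → l x = 0) :
    Tch i (e + l) = Tch i e := (Rst_add H ∅ id e l hl).1

lemma single_far {x : P} (hx : x ∈ near P i) (a : ℕ) : ∀ y, y ∉ near P i →
    (Pi.single x a : P → ℕ) y = 0 := by
  intro y hy
  rw [Pi.single_apply, if_neg]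
  rintro rfl
  exact hy hx

lemma RK_add (H : Gr P r) {l : P → ℕ} (hl : ∀ x, x ∉ near P i → l x = 0) :
    RK i K psi C (e + l) = RK i K psi C e := by
  unfold RK
  rw [(Rst_add H K psi e l hl).2]

lemma GK_add (H : Gr P r) {l : P → ℕ} (hl : ∀ x, x ∉ near P i → l x = 0) (m : ℕ)
    (S : Finset P) : GK i K psi C (e + l) m S = GK i K psi C e m S := by
  unfold GK
  rw [RK_add H hl]
  refine sum_congr rfl fun t _ => prod_congr rfl fun x hx => ?_
  refine So.wt_congr H (fun y hy => ?_) (RK_near hx) _ _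
  rw [Pi.add_apply, hl y, add_zero]
  rw [mem_near]
  omega

open Classical in
/-- the contribution of a natural core with labels `a`, `b` on `w`, `v` -/
noncomputable def Jx (i : ℕ) (K : Finset P) (psi : P → P) (C : Finset P) (w v : P) (e : P → ℕ)
    (a b m : ℕ) : A :=
  if Ac i e w a ∧ Ac i e v b then JK i K psi C m (e + Pi.single w a + Pi.single v b) else 0

lemma Fe_add2 (Q : K5 r i K psi C w v) {a b : ℕ} (ha : Ac i e w a) (hb : Ac i e v b)
    (hw : w ∉ Tch i e → e w = 0) (hv : v ∉ Tch i e → e v = 0) (S : Finset P) :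
    Fe i (e + Pi.single w a + Pi.single v b) S =
      Fe i e S * (wt i e w a S * wt i e v b S) := by
  have hir := Q.hir
  have h1 : Fe i (e + Pi.single w a) S = Fe i e S * wt i e w a S := by
    rcases ha with h | h
    · rw [h, Pi.single_zero, add_zero, wt_zero Q.H hir Q.nw, mul_one]
    · exact Fe_add1 Q.H hir Q.nw h (hw h) a S
  have hT : Tch i (e + Pi.single w a) = Tch i e := Tch_add Q.H (single_far Q.nw a)
  have hwt : wt i (e + Pi.single w a) v b S = wt i e v b S := by
    refine So.wt_congr Q.H (fun y hy => ?_) Q.nv _ _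
    rw [Pi.add_apply, single_far Q.nw a y, add_zero]
    rw [mem_near]
    omega
  rcases hb with h | h
  · rw [h, Pi.single_zero, add_zero, wt_zero Q.H hir Q.nv, mul_one]
    exact h1
  · rw [Fe_add1 Q.H hir Q.nv (by rw [hT]; exact h) (by
      rw [Pi.add_apply, hv h, Pi.single_apply, if_neg Q.ne.symm, add_zero]) b S, h1, hwt, mul_assoc]

lemma JK_add2 (Q : K5 r i K psi C w v) {a b : ℕ} (ha : Ac i e w a) (hb : Ac i e v b)
    (hw : w ∉ Tch i e → e w = 0) (hv : v ∉ Tch i e → e v = 0) (m : ℕ) :
    JK i K psi C m (e + Pi.single w a + Pi.single v b) = IV (st i C) (fun S =>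
      Fe i e S * (wt i e w a S * (wt i e v b S * GK i K psi C e m S))) := by
  unfold JK
  congr 1
  funext S
  rw [Fe_add2 Q ha hb hw hv, add_assoc e, GK_add Q.H]
  · ring
  · intro x hx
    rw [Pi.add_apply, single_far Q.nw _ x hx, single_far Q.nv _ x hx]

lemma IV_sum {ι : Type*} {V : Finset P} (s : Finset ι) (g : ι → Finset P → A) :
    IV V (fun S => ∑ t ∈ s, g t S) = ∑ t ∈ s, IV V (g t) := by
  unfold IV
  rw [sum_comm]
  exact sum_congr rfl fun S _ => mul_sum _ _ _

lemma core_wv (Q : K5 r i K psi C w v) (hc : IsCore i ∅ (ps K psi) e) :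
    (w ∉ Tch i e → e w = 0) ∧ (v ∉ Tch i e → e v = 0) :=
  ⟨fun h => hc w (mem_RK.1 (mem_RK_ps.2 (Or.inr ⟨Q.wK, Q.nw, Q.wC, h⟩))).1,
    fun h => hc v (mem_RK.1 (mem_RK_ps.2 (Or.inr ⟨Q.vK, Q.nv, Q.vC, h⟩))).1⟩

open Classical in
lemma K5.JK_split (Q : K5 r i K psi C w v) (hc : IsCore i ∅ (ps K psi) e) (m : ℕ) :
    JK i ∅ (ps K psi) C m e = ∑ p ∈ antidiagonal m, ∑ t ∈ antidiagonal p.2,
        Jx i K psi C w v e p.1 t.1 t.2 := by
  obtain ⟨hw, hv⟩ := core_wv Q hc
  have h1 : (fun S => Fe i e S * GK i ∅ (ps K psi) C e m S) =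
      fun S => ∑ p ∈ antidiagonal m, ∑ t ∈ antidiagonal p.2,
        if Ac i e w p.1 ∧ Ac i e v t.1 then
          Fe i e S * (wt i e w p.1 S * (wt i e v t.1 S * GK i K psi C e t.2 S)) else 0 := by
    funext S
    rw [Q.GK_split, mul_sum]
    refine sum_congr rfl fun p _ => ?_
    rw [mul_sum]
    refine sum_congr rfl fun t _ => ?_
    split_ifs
    · rfl
    · rw [mul_zero]
  unfold JK
  rw [h1]
  refine (IV_sum _ (fun (p : ℕ × ℕ) S => ∑ t ∈ antidiagonal p.2,
        if Ac i e w p.1 ∧ Ac i e v t.1 then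
          Fe i e S * (wt i e w p.1 S * (wt i e v t.1 S * GK i K psi C e t.2 S)) else 0)).trans ?_
  refine sum_congr rfl fun p _ => ?_
  refine (IV_sum _ (fun (t : ℕ × ℕ) S => if Ac i e w p.1 ∧ Ac i e v t.1 then
          Fe i e S * (wt i e w p.1 S * (wt i e v t.1 S * GK i K psi C e t.2 S)) else 0)).trans ?_
  refine sum_congr rfl fun t _ => ?_
  unfold Jx
  by_cases hac : Ac i e w p.1 ∧ Ac i e v t.1
  · rw [if_pos hac, JK_add2 Q hac.1 hac.2 hw hv]
    congr 1
    funext S
    rw [if_pos hac]
  · rw [if_neg hac]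
    have h2 : (fun S => if Ac i e w p.1 ∧ Ac i e v t.1 then
        Fe i e S * (wt i e w p.1 S * (wt i e v t.1 S * GK i K psi C e t.2 S)) else 0) =
        fun _ => (0 : A) := by
      funext S
      rw [if_neg hac]
    rw [h2]
    unfold IV
    exact sum_eq_zero fun S _ => mul_zero _

open Classical in
/-- THE WINDOW SUM of the component -/
theorem K5.ZC_split (Q : K5 r i K psi C w v) (n : ℕ) :
    ZC i C n = ∑ q ∈ range (n + 1), ∑ e ∈ (C.piAntidiag q).filter (IsCore i ∅ (ps K psi)),
      ∑ p ∈ antidiagonal (n - q), ∑ t ∈ antidiagonal p.2,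
        Jx i K psi C w v e p.1 t.1 t.2 := by
  rw [ZC_coresK Q.H Q.hir ∅ (ps K psi) Q.part n]
  refine sum_congr rfl fun q _ => sum_congr rfl fun e he => ?_
  exact Q.JK_split (mem_filter.1 he).2 _

end Pool.Agent.GaussPoset.Win.W4
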