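import Pool.Agent.W_448w4_h10.KK

/-!
MP_448cb3_co, G2, case B, window `j`: orders of the contributions of the component with two unmatched doubles.
helper10.
-/

namespace Pool.Agent.GaussPoset.Win.W4

set_option linter.unusedSectionVars false

open Finset
open Pool.Agent.GaussPoset.Win.So (IV IV_chi IV_Fe)
open Pool.Agent.GaussPoset.Win.SO (Sde Pen TD On kS tL tU sde_low sde_up kS_sum cheap_of)
open Pool.Agent.GaussPoset.Win.I2 (kd gu kl kn kr so cc fr KK KD lS uS mem_lS mem_uS kd_dc kd_uc gu_uc
  gu_dc adm_low adm_up KD_low KD_up fr_low fr_up)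

universe u

variable {P : Type u} [Fintype P] [PartialOrder P] [DecidableEq P] {r i : ℕ}
variable {e f : P → ℕ} {psi : P → P} {C K : Finset P} {w v : P}

/-! ### classification of the natural cores -/

/-- the abstract configuration of a core -/
theorem K5.cf (Q : K5 r i K psi C w v) (hc : IsCore i ∅ (ps K psi) e) (hs : Spt C e)
    (hA : AdmL i e) (hB : AdmU i e) (hd : Disjoint (AL i e) (AU i e)) :
    Cf uc dc (tL (P := P) i) (tU i) (lv P i) (lS P i) (uS P i) e where
  s1 := sde_low Q.H i
  s2 := sde_up Q.H (by have := Q.hi2; omega)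
  d1 := by
    rw [disjoint_left]
    intro x hx hx'
    rw [mem_lS] at hx
    rw [mem_lv] at hx'
    omega
  d2 := by
    rw [disjoint_left]
    intro x hx hx'
    rw [mem_uS] at hx
    rw [mem_lv] at hx'
    omega
  d3 := by
    rw [disjoint_left]
    intro x hx hx'
    rw [mem_lS] at hx
    rw [mem_uS] at hx'
    omega
  adm1 := adm_low hA
  adm2 := adm_up hB
  dis := by rw [KD_low, KD_up]; exact hd
  core1 := by
    classical
    intro x hx ht he
    rw [mem_lS] at hx
    unfold tL at ht
    have hl : lev x = i + 1 := by omega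
    have hn : x ∈ near P i := mem_near.2 (Or.inl hl)
    rcases core_nearK hc hn (notMem_empty x) he with h | ⟨h1, h2⟩
    · left
      rw [mem_Tch] at h
      rcases h with ⟨-, z, hz, hz'⟩ | ⟨h3, -⟩
      · exact ⟨z, mem_dc.2 hz, hz'⟩
      · omega
    · by_cases hxK : x ∈ K
      · left
        unfold ps at h2
        rw [if_pos hxK, mem_Tch] at h2
        rcases h2 with ⟨-, z, hz, hz'⟩ | ⟨h3, -⟩
        · exact ⟨z, mem_dc.2 hz, hz'⟩
        · omega
      right
      unfold ps at h2
      rw [if_neg hxK] at h2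
      have hd : x ∈ dbL P i := by
        rcases mem_union.1 h1 with h1 | h1
        · exact h1
        · rw [mem_dbU] at h1; omega
      obtain ⟨g1, g2⟩ := Q.hM.low x hd hxK
      rw [mem_dbL] at hd
      rw [mem_dbU] at g1
      refine ⟨psi x, mem_uS.2 (by omega), by unfold tU; omega, g2, hd.2, ?_⟩
      rw [mem_Tch] at h2
      rcases h2 with ⟨h3, -⟩ | ⟨-, z, hz, hz'⟩
      · omega
      · exact ⟨z, mem_uc.2 hz, hz'⟩
  core2 := by
    classical
    intro x hx ht he
    rw [mem_uS] at hx
    unfold tU at ht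
    have hl : lev x + 1 = i := by omega
    have hn : x ∈ near P i := mem_near.2 (Or.inr hl)
    rcases core_nearK hc hn (notMem_empty x) he with h | ⟨h1, h2⟩
    · left
      rw [mem_Tch] at h
      rcases h with ⟨h3, -⟩ | ⟨-, z, hz, hz'⟩
      · omega
      · exact ⟨z, mem_uc.2 hz, hz'⟩
    · by_cases hxK : x ∈ K
      · left
        unfold ps at h2
        rw [if_pos hxK, mem_Tch] at h2
        rcases h2 with ⟨h3, -⟩ | ⟨-, z, hz, hz'⟩
        · omega
        · exact ⟨z, mem_uc.2 hz, hz'⟩
      right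
      unfold ps at h2
      rw [if_neg hxK] at h2
      have hd : x ∈ dbU P i := by
        rcases mem_union.1 h1 with h1 | h1
        · rw [mem_dbL] at h1; omega
        · exact h1
      obtain ⟨g1, g2⟩ := Q.hM.upp x hd hxK
      rw [mem_dbU] at hd
      rw [mem_dbL] at g1
      refine ⟨psi x, mem_lS.2 (by omega), by unfold tL; omega, g2, hd.2, ?_⟩
      rw [mem_Tch] at h2
      rcases h2 with ⟨-, z, hz, hz'⟩ | ⟨h3, -⟩
      · exact ⟨z, mem_dc.2 hz, hz'⟩
      · omega

/-- CLASSIFICATION -/
theorem K5.cls (Q : K5 r i K psi C w v) (hc : IsCore i ∅ (ps K psi) e) (hs : Spt C e)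
    (hE : ∑ x, e x ≤ 4) : Cheap 1 i e ∨ (Cheap 2 i e ∧ L4 i e) := by
  by_cases hA : AdmL i e
  swap
  · exact Or.inl (Or.inl hA)
  by_cases hB : AdmU i e
  swap
  · exact Or.inl (Or.inr (Or.inl hB))
  by_cases hd : Disjoint (AL i e) (AU i e)
  swap
  · exact Or.inl (Or.inr (Or.inr (Or.inl hd)))
  have nq1 : NQ uc (tL (P := P) i) (lS P i) e := by
    intro w hw ht he x hx x' hx' h1 h2
    rw [mem_lS] at hw
    unfold tL at ht
    exact Q.nq w (mem_of_pos hs he) (by omega) x hx x' hx' h1 h2
  have nq2 : NQ dc (tU (P := P) i) (uS P i) e := by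
    intro w hw ht he x hx x' hx' h1 h2
    rw [mem_uS] at hw
    unfold tU at ht
    exact Q.nq' w (mem_of_pos hs he) (by omega) x hx x' hx' h1 h2
  rcases (Q.cf hc hs hA hB hd).classify hE nq1 nq2 with h | ⟨h1, h2⟩
  · exact Or.inl (cheap_of (by exact_mod_cast h))
  · exact Or.inr ⟨cheap_of (by exact_mod_cast h1), h2⟩

/-- CLASSIFICATION, energy at most two -/
theorem K5.cls2 (Q : K5 r i K psi C w v) (hc : IsCore i ∅ (ps K psi) e) (hs : Spt C e)
    (hE : ∑ x, e x ≤ 2) : Cheap 0 i e ∨ (Cheap 1 i e ∧ L2 i e) := by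
  by_cases hA : AdmL i e
  swap
  · exact Or.inl (Or.inl hA)
  by_cases hB : AdmU i e
  swap
  · exact Or.inl (Or.inr (Or.inl hB))
  by_cases hd : Disjoint (AL i e) (AU i e)
  swap
  · exact Or.inl (Or.inr (Or.inr (Or.inl hd)))
  rcases (Q.cf hc hs hA hB hd).low2 hE with h | ⟨h1, h2⟩
  · exact Or.inl (SO.cheap_of (by exact_mod_cast h))
  · exact Or.inr ⟨SO.cheap_of (by exact_mod_cast h1), h2⟩

theorem K5.cheap0 (Q : K5 r i K psi C w v) (hc : IsCore i ∅ (ps K psi) e) (hs : Spt C e)
    (hE : ∑ x, e x < 2) : Cheap 0 i e := by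
  rcases Q.cls2 hc hs hE.le with h | ⟨-, h⟩
  · exact h
  · have := h.energy Q.H
    omega

theorem K5.cheap1 (Q : K5 r i K psi C w v) (hc : IsCore i ∅ (ps K psi) e) (hs : Spt C e)
    (hE : ∑ x, e x < 4) : Cheap 1 i e := by
  rcases Q.cls hc hs hE.le with h | ⟨-, h⟩
  · exact h
  · have := h.energy Q.H
    omega

theorem K5.cheap2 (Q : K5 r i K psi C w v) (hc : IsCore i ∅ (ps K psi) e) (hs : Spt C e)
    (hE : ∑ x, e x ≤ 4) : Cheap 2 i e := by
  rcases Q.cls hc hs hE with h | ⟨h, -⟩
  · exact Cheap.mono (by omega) h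
  · exact h

/-! ### orders -/

/-- zero or one -/
def ind (a : ℕ) : ℕ := if a = 0 then 0 else 1

lemma ind_zero : ind 0 = 0 := rfl

lemma ind_pos {a : ℕ} (h : a ≠ 0) : ind a = 1 := if_neg h

lemma kz_lv (H : Gr P r) {x : P} (hx : x ∈ near P i) {a : ℕ} : kz i e x a ⊆ lv P i := by
  intro y hy
  rw [mem_lv]
  exact nz_lev H hx (kz_sub hy)

/-- a near element has at most one deficit -/
lemma Rk_wt (H : Gr P r) (hi : 1 ≤ i) (hi2 : i + 1 ≤ r) {x : P} (hx : x ∈ near P i) (a : ℕ) :
    Rk (lv P i) (ind a) (wt i e x a) := by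
  by_cases ha : a = 0
  · rw [ha, ind_zero]
    refine Rk_congr (f := fun _ => 1) (fun S _ => ?_) (Rk_const _ 0 1)
    exact (wt_zero H (by omega) hx e S).symm
  rw [ind_pos ha]
  have h2 := (nz_card H hi hi2 hx).2
  have h1 := card_le_card (kz_sub (i := i) (e := e) (x := x) (a := a))
  obtain ⟨p, hp, hdp⟩ : ∃ p, (kz i e x a).card ≤ p + 1 ∧ dd ^ p ∣ fz i e x a := by
    by_cases hkz : kz i e x a = nz i x
    · refine ⟨1, by omega, ?_⟩
      unfold fz
      rw [if_pos hkz, pow_one]
      split_ifs
      · exact dvd_rfl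
      · exact dvd_mul_left _ _
    · refine ⟨0, ?_, by rw [pow_zero]; exact one_dvd _⟩
      have h3 : (kz i e x a).card < (nz i x).card :=
        card_lt_card ((Finset.ssubset_iff_subset_ne).2 ⟨kz_sub, hkz⟩)
      omega
  rcases mem_near.1 hx with h | h
  · refine Rk_congr (f := fun S => fz i e x a * chi (kz i e x a) ∅ S)
      (fun S _ => (wt_low h a S).symm) ?_
    exact Rk_chi (kz_lv H hx) (empty_subset _) (by rw [card_empty]; omega) hdp
  · refine Rk_congr (f := fun S => fz i e x a * chi ∅ (kz i e x a) S)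
      (fun S _ => (wt_upp h a S).symm) ?_
    exact Rk_chi (empty_subset _) (kz_lv H hx) (by rw [card_empty]; omega) hdp

lemma od_of_Rk {k : ℕ} {g : Finset P → A} (h : Rk (lv P i) k g) :
    od (st i C).card k (IV (st i C) g) :=
  SO.dvd_up (So.Rk_IV (So.Rk_sub (So.st_sub i C) h))

/-- ORDER of a contribution -/
theorem K5.Jx_od (Q : K5 r i K psi C w v) (hc : IsCore i ∅ (ps K psi) e) {k : ℕ}
    (hk : Cheap k i e) (a b m : ℕ) :
    od (st i C).card (k + ind a + ind b) (Jx i K psi C w v e a b m) := by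
  unfold Jx
  split_ifs with h
  · obtain ⟨hw, hv⟩ := core_wv Q hc
    rw [JK_add2 Q h.1 h.2 hw hv]
    apply od_of_Rk
    have h1 := Rk_mul (Rk_of_cheap hk) (Rk_mul (Rk_wt (e := e) Q.H Q.hi Q.hi2 Q.nw a)
      (Rk_mul (Rk_wt (e := e) Q.H Q.hi Q.hi2 Q.nv b) (GK_Rk Q.H Q.hi Q.hi2 Q.hM Q.hC e m)))
    rw [add_zero, ← add_assoc] at h1
    exact h1
  · exact od_zero _ _

/-- both labels positive and a common site without label: nothing -/
theorem K5.Jx_both (Q : K5 r i K psi C w v) (hc : IsCore i ∅ (ps K psi) e) {q : P}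
    (hq : q ∈ uc w) (hq' : q ∈ dc v) (h0 : e q = 0) {a b : ℕ} (ha : a ≠ 0) (hb : b ≠ 0)
    (m : ℕ) : Jx i K psi C w v e a b m = 0 := by
  unfold Jx
  split_ifs with h
  · obtain ⟨hw, hv⟩ := core_wv Q hc
    rw [JK_add2 Q h.1 h.2 hw hv]
    unfold IV
    refine sum_eq_zero fun S _ => ?_
    have h1 : wt i e w a S * (wt i e v b S * GK i K psi C e m S) = 0 := by
      rw [wt_low Q.lw0, wt_upp Q.lv0]
      have q1 : q ∈ kz i e w a := mem_kz.2 ⟨by rw [nz_low Q.lw0]; exact hq, by omega⟩
      have q2 : q ∈ kz i e v b := mem_kz.2 ⟨by rw [nz_upp Q.lv0]; exact hq', by omega⟩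
      by_cases hS : q ∈ S
      · have : chi ∅ (kz i e v b) S = 0 := by
          unfold chi
          rw [if_neg]
          rintro ⟨-, h2⟩
          exact disjoint_left.1 h2 q2 hS
        rw [this]
        ring
      · have : chi (kz i e w a) ∅ S = 0 := by
          unfold chi
          rw [if_neg]
          rintro ⟨h2, -⟩
          exact hS (h2 q1)
        rw [this]
        ring
    show xx ^ S.card * (Fe i e S * (wt i e w a S * (wt i e v b S * GK i K psi C e m S))) = 0
    rw [h1, mul_zero, mul_zero]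
  · rfl

/-- the order does not grow unless the element is of type F or G -/
theorem Rk_N (H : Gr P r) {x : P} (hx : x ∈ near P i) {a k : ℕ}
    (h2 : (nz i x).card ≤ 2) (hF : (nz i x).card = 2 → ¬ Fx i e x a)
    (hG : ¬ Gx i e x a) (hk : Cheap k i e) :
    Rk (lv P i) k (fun S => Fe i e S * wt i e x a S) := by
  classical
  by_cases hadm : AdmL i e ∧ AdmU i e
  swap
  · refine Rk_congr (f := fun _ => 0) ?_ (Rk_zero _ k)
    intro S _
    unfold Fe cw
    rw [if_neg hadm, zero_mul, zero_mul]
  by_cases hA : Disjoint (AL i e) (AU i e)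
  swap
  · refine Rk_congr (f := fun _ => 0) ?_ (Rk_zero _ k)
    intro S _
    have : chi (AL i e) (AU i e) S = 0 := by
      unfold chi
      rw [if_neg]
      rintro ⟨h1, h2⟩
      exact hA (disjoint_of_subset_left h1 h2.symm)
    show 0 = Fe i e S * wt i e x a S
    unfold Fe
    rw [this, mul_zero, zero_mul]
  have hle : (AL i e).card + (AU i e).card ≤ pL i e + pU i e + k := by
    rcases hk with h1 | h1 | h1 | h1
    · exact absurd hadm.1 h1
    · exact absurd hadm.2 h1
    · exact absurd hA h1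
    · exact h1
  have hcw : dd ^ (pL i e + pU i e) ∣ cw i e := by
    unfold cw
    rw [if_pos hadm]
    exact Dvd.intro_left _ rfl
  -- the function
  have hfun : ∀ S, Fe i e S * wt i e x a S = (cw i e * fz i e x a) *
      (if lev x = i + 1 then chi (AL i e ∪ kz i e x a) (AU i e) S else
        chi (AL i e) (AU i e ∪ kz i e x a) S) := by
    intro S
    unfold Fe
    rcases mem_near.1 hx with h | h
    · rw [wt_low h, if_pos h]
      have := chi_mul (AL i e) (AU i e) (kz i e x a) ∅ S
      rw [union_empty] at this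
      rw [← this]
      ring
    · rw [wt_upp h, if_neg (by omega)]
      have := chi_mul (AL i e) (AU i e) ∅ (kz i e x a) S
      rw [union_empty] at this
      rw [← this]
      ring
  by_cases hd : Disjoint (kz i e x a) (KP i e x)
  swap
  · refine Rk_congr (f := fun _ => 0) ?_ (Rk_zero _ k)
    intro S _
    show 0 = Fe i e S * wt i e x a S
    rw [hfun]
    unfold KP at hd
    by_cases hl : lev x = i + 1
    · rw [if_pos hl] at hd ⊢
      have : chi (AL i e ∪ kz i e x a) (AU i e) S = 0 := by
        unfold chi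
        rw [if_neg]
        rintro ⟨h1, h2⟩
        exact hd (disjoint_of_subset_left (union_subset_iff.1 h1).2 h2.symm)
      rw [this, mul_zero]
    · rw [if_neg hl] at hd ⊢
      have : chi (AL i e) (AU i e ∪ kz i e x a) S = 0 := by
        unfold chi
        rw [if_neg]
        rintro ⟨h1, h2⟩
        exact hd (disjoint_of_subset_right h1 (disjoint_union_left.1 h2).2)
      rw [this, mul_zero]
  have hcs := card_le_card (kz_sub (i := i) (e := e) (x := x) (a := a))
  have hcd : (kz i e x a \ KO i e x).card ≤ (kz i e x a).card := card_le_card sdiff_subset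
  obtain ⟨p, hp, hdp⟩ : ∃ p, (kz i e x a \ KO i e x).card ≤ p ∧ dd ^ p ∣ fz i e x a := by
    by_cases hkz : kz i e x a = nz i x
    · refine ⟨1, ?_, ?_⟩
      · by_contra hcon
        have h4 : (nz i x).card = 2 := by omega
        refine hF h4 ⟨kz_eq_iff.1 hkz, ?_⟩
        have h5 : (kz i e x a \ KO i e x) = kz i e x a :=
          eq_of_subset_of_card_le sdiff_subset (by omega)
        by_contra h6
        rw [← hkz] at h6
        rcases not_disj_KO (x := x) h6 with h7 | h7
        · exact h7 (sdiff_eq_self_iff_disjoint.1 h5)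
        · exact h7 hd
      · unfold fz
        rw [if_pos hkz, pow_one]
        split_ifs
        · exact dvd_rfl
        · exact dvd_mul_left _ _
    · refine ⟨0, ?_, by rw [pow_zero]; exact one_dvd _⟩
      have h3 : (kz i e x a).card < (nz i x).card :=
        card_lt_card ((Finset.ssubset_iff_subset_ne).2 ⟨kz_sub, hkz⟩)
      by_contra hcon
      refine hG ⟨by omega, by omega, ?_⟩
      have h5 : (kz i e x a \ KO i e x) = kz i e x a :=
        eq_of_subset_of_card_le sdiff_subset (by omega)
      by_contra h6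
      rcases not_disj_KO (x := x) h6 with h7 | h7
      · exact h7 (sdiff_eq_self_iff_disjoint.1 h5)
      · exact h7 hd
  have hdv : dd ^ (pL i e + pU i e + p) ∣ cw i e * fz i e x a := by
    rw [pow_add]
    exact mul_dvd_mul hcw hdp
  have sL : AL i e ⊆ lv P i := by
    unfold AL
    exact filter_subset _ _
  have sU : AU i e ⊆ lv P i := by
    unfold AU
    exact filter_subset _ _
  refine Rk_congr (fun S _ => (hfun S).symm) ?_
  unfold KO at hp
  by_cases hl : lev x = i + 1
  · rw [if_pos hl] at hp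
    simp only [if_pos hl]
    have e1 : (AL i e ∪ kz i e x a).card = (AL i e).card + (kz i e x a \ AL i e).card := by
      rw [← card_union_of_disjoint disjoint_sdiff, union_sdiff_self_eq_union]
    exact Rk_chi (union_subset sL (kz_lv H hx)) sU (by omega) hdv
  · rw [if_neg hl] at hp
    simp only [if_neg hl]
    have e1 : (AU i e ∪ kz i e x a).card = (AU i e).card + (kz i e x a \ AU i e).card := by
      rw [← card_union_of_disjoint disjoint_sdiff, union_sdiff_self_eq_union]
    exact Rk_chi sL (union_subset sU (kz_lv H hx)) (by omega) hdv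

end Pool.Agent.GaussPoset.Win.W4
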