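import Pool.Agent.W_448w4_h10.KL

/-!
MP_448cb3_co, G2, case B, window `j`: the leading coefficients of the window sums of energy one to four of the
component with two unmatched doubles.  helper10.
-/

namespace Pool.Agent.GaussPoset.Win.W4

set_option linter.unusedSectionVars false

open Finset
open Pool.Agent.GaussPoset.Win.So (IV IV_chi IV_Fe)

universe u

variable {P : Type u} [Fintype P] [PartialOrder P] [DecidableEq P] {r i : ℕ}
variable {e f : P → ℕ} {psi : P → P} {C K : Finset P} {w v : P}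

open Classical in
/-- the natural cores of energy `q` -/
noncomputable def Co (i : ℕ) (K : Finset P) (psi : P → P) (C : Finset P) (q : ℕ) :
    Finset (P → ℕ) := (C.piAntidiag q).filter (IsCore i ∅ (ps K psi))

lemma mem_Co {q : ℕ} : e ∈ Co i K psi C q ↔
    ∑ x, e x = q ∧ Spt C e ∧ IsCore i ∅ (ps K psi) e := by
  classical
  unfold Co
  rw [mem_filter, I2.mem_pa, and_assoc]

lemma anti0 {M : Type*} [AddCommMonoid M] (g : ℕ → ℕ → ℕ → M) :
    ∑ p ∈ antidiagonal 0, ∑ t ∈ antidiagonal p.2, g p.1 t.1 t.2 = g 0 0 0 := by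
  simp

lemma anti1 {M : Type*} [AddCommMonoid M] (g : ℕ → ℕ → ℕ → M) :
    ∑ p ∈ antidiagonal 1, ∑ t ∈ antidiagonal p.2, g p.1 t.1 t.2 =
      g 0 0 1 + (g 0 1 0 + g 1 0 0) := by
  simp [Finset.Nat.antidiagonal_succ, add_assoc]

lemma anti2 {M : Type*} [AddCommMonoid M] (g : ℕ → ℕ → ℕ → M) :
    ∑ p ∈ antidiagonal 2, ∑ t ∈ antidiagonal p.2, g p.1 t.1 t.2 =
      g 0 0 2 + (g 0 1 1 + (g 0 2 0 + (g 1 0 1 + (g 1 1 0 + g 2 0 0)))) := by
  simp [Finset.Nat.antidiagonal_succ, add_assoc]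

lemma anti3 {M : Type*} [AddCommMonoid M] (g : ℕ → ℕ → ℕ → M) :
    ∑ p ∈ antidiagonal 3, ∑ t ∈ antidiagonal p.2, g p.1 t.1 t.2 =
      g 0 0 3 + (g 0 1 2 + (g 0 2 1 + (g 0 3 0 + (g 1 0 2 + (g 1 1 1 + (g 1 2 0 +
        (g 2 0 1 + (g 2 1 0 + g 3 0 0)))))))) := by
  simp [Finset.Nat.antidiagonal_succ, add_assoc]

section

variable (Q : K5 r i K psi C w v)
include Q

lemma K5.lc_J (hc : IsCore i ∅ (ps K psi) e) {k l a b : ℕ} (hk : Cheap k i e)
    (hl : k + ind a + ind b < l) (m : ℕ) :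
    lc (st i C).card l (Jx i K psi C w v e a b m) = 0 :=
  lc_lt hl (Q.Jx_od hc hk a b m)

lemma K5.Jx0 (hc : IsCore i ∅ (ps K psi) e) (hs : Spt C e) :
    Jx i K psi C w v e 0 0 0 = tC i C e := by
  unfold Jx
  rw [if_pos ⟨Or.inl rfl, Or.inl rfl⟩, Pi.single_zero, Pi.single_zero, add_zero, add_zero,
    JK_zero Q.H Q.hir Q.part hs]

/-- the general form -/
lemma K5.lc_ZC (n l : ℕ) : lc (st i C).card l (ZC i C n) =
    ∑ q ∈ range (n + 1), ∑ e ∈ Co i K psi C q,
      ∑ p ∈ antidiagonal (n - q), ∑ t ∈ antidiagonal p.2,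
        lc (st i C).card l (Jx i K psi C w v e p.1 t.1 t.2) := by
  rw [Q.ZC_split n, lc_sum]
  refine sum_congr rfl fun q _ => ?_
  rw [lc_sum]
  refine sum_congr rfl fun e _ => ?_
  rw [lc_sum]
  refine sum_congr rfl fun p _ => ?_
  rw [lc_sum]

/-- the orders -/
theorem K5.od_ZC {n l : ℕ} (h : ∀ q, q ≤ n → ∀ e ∈ Co i K psi C q,
      ∀ p ∈ antidiagonal (n - q), ∀ t ∈ antidiagonal p.2,
        od (st i C).card l (Jx i K psi C w v e p.1 t.1 t.2)) :
    od (st i C).card l (ZC i C n) := by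
  rw [Q.ZC_split n]
  exact od_sum fun q hq => od_sum fun e he => od_sum fun p hp => od_sum fun t ht =>
    h q (by rw [mem_range] at hq; omega) e he p hp t ht

variable {q : P} (hq : q ∈ uc w) (hq' : q ∈ dc v)
include hq hq'

/-- THE ENERGY FOUR -/
theorem K5.lc4 : lc (st i C).card 2 (ZC i C 4) =
    ∑ e ∈ Co i K psi C 4, lc (st i C).card 2 (tC i C e) +
    ∑ e ∈ Co i K psi C 3, (lc (st i C).card 2 (Jx i K psi C w v e 0 1 0) +
      lc (st i C).card 2 (Jx i K psi C w v e 1 0 0)) +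
    ∑ e ∈ Co i K psi C 2, (lc (st i C).card 2 (Jx i K psi C w v e 0 1 1) +
      lc (st i C).card 2 (Jx i K psi C w v e 0 2 0) +
      lc (st i C).card 2 (Jx i K psi C w v e 1 0 1) +
      lc (st i C).card 2 (Jx i K psi C w v e 2 0 0) +
      lc (st i C).card 2 (Jx i K psi C w v e 1 1 0)) +
    ∑ e ∈ Co i K psi C 1, (lc (st i C).card 2 (Jx i K psi C w v e 1 1 1) +
      lc (st i C).card 2 (Jx i K psi C w v e 1 2 0) +
      lc (st i C).card 2 (Jx i K psi C w v e 2 1 0)) := by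
  rw [Q.lc_ZC, sum_range_succ, sum_range_succ, sum_range_succ, sum_range_succ, sum_range_one]
  have h0 : ∑ e ∈ Co i K psi C 0, ∑ p ∈ antidiagonal (4 - 0), ∑ t ∈ antidiagonal p.2,
        lc (st i C).card 2 (Jx i K psi C w v e p.1 t.1 t.2) = 0 := by
    refine sum_eq_zero fun e he => sum_eq_zero fun p _ => sum_eq_zero fun t _ => ?_
    obtain ⟨h1, h2, h3⟩ := mem_Co.1 he
    have hk := Q.cheap0 h3 h2 (by omega)
    have h0 : e q = 0 := by
      rw [sum_eq_zero_iff] at h1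
      exact h1 q (mem_univ q)
    by_cases ha : p.1 = 0
    · refine Q.lc_J h3 hk ?_ _
      rw [ha, ind_zero]
      unfold ind
      split_ifs <;> omega
    by_cases hb : t.1 = 0
    · refine Q.lc_J h3 hk ?_ _
      rw [hb, ind_zero]
      unfold ind
      split_ifs <;> omega
    rw [Q.Jx_both h3 hq hq' h0 ha hb, lc_zero]
  have h1 : ∀ e ∈ Co i K psi C 1, ∑ p ∈ antidiagonal (4 - 1), ∑ t ∈ antidiagonal p.2,
        lc (st i C).card 2 (Jx i K psi C w v e p.1 t.1 t.2) =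
      (lc (st i C).card 2 (Jx i K psi C w v e 1 1 1) +
      lc (st i C).card 2 (Jx i K psi C w v e 1 2 0) +
      lc (st i C).card 2 (Jx i K psi C w v e 2 1 0)) := by
    intro e he
    obtain ⟨h1, h2, h3⟩ := mem_Co.1 he
    have hk := Q.cheap0 h3 h2 (by omega)
    have hz : ∀ a b m : ℕ, a = 0 ∨ b = 0 →
        lc (st i C).card 2 (Jx i K psi C w v e a b m) = 0 := by
      intro a b m hab
      refine Q.lc_J h3 hk ?_ _
      rcases hab with h | h
      · rw [h, ind_zero]; unfold ind; split_ifs <;> omega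
      · rw [h, ind_zero]; unfold ind; split_ifs <;> omega
    rw [show 4 - 1 = 3 from rfl,
      anti3 (fun a b m => lc (st i C).card 2 (Jx i K psi C w v e a b m))]
    rw [hz 0 0 3 (Or.inl rfl), hz 0 1 2 (Or.inl rfl), hz 0 2 1 (Or.inl rfl),
      hz 0 3 0 (Or.inl rfl), hz 1 0 2 (Or.inr rfl), hz 2 0 1 (Or.inr rfl),
      hz 3 0 0 (Or.inr rfl)]
    ring
  have h2 : ∀ e ∈ Co i K psi C 2, ∑ p ∈ antidiagonal (4 - 2), ∑ t ∈ antidiagonal p.2,
        lc (st i C).card 2 (Jx i K psi C w v e p.1 t.1 t.2) =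
      (lc (st i C).card 2 (Jx i K psi C w v e 0 1 1) +
      lc (st i C).card 2 (Jx i K psi C w v e 0 2 0) +
      lc (st i C).card 2 (Jx i K psi C w v e 1 0 1) +
      lc (st i C).card 2 (Jx i K psi C w v e 2 0 0) +
      lc (st i C).card 2 (Jx i K psi C w v e 1 1 0)) := by
    intro e he
    obtain ⟨h1, h2, h3⟩ := mem_Co.1 he
    have hk := Q.cheap1 h3 h2 (by omega)
    rw [show 4 - 2 = 2 from rfl,
      anti2 (fun a b m => lc (st i C).card 2 (Jx i K psi C w v e a b m))]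
    rw [Q.lc_J h3 hk (a := 0) (b := 0) (by rw [ind_zero]; omega) 2]
    ring
  have h3 : ∀ e ∈ Co i K psi C 3, ∑ p ∈ antidiagonal (4 - 3), ∑ t ∈ antidiagonal p.2,
        lc (st i C).card 2 (Jx i K psi C w v e p.1 t.1 t.2) =
      (lc (st i C).card 2 (Jx i K psi C w v e 0 1 0) +
      lc (st i C).card 2 (Jx i K psi C w v e 1 0 0)) := by
    intro e he
    obtain ⟨h1, h2, h3⟩ := mem_Co.1 he
    have hk := Q.cheap1 h3 h2 (by omega)
    rw [show 4 - 3 = 1 from rfl,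
      anti1 (fun a b m => lc (st i C).card 2 (Jx i K psi C w v e a b m))]
    rw [Q.lc_J h3 hk (a := 0) (b := 0) (by rw [ind_zero]; omega) 1]
    ring
  have h4 : ∀ e ∈ Co i K psi C 4, ∑ p ∈ antidiagonal (4 - 4), ∑ t ∈ antidiagonal p.2,
        lc (st i C).card 2 (Jx i K psi C w v e p.1 t.1 t.2) =
      lc (st i C).card 2 (tC i C e) := by
    intro e he
    obtain ⟨h1, h2, h3⟩ := mem_Co.1 he
    rw [show 4 - 4 = 0 from rfl,
      anti0 (fun a b m => lc (st i C).card 2 (Jx i K psi C w v e a b m)), Q.Jx0 h3 h2]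
  rw [h0, sum_congr rfl h1, sum_congr rfl h2, sum_congr rfl h3, sum_congr rfl h4]
  ring

/-- THE ENERGY THREE -/
theorem K5.lc3 : lc (st i C).card 2 (ZC i C 3) =
    ∑ e ∈ Co i K psi C 2, (lc (st i C).card 2 (Jx i K psi C w v e 0 1 0) +
      lc (st i C).card 2 (Jx i K psi C w v e 1 0 0)) +
    ∑ e ∈ Co i K psi C 1, lc (st i C).card 2 (Jx i K psi C w v e 1 1 0) := by
  rw [Q.lc_ZC, sum_range_succ, sum_range_succ, sum_range_succ, sum_range_one]
  have h0 : ∑ e ∈ Co i K psi C 0, ∑ p ∈ antidiagonal (3 - 0), ∑ t ∈ antidiagonal p.2,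
        lc (st i C).card 2 (Jx i K psi C w v e p.1 t.1 t.2) = 0 := by
    refine sum_eq_zero fun e he => sum_eq_zero fun p _ => sum_eq_zero fun t _ => ?_
    obtain ⟨h1, h2, h3⟩ := mem_Co.1 he
    have hk := Q.cheap0 h3 h2 (by omega)
    have h0 : e q = 0 := by
      rw [sum_eq_zero_iff] at h1
      exact h1 q (mem_univ q)
    by_cases ha : p.1 = 0
    · refine Q.lc_J h3 hk ?_ _
      rw [ha, ind_zero]
      unfold ind
      split_ifs <;> omega
    by_cases hb : t.1 = 0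
    · refine Q.lc_J h3 hk ?_ _
      rw [hb, ind_zero]
      unfold ind
      split_ifs <;> omega
    rw [Q.Jx_both h3 hq hq' h0 ha hb, lc_zero]
  have h1 : ∀ e ∈ Co i K psi C 1, ∑ p ∈ antidiagonal (3 - 1), ∑ t ∈ antidiagonal p.2,
        lc (st i C).card 2 (Jx i K psi C w v e p.1 t.1 t.2) =
      lc (st i C).card 2 (Jx i K psi C w v e 1 1 0) := by
    intro e he
    obtain ⟨h1, h2, h3⟩ := mem_Co.1 he
    have hk := Q.cheap0 h3 h2 (by omega)
    have hz : ∀ a b m : ℕ, a = 0 ∨ b = 0 →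
        lc (st i C).card 2 (Jx i K psi C w v e a b m) = 0 := by
      intro a b m hab
      refine Q.lc_J h3 hk ?_ _
      rcases hab with h | h
      · rw [h, ind_zero]; unfold ind; split_ifs <;> omega
      · rw [h, ind_zero]; unfold ind; split_ifs <;> omega
    rw [show 3 - 1 = 2 from rfl,
      anti2 (fun a b m => lc (st i C).card 2 (Jx i K psi C w v e a b m))]
    rw [hz 0 0 2 (Or.inl rfl), hz 0 1 1 (Or.inl rfl), hz 0 2 0 (Or.inl rfl),
      hz 1 0 1 (Or.inr rfl), hz 2 0 0 (Or.inr rfl)]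
    ring
  have h2 : ∀ e ∈ Co i K psi C 2, ∑ p ∈ antidiagonal (3 - 2), ∑ t ∈ antidiagonal p.2,
        lc (st i C).card 2 (Jx i K psi C w v e p.1 t.1 t.2) =
      (lc (st i C).card 2 (Jx i K psi C w v e 0 1 0) +
      lc (st i C).card 2 (Jx i K psi C w v e 1 0 0)) := by
    intro e he
    obtain ⟨h1, h2, h3⟩ := mem_Co.1 he
    have hk := Q.cheap1 h3 h2 (by omega)
    rw [show 3 - 2 = 1 from rfl,
      anti1 (fun a b m => lc (st i C).card 2 (Jx i K psi C w v e a b m))]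
    rw [Q.lc_J h3 hk (a := 0) (b := 0) (by rw [ind_zero]; omega) 1]
    ring
  have h3 : ∑ e ∈ Co i K psi C 3, ∑ p ∈ antidiagonal (3 - 3), ∑ t ∈ antidiagonal p.2,
        lc (st i C).card 2 (Jx i K psi C w v e p.1 t.1 t.2) = 0 := by
    refine sum_eq_zero fun e he => ?_
    obtain ⟨h1, h2, h3⟩ := mem_Co.1 he
    rw [show 3 - 3 = 0 from rfl,
      anti0 (fun a b m => lc (st i C).card 2 (Jx i K psi C w v e a b m))]
    exact Q.lc_J h3 (Q.cheap1 h3 h2 (by omega)) (by rw [ind_zero]; omega) 0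
  rw [h0, sum_congr rfl h1, sum_congr rfl h2, h3]
  ring

/-- THE ENERGY TWO -/
theorem K5.lc2 : lc (st i C).card 1 (ZC i C 2) =
    ∑ e ∈ Co i K psi C 2, lc (st i C).card 1 (tC i C e) +
    ∑ e ∈ Co i K psi C 1, (lc (st i C).card 1 (Jx i K psi C w v e 0 1 0) +
      lc (st i C).card 1 (Jx i K psi C w v e 1 0 0)) +
    ∑ e ∈ Co i K psi C 0, (lc (st i C).card 1 (Jx i K psi C w v e 0 1 1) +
      lc (st i C).card 1 (Jx i K psi C w v e 0 2 0) +
      lc (st i C).card 1 (Jx i K psi C w v e 1 0 1) +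
      lc (st i C).card 1 (Jx i K psi C w v e 2 0 0)) := by
  rw [Q.lc_ZC, sum_range_succ, sum_range_succ, sum_range_one]
  have h0 : ∀ e ∈ Co i K psi C 0, ∑ p ∈ antidiagonal (2 - 0), ∑ t ∈ antidiagonal p.2,
        lc (st i C).card 1 (Jx i K psi C w v e p.1 t.1 t.2) =
      (lc (st i C).card 1 (Jx i K psi C w v e 0 1 1) +
      lc (st i C).card 1 (Jx i K psi C w v e 0 2 0) +
      lc (st i C).card 1 (Jx i K psi C w v e 1 0 1) +
      lc (st i C).card 1 (Jx i K psi C w v e 2 0 0)) := by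
    intro e he
    obtain ⟨h1, h2, h3⟩ := mem_Co.1 he
    have hk := Q.cheap0 h3 h2 (by omega)
    have h0 : e q = 0 := by
      rw [sum_eq_zero_iff] at h1
      exact h1 q (mem_univ q)
    rw [show 2 - 0 = 2 from rfl,
      anti2 (fun a b m => lc (st i C).card 1 (Jx i K psi C w v e a b m))]
    rw [Q.lc_J h3 hk (a := 0) (b := 0) (by rw [ind_zero]; omega) 2,
      Q.Jx_both h3 hq hq' h0 one_ne_zero one_ne_zero 0, lc_zero]
    ring
  have h1 : ∀ e ∈ Co i K psi C 1, ∑ p ∈ antidiagonal (2 - 1), ∑ t ∈ antidiagonal p.2,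
        lc (st i C).card 1 (Jx i K psi C w v e p.1 t.1 t.2) =
      (lc (st i C).card 1 (Jx i K psi C w v e 0 1 0) +
      lc (st i C).card 1 (Jx i K psi C w v e 1 0 0)) := by
    intro e he
    obtain ⟨h1, h2, h3⟩ := mem_Co.1 he
    have hk := Q.cheap0 h3 h2 (by omega)
    rw [show 2 - 1 = 1 from rfl,
      anti1 (fun a b m => lc (st i C).card 1 (Jx i K psi C w v e a b m))]
    rw [Q.lc_J h3 hk (a := 0) (b := 0) (by rw [ind_zero]; omega) 1]
    ring
  have h2 : ∀ e ∈ Co i K psi C 2, ∑ p ∈ antidiagonal (2 - 2), ∑ t ∈ antidiagonal p.2,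
        lc (st i C).card 1 (Jx i K psi C w v e p.1 t.1 t.2) =
      lc (st i C).card 1 (tC i C e) := by
    intro e he
    obtain ⟨h1, h2, h3⟩ := mem_Co.1 he
    rw [show 2 - 2 = 0 from rfl,
      anti0 (fun a b m => lc (st i C).card 1 (Jx i K psi C w v e a b m)), Q.Jx0 h3 h2]
  rw [sum_congr rfl h0, sum_congr rfl h1, sum_congr rfl h2]
  ring

/-- THE ENERGY ONE -/
theorem K5.lc1 : lc (st i C).card 1 (ZC i C 1) =
    ∑ e ∈ Co i K psi C 0, (lc (st i C).card 1 (Jx i K psi C w v e 0 1 0) +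
      lc (st i C).card 1 (Jx i K psi C w v e 1 0 0)) := by
  rw [Q.lc_ZC, sum_range_succ, sum_range_one]
  have h0 : ∀ e ∈ Co i K psi C 0, ∑ p ∈ antidiagonal (1 - 0), ∑ t ∈ antidiagonal p.2,
        lc (st i C).card 1 (Jx i K psi C w v e p.1 t.1 t.2) =
      (lc (st i C).card 1 (Jx i K psi C w v e 0 1 0) +
      lc (st i C).card 1 (Jx i K psi C w v e 1 0 0)) := by
    intro e he
    obtain ⟨h1, h2, h3⟩ := mem_Co.1 he
    have hk := Q.cheap0 h3 h2 (by omega)
    rw [show 1 - 0 = 1 from rfl,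
      anti1 (fun a b m => lc (st i C).card 1 (Jx i K psi C w v e a b m))]
    rw [Q.lc_J h3 hk (a := 0) (b := 0) (by rw [ind_zero]; omega) 1]
    ring
  have h1 : ∑ e ∈ Co i K psi C 1, ∑ p ∈ antidiagonal (1 - 1), ∑ t ∈ antidiagonal p.2,
        lc (st i C).card 1 (Jx i K psi C w v e p.1 t.1 t.2) = 0 := by
    refine sum_eq_zero fun e he => ?_
    obtain ⟨h1, h2, h3⟩ := mem_Co.1 he
    rw [show 1 - 1 = 0 from rfl,
      anti0 (fun a b m => lc (st i C).card 1 (Jx i K psi C w v e a b m))]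
    exact Q.lc_J h3 (Q.cheap0 h3 h2 (by omega)) (by rw [ind_zero]; omega) 0
  rw [sum_congr rfl h0, h1, add_zero]

end

end Pool.Agent.GaussPoset.Win.W4
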