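import Pool.Agent.W_448w4_h10.KM

/-!
MP_448cb3_co, G2, case B, window `j`: orders of the window sums and values of the contributions with one label on
an unmatched double.  helper10.
-/

namespace Pool.Agent.GaussPoset.Win.W4

set_option linter.unusedSectionVars false

open Finset
open Pool.Agent.GaussPoset.Win.So (IV IV_chi IV_Fe)

universe u

variable {P : Type u} [Fintype P] [PartialOrder P] [DecidableEq P] {r i : ℕ}
variable {e f : P → ℕ} {psi : P → P} {C K : Finset P} {w v : P}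

/-! ### killed sites after adding a label -/

lemma FD_add1 (H : Gr P r) {x y : P} (hx : x ∈ near P i) (h0 : e x = 0) {a : ℕ}
    (hy : lev y = i) : FD (e + Pi.single x a) y ↔ FD e y ∨ (x ⋖ y ∧ e y < a) := by
  have hyx : y ≠ x := by
    rintro rfl
    rw [mem_near] at hx
    omega
  unfold FD
  constructor
  · rintro ⟨z, hz, hlt⟩
    rw [Pi.add_apply, Pi.add_apply, Pi.single_apply, if_neg hyx, add_zero] at hlt
    by_cases hzx : z = x
    · right
      rw [hzx, h0, Pi.single_eq_same, zero_add] at hlt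
      exact ⟨by rw [← hzx]; exact hz, hlt⟩
    · left
      rw [Pi.single_apply, if_neg hzx, add_zero] at hlt
      exact ⟨z, hz, hlt⟩
  · rintro (⟨z, hz, hlt⟩ | ⟨h1, h2⟩)
    · refine ⟨z, hz, ?_⟩
      rw [Pi.add_apply, Pi.add_apply, Pi.single_apply, if_neg hyx, add_zero]
      omega
    · refine ⟨x, h1, ?_⟩
      rw [Pi.add_apply, Pi.add_apply, Pi.single_apply, if_neg hyx, add_zero, Pi.single_eq_same]
      omega

lemma FU_add1 (H : Gr P r) {x y : P} (hx : x ∈ near P i) (h0 : e x = 0) {a : ℕ}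
    (hy : lev y = i) : FU (e + Pi.single x a) y ↔ FU e y ∨ (y ⋖ x ∧ e y < a) := by
  have hyx : y ≠ x := by
    rintro rfl
    rw [mem_near] at hx
    omega
  unfold FU
  constructor
  · rintro ⟨z, hz, hlt⟩
    rw [Pi.add_apply, Pi.add_apply, Pi.single_apply, if_neg hyx, add_zero] at hlt
    by_cases hzx : z = x
    · right
      rw [hzx, h0, Pi.single_eq_same, zero_add] at hlt
      exact ⟨by rw [← hzx]; exact hz, hlt⟩
    · left
      rw [Pi.single_apply, if_neg hzx, add_zero] at hlt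
      exact ⟨z, hz, hlt⟩
  · rintro (⟨z, hz, hlt⟩ | ⟨h1, h2⟩)
    · refine ⟨z, hz, ?_⟩
      rw [Pi.add_apply, Pi.add_apply, Pi.single_apply, if_neg hyx, add_zero]
      omega
    · refine ⟨x, h1, ?_⟩
      rw [Pi.add_apply, Pi.add_apply, Pi.single_apply, if_neg hyx, add_zero, Pi.single_eq_same]
      omega

lemma AL_low (H : Gr P r) {x : P} (hx : lev x = i + 1) (h0 : e x = 0) (a : ℕ) :
    AL i (e + Pi.single x a) = AL i e ∪ kz i e x a := by
  have hn : x ∈ near P i := mem_near.2 (Or.inl hx)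
  ext y
  rw [mem_union, NormD_mem_AL, NormD_mem_AL, mem_kz, nz_low hx, mem_uc]
  constructor
  · rintro ⟨h1, h2⟩
    rcases (FD_add1 H hn h0 h1).1 h2 with h | h
    · exact Or.inl ⟨h1, h⟩
    · exact Or.inr h
  · rintro (⟨h1, h2⟩ | h)
    · exact ⟨h1, (FD_add1 H hn h0 h1).2 (Or.inl h2)⟩
    · have := lev_uc H (mem_uc.2 h.1)
      have h1 : lev y = i := by omega
      exact ⟨h1, (FD_add1 H hn h0 h1).2 (Or.inr h)⟩

lemma AU_low (H : Gr P r) {x : P} (hx : lev x = i + 1) (h0 : e x = 0) (a : ℕ) :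
    AU i (e + Pi.single x a) = AU i e := by
  have hn : x ∈ near P i := mem_near.2 (Or.inl hx)
  ext y
  rw [NormD_mem_AU, NormD_mem_AU]
  constructor
  · rintro ⟨h1, h2⟩
    rcases (FU_add1 H hn h0 h1).1 h2 with h | h
    · exact ⟨h1, h⟩
    · have := lev_uc H (mem_uc.2 h.1)
      omega
  · rintro ⟨h1, h2⟩
    exact ⟨h1, (FU_add1 H hn h0 h1).2 (Or.inl h2)⟩

lemma AU_upp (H : Gr P r) {x : P} (hx : lev x + 1 = i) (h0 : e x = 0) (a : ℕ) :
    AU i (e + Pi.single x a) = AU i e ∪ kz i e x a := by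
  have hn : x ∈ near P i := mem_near.2 (Or.inr hx)
  ext y
  rw [mem_union, NormD_mem_AU, NormD_mem_AU, mem_kz, nz_upp hx, mem_dc]
  constructor
  · rintro ⟨h1, h2⟩
    rcases (FU_add1 H hn h0 h1).1 h2 with h | h
    · exact Or.inl ⟨h1, h⟩
    · exact Or.inr h
  · rintro (⟨h1, h2⟩ | h)
    · exact ⟨h1, (FU_add1 H hn h0 h1).2 (Or.inl h2)⟩
    · have := lev_dc H (mem_dc.2 h.1)
      have h1 : lev y = i := by omega
      exact ⟨h1, (FU_add1 H hn h0 h1).2 (Or.inr h)⟩

lemma AL_upp (H : Gr P r) {x : P} (hx : lev x + 1 = i) (h0 : e x = 0) (a : ℕ) :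
    AL i (e + Pi.single x a) = AL i e := by
  have hn : x ∈ near P i := mem_near.2 (Or.inr hx)
  ext y
  rw [NormD_mem_AL, NormD_mem_AL]
  constructor
  · rintro ⟨h1, h2⟩
    rcases (FD_add1 H hn h0 h1).1 h2 with h | h
    · exact ⟨h1, h⟩
    · have := lev_dc H (mem_dc.2 h.1)
      omega
  · rintro ⟨h1, h2⟩
    exact ⟨h1, (FD_add1 H hn h0 h1).2 (Or.inl h2)⟩

lemma kz_add {x y : P} {a b : ℕ} (H : Gr P r) (hx : x ∈ near P i) (hy : y ∈ near P i) :
    kz i (e + Pi.single x a) y b = kz i e y b := by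
  unfold kz
  refine filter_congr fun z hz => ?_
  rw [Pi.add_apply, Pi.single_apply, if_neg, add_zero]
  rintro rfl
  have := nz_lev H hy hz
  rw [mem_near] at hx
  omega

/-! ### configurations without admissibility -/

lemma Fe_zero (h : ¬ (AdmL i e ∧ AdmU i e ∧ Disjoint (AL i e) (AU i e))) (S : Finset P) :
    Fe i e S = 0 := by
  unfold Fe
  by_cases h1 : AdmL i e ∧ AdmU i e
  · have h2 : ¬ Disjoint (AL i e) (AU i e) := fun h2 => h ⟨h1.1, h1.2, h2⟩
    have : chi (AL i e) (AU i e) S = 0 := by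
      unfold chi
      rw [if_neg]
      rintro ⟨h3, h4⟩
      exact h2 (disjoint_of_subset_left h3 h4.symm)
    rw [this, mul_zero]
  · unfold cw
    rw [if_neg h1, zero_mul]

lemma tC_zero (h : ¬ (AdmL i e ∧ AdmU i e ∧ Disjoint (AL i e) (AU i e))) :
    tC i C e = 0 := by
  unfold tC
  split_ifs with h2
  · unfold cw
    rw [if_neg, zero_mul]
    rintro ⟨h3, h4⟩
    exact h ⟨h3, h4, h2⟩
  · rfl

open Classical in
/-- the type of the pair (configuration, near element) -/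
noncomputable def FG (i : ℕ) (e : P → ℕ) (x : P) (a : ℕ) : ℤ :=
  if Fx i e x a then 1 else if Gx i e x a then -1 else 0

lemma not_FG {x : P} {a : ℕ} (h : Gx i e x a) : ¬ Fx i e x a := by
  rintro ⟨h1, -⟩
  have h2 := kz_eq_iff.2 h1
  obtain ⟨h3, h4, -⟩ := h
  rw [h2] at h3
  omega

section

variable (Q : K5 r i K psi C w v)
include Q

lemma K5.Jx_zero (hc : IsCore i ∅ (ps K psi) e)
    (h : ¬ (AdmL i e ∧ AdmU i e ∧ Disjoint (AL i e) (AU i e))) (a b m : ℕ) :
    Jx i K psi C w v e a b m = 0 := by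
  unfold Jx
  split_ifs with h1
  · obtain ⟨hw, hv⟩ := core_wv Q hc
    rw [JK_add2 Q h1.1 h1.2 hw hv]
    unfold IV
    refine sum_eq_zero fun S _ => ?_
    show xx ^ S.card * (Fe i e S * _) = 0
    rw [Fe_zero h, zero_mul, mul_zero]
  · rfl

/-- a touched unmatched double: no type -/
lemma K5.FG_touch {x : P} (hx : x ∈ near P i) (h2 : (nz i x).card = 2)
    (hadm : AdmL i e ∧ AdmU i e) (hT : x ∈ Tch i e) {a : ℕ}
    (hz : a = 1 ∨ ∀ y, lev y = i → e y = 0) : FG i e x a = 0 := by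
  have hpos : 0 < e x := by
    by_contra h
    rw [mem_Tch] at hT
    rcases hT with ⟨h1, z, hz, hz'⟩ | ⟨h1, z, hz, hz'⟩
    · refine hadm.1 x (by omega) ⟨⟨z, hz, by omega⟩, ?_⟩
      obtain ⟨y, hy⟩ := uc_nonempty Q.H (x := x) (by omega)
      exact ⟨y, mem_uc.1 hy, by omega⟩
    · refine hadm.2 x (by omega) ⟨⟨z, hz, by omega⟩, ?_⟩
      obtain ⟨y, hy⟩ := dc_nonempty Q.H (x := x) (by have := Q.hi2; omega)
      exact ⟨y, mem_dc.1 hy, by omega⟩
  -- a site with label zero is killed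
  have key : ∀ y ∈ nz i x, e y = 0 → y ∈ AL i e ∪ AU i e := by
    intro y hy hy0
    have hl := nz_lev Q.H hx hy
    rw [mem_union, NormD_mem_AL, NormD_mem_AU]
    rcases mem_near.1 hx with h | h
    · rw [nz_low h] at hy
      exact Or.inl ⟨hl, x, mem_uc.1 hy, by omega⟩
    · rw [nz_upp h] at hy
      exact Or.inr ⟨hl, x, mem_dc.1 hy, by omega⟩
  unfold FG
  rw [if_neg, if_neg]
  · rintro ⟨g1, g2, g3⟩
    obtain ⟨y, hy⟩ := card_eq_one.1 g1
    have hy1 : y ∈ kz i e x a := by rw [hy]; exact mem_singleton_self _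
    obtain ⟨hy2, hy3⟩ := mem_kz.1 hy1
    have hy0 : e y = 0 := by
      rcases hz with h | h
      · omega
      · exact h y (nz_lev Q.H hx hy2)
    exact disjoint_left.1 g3 hy1 (key y hy2 hy0)
  · rintro ⟨g1, g2⟩
    obtain ⟨y, hy⟩ : (nz i x).Nonempty := by rw [← card_pos]; omega
    have hy0 : e y = 0 := by
      rcases hz with h | h
      · have := g1 y hy
        omega
      · exact h y (nz_lev Q.H hx hy)
    exact disjoint_left.1 g2 hy (key y hy hy0)

/-- VALUE with a label on `w` -/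
theorem K5.val_w (hc : IsCore i ∅ (ps K psi) e) (hs : Spt C e) (h2 : (nz i w).card = 2)
    {k a : ℕ} (ha : a ≠ 0) (hz : a = 1 ∨ ∀ y, lev y = i → e y = 0)
    (ho : od (st i C).card k (tC i C e)) :
    lc (st i C).card (k + 1) (Jx i K psi C w v e a 0 0) =
      FG i e w a * lc (st i C).card k (tC i C e) := by
  by_cases hadm : AdmL i e ∧ AdmU i e ∧ Disjoint (AL i e) (AU i e)
  swap
  · rw [Q.Jx_zero hc hadm, lc_zero, tC_zero hadm, lc_zero, mul_zero]
  by_cases hT : w ∈ Tch i e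
  · rw [Q.FG_touch Q.nw h2 ⟨hadm.1, hadm.2.1⟩ hT hz, zero_mul]
    unfold Jx
    rw [if_neg, lc_zero]
    rintro ⟨h | h, -⟩
    · exact ha h
    · exact h hT
  · have h0 : e w = 0 := (core_wv Q hc).1 hT
    have h1 : Jx i K psi C w v e a 0 0 = tC i C (e + Pi.single w a) := by
      unfold Jx
      rw [if_pos ⟨Or.inr hT, Or.inl rfl⟩, Pi.single_zero, add_zero, JK_zero Q.H Q.hir Q.part]
      intro y hy
      rw [Pi.add_apply, hs y hy, Pi.single_apply, if_neg, add_zero]
      rintro rfl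
      exact hy Q.wC
    rw [h1]
    have sg : sg1 i w = 1 := by unfold sg1; rw [if_pos Q.lw0]
    unfold FG
    by_cases hF : Fx i e w a
    · rw [if_pos hF, (val_F Q.H Q.hir Q.hC hs hadm.2.2 Q.nw Q.wC hT h0 h2 hF ho).2, sg]
    · rw [if_neg hF]
      by_cases hG : Gx i e w a
      · rw [if_pos hG, (val_G Q.H Q.hir Q.hC hs hadm.2.2 Q.nw Q.wC hT h0 hG ho).2, sg]
      · rw [if_neg hG, zero_mul]
        exact lc_of_od (val_N Q.H Q.hir Q.hC hs hadm.2.2 Q.nw Q.wC hT h0 (by omega)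
          (fun _ => hF) hG ho)

/-- VALUE with a label on `v` -/
theorem K5.val_v (hc : IsCore i ∅ (ps K psi) e) (hs : Spt C e) (h2 : (nz i v).card = 2)
    {k a : ℕ} (ha : a ≠ 0) (hz : a = 1 ∨ ∀ y, lev y = i → e y = 0)
    (ho : od (st i C).card k (tC i C e)) :
    lc (st i C).card (k + 1) (Jx i K psi C w v e 0 a 0) =
      - FG i e v a * lc (st i C).card k (tC i C e) := by
  by_cases hadm : AdmL i e ∧ AdmU i e ∧ Disjoint (AL i e) (AU i e)
  swap
  · rw [Q.Jx_zero hc hadm, lc_zero, tC_zero hadm, lc_zero, mul_zero]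
  by_cases hT : v ∈ Tch i e
  · rw [Q.FG_touch Q.nv h2 ⟨hadm.1, hadm.2.1⟩ hT hz, neg_zero, zero_mul]
    unfold Jx
    rw [if_neg, lc_zero]
    rintro ⟨-, h | h⟩
    · exact ha h
    · exact h hT
  · have h0 : e v = 0 := (core_wv Q hc).2 hT
    have h1 : Jx i K psi C w v e 0 a 0 = tC i C (e + Pi.single v a) := by
      unfold Jx
      rw [if_pos ⟨Or.inl rfl, Or.inr hT⟩, Pi.single_zero, add_zero, JK_zero Q.H Q.hir Q.part]
      intro y hy
      rw [Pi.add_apply, hs y hy, Pi.single_apply, if_neg, add_zero]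
      rintro rfl
      exact hy Q.vC
    rw [h1]
    have hl : ¬ lev v = i + 1 := by have := Q.lv0; omega
    have sg : sg1 i v = -1 := by unfold sg1; rw [if_neg hl]
    unfold FG
    by_cases hF : Fx i e v a
    · rw [if_pos hF, (val_F Q.H Q.hir Q.hC hs hadm.2.2 Q.nv Q.vC hT h0 h2 hF ho).2, sg]
    · rw [if_neg hF]
      by_cases hG : Gx i e v a
      · rw [if_pos hG, (val_G Q.H Q.hir Q.hC hs hadm.2.2 Q.nv Q.vC hT h0 hG ho).2, sg]
      · rw [if_neg hG, neg_zero, zero_mul]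
        exact lc_of_od (val_N Q.H Q.hir Q.hC hs hadm.2.2 Q.nv Q.vC hT h0 (by omega)
          (fun _ => hF) hG ho)

end

end Pool.Agent.GaussPoset.Win.W4
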