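import Pool.Agent.W_448w4_h10.KN

/-!
MP_448cb3_co, G2, case B, window `j`: one label on the free near elements, the sum.  helper10.
-/

namespace Pool.Agent.GaussPoset.Win.W4

set_option linter.unusedSectionVars false

open Finset
open Pool.Agent.GaussPoset.Win.So (IV IV_chi IV_Fe)

universe u

variable {P : Type u} [Fintype P] [PartialOrder P] [DecidableEq P] {r i : ℕ}
variable {e f : P → ℕ} {psi : P → P} {C K : Finset P} {w v : P}

/-- one label on the free near elements -/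
lemma JK_eq_sum (H : Gr P r) (hir : i ≤ r) (hC : Part i C) (hs : Spt C e)
    (h0 : ∀ x ∈ RK i K psi C e, e x = 0) :
    JK i K psi C 1 e = ∑ x ∈ RK i K psi C e, tC i C (e + Pi.single x 1) := by
  have h1 : ∀ x ∈ RK i K psi C e, tC i C (e + Pi.single x 1) = IV (st i C) (fun S =>
      Fe i e S * ∏ y ∈ RK i K psi C e, wt i e y ((Pi.single x 1 : P → ℕ) y) S) := by
    intro x hx
    have hs' : Spt C (e + Pi.single x 1) := by
      intro y hy
      rw [Pi.add_apply, hs y hy, Pi.single_apply, if_neg, add_zero]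
      rintro rfl
      exact hy (mem_RK.1 hx).2
    rw [← IV_Fe H hC hs']
    congr 1
    funext S
    refine fact_many H hir (RK i K psi C e) (fun y hy => RK_near hy) (fun y hy => ?_) h0 _
      (fun y hy => ?_) S
    · exact (mem_Rst.1 (mem_RK.1 hy).1).2.2.1
    · rw [Pi.single_apply, if_neg]
      rintro rfl
      exact hy hx
  rw [sum_congr rfl h1]
  unfold JK GK
  have h2 : (fun S => Fe i e S * ∑ l ∈ (RK i K psi C e).piAntidiag 1,
      ∏ x ∈ RK i K psi C e, wt i e x (l x) S) = fun S => ∑ x ∈ RK i K psi C e,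
        Fe i e S * ∏ y ∈ RK i K psi C e, wt i e y ((Pi.single x 1 : P → ℕ) y) S := by
    funext S
    rw [sum_pa_one (fun l => ∏ x ∈ RK i K psi C e, wt i e x (l x) S), mul_sum]
  rw [h2]
  exact IV_sum _ _

lemma dbL_nz {x : P} (hx : x ∈ dbL P i) : lev x = i + 1 ∧ (nz i x).card = 2 := by
  obtain ⟨h1, h2⟩ := mem_dbL.1 hx
  exact ⟨h1, by rw [nz_low h1]; exact h2⟩

lemma dbU_nz {x : P} (hx : x ∈ dbU P i) : lev x + 1 = i ∧ (nz i x).card = 2 := by
  obtain ⟨h1, h2⟩ := mem_dbU.1 hx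
  exact ⟨h1, by rw [nz_upp h1]; exact h2⟩

lemma nz_one (H : Gr P r) (hi : 1 ≤ i) (hi2 : i + 1 ≤ r) {x : P} (hx : x ∈ near P i)
    (h1 : x ∉ dbL P i) (h2 : x ∉ dbU P i) : (nz i x).card = 1 := by
  have h3 := nz_card H hi hi2 hx
  by_contra h4
  have h5 : (nz i x).card = 2 := by omega
  rcases mem_near.1 hx with h | h
  · rw [nz_low h] at h5
    exact h1 (mem_dbL.2 ⟨h, h5⟩)
  · rw [nz_upp h] at h5
    exact h2 (mem_dbU.2 ⟨h, h5⟩)

open Classical in
/-- ONE LABEL on the free near elements -/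
theorem JK_one (H : Gr P r) (hi : 1 ≤ i) (hi2 : i + 1 ≤ r) (hM : Mat P i K psi)
    (hC : Part (i + 1) C) (hs : Spt C e) (h0 : ∀ x ∈ RK i K psi C e, e x = 0)
    (hA : Disjoint (AL i e) (AU i e)) {k : ℕ} (ho : od (st i C).card k (tC i C e)) :
    lc (st i C).card k (JK i K psi C 1 e) =
      (∑ x ∈ (RK i K psi C e).filter (fun x => x ∉ dbU P i), om i e x) *
        lc (st i C).card k (tC i C e) := by
  have hir : i ≤ r := by omega
  have hCi : Part i C := ⟨fun h1 h2 => hC.up h1 h2, fun h1 h2 h3 => hC.dn h1 (by omega) h3⟩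
  obtain ⟨F, hF⟩ : ∃ F : P → ℤ, F = fun x => lc (st i C).card k (tC i C (e + Pi.single x 1)) :=
    ⟨_, rfl⟩
  obtain ⟨R, hR⟩ : ∃ R, R = RK i K psi C e := ⟨_, rfl⟩
  rw [JK_eq_sum H hir hCi hs h0, lc_sum, ← hR]
  have e0 : ∑ x ∈ R, lc (st i C).card k (tC i C (e + Pi.single x 1)) = ∑ x ∈ R, F x := by
    rw [hF]
  -- the involution
  have hdis : ∀ x, x ∈ dbL P i → x ∉ dbU P i := by
    intro x h1 h2
    have := (mem_dbL.1 h1).1
    have := (mem_dbU.1 h2).1
    omega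
  have memR : ∀ x, x ∈ R → x ∈ near P i ∧ x ∉ K ∧ x ∉ Tch i e ∧ x ∈ C := by
    intro x hx
    rw [hR, mem_RK, mem_Rst] at hx
    exact ⟨hx.1.1, hx.1.2.1, hx.1.2.2.1, hx.2⟩
  have psiR : ∀ x, x ∈ R → x ∈ dbL P i ∪ dbU P i → psi x ∈ R ∧ psi (psi x) = x := by
    intro x hx hd
    obtain ⟨h1, h2, h3, h4⟩ := memR x hx
    rw [hR] at hx ⊢
    rw [mem_RK] at hx ⊢
    exact ⟨⟨psi_RstK hM hx.1 hd, psi_memK H hM hC hd h2 h4⟩, (hM.invol x hd h2).1⟩
  have e1 : ∑ x ∈ R, F x = ∑ x ∈ R.filter (fun x => x ∉ dbU P i), F x +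
      ∑ x ∈ R.filter (fun x => x ∈ dbU P i), F x := by
    rw [add_comm]
    exact (sum_filter_add_sum_filter_not R (fun x => x ∈ dbU P i) F).symm
  have e2 : ∑ x ∈ R.filter (fun x => x ∈ dbU P i), F x =
      ∑ x ∈ R.filter (fun x => x ∈ dbL P i), F (psi x) := by
    refine sum_nbij' psi psi ?_ ?_ ?_ ?_ ?_
    · intro x hx
      rw [mem_filter] at hx ⊢
      obtain ⟨h1, h2⟩ := psiR x hx.1 (mem_union_right _ hx.2)
      exact ⟨h1, (hM.upp x hx.2 (memR x hx.1).2.1).1⟩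
    · intro x hx
      rw [mem_filter] at hx ⊢
      obtain ⟨h1, h2⟩ := psiR x hx.1 (mem_union_left _ hx.2)
      exact ⟨h1, (hM.low x hx.2 (memR x hx.1).2.1).1⟩
    · intro x hx
      rw [mem_filter] at hx
      exact (psiR x hx.1 (mem_union_right _ hx.2)).2
    · intro x hx
      rw [mem_filter] at hx
      exact (psiR x hx.1 (mem_union_left _ hx.2)).2
    · intro x hx
      rw [mem_filter] at hx
      rw [(psiR x hx.1 (mem_union_right _ hx.2)).2]
  have e3 : ∑ x ∈ R.filter (fun x => x ∈ dbL P i), F (psi x) =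
      ∑ x ∈ R.filter (fun x => x ∉ dbU P i), if x ∈ dbL P i then F (psi x) else 0 := by
    rw [← sum_filter, filter_filter]
    refine sum_congr ?_ fun _ _ => rfl
    ext x
    rw [mem_filter, mem_filter]
    constructor
    · rintro ⟨h1, h2⟩
      exact ⟨h1, hdis x h2, h2⟩
    · rintro ⟨h1, -, h2⟩
      exact ⟨h1, h2⟩
  rw [e0, e1, e2, e3, ← sum_add_distrib, sum_mul]
  refine sum_congr rfl fun x hx => ?_
  rw [mem_filter] at hx
  obtain ⟨h1, h2, h3, h4⟩ := memR x hx.1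
  have hx0 : e x = 0 := h0 x (by rw [← hR]; exact hx.1)
  by_cases hd : x ∈ dbL P i
  · rw [if_pos hd]
    obtain ⟨p1, p2⟩ := psiR x hx.1 (mem_union_left _ hd)
    obtain ⟨h1', h2', h3', h4'⟩ := memR _ p1
    obtain ⟨l1, l2⟩ := dbL_nz hd
    obtain ⟨q1, q2⟩ := hM.low x hd h2
    obtain ⟨l3, l4⟩ := dbU_nz q1
    have hn : nz i (psi x) = nz i x := by rw [nz_upp l3, nz_low l1]; exact q2
    have hx0' : e (psi x) = 0 := h0 _ (by rw [← hR]; exact p1)
    rw [hF]
    have := val_pair H hi hi2 hC hs hA l1 l3 h4 h4' h3 h3' hx0 hx0' l2 hn ho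
    rw [lc_add] at this
    exact this
  · rw [if_neg hd, add_zero, hF]
    exact val_single H hi hi2 hC hs hA h1 h4 h3 hx0 (nz_one H hi hi2 h1 hd hx.2) ho

end Pool.Agent.GaussPoset.Win.W4
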