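import Pool.Agent.W_448w4_h10.KO

/-!
MP_448cb3_co, G2, case B, window `j`: counting near elements at killed and labelled sites.  helper10.
-/

namespace Pool.Agent.GaussPoset.Win.W4

set_option linter.unusedSectionVars false

open Finset

universe u

variable {P : Type u} [Fintype P] [PartialOrder P] [DecidableEq P] {r i : ℕ}
variable {e f : P → ℕ} {psi : P → P} {C K : Finset P} {w v : P}

/-- the matched near elements of the part -/
noncomputable def N0 (i : ℕ) (K C : Finset P) : Finset P := (near P i ∩ C) \ K

lemma mem_N0 {x : P} : x ∈ N0 i K C ↔ x ∈ near P i ∧ x ∈ C ∧ x ∉ K := by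
  unfold N0
  rw [mem_sdiff, mem_inter, and_assoc]

/-- the number of matched near elements at a site (lower and upper) -/
noncomputable def dg (i : ℕ) (K C : Finset P) (y : P) : ℤ :=
  (((N0 i K C).filter (fun x => y ∈ nz i x)).card : ℤ)

open Classical in
/-- the number of matched lower doubles with all sites in `T` -/
noncomputable def mm (i : ℕ) (K C T : Finset P) : ℤ :=
  (((N0 i K C).filter (fun x => x ∈ dbL P i ∧ nz i x ⊆ T)).card : ℤ)

open Classical in
/-- the vacuum -/
noncomputable def Vc (i : ℕ) (K C : Finset P) : ℤ :=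
  ∑ x ∈ (N0 i K C).filter (fun x => x ∉ dbU P i), if x ∈ dbL P i then (-3 : ℤ) else -1

lemma dbLU {x : P} (h1 : x ∈ dbL P i) : x ∉ dbU P i := by
  intro h2
  have := (mem_dbL.1 h1).1
  have := (mem_dbU.1 h2).1
  omega

open Classical in
lemma sum_dg (c : P → ℤ) (T : Finset P) :
    ∑ y ∈ T, c y * dg i K C y = ∑ x ∈ N0 i K C, ∑ y ∈ T.filter (fun y => y ∈ nz i x), c y := by
  have h1 : ∀ y ∈ T, c y * dg i K C y = ∑ x ∈ N0 i K C, if y ∈ nz i x then c y else 0 := by
    intro y _
    unfold dg
    rw [card_filter]
    push_cast
    rw [mul_sum]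
    refine sum_congr rfl fun x _ => ?_
    split_ifs <;> simp
  rw [sum_congr rfl h1, sum_comm]
  refine sum_congr rfl fun x _ => ?_
  rw [sum_filter]

/-- the involution on the matched doubles -/
lemma psi_N0 (H : Gr P r) (hM : Mat P i K psi) (hC : Part (i + 1) C) {x : P}
    (hx : x ∈ N0 i K C) (hd : x ∈ dbL P i ∪ dbU P i) :
    psi x ∈ N0 i K C ∧ psi (psi x) = x ∧ nz i (psi x) = nz i x ∧
      (x ∈ dbL P i → psi x ∈ dbU P i) ∧ (x ∈ dbU P i → psi x ∈ dbL P i) := by
  obtain ⟨h1, h2, h3⟩ := mem_N0.1 hx
  have h4 := hM.invol x hd h3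
  have h5 := psi_memK H hM hC hd h3 h2
  rcases mem_union.1 hd with h | h
  · obtain ⟨q1, q2⟩ := hM.low x h h3
    obtain ⟨l1, -⟩ := dbL_nz h
    obtain ⟨l3, -⟩ := dbU_nz q1
    refine ⟨mem_N0.2 ⟨mem_near.2 (Or.inr l3), h5, h4.2⟩, h4.1, ?_, fun _ => q1, fun h' => ?_⟩
    · rw [nz_upp l3, nz_low l1]; exact q2
    · exact absurd h' (dbLU h)
  · obtain ⟨q1, q2⟩ := hM.upp x h h3
    obtain ⟨l1, -⟩ := dbU_nz h
    obtain ⟨l3, -⟩ := dbL_nz q1
    refine ⟨mem_N0.2 ⟨mem_near.2 (Or.inl l3), h5, h4.2⟩, h4.1, ?_, fun h' => ?_, fun _ => q1⟩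
    · rw [nz_low l3, nz_upp l1]; exact q2
    · exact absurd h (dbLU h')

open Classical in
/-- sums over the matched near elements of functions of the sites -/
lemma sum_N0 (H : Gr P r) (hM : Mat P i K psi) (hC : Part (i + 1) C) (F : Finset P → ℤ) :
    ∑ x ∈ N0 i K C, F (nz i x) = ∑ x ∈ (N0 i K C).filter (fun x => x ∉ dbU P i),
      (if x ∈ dbL P i then 2 else 1) * F (nz i x) := by
  have e1 : ∑ x ∈ N0 i K C, F (nz i x) =
      ∑ x ∈ (N0 i K C).filter (fun x => x ∉ dbU P i), F (nz i x) +
      ∑ x ∈ (N0 i K C).filter (fun x => x ∈ dbU P i), F (nz i x) := by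
    rw [add_comm]
    exact (sum_filter_add_sum_filter_not _ (fun x => x ∈ dbU P i) _).symm
  have e2 : ∑ x ∈ (N0 i K C).filter (fun x => x ∈ dbU P i), F (nz i x) =
      ∑ x ∈ (N0 i K C).filter (fun x => x ∈ dbL P i), F (nz i x) := by
    refine sum_nbij' psi psi ?_ ?_ ?_ ?_ ?_
    · intro x hx
      rw [mem_filter] at hx ⊢
      obtain ⟨h1, h2, h3, h4, h5⟩ := psi_N0 H hM hC hx.1 (mem_union_right _ hx.2)
      exact ⟨h1, h5 hx.2⟩
    · intro x hx
      rw [mem_filter] at hx ⊢
      obtain ⟨h1, h2, h3, h4, h5⟩ := psi_N0 H hM hC hx.1 (mem_union_left _ hx.2)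
      exact ⟨h1, h4 hx.2⟩
    · intro x hx
      rw [mem_filter] at hx
      exact (psi_N0 H hM hC hx.1 (mem_union_right _ hx.2)).2.1
    · intro x hx
      rw [mem_filter] at hx
      exact (psi_N0 H hM hC hx.1 (mem_union_left _ hx.2)).2.1
    · intro x hx
      rw [mem_filter] at hx
      rw [(psi_N0 H hM hC hx.1 (mem_union_right _ hx.2)).2.2.1]
  have e3 : ∑ x ∈ (N0 i K C).filter (fun x => x ∈ dbL P i), F (nz i x) =
      ∑ x ∈ (N0 i K C).filter (fun x => x ∉ dbU P i),
        if x ∈ dbL P i then F (nz i x) else 0 := by
    rw [← sum_filter, filter_filter]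
    refine sum_congr ?_ fun _ _ => rfl
    ext x
    rw [mem_filter, mem_filter]
    constructor
    · rintro ⟨h1, h2⟩
      exact ⟨h1, dbLU h2, h2⟩
    · rintro ⟨h1, -, h2⟩
      exact ⟨h1, h2⟩
  rw [e1, e2, e3, ← sum_add_distrib]
  refine sum_congr rfl fun x _ => ?_
  split_ifs <;> ring

open Classical in
/-- COUNTING with killed sites only -/
theorem om_killed (H : Gr P r) (hi : 1 ≤ i) (hi2 : i + 1 ≤ r) (hM : Mat P i K psi)
    (hC : Part (i + 1) C) (hz : ∀ y, lev y = i → e y = 0)
    (hR : ∀ x ∈ N0 i K C, x ∉ RK i K psi C e → x ∈ dbL P i ∪ dbU P i ∧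
      nz i x ⊆ AL i e ∪ AU i e) :
    ∑ x ∈ (RK i K psi C e).filter (fun x => x ∉ dbU P i), om i e x =
      Vc i K C + ∑ y ∈ AL i e ∪ AU i e, dg i K C y - mm i K C (AL i e ∪ AU i e) := by
  obtain ⟨T, hT⟩ : ∃ T, T = AL i e ∪ AU i e := ⟨_, rfl⟩
  rw [← hT] at hR ⊢
  have hkz : ∀ x ∈ N0 i K C, kz i e x 1 = nz i x := by
    intro x hx
    rw [kz_eq_iff]
    intro y hy
    rw [hz y (nz_lev H (mem_N0.1 hx).1 hy)]
    omega
  have hom : ∀ x ∈ (N0 i K C).filter (fun x => x ∉ dbU P i), om i e x =
      (if x ∈ dbL P i then (-3 : ℤ) else -1) +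
        (if x ∈ dbL P i then 2 else 1) * ((nz i x ∩ T).card : ℤ) -
        (if x ∈ dbL P i ∧ nz i x ⊆ T then 1 else 0) := by
    intro x hx
    rw [mem_filter] at hx
    unfold om
    rw [if_pos (hkz x hx.1), ← hT]
    by_cases hd : x ∈ dbL P i
    · obtain ⟨-, h2⟩ := dbL_nz hd
      rw [if_neg (by omega), if_pos hd, if_pos hd]
      have h3 : (nz i x ∩ T).card = 2 ↔ (x ∈ dbL P i ∧ nz i x ⊆ T) := by
        constructor
        · intro h
          refine ⟨hd, ?_⟩
          have h4 : nz i x ∩ T = nz i x := eq_of_subset_of_card_le inter_subset_left (by omega)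
          rw [← h4]
          exact inter_subset_right
        · rintro ⟨-, h⟩
          rw [inter_eq_left.2 h, h2]
      by_cases h4 : (nz i x ∩ T).card = 2
      · rw [if_pos h4, if_pos (h3.1 h4)]
      · rw [if_neg h4, if_neg (fun h => h4 (h3.2 h))]
    · rw [if_pos (nz_one H hi hi2 (mem_N0.1 hx.1).1 hd hx.2), if_neg hd, if_neg hd,
        if_neg (fun h => hd h.1)]
      ring
  -- the removed elements do not count
  have hsub : (RK i K psi C e).filter (fun x => x ∉ dbU P i) ⊆
      (N0 i K C).filter (fun x => x ∉ dbU P i) := by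
    intro x hx
    rw [mem_filter, mem_RK, mem_Rst] at hx
    exact mem_filter.2 ⟨mem_N0.2 ⟨hx.1.1.1, hx.1.2, hx.1.1.2.1⟩, hx.2⟩
  rw [sum_subset hsub]
  · rw [sum_congr rfl hom, sum_sub_distrib, sum_add_distrib]
    unfold Vc mm
    congr 1
    · congr 1
      have h1 := sum_dg (i := i) (K := K) (C := C) (fun _ => 1) T
      simp only [one_mul, sum_const, smul_eq_mul, mul_one] at h1
      rw [h1]
      have h2 := sum_N0 H hM hC (fun X => ((X ∩ T).card : ℤ))
      rw [← h2]
      refine sum_congr rfl fun x _ => ?_
      have h3 : T.filter (fun y => y ∈ nz i x) = nz i x ∩ T := by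
        ext y
        rw [mem_filter, mem_inter, and_comm]
      rw [h3]
      simp
    · rw [← Finset.sum_filter, filter_filter, sum_const, nsmul_eq_mul, mul_one]
      congr 2
      ext x
      rw [mem_filter, mem_filter]
      constructor
      · rintro ⟨h1, -, h2⟩
        exact ⟨h1, h2⟩
      · rintro ⟨h1, h2⟩
        exact ⟨h1, dbLU h2.1, h2⟩
  · intro x hx hnx
    rw [hom x hx]
    rw [mem_filter] at hx
    obtain ⟨h1, h2⟩ := hR x hx.1 (fun h => hnx (mem_filter.2 ⟨h, hx.2⟩))
    have hd : x ∈ dbL P i := by
      rcases mem_union.1 h1 with h | h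
      · exact h
      · exact absurd h hx.2
    rw [if_pos hd, if_pos hd, if_pos ⟨hd, h2⟩, inter_eq_left.2 h2, (dbL_nz hd).2]
    norm_num

open Classical in
/-- COUNTING with one labelled site `q` and two killed sites `p`, `s` -/
theorem om_pqs (H : Gr P r) (hi : 1 ≤ i) (hi2 : i + 1 ≤ r) (hM : Mat P i K psi)
    (hC : Part (i + 1) C) {p q s : P} (hpq : p ≠ q) (hps : p ≠ s) (hqs : q ≠ s)
    (hq : 1 ≤ e q) (hz : ∀ y, lev y = i → y ≠ q → e y = 0)
    (hT : AL i e ∪ AU i e = {p, s}) (lq : lev q = i)
    (hR : N0 i K C ⊆ RK i K psi C e) :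
    ∑ x ∈ (RK i K psi C e).filter (fun x => x ∉ dbU P i), om i e x =
      Vc i K C + dg i K C p + dg i K C s + 2 * dg i K C q - 2 * mm i K C {p, q}
        - 2 * mm i K C {q, s} - mm i K C {p, s} := by
  have hRe : RK i K psi C e = N0 i K C := by
    apply subset_antisymm _ hR
    intro x hx
    rw [mem_RK, mem_Rst] at hx
    exact mem_N0.2 ⟨hx.1.1, hx.2, hx.1.2.1⟩
  rw [hRe]
  have hom : ∀ x ∈ (N0 i K C).filter (fun x => x ∉ dbU P i), om i e x =
      (if x ∈ dbL P i then (-3 : ℤ) else -1) +
        (if x ∈ dbL P i then 2 else 1) * ((if p ∈ nz i x then 1 else 0) +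
          (if s ∈ nz i x then 1 else 0) + 2 * (if q ∈ nz i x then 1 else 0)) -
        2 * (if x ∈ dbL P i ∧ nz i x ⊆ {p, q} then 1 else 0) -
        2 * (if x ∈ dbL P i ∧ nz i x ⊆ {q, s} then 1 else 0) -
        (if x ∈ dbL P i ∧ nz i x ⊆ {p, s} then 1 else 0) := by
    intro x hx
    rw [mem_filter] at hx
    have hxn := (mem_N0.1 hx.1).1
    have hkq : ∀ y ∈ nz i x, y ∈ kz i e x 1 ↔ y ≠ q := by
      intro y hy
      rw [mem_kz]
      constructor
      · rintro ⟨-, h⟩ rfl
        omega
      · intro h
        refine ⟨hy, ?_⟩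
        rw [hz y (nz_lev H hxn hy) h]
        omega
    have hkz : kz i e x 1 = nz i x ↔ q ∉ nz i x := by
      constructor
      · intro h hq'
        have := (hkq q hq').1 (by rw [h]; exact hq')
        exact this rfl
      · intro h
        rw [kz_eq_iff]
        intro y hy
        have : y ≠ q := by rintro rfl; exact h hy
        exact (mem_kz.1 ((hkq y hy).2 this)).2
    unfold om
    rw [hT]
    by_cases hd : x ∈ dbL P i
    · obtain ⟨-, h2⟩ := dbL_nz hd
      rw [if_pos hd, if_pos hd]
      obtain ⟨a, b, hab, hnz⟩ := card_eq_two.1 h2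
      by_cases hqx : q ∈ nz i x
      · -- labelled
        rw [if_neg (fun h => (hkz.1 h) hqx), h2]
        -- the other site
        obtain ⟨c, hcq, hc⟩ : ∃ c, c ≠ q ∧ nz i x = {q, c} := by
          rw [hnz, mem_insert, mem_singleton] at hqx
          rcases hqx with h | h
          · exact ⟨b, by rw [h]; exact hab.symm, by rw [hnz, h]⟩
          · exact ⟨a, by rw [h]; exact hab, by rw [hnz, h, pair_comm]⟩
        have hkc : kz i e x 1 = {c} := by
          ext y
          rw [mem_singleton]
          constructor
          · intro h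
            have hy := kz_sub h
            have hyq := (hkq y hy).1 h
            rw [hc, mem_insert, mem_singleton] at hy
            rcases hy with h' | h'
            · exact absurd h' hyq
            · exact h'
          · rintro rfl
            exact (hkq y (by rw [hc]; simp)).2 hcq
        rw [hkc, card_singleton]
        have hp' : p ∈ nz i x ↔ c = p := by
          rw [hc, mem_insert, mem_singleton]
          constructor
          · rintro (h | h)
            · exact absurd h hpq
            · exact h.symm
          · intro h; exact Or.inr h.symm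
        have hs' : s ∈ nz i x ↔ c = s := by
          rw [hc, mem_insert, mem_singleton]
          constructor
          · rintro (h | h)
            · exact absurd h hqs.symm
            · exact h.symm
          · intro h; exact Or.inr h.symm
        have m1 : nz i x ⊆ {p, q} ↔ c = p := by
          rw [hc]
          constructor
          · intro h
            have := h (mem_insert_of_mem (mem_singleton_self c))
            rw [mem_insert, mem_singleton] at this
            rcases this with h' | h'
            · exact h'
            · exact absurd h' hcq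
          · rintro rfl
            rw [pair_comm]
        have m2 : nz i x ⊆ {q, s} ↔ c = s := by
          rw [hc]
          constructor
          · intro h
            have := h (mem_insert_of_mem (mem_singleton_self c))
            rw [mem_insert, mem_singleton] at this
            rcases this with h' | h'
            · exact absurd h' hcq
            · exact h'
          · rintro rfl
            exact subset_rfl
        have m3 : ¬ nz i x ⊆ {p, s} := by
          intro h
          have := h hqx
          rw [mem_insert, mem_singleton] at this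
          rcases this with h' | h'
          · exact hpq h'.symm
          · exact hqs h'
        simp only [hp', hs', hd, true_and, m1, m2, m3, hqx, if_true, if_false]
        by_cases c1 : c = p
        · have c2 : ¬ c = s := by rw [c1]; exact hps
          simp only [c1, if_true]
          rw [if_neg hps]
          norm_num
        · by_cases c2 : c = s
          · simp only [c2, if_true]
            rw [if_neg hps.symm]
            norm_num
          · rw [if_neg c1, if_neg c2]
            norm_num
      · rw [if_pos (hkz.2 hqx), if_neg (by omega)]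
        have m1 : ¬ nz i x ⊆ {p, q} := by
          intro h
          have h4 : nz i x ⊆ {p} := by
            intro y hy
            have := h hy
            rw [mem_insert, mem_singleton] at this
            rw [mem_singleton]
            rcases this with h' | h'
            · exact h'
            · rw [h'] at hy; exact absurd hy hqx
          have := card_le_card h4
          rw [card_singleton] at this
          omega
        have m2 : ¬ nz i x ⊆ {q, s} := by
          intro h
          have h4 : nz i x ⊆ {s} := by
            intro y hy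
            have := h hy
            rw [mem_insert, mem_singleton] at this
            rw [mem_singleton]
            rcases this with h' | h'
            · rw [h'] at hy; exact absurd hy hqx
            · exact h'
          have := card_le_card h4
          rw [card_singleton] at this
          omega
        have hcard : ((nz i x ∩ {p, s}).card : ℤ) =
            (if p ∈ nz i x then 1 else 0) + (if s ∈ nz i x then 1 else 0) := by
          have h4 : nz i x ∩ {p, s} = ({p, s} : Finset P).filter (fun y => y ∈ nz i x) := by
            ext y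
            rw [mem_inter, mem_filter, and_comm]
          rw [h4, card_filter, sum_pair hps]
          push_cast
          rfl
        have h3 : (nz i x ∩ {p, s}).card = 2 ↔ nz i x ⊆ {p, s} := by
          constructor
          · intro h
            have h4 : nz i x ∩ {p, s} = nz i x :=
              eq_of_subset_of_card_le inter_subset_left (by omega)
            rw [← h4]
            exact inter_subset_right
          · intro h
            rw [inter_eq_left.2 h, h2]
        simp only [hd, true_and, m1, m2, hqx, if_false, h3]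
        rw [hcard]
        ring
    · have h1 := nz_one H hi hi2 hxn hd hx.2
      obtain ⟨c, hc⟩ := card_eq_one.1 h1
      rw [if_neg hd, if_neg hd]
      simp only [hd, false_and, if_false]
      by_cases hqx : q ∈ nz i x
      · rw [if_neg (fun h => (hkz.1 h) hqx), h1]
        have hcq : c = q := by
          rw [hc, mem_singleton] at hqx
          exact hqx.symm
        have hk0 : kz i e x 1 = ∅ := by
          rw [eq_empty_iff_forall_notMem]
          intro y hy
          have hy2 := kz_sub hy
          have := (hkq y hy2).1 hy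
          rw [hc, mem_singleton] at hy2
          exact this (hy2.trans hcq)
        have hp' : p ∉ nz i x := by
          rw [hc, hcq, mem_singleton]; exact hpq
        have hs' : s ∉ nz i x := by
          rw [hc, hcq, mem_singleton]; exact hqs.symm
        rw [hk0, card_empty, if_neg hp', if_neg hs', if_pos hqx]
        norm_num
      · rw [if_pos (hkz.2 hqx), if_pos h1, if_neg hqx]
        have hcard : ((nz i x ∩ {p, s}).card : ℤ) =
            (if p ∈ nz i x then 1 else 0) + (if s ∈ nz i x then 1 else 0) := by
          have h4 : nz i x ∩ {p, s} = ({p, s} : Finset P).filter (fun y => y ∈ nz i x) := by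
            ext y
            rw [mem_inter, mem_filter, and_comm]
          rw [h4, card_filter, sum_pair hps]
          push_cast
          rfl
        rw [hcard]
        ring
  rw [sum_congr rfl hom]
  simp only [sum_sub_distrib, sum_add_distrib]
  have hm : ∀ T : Finset P, ∑ x ∈ (N0 i K C).filter (fun x => x ∉ dbU P i),
      (if x ∈ dbL P i ∧ nz i x ⊆ T then (1 : ℤ) else 0) = mm i K C T := by
    intro T
    unfold mm
    rw [← Finset.sum_filter, filter_filter, sum_const, nsmul_eq_mul, mul_one]
    congr 2
    ext x
    rw [mem_filter, mem_filter]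
    constructor
    · rintro ⟨h1, -, h2⟩
      exact ⟨h1, h2⟩
    · rintro ⟨h1, h2⟩
      exact ⟨h1, dbLU h2.1, h2⟩
  have hdg : ∑ x ∈ (N0 i K C).filter (fun x => x ∉ dbU P i),
      (if x ∈ dbL P i then 2 else 1) * ((if p ∈ nz i x then 1 else 0) +
          (if s ∈ nz i x then 1 else 0) + 2 * (if q ∈ nz i x then (1 : ℤ) else 0)) =
      dg i K C p + dg i K C s + 2 * dg i K C q := by
    have h2 := sum_N0 H hM hC (fun X => (if p ∈ X then (1 : ℤ) else 0) +
          (if s ∈ X then 1 else 0) + 2 * (if q ∈ X then (1 : ℤ) else 0))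
    rw [← h2, sum_add_distrib, sum_add_distrib, ← mul_sum]
    unfold dg
    rw [card_filter, card_filter, card_filter]
    push_cast
    rfl
  rw [hdg, ← mul_sum, ← mul_sum, hm, hm, hm]
  unfold Vc
  ring

end Pool.Agent.GaussPoset.Win.W4
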