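import Pool.Agent.W_448w4_h10.KP

/-!
MP_448cb3_co, G2, case B, window `j`: classification of the cores of energy three with one deficit.  helper10.
-/

namespace Pool.Agent.GaussPoset.Win.W4

set_option linter.unusedSectionVars false

open Finset
open Pool.Agent.GaussPoset.Win.SO (Sde Pen TD On kS)
open Pool.Agent.GaussPoset.Win.I2 (kd gu kl kn kr so cc fr KK KD mem_kn mem_kr mem_so kd_iff kl_iff)

universe u

variable {P : Type u} [Fintype P] [DecidableEq P]
variable {c c' : P → Finset P} {t t' : P → ℕ} {V Sd Sd' : Finset P} {e : P → ℕ}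

/-- labels one on a pendant and its cover, one more label on `g` -/
def Q3 (c : P → Finset P) (t : P → ℕ) (Sd Sd' : Finset P) (e : P → ℕ) : Prop :=
  ∃ p y g, Pen c t Sd p y ∧ (g ∉ Sd ∨ g = p ∨ g = y ∨ (2 ≤ t g ∧ c g ⊆ {p, y})) ∧ g ∉ Sd' ∧
    ∀ x, e x = (if x ∈ ({p, y} : Finset P) then 1 else 0) + if x = g then 1 else 0

/-- labels one on an element at distance two with three sites and its covers -/
def T3 (c : P → Finset P) (t : P → ℕ) (Sd : Finset P) (e : P → ℕ) : Prop :=
  ∃ z x x', z ∈ Sd ∧ t z = 2 ∧ c z = {x, x'} ∧ x ≠ x' ∧ (c x ∪ c x').card = 3 ∧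
    On e {z, x, x'}

/-- a function of energy three above `1_z + 1_x` -/
lemma three_split {z x : P} (hne : z ≠ x) (hz : 0 < e z) (hx : 0 < e x) (hE : ∑ y, e y = 3) :
    ∃ g, ∀ y, e y = (if y ∈ ({z, x} : Finset P) then 1 else 0) + if y = g then 1 else 0 := by
  have h1 : ∑ y, (e y - if y ∈ ({z, x} : Finset P) then 1 else 0) = 1 := by
    have h2 : ∑ y, (e y - if y ∈ ({z, x} : Finset P) then 1 else 0) +
        ∑ y, (if y ∈ ({z, x} : Finset P) then 1 else 0) = ∑ y, e y := by
      rw [← sum_add_distrib]
      refine sum_congr rfl fun y _ => ?_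
      split_ifs with h
      · rw [mem_insert, mem_singleton] at h
        rcases h with rfl | rfl <;> omega
      · omega
    have h3 : ∑ y, (if y ∈ ({z, x} : Finset P) then 1 else 0) = 2 := by
      rw [sum_ite_mem, univ_inter, sum_const, card_pair hne, smul_eq_mul, mul_one]
    omega
  obtain ⟨g, -, hg⟩ : ∃ g ∈ (univ : Finset P),
      (e g - if g ∈ ({z, x} : Finset P) then 1 else 0) ≠ 0 := by
    by_contra hcon
    push Not at hcon
    rw [sum_eq_zero hcon] at h1
    omega
  refine ⟨g, fun y => ?_⟩
  rw [← add_sum_erase _ _ (mem_univ g)] at h1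
  have h3 : ∑ y ∈ univ.erase g, (e y - if y ∈ ({z, x} : Finset P) then 1 else 0) = 0 := by omega
  rw [sum_eq_zero_iff] at h3
  have hge : (if y ∈ ({z, x} : Finset P) then 1 else 0) ≤ e y := by
    split_ifs with h
    · rw [mem_insert, mem_singleton] at h
      rcases h with rfl | rfl <;> omega
    · omega
  by_cases hy : y = g
  · rw [if_pos hy]
    rw [hy] at hge ⊢
    omega
  · have := h3 y (mem_erase.2 ⟨hy, mem_univ y⟩)
    rw [if_neg hy]
    omega

/-- energy three, an excited near element on the first side -/
lemma Cf.low3a (C : Cf c c' t t' V Sd Sd' e) (hE : ∑ x, e x = 3) (nq : NQ c t Sd e) {x : P}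
    (hx : x ∈ Sd) (htx : t x = 1) (hex : 0 < e x) :
    kS c c' V Sd e + kS c' c V Sd' e ≤ 0 ∨ (kS c c' V Sd e + kS c' c V Sd' e ≤ 1 ∧
      (Q3 c t Sd Sd' e ∨ T3 c t Sd e)) := by
  have hE4 : ∑ x, e x ≤ 4 := by omega
  obtain ⟨z, hz, hez⟩ := C.touched hE4 hx htx hex
  have hzS : z ∈ Sd := C.s1.cout x (Or.inl hx) z hz
  have hzx : x ∈ c z := (C.s1.dual z x).2 hz
  have htz : t z = t x + 1 := (C.s1.cin z hzS x hzx).2
  have n1 : z ≠ x := by rintro rfl; omega
  -- nothing on the other side
  have hU : ∀ y ∈ Sd', e y = 0 := by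
    apply side_zero C.s2 C.adm2
    intro u hu htu
    by_contra hne
    obtain ⟨w, hw, hew⟩ := C.symm.touched hE4 hu htu (by omega)
    have hwS : w ∈ Sd' := C.s2.cout u (Or.inl hu) w hw
    have htw : t' w = t' u + 1 := (C.s2.cin w hwS u ((C.s2.dual w u).2 hw)).2
    have n2 : w ≠ u := by rintro rfl; omega
    have n3 : ∀ {a b : P}, a ∈ Sd → b ∈ Sd' → a ≠ b := by
      rintro a b ha hb rfl
      exact disjoint_left.1 C.d3 ha hb
    have hle := sum_le_energy (e := e) ({z, x, w, u} : Finset P)
    rw [sum_insert, sum_insert, sum_insert, sum_singleton] at hle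
    · omega
    · rw [mem_singleton]; exact n2
    · rw [mem_insert, mem_singleton, not_or]; exact ⟨n3 hx hwS, n3 hx hu⟩
    · rw [mem_insert, mem_insert, mem_singleton, not_or, not_or]
      exact ⟨n1, n3 hzS hwS, n3 hzS hu⟩
  have k2 := kS_zero C.s2 hU
  obtain ⟨g, hg⟩ := three_split n1 hez hex hE
  have hgU : g ∉ Sd' := by
    intro h
    have := hU g h
    have h2 := hg g
    rw [if_pos rfl] at h2
    omega
  have gpos : 0 < e g := by
    have := hg g
    rw [if_pos rfl] at this
    omega
  have hVn : ∀ a ∈ V, a ∉ ({z, x} : Finset P) := by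
    intro a ha
    rw [mem_insert, mem_singleton]
    rintro (rfl | rfl)
    · exact disjoint_left.1 C.d1 hzS ha
    · exact disjoint_left.1 C.d1 hx ha
  by_cases hgn : g ∈ Sd ∧ t g = 1 ∧ g ≠ x
  · -- two near elements
    obtain ⟨g1, g2, g3⟩ := hgn
    have hgz : g ≠ z := by rintro rfl; omega
    have h1 : ∀ y, e y = if y ∈ ({z, x, g} : Finset P) then 1 else 0 := by
      intro y
      rw [hg y]
      by_cases h2 : y = g
      · rw [if_pos h2, if_neg, if_pos]
        · rw [h2]; simp
        · rw [h2, mem_insert, mem_singleton, not_or]; exact ⟨hgz, g3⟩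
      · rw [if_neg h2, add_zero]
        simp only [mem_insert, mem_singleton, h2, or_false]
    obtain ⟨w, hw, hew⟩ := C.touched hE4 g1 g2 gpos
    have hwS : w ∈ Sd := C.s1.cout g (Or.inl g1) w hw
    have hwg : g ∈ c w := (C.s1.dual w g).2 hw
    have htw : t w = t g + 1 := (C.s1.cin w hwS g hwg).2
    have hwz : w = z := by
      by_contra hne
      have := h1 w
      rw [if_neg] at this
      · omega
      · rw [mem_insert, mem_insert, mem_singleton, not_or, not_or]
        exact ⟨hne, by rintro rfl; omega, by rintro rfl; omega⟩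
    rw [hwz] at hwg
    have hcz : c z = {x, g} := by
      symm
      apply Finset.eq_of_subset_of_card_le
      · intro y hy
        rw [mem_insert, mem_singleton] at hy
        rcases hy with rfl | rfl
        · exact hzx
        · exact hwg
      · rw [card_pair (Ne.symm g3)]; exact C.s1.c2 z
    have hux : ∀ y ∈ Sd, t y = 1 → 0 < e y → y = x ∨ y = g := by
      intro y hy hty hey
      rw [h1 y] at hey
      split_ifs at hey with h2
      · rw [mem_insert, mem_insert, mem_singleton] at h2
        rcases h2 with rfl | h2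
        · omega
        · exact h2
      · omega
    have s1 : KD c' e V ⊆ c x ∪ c g := by
      intro v hv
      obtain ⟨-, y, hy, hty, hvy, hlt⟩ := KD_mem C.s1 hv
      rcases hux y hy hty (by omega) with rfl | rfl
      · exact mem_union_left _ hvy
      · exact mem_union_right _ hvy
    have hle1 : ∀ y, e y ≤ 1 := by
      intro y
      rw [h1 y]
      split_ifs <;> omega
    have hsite : ∀ a ∈ V, e a = 0 := by
      intro a ha
      rw [h1 a, if_neg]
      have := hVn a ha
      rw [mem_insert, mem_singleton, not_or] at this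
      rw [mem_insert, mem_insert, mem_singleton, not_or, not_or]
      exact ⟨this.1, this.2, by rintro rfl; exact disjoint_left.1 C.d1 g1 ha⟩
    have ex : e x = 1 := by rw [h1 x, if_pos (by simp)]
    have eg : e g = 1 := by rw [h1 g, if_pos (by simp)]
    have f1 : x ∈ fr c c' e Sd := fr_near hx (fun y _ => by rw [ex]; exact hle1 y)
      (fun a ha => by rw [hsite a (near_site C.s1 hx htx ha)]; omega)
    have f2 : g ∈ fr c c' e Sd := fr_near g1 (fun y _ => by rw [eg]; exact hle1 y)
      (fun a ha => by rw [hsite a (near_site C.s1 g1 g2 ha)]; omega)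
    have p1 : 2 ≤ (fr c c' e Sd).card := by
      rw [← card_pair (Ne.symm g3)]
      apply card_le_card
      intro y hy
      rw [mem_insert, mem_singleton] at hy
      rcases hy with rfl | rfl
      · exact f1
      · exact f2
    have q1 := card_le_card s1
    have r4 := union_three C.s1 nq hzS (by omega) hez hzx hwg
    by_cases h3 : (c x ∪ c g).card = 3
    · right
      refine ⟨?_, Or.inr ⟨z, x, g, hzS, by omega, hcz, Ne.symm g3, h3, h1⟩⟩
      have : kS c c' V Sd e ≤ 1 := by unfold kS; omega
      omega
    · left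
      have : kS c c' V Sd e ≤ 0 := by unfold kS; omega
      omega
  · -- one near element
    have hux : ∀ y ∈ Sd, t y = 1 → 0 < e y → y = x := by
      intro y hy hty hey
      by_contra hne
      rw [hg y] at hey
      have h1 : ¬ y ∈ ({z, x} : Finset P) := by
        rw [mem_insert, mem_singleton, not_or]
        exact ⟨by rintro rfl; omega, hne⟩
      rw [if_neg h1] at hey
      split_ifs at hey with h2
      · rw [h2] at hy hty hne
        exact hgn ⟨hy, hty, hne⟩
      · omega
    have hcz : c z = {x} := by
      apply eq_singleton_iff_unique_mem.2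
      refine ⟨hzx, fun b hb => ?_⟩
      obtain ⟨b1, b2, b3⟩ := cov_two C.s1 C.adm1 hzS (by omega) hez hb
      exact hux b b1 b2 b3
    have s1 : KD c' e V ⊆ c x := by
      intro v hv
      obtain ⟨-, y, hy, hty, hvy, hlt⟩ := KD_mem C.s1 hv
      rw [hux y hy hty (by omega)] at hvy
      exact hvy
    have k1 := C.one hE4 hx htx hex hux
    by_cases hk : kS c c' V Sd e ≤ 0
    · left; omega
    right
    have hcx : (c x).card = 2 := by
      have h2 := C.s1.c2 x
      by_contra hne
      -- at most one site
      have hKD : (KD c' e V).card ≤ 1 := (card_le_card s1).trans (by omega)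
      have hfr : (fr c c' e Sd).card = 0 := by
        unfold kS at hk
        omega
      have hKD1 : (KD c' e V).card = 1 := by
        unfold kS at hk
        omega
      have hcx1 : (c x).card = 1 := by
        have := card_le_card s1
        omega
      have hKDe : KD c' e V = c x := Finset.eq_of_subset_of_card_le s1 (by omega)
      have h5 : fr c c' e Sd = ∅ := by rw [← card_eq_zero]; exact hfr
      have h7 : ¬ gu c e x := by
        rintro ⟨a, ha, hle⟩
        rw [← hKDe] at ha
        obtain ⟨-, y, hy, hty, hvy, hlt⟩ := KD_mem C.s1 ha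
        rw [hux y hy hty (by omega)] at hlt
        omega
      have h8 : kd c' e x := by
        by_contra h8
        have : x ∈ fr c c' e Sd := mem_fr.2 ⟨hx, h8, h7⟩
        rw [h5] at this
        exact absurd this (notMem_empty _)
      -- then the extra label is at a lower cover of `x`
      have hgz : g = z := by
        by_contra hgz
        obtain ⟨y, hy, hlt⟩ := h8
        have hyS : y ∈ Sd := C.s1.cout x (Or.inl hx) y hy
        have hty : t y = t x + 1 := (C.s1.cin y hyS x ((C.s1.dual y x).2 hy)).2
        have h9 := hg y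
        have h10 := hg x
        rw [if_pos (by simp : x ∈ ({z, x} : Finset P))] at h10
        split_ifs at h9 with a1 a2
        · rw [mem_insert, mem_singleton] at a1
          rcases a1 with rfl | rfl
          · exact hgz a2.symm
          · omega
        · omega
        · omega
        · omega
      have hgx : g ≠ x := by rw [hgz]; exact n1
      have ez : e z = 2 := by
        rw [hg z, if_pos (by simp : z ∈ ({z, x} : Finset P)), if_pos hgz.symm]
      have ex : e x = 1 := by
        rw [hg x, if_pos (by simp : x ∈ ({z, x} : Finset P)), if_neg (Ne.symm hgx)]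
      have : z ∈ fr c c' e Sd := by
        rw [mem_fr]
        refine ⟨hzS, ?_, ?_⟩
        · rintro ⟨y, hy, hlt⟩
          have h9 := hg y
          split_ifs at h9 <;> omega
        · rintro ⟨a, ha, hle⟩
          rw [hcz, mem_singleton] at ha
          rw [ha, ex, ez] at hle
          omega
      rw [h5] at this
      exact absurd this (notMem_empty _)
    refine ⟨by omega, Or.inl ⟨z, x, g, ⟨hzS, by omega, hcz, hcx⟩, ?_, hgU, hg⟩⟩
    by_cases hgS : g ∈ Sd
    · by_cases hgz : g = z
      · exact Or.inr (Or.inl hgz)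
      by_cases hgx : g = x
      · exact Or.inr (Or.inr (Or.inl hgx))
      right; right; right
      have ht1 := C.s1.tS g hgS
      have ht2 : 2 ≤ t g := by
        by_contra h
        exact hgn ⟨hgS, by omega, hgx⟩
      refine ⟨ht2, fun a ha => ?_⟩
      obtain ⟨haS, hta⟩ := far_cov C.s1 hgS ht2 ha
      have hpos := pos_cov C.s1 C.adm1 haS ((C.s1.dual g a).1 ha) gpos
      have h9 := hg a
      by_contra hnot
      rw [if_neg hnot] at h9
      split_ifs at h9 with h10
      · rw [h10] at hta
        omega
      · omega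
    · exact Or.inl hgS

/-- CLASSIFICATION, energy three -/
theorem Cf.low3 (C : Cf c c' t t' V Sd Sd' e) (hE : ∑ x, e x = 3) (nq : NQ c t Sd e)
    (nq' : NQ c' t' Sd' e) :
    kS c c' V Sd e + kS c' c V Sd' e ≤ 0 ∨ (kS c c' V Sd e + kS c' c V Sd' e ≤ 1 ∧
      (Q3 c t Sd Sd' e ∨ Q3 c' t' Sd' Sd e ∨ T3 c t Sd e ∨ T3 c' t' Sd' e)) := by
  by_cases h1 : ∀ x ∈ Sd, t x = 1 → e x = 0
  · have k1 := kS_zero C.s1 (side_zero C.s1 C.adm1 h1)
    by_cases h2 : ∀ x ∈ Sd', t' x = 1 → e x = 0
    · have k2 := kS_zero C.s2 (side_zero C.s2 C.adm2 h2)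
      left
      omega
    · push Not at h2
      obtain ⟨x, hx, htx, hex⟩ := h2
      rcases C.symm.low3a hE nq' hx htx (by omega) with h | ⟨h, h'⟩
      · left; omega
      · right
        refine ⟨by omega, ?_⟩
        rcases h' with h' | h'
        · exact Or.inr (Or.inl h')
        · exact Or.inr (Or.inr (Or.inr h'))
  · push Not at h1
    obtain ⟨x, hx, htx, hex⟩ := h1
    rcases C.low3a hE nq hx htx (by omega) with h | ⟨h, h'⟩
    · exact Or.inl h
    · right
      refine ⟨h, ?_⟩
      rcases h' with h' | h'
      · exact Or.inl h'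
      · exact Or.inr (Or.inr (Or.inl h'))

end Pool.Agent.GaussPoset.Win.W4
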