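import Pool.Agent.W_448w4_h10.KR

/-!
MP_448cb3_co, G2, case B, window `j`: the list of the cores of energy three with one deficit.  helper10.
-/

namespace Pool.Agent.GaussPoset.Win.W4

set_option linter.unusedSectionVars false

open Finset
open Pool.Agent.GaussPoset.Win.SO (Sde Pen TD On kS tL tU LowD UppD val_gen sde_low sde_up PN vp mem_PN
  num_PN NumG con mem_con self_con con_two_low con_two_upp con_cls con_disj on con_sub on_inj sit_PD
  sit_PU con_PD con_PU PD_data PU_data vp_PD vp_PU sit_ne)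
open Pool.Agent.GaussPoset.Win.I2 (lS uS mem_lS mem_uS)

universe u

variable {P : Type u} [Fintype P] [PartialOrder P] [DecidableEq P] {r i : ℕ}
variable {e f : P → ℕ} {psi : P → P} {C K : Finset P} {w v : P}

/-- `g` hangs below the configuration of the pendant `z` -/
def Cd (i : ℕ) (z g : P) : Prop :=
  (i < lev z ∧ i + 2 ≤ lev g ∧ uc g ⊆ con i z) ∨ (lev z < i ∧ lev g + 2 ≤ i ∧ dc g ⊆ con i z)

open Classical in
/-- pendants with one more label -/
noncomputable def I3 (i : ℕ) (C : Finset P) : Finset (P × P) :=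
  (PN i C ×ˢ C).filter (fun q => lev q.2 = i ∨ q.2 ∈ con i q.1 ∨ Cd i q.1 q.2)

/-- the configuration -/
noncomputable def m3 (i : ℕ) (q : P × P) : P → ℕ := on (con i q.1) + Pi.single q.2 1

lemma mem_I3 {q : P × P} : q ∈ I3 i C ↔ q.1 ∈ PN i C ∧ q.2 ∈ C ∧
    (lev q.2 = i ∨ q.2 ∈ con i q.1 ∨ Cd i q.1 q.2) := by
  classical
  unfold I3
  rw [mem_filter, mem_product, and_assoc]

lemma m3_eval {z y g : P} (hc : con i z = {z, y}) (x : P) : m3 i (z, g) x =
    (if x ∈ ({z, y} : Finset P) then 1 else 0) + if x = g then 1 else 0 := by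
  unfold m3 on
  rw [Pi.add_apply, Pi.single_apply]
  show (if x ∈ con i z then 1 else 0) + _ = _
  rw [hc]

/-- the data of a pendant -/
lemma PN_dat (H : Gr P r) {z : P} (hz : z ∈ PN i C) : z ∈ C ∧ ∃ y, con i z = {z, y} ∧
    y ∈ near P i ∧ nz i y = sit i z ∧ (sit i z).card = 2 ∧ (∀ a ∈ sit i z, lev a = i) ∧
    ((z ∈ PD P i ∧ lev z = i + 2 ∧ lev y = i + 1 ∧ uc z = {y} ∧ sit i z = uc y ∧ vp i z = 1 ∧
        Pen uc (tL (P := P) i) (lS P i) z y) ∨
      (z ∈ PU P i ∧ lev z + 2 = i ∧ lev y + 1 = i ∧ dc z = {y} ∧ sit i z = dc y ∧ vp i z = -1 ∧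
        Pen dc (tU (P := P) i) (uS P i) z y)) := by
  obtain ⟨hC, h | h⟩ := mem_PN.1 hz
  · obtain ⟨y, g1, g2, g3, g4, g5⟩ := PD_data H h
    have hs := sit_PD H g2 g1
    refine ⟨hC, y, con_PD H g2 g1, mem_near.2 (Or.inl g3), ?_, ?_, ?_, Or.inl ⟨h, g2, g3, g1, hs,
      vp_PD h, g5⟩⟩
    · rw [nz_low g3, hs]
    · rw [hs]; exact g4
    · intro a ha
      rw [hs] at ha
      have := lev_uc H ha
      omega
  · obtain ⟨y, g1, g2, g3, g4, g5⟩ := PU_data H h
    have hs := sit_PU H g2 g1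
    refine ⟨hC, y, con_PU H g2 g1, mem_near.2 (Or.inr g3), ?_, ?_, ?_, Or.inr ⟨h, g2, g3, g1, hs,
      vp_PU h, g5⟩⟩
    · rw [nz_upp g3, hs]
    · rw [hs]; exact g4
    · intro a ha
      rw [hs] at ha
      have := lev_dc H ha
      omega

/-- DATA AND VALUE of `m3` -/
theorem m3_val (H : Gr P r) (hir : i ≤ r) (hC : Part (i + 1) C) {q : P × P} (hq : q ∈ I3 i C) :
    AdmL i (m3 i q) ∧ AdmU i (m3 i q) ∧ Disjoint (AL i (m3 i q)) (AU i (m3 i q)) ∧
      AL i (m3 i q) ∪ AU i (m3 i q) = (sit i q.1).erase q.2 ∧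
      od (st i C).card 1 (tC i C (m3 i q)) ∧
      lc (st i C).card 1 (tC i C (m3 i q)) = ep3 (sit i q.1) q.1 q.2 * vp i q.1 ∧
      Spt C (m3 i q) := by
  obtain ⟨z, g⟩ := q
  obtain ⟨h1, h2, h3⟩ := mem_I3.1 hq
  obtain ⟨hzC, y, hcon, hyn, hnz, hcard, hlev, hd⟩ := PN_dat H h1
  simp only at h2 h3 hcon hnz hcard hlev hd ⊢
  have hs : Spt C (m3 i (z, g)) := by
    have hsub : con i z ⊆ C := con_sub H hC hzC (by
      rcases hd with ⟨-, h, -⟩ | ⟨-, h, -⟩ <;> omega)
    intro x hx
    unfold m3 on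
    rw [Pi.add_apply, Pi.single_apply]
    show (if x ∈ con i z then 1 else 0) + (if x = g then 1 else 0) = 0
    rw [if_neg (fun h => hx (hsub h)), if_neg (by rintro rfl; exact hx h2), add_zero]
  rcases hd with ⟨d1, d2, d3, d4, d5, d6, d7⟩ | ⟨d1, d2, d3, d4, d5, d6, d7⟩
  · have hg : g ∉ lS P i ∨ g = z ∨ g = y ∨ (2 ≤ tL (P := P) i g ∧ uc g ⊆ {z, y}) := by
      rcases h3 with h | h | ⟨-, a2, a3⟩ | ⟨a1, -⟩
      · left; rw [mem_lS]; omega
      · rw [hcon, mem_insert, mem_singleton] at h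
        rcases h with h | h
        · exact Or.inr (Or.inl h)
        · exact Or.inr (Or.inr (Or.inl h))
      · right; right; right
        refine ⟨by unfold tL; omega, ?_⟩
        rw [← hcon]; exact a3
      · omega
    have hgU : g ∉ uS P i := by
      rw [mem_uS]
      rcases h3 with h | h | ⟨-, a2, a3⟩ | ⟨a1, -⟩
      · omega
      · rw [hcon, mem_insert, mem_singleton] at h
        rcases h with h | h
        · rw [h]; omega
        · rw [h]; omega
      · omega
      · omega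
    obtain ⟨v1, v2, v3, v4, v5, v6⟩ := Q3_low H hir hC hs d7 hg hgU (m3_eval hcon)
    rw [← d5] at v4 v6
    rw [d6, mul_one]
    exact ⟨v1, v2, v3, v4, v5, v6, hs⟩
  · have hg : g ∉ uS P i ∨ g = z ∨ g = y ∨ (2 ≤ tU (P := P) i g ∧ dc g ⊆ {z, y}) := by
      rcases h3 with h | h | ⟨a1, -⟩ | ⟨-, a2, a3⟩
      · left; rw [mem_uS]; omega
      · rw [hcon, mem_insert, mem_singleton] at h
        rcases h with h | h
        · exact Or.inr (Or.inl h)
        · exact Or.inr (Or.inr (Or.inl h))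
      · omega
      · right; right; right
        refine ⟨by unfold tU; omega, ?_⟩
        rw [← hcon]; exact a3
    have hgU : g ∉ lS P i := by
      rw [mem_lS]
      rcases h3 with h | h | ⟨a1, -⟩ | ⟨-, a2, a3⟩
      · omega
      · rw [hcon, mem_insert, mem_singleton] at h
        rcases h with h | h
        · rw [h]; omega
        · rw [h]; omega
      · omega
      · omega
    obtain ⟨v1, v2, v3, v4, v5, v6⟩ := Q3_upp H hir hC hs d7 hg hgU (m3_eval hcon)
    rw [← d5] at v4 v6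
    rw [d6, mul_neg_one]
    exact ⟨v1, v2, v3, v4, v5, v6, hs⟩

/-- the element of the pendant configuration -/
lemma m3_sum (H : Gr P r) {q : P × P} (hq : q ∈ I3 i C) : ∑ x, m3 i q x = 3 := by
  obtain ⟨h1, -, -⟩ := mem_I3.1 hq
  unfold m3
  have e1 : ∑ x, (on (con i q.1) + Pi.single q.2 1 : P → ℕ) x =
      ∑ x, on (con i q.1) x + ∑ x, (Pi.single q.2 1 : P → ℕ) x := by
    rw [← sum_add_distrib]
    rfl
  rw [e1, SO.on_sum, (num_PN H h1).cd, sum_pi_single']
  simp

lemma m3_core (H : Gr P r) {q : P × P} (hq : q ∈ I3 i C) : IsCore i K psi (m3 i q) := by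
  obtain ⟨z, g⟩ := q
  obtain ⟨h1, h2, h3⟩ := mem_I3.1 hq
  obtain ⟨hzC, y, hcon, hyn, hnz, hcard, hlev, hd⟩ := PN_dat H h1
  simp only at h2 h3 hcon hd
  apply core_of_touch
  intro x hx hpos
  rw [m3_eval hcon] at hpos
  have hz : 0 < m3 i (z, g) z := by
    rw [m3_eval hcon, if_pos (by simp)]
    omega
  have hzn : z ∉ near P i := by
    rw [mem_near]
    rcases hd with ⟨-, h, -⟩ | ⟨-, h, -⟩ <;> omega
  have hxy : x = y := by
    by_cases hxz : x ∈ ({z, y} : Finset P)
    · rw [mem_insert, mem_singleton] at hxz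
      rcases hxz with h | h
      · rw [h] at hx; exact absurd hx hzn
      · exact h
    · rw [if_neg hxz, zero_add] at hpos
      by_cases hxg : x = g
      · rw [mem_near] at hx
        rcases h3 with h | h | ⟨-, a2, -⟩ | ⟨-, a2, -⟩
        · rw [hxg] at hx; omega
        · rw [hcon] at h
          rw [hxg] at hxz
          exact absurd h hxz
        · rw [hxg] at hx; omega
        · rw [hxg] at hx; omega
      · rw [if_neg hxg] at hpos
        omega
  rw [mem_Tch, hxy]
  rcases hd with ⟨-, l1, l2, d4, -⟩ | ⟨-, l1, l2, d4, -⟩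
  · exact Or.inl ⟨l2, z, by rw [← mem_uc, d4]; simp, hz⟩
  · exact Or.inr ⟨l2, z, by rw [← mem_dc, d4]; simp, hz⟩

/-- configurations of type Q3 are in the list -/
lemma Q3_index (H : Gr P r) (hs : Spt C e)
    (h : Q3 uc (tL (P := P) i) (lS P i) (uS P i) e) : ∃ q ∈ I3 i C, m3 i q = e := by
  obtain ⟨p, y, g, h1, h2, h3, h4⟩ := h
  obtain ⟨a0, a1, a2, a3, a4⟩ := SO.pen_low H h1
  have hcon := con_PD H a1 a3
  refine ⟨(p, g), mem_I3.2 ⟨mem_PN.2 ⟨mem_of_pos hs (by rw [h4 p, if_pos (by simp)]; omega),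
    Or.inl a0⟩, mem_of_pos hs (by rw [h4 g, if_pos rfl]; omega), ?_⟩, ?_⟩
  · rw [mem_uS] at h3
    rcases h2 with h | h | h | ⟨h, h'⟩
    · rw [mem_lS] at h
      left
      show lev g = i
      omega
    · right; left
      show g ∈ con i p
      rw [hcon, h]; simp
    · right; left
      show g ∈ con i p
      rw [hcon, h]; simp
    · right; right; left
      unfold tL at h
      refine ⟨by show i < lev p; omega, by show i + 2 ≤ lev g; omega, ?_⟩
      show uc g ⊆ con i p
      rw [hcon]; exact h'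
  · funext x
    rw [m3_eval hcon, h4 x]

lemma Q3_index' (H : Gr P r) (hs : Spt C e)
    (h : Q3 dc (tU (P := P) i) (uS P i) (lS P i) e) : ∃ q ∈ I3 i C, m3 i q = e := by
  obtain ⟨p, y, g, h1, h2, h3, h4⟩ := h
  obtain ⟨a0, a1, a2, a3, a4⟩ := SO.pen_up H h1
  have hcon := con_PU H a1 a3
  refine ⟨(p, g), mem_I3.2 ⟨mem_PN.2 ⟨mem_of_pos hs (by rw [h4 p, if_pos (by simp)]; omega),
    Or.inr a0⟩, mem_of_pos hs (by rw [h4 g, if_pos rfl]; omega), ?_⟩, ?_⟩
  · rw [mem_lS] at h3
    rcases h2 with h | h | h | ⟨h, h'⟩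
    · rw [mem_uS] at h
      left
      show lev g = i
      omega
    · right; left
      show g ∈ con i p
      rw [hcon, h]; simp
    · right; left
      show g ∈ con i p
      rw [hcon, h]; simp
    · right; right; right
      unfold tU at h
      refine ⟨by show lev p < i; omega, by show lev g + 2 ≤ i; omega, ?_⟩
      show dc g ⊆ con i p
      rw [hcon]; exact h'
  · funext x
    rw [m3_eval hcon, h4 x]

/-- the far pendant is recovered -/
lemma m3_fib (H : Gr P r) {q q' : P × P} (hq : q ∈ I3 i C) (hq' : q' ∈ I3 i C)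
    (h : m3 i q' = m3 i q) : q' = q ∨ (q' = q.swap ∧ q.2 ∈ PN i C ∧ q.2 ≠ q.1) := by
  obtain ⟨z, g⟩ := q
  obtain ⟨z', g'⟩ := q'
  obtain ⟨h1, h2, h3⟩ := mem_I3.1 hq
  obtain ⟨h1', h2', h3'⟩ := mem_I3.1 hq'
  obtain ⟨hzC, y, hcon, hyn, hnz, hcard, hlev, hd⟩ := PN_dat H h1
  obtain ⟨hzC', y', hcon', hyn', hnz', hcard', hlev', hd'⟩ := PN_dat H h1'
  simp only at h1 h1' hcon hcon' hd hd'
  have ev : ∀ x, (if x ∈ ({z', y'} : Finset P) then 1 else 0) + (if x = g' then 1 else 0) =
      (if x ∈ ({z, y} : Finset P) then 1 else 0) + if x = g then 1 else 0 := by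
    intro x
    rw [← m3_eval hcon', ← m3_eval hcon, h]
  have far : z ∉ near P i := by
    rw [mem_near]
    rcases hd with ⟨-, h, -⟩ | ⟨-, h, -⟩ <;> omega
  have far' : z' ∉ near P i := by
    rw [mem_near]
    rcases hd' with ⟨-, h, -⟩ | ⟨-, h, -⟩ <;> omega
  by_cases hzz : z' = z
  · left
    have hyy : y' = y := by
      have h5 : y' ∈ con i z' := by rw [hcon']; simp
      rw [hzz, hcon, mem_insert, mem_singleton] at h5
      rcases h5 with h5 | h5
      · rw [h5] at hyn'; exact absurd hyn' far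
      · exact h5
    have h6 := ev g'
    rw [hzz, hyy, if_pos rfl] at h6
    have h7 : g' = g := by
      by_contra hne
      rw [if_neg hne] at h6
      omega
    rw [hzz, h7]
  · right
    have hg : z' = g := by
      have h6 := ev z'
      have a1 : z' ∈ ({z', y'} : Finset P) := by simp
      have a2 : z' ∉ ({z, y} : Finset P) := by
        rw [mem_insert, mem_singleton, not_or]
        exact ⟨hzz, by rintro rfl; exact far' hyn⟩
      by_contra hne
      rw [if_pos a1, if_neg a2, if_neg hne] at h6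
      omega
    have hg' : z = g' := by
      have h6 := ev z
      have a1 : z ∈ ({z, y} : Finset P) := by simp
      have a2 : z ∉ ({z', y'} : Finset P) := by
        rw [mem_insert, mem_singleton, not_or]
        exact ⟨Ne.symm hzz, by rintro rfl; exact far hyn'⟩
      by_contra hne
      rw [if_pos a1, if_neg a2, if_neg hne] at h6
      omega
    refine ⟨?_, ?_, ?_⟩
    · rw [← hg', hg]
      rfl
    · show g ∈ PN i C
      rw [← hg]; exact h1'
    · show g ≠ z
      rw [← hg]; exact hzz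

/-- siblings -/
lemma m3_swap (H : Gr P r) {q : P × P} (hq : q ∈ I3 i C) (h : q.2 ∈ PN i C) (hne : q.2 ≠ q.1) :
    q.swap ∈ I3 i C ∧ m3 i q.swap = m3 i q := by
  obtain ⟨z, g⟩ := q
  obtain ⟨h1, h2, h3⟩ := mem_I3.1 hq
  obtain ⟨hzC, y, hcon, hyn, hnz, hcard, hlev, hd⟩ := PN_dat H h1
  obtain ⟨hgC, y', hcon', hyn', hnz', hcard', hlev', hd'⟩ := PN_dat H h
  simp only at h1 h2 h3 h hne hcon hcon' hd hd'
  have far' : g ∉ near P i := by
    rw [mem_near]
    rcases hd' with ⟨-, h, -⟩ | ⟨-, h, -⟩ <;> omega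
  have hlg : lev g ≠ i := by
    rcases hd' with ⟨-, h, -⟩ | ⟨-, h, -⟩ <;> omega
  -- the covers agree
  have key : y' = y ∧ Cd i g z := by
    rcases h3 with h4 | h4 | ⟨a1, a2, a3⟩ | ⟨a1, a2, a3⟩
    · exact absurd h4 hlg
    · rw [hcon, mem_insert, mem_singleton] at h4
      rcases h4 with h4 | h4
      · exact absurd h4 hne
      · rw [h4] at far'; exact absurd hyn far'
    · rcases hd' with ⟨-, l1, l2, u1, -⟩ | ⟨-, l1, -⟩
      · rcases hd with ⟨-, l3, l4, u2, -⟩ | ⟨-, l3, -⟩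
        · have h5 : y' ∈ con i z := a3 (by rw [u1]; simp)
          rw [hcon, mem_insert, mem_singleton] at h5
          rcases h5 with h5 | h5
          · rw [h5] at l2; omega
          · refine ⟨h5, Or.inl ⟨by omega, by omega, ?_⟩⟩
            rw [u2, hcon', h5]
            simp
        · omega
      · omega
    · rcases hd' with ⟨-, l1, -⟩ | ⟨-, l1, l2, u1, -⟩
      · omega
      · rcases hd with ⟨-, l3, -⟩ | ⟨-, l3, l4, u2, -⟩
        · omega
        · have h5 : y' ∈ con i z := a3 (by rw [u1]; simp)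
          rw [hcon, mem_insert, mem_singleton] at h5
          rcases h5 with h5 | h5
          · rw [h5] at l2; omega
          · refine ⟨h5, Or.inr ⟨by omega, by omega, ?_⟩⟩
            rw [u2, hcon', h5]
            simp
  refine ⟨mem_I3.2 ⟨h, hzC, Or.inr (Or.inr key.2)⟩, ?_⟩
  funext x
  show m3 i (g, z) x = _
  rw [m3_eval hcon', m3_eval hcon, key.1]
  have hny : ∀ a : P, a ∉ near P i → a ≠ y := by
    rintro a ha rfl
    exact ha hyn
  have far : z ∉ near P i := by
    rw [mem_near]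
    rcases hd with ⟨-, h, -⟩ | ⟨-, h, -⟩ <;> omega
  by_cases x1 : x = z
  · rw [x1, if_neg, if_pos rfl, if_pos (by simp), if_neg (Ne.symm hne)]
    rw [mem_insert, mem_singleton, not_or]
    exact ⟨Ne.symm hne, hny z far⟩
  · by_cases x2 : x = g
    · rw [x2, if_pos (by simp), if_neg hne, if_neg, if_pos rfl]
      rw [mem_insert, mem_singleton, not_or]
      exact ⟨hne, hny g far'⟩
    · rw [if_neg x1, if_neg x2]
      simp only [mem_insert, mem_singleton, x1, x2]

end Pool.Agent.GaussPoset.Win.W4
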