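import Pool.Agent.W_448w4_h10.KS

/-!
MP_448cb3_co, G2, case B, window `j`: sums over the cores of energy three with one deficit.  helper10.
-/

namespace Pool.Agent.GaussPoset.Win.W4

set_option linter.unusedSectionVars false

open Finset
open Pool.Agent.GaussPoset.Win.SO (Sde Pen TD On kS tL tU LowD UppD val_gen sde_low sde_up PN vp mem_PN
  num_PN NumG con mem_con self_con con_two_low con_two_upp con_cls con_disj on con_sub on_inj sit_PD
  sit_PU con_PD con_PU PD_data PU_data vp_PD vp_PU sit_ne nL nU BL BU mem_nL mem_nU cheap_of)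
open Pool.Agent.GaussPoset.Win.I2 (lS uS mem_lS mem_uS)

universe u

variable {P : Type u} [Fintype P] [PartialOrder P] [DecidableEq P] {r i : ℕ}
variable {e f : P → ℕ} {psi : P → P} {C K : Finset P} {w v : P}

/-! ### elements with three sites -/

/-- labels one on an element at distance two and its covers -/
noncomputable def mz (i : ℕ) (z : P) : P → ℕ := on (con i z)

/-- the value -/
noncomputable def tz (i : ℕ) (z : P) : ℤ := if i < lev z then -1 else 1

lemma Z4_cases {z : P} (hz : z ∈ Z4 i C) :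
    (z ∈ C ∧ lev z = i + 2 ∧ up i z = 3) ∨ (z ∈ C ∧ lev z + 2 = i ∧ dn i z = 3) := by
  rcases mem_Z4.1 hz with h | h
  · exact Or.inl (mem_ZL.1 h)
  · exact Or.inr (mem_ZU.1 h)

/-- DATA AND VALUE of `mz` -/
theorem mz_val (H : Gr P r) (hir : i ≤ r) (hC : Part (i + 1) C) {z : P} (hz : z ∈ Z4 i C) :
    AdmL i (mz i z) ∧ AdmU i (mz i z) ∧ Disjoint (AL i (mz i z)) (AU i (mz i z)) ∧
      AL i (mz i z) ∪ AU i (mz i z) = sit i z ∧
      od (st i C).card 1 (tC i C (mz i z)) ∧ lc (st i C).card 1 (tC i C (mz i z)) = tz i z ∧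
      Spt C (mz i z) ∧ ∑ x, mz i z x = 3 ∧ (sit i z).card = 3 := by
  have hl : lev z ≠ i := by rcases Z4_cases hz with ⟨-, h, -⟩ | ⟨-, h, -⟩ <;> omega
  have hzC : z ∈ C := by rcases Z4_cases hz with ⟨h, -⟩ | ⟨h, -⟩ <;> exact h
  have hsub := con_sub H hC hzC hl
  have hs : Spt C (mz i z) := SO.on_spt hsub
  obtain ⟨D, D'⟩ := SO.on_dat H hir (con_cls H hl)
  unfold mz at hs ⊢
  rcases Z4_cases hz with ⟨-, l1, u1⟩ | ⟨-, l1, u1⟩
  · have e1 : BL i (con i z) = sit i z := by
      rw [SO.BL_con_low H (by omega), sit_low H (show i ≤ lev z by omega)]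
    have e2 : BU i (con i z) = ∅ := SO.BU_con_low H (by omega)
    have hcon := con_two_low H l1
    have huc := card_uc_of_up H l1 u1
    have e3 : nL i (con i z) = uc z := by
      ext x
      rw [mem_nL, hcon, mem_insert]
      constructor
      · rintro ⟨h | h, hx⟩
        · rw [h] at hx; omega
        · exact h
      · intro h
        have := lev_uc H h
        exact ⟨Or.inr h, by omega⟩
    have e4 : nU i (con i z) = ∅ := by
      rw [eq_empty_iff_forall_notMem]
      intro x hx
      rw [mem_nU, hcon, mem_insert] at hx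
      obtain ⟨h | h, hx⟩ := hx
      · rw [h] at hx; omega
      · have := lev_uc H h
        omega
    have e5 : (sit i z).card = 3 := by
      rw [sit_low H (show i ≤ lev z by omega), card_sts, u1]
    rw [e3, e1] at D
    rw [e4, e2] at D'
    obtain ⟨g4, g5⟩ := val_gen H hC hs D D' (disjoint_empty_right _) (k := 1) (by
      rw [e5, huc, card_empty])
    refine ⟨D.adm, D'.adm, ?_, ?_, SO.dvd_up g4, ?_, hs, ?_, e5⟩
    · rw [D'.AU_eq]; exact disjoint_empty_right _
    · rw [D.AL_eq, D'.AU_eq, union_empty]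
    · unfold lc tz
      rw [g5, e5, card_empty, if_pos (by omega)]
      norm_num
    · rw [SO.on_sum, hcon, card_insert_of_notMem, huc]
      intro h
      have := lev_uc H h
      omega
  · have e1 : BU i (con i z) = sit i z := by
      rw [SO.BU_con_upp H (by omega), sit_upp H (show lev z ≤ i by omega)]
    have e2 : BL i (con i z) = ∅ := SO.BL_con_upp H (by omega)
    have hcon := con_two_upp H l1
    have huc := card_dc_of_dn H l1 u1
    have e3 : nU i (con i z) = dc z := by
      ext x
      rw [mem_nU, hcon, mem_insert]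
      constructor
      · rintro ⟨h | h, hx⟩
        · rw [h] at hx; omega
        · exact h
      · intro h
        have := lev_dc H h
        exact ⟨Or.inr h, by omega⟩
    have e4 : nL i (con i z) = ∅ := by
      rw [eq_empty_iff_forall_notMem]
      intro x hx
      rw [mem_nL, hcon, mem_insert] at hx
      obtain ⟨h | h, hx⟩ := hx
      · rw [h] at hx; omega
      · have := lev_dc H h
        omega
    have e5 : (sit i z).card = 3 := by
      rw [sit_upp H (show lev z ≤ i by omega), card_stD, u1]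
    rw [e3, e1] at D'
    rw [e4, e2] at D
    obtain ⟨g4, g5⟩ := val_gen H hC hs D D' (disjoint_empty_left _) (k := 1) (by
      rw [e5, huc, card_empty])
    refine ⟨D.adm, D'.adm, ?_, ?_, SO.dvd_up g4, ?_, hs, ?_, e5⟩
    · rw [D.AL_eq]; exact disjoint_empty_left _
    · rw [D.AL_eq, D'.AU_eq, empty_union]
    · unfold lc tz
      rw [g5, huc, card_empty, if_neg (by omega)]
      norm_num
    · rw [SO.on_sum, hcon, card_insert_of_notMem, huc]
      intro h
      have := lev_dc H h
      omega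

lemma mz_core (H : Gr P r) {z : P} (hz : z ∈ Z4 i C) : IsCore i K psi (mz i z) := by
  apply core_of_touch
  intro x hx hpos
  unfold mz at hpos ⊢
  rw [on_pos] at hpos
  rw [mem_near] at hx
  have hself : 0 < on (con i z) z := by
    rw [on_pos]
    exact self_con (by rcases Z4_cases hz with ⟨-, h, -⟩ | ⟨-, h, -⟩ <;> omega)
  rw [mem_Tch]
  rcases Z4_cases hz with ⟨-, l1, u1⟩ | ⟨-, l1, u1⟩
  · rw [con_two_low H l1, mem_insert] at hpos
    rcases hpos with h | h
    · rw [h] at hx; omega
    · have := lev_uc H h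
      exact Or.inl ⟨by omega, z, mem_uc.1 h, hself⟩
  · rw [con_two_upp H l1, mem_insert] at hpos
    rcases hpos with h | h
    · rw [h] at hx; omega
    · have := lev_dc H h
      exact Or.inr ⟨by omega, z, mem_dc.1 h, hself⟩

lemma mz_far (H : Gr P r) {z x : P} (hz : z ∈ Z4 i C) (hx : lev x = i + 2 ∨ lev x + 2 = i) :
    0 < mz i z x ↔ x = z := by
  unfold mz
  rw [on_pos]
  constructor
  · intro h
    rcases Z4_cases hz with ⟨-, l1, u1⟩ | ⟨-, l1, u1⟩
    · rw [con_two_low H l1, mem_insert] at h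
      rcases h with h | h
      · exact h
      · have := lev_uc H h
        omega
    · rw [con_two_upp H l1, mem_insert] at h
      rcases h with h | h
      · exact h
      · have := lev_dc H h
        omega
  · rintro rfl
    exact self_con (by rcases Z4_cases hz with ⟨-, h, -⟩ | ⟨-, h, -⟩ <;> omega)

lemma mz_inj (H : Gr P r) {z z' : P} (hz : z ∈ Z4 i C) (hz' : z' ∈ Z4 i C)
    (h : mz i z = mz i z') : z = z' := by
  have l : lev z = i + 2 ∨ lev z + 2 = i := by
    rcases Z4_cases hz with ⟨-, h, -⟩ | ⟨-, h, -⟩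
    · exact Or.inl h
    · exact Or.inr h
  have h1 := (mz_far H hz l).2 rfl
  rw [h] at h1
  exact (mz_far H hz' l).1 h1

lemma T3_index (H : Gr P r) (hs : Spt C e) (h : T3 uc (tL (P := P) i) (lS P i) e) :
    ∃ z ∈ Z4 i C, mz i z = e := by
  obtain ⟨z, x, x', h1, h2, h3, h4, h5, h6⟩ := h
  have hz : lev z = i + 2 := by
    rw [mem_lS] at h1
    unfold tL at h2
    omega
  refine ⟨z, mem_Z4.2 (Or.inl (mem_ZL.2 ⟨?_, hz, ?_⟩)), ?_⟩
  · exact mem_of_pos hs (by rw [h6 z, if_pos (by simp)]; omega)
  · rw [up_two H hz h3, h5]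
  · unfold mz
    apply On_eq (on_On _) h6
    rw [con_two_low H hz, h3]

lemma T3_index' (H : Gr P r) (hs : Spt C e) (h : T3 dc (tU (P := P) i) (uS P i) e) :
    ∃ z ∈ Z4 i C, mz i z = e := by
  obtain ⟨z, x, x', h1, h2, h3, h4, h5, h6⟩ := h
  have hz : lev z + 2 = i := by
    rw [mem_uS] at h1
    unfold tU at h2
    omega
  refine ⟨z, mem_Z4.2 (Or.inr (mem_ZU.2 ⟨?_, hz, ?_⟩)), ?_⟩
  · exact mem_of_pos hs (by rw [h6 z, if_pos (by simp)]; omega)
  · rw [dn_two H hz h3, h5]
  · unfold mz
    apply On_eq (on_On _) h6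
    rw [con_two_upp H hz, h3]

/-- two near elements against one -/
lemma m3_ne_mz (H : Gr P r) {q : P × P} {z : P} (hq : q ∈ I3 i C) (hz : z ∈ Z4 i C) :
    m3 i q ≠ mz i z := by
  intro heq
  obtain ⟨p, g⟩ := q
  obtain ⟨h1, h2, h3⟩ := mem_I3.1 hq
  obtain ⟨hzC, y, hcon, hyn, hnz, hcard, hlev, hd⟩ := PN_dat H h1
  simp only at h2 h3 hcon hd
  -- every near element with a positive label is `y`
  have hone : ∀ x ∈ near P i, 0 < mz i z x → x = y := by
    intro x hx hpos
    rw [← heq, m3_eval hcon] at hpos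
    rw [mem_near] at hx
    by_cases hxz : x ∈ ({p, y} : Finset P)
    · rw [mem_insert, mem_singleton] at hxz
      rcases hxz with h | h
      · rw [h] at hx
        rcases hd with ⟨-, h, -⟩ | ⟨-, h, -⟩ <;> omega
      · exact h
    · rw [if_neg hxz, zero_add] at hpos
      by_cases hxg : x = g
      · rcases h3 with h | h | ⟨-, a2, -⟩ | ⟨-, a2, -⟩
        · rw [hxg] at hx; omega
        · rw [hcon] at h
          rw [hxg] at hxz
          exact absurd h hxz
        · rw [hxg] at hx; omega
        · rw [hxg] at hx; omega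
      · rw [if_neg hxg] at hpos
        omega
  rcases Z4_cases hz with ⟨-, l1, u1⟩ | ⟨-, l1, u1⟩
  · obtain ⟨a, b, hab, huc⟩ := card_eq_two.1 (card_uc_of_up H l1 u1)
    have key : ∀ x ∈ uc z, x = y := by
      intro x hx
      have := lev_uc H hx
      refine hone x (mem_near.2 (Or.inl (by omega))) ?_
      unfold mz
      rw [on_pos, con_two_low H l1]
      exact mem_insert_of_mem hx
    exact hab ((key a (by rw [huc]; simp)).trans (key b (by rw [huc]; simp)).symm)
  · obtain ⟨a, b, hab, huc⟩ := card_eq_two.1 (card_dc_of_dn H l1 u1)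
    have key : ∀ x ∈ dc z, x = y := by
      intro x hx
      have := lev_dc H hx
      refine hone x (mem_near.2 (Or.inr (by omega))) ?_
      unfold mz
      rw [on_pos, con_two_upp H l1]
      exact mem_insert_of_mem hx
    exact hab ((key a (by rw [huc]; simp)).trans (key b (by rw [huc]; simp)).symm)

lemma cheap0_lc (H : Gr P r) (hC : Part (i + 1) C) (hs : Spt C e) (h : Cheap 0 i e) :
    lc (st i C).card 1 (tC i C e) = 0 := by
  have := cheap_coeff1 H hC hs h
  unfold lc
  rw [pow_one]
  exact this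

lemma vp_sq (p : P) : vp i p = 1 ∨ vp i p = -1 := by
  unfold vp
  split_ifs
  · exact Or.inl rfl
  · exact Or.inr rfl

lemma ep3_ne (T : Finset P) (p g : P) : ep3 T p g ≠ 0 := by
  unfold ep3
  split_ifs <;> norm_num

section

variable (Q : K5 r i K psi C w v)
include Q

/-- CLASSIFICATION, energy three -/
theorem K5.cls3 (hc : IsCore i ∅ (ps K psi) e) (hs : Spt C e) (hE : ∑ x, e x = 3) :
    Cheap 0 i e ∨ ((∃ q ∈ I3 i C, m3 i q = e) ∨ ∃ z ∈ Z4 i C, mz i z = e) := by
  by_cases hA : AdmL i e
  swap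
  · exact Or.inl (Or.inl hA)
  by_cases hB : AdmU i e
  swap
  · exact Or.inl (Or.inr (Or.inl hB))
  by_cases hd : Disjoint (AL i e) (AU i e)
  swap
  · exact Or.inl (Or.inr (Or.inr (Or.inl hd)))
  have nq1 : NQ uc (tL (P := P) i) (lS P i) e := by
    intro w hw ht he x hx x' hx' h1 h2
    rw [mem_lS] at hw
    unfold tL at ht
    exact Q.nq w (mem_of_pos hs he) (by omega) x hx x' hx' h1 h2
  have nq2 : NQ dc (tU (P := P) i) (uS P i) e := by
    intro w hw ht he x hx x' hx' h1 h2
    rw [mem_uS] at hw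
    unfold tU at ht
    exact Q.nq' w (mem_of_pos hs he) (by omega) x hx x' hx' h1 h2
  rcases (Q.cf hc hs hA hB hd).low3 hE nq1 nq2 with h | ⟨-, h⟩
  · exact Or.inl (cheap_of (by exact_mod_cast h))
  · right
    rcases h with h | h | h | h
    · exact Or.inl (Q3_index Q.H hs h)
    · exact Or.inl (Q3_index' Q.H hs h)
    · exact Or.inr (T3_index Q.H hs h)
    · exact Or.inr (T3_index' Q.H hs h)

/-- weight of a pair -/
noncomputable def c3 (i : ℕ) (C : Finset P) (q : P × P) : ℤ :=
  if q.2 ∈ PN i C ∧ q.2 ≠ q.1 then 1 else 2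

/-- SUMS over the cores of energy three -/
theorem K5.sum3 (X : (P → ℕ) → ℤ)
    (hX : ∀ e, Spt C e → Cheap 0 i e → X e = 0) :
    2 * ∑ e ∈ Co i K psi C 3, X e = ∑ q ∈ I3 i C, c3 i C q * X (m3 i q) +
      2 * ∑ z ∈ Z4 i C, X (mz i z) := by
  classical
  have H := Q.H
  have hir := Q.hir
  have sub1 : (I3 i C).image (m3 i) ∪ (Z4 i C).image (mz i) ⊆ Co i K psi C 3 := by
    intro e he
    rw [mem_union, mem_image, mem_image] at he
    rcases he with ⟨q, hq, rfl⟩ | ⟨z, hz, rfl⟩
    · exact mem_Co.2 ⟨m3_sum H hq, (m3_val H hir Q.hC hq).2.2.2.2.2.2, m3_core H hq⟩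
    · have := mz_val H hir Q.hC hz
      exact mem_Co.2 ⟨this.2.2.2.2.2.2.2.1, this.2.2.2.2.2.2.1, mz_core H hz⟩
  have h1 : ∑ e ∈ Co i K psi C 3, X e =
      ∑ e ∈ (I3 i C).image (m3 i) ∪ (Z4 i C).image (mz i), X e := by
    symm
    refine sum_subset sub1 ?_
    intro e he hne
    obtain ⟨g1, g2, g3⟩ := mem_Co.1 he
    rcases Q.cls3 g3 g2 g1 with h | h
    · exact hX e g2 h
    · exfalso
      apply hne
      rw [mem_union, mem_image, mem_image]
      exact h
  have hdis : Disjoint ((I3 i C).image (m3 i)) ((Z4 i C).image (mz i)) := by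
    rw [disjoint_left]
    intro e he he'
    rw [mem_image] at he he'
    obtain ⟨q, hq, rfl⟩ := he
    obtain ⟨z, hz, h⟩ := he'
    exact m3_ne_mz H hq hz h.symm
  rw [h1, sum_union hdis, mul_add]
  congr 1
  · have h2 : ∑ q ∈ I3 i C, c3 i C q * X (m3 i q) =
        ∑ e ∈ (I3 i C).image (m3 i), ∑ q ∈ (I3 i C).filter (fun q => m3 i q = e),
          c3 i C q * X (m3 i q) :=
      (Finset.sum_fiberwise_of_maps_to (fun q hq => mem_image_of_mem _ hq) _).symm
    rw [h2, mul_sum]
    refine sum_congr rfl fun e he => ?_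
    rw [mem_image] at he
    obtain ⟨q, hq, rfl⟩ := he
    by_cases hsib : q.2 ∈ PN i C ∧ q.2 ≠ q.1
    · obtain ⟨s1, s2⟩ := m3_swap H hq hsib.1 hsib.2
      have h3 : (I3 i C).filter (fun q' => m3 i q' = m3 i q) = {q, q.swap} := by
        ext q'
        rw [mem_filter, mem_insert, mem_singleton]
        constructor
        · rintro ⟨h3, h4⟩
          rcases m3_fib H hq h3 h4 with h | ⟨h, -⟩
          · exact Or.inl h
          · exact Or.inr h
        · rintro (rfl | rfl)
          · exact ⟨hq, rfl⟩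
          · exact ⟨s1, s2⟩
      have hne : q ≠ q.swap := by
        intro h
        exact hsib.2 (congrArg Prod.snd h)
      rw [h3, sum_pair hne, s2]
      have c1 : c3 i C q = 1 := by unfold c3; rw [if_pos hsib]
      have c2 : c3 i C q.swap = 1 := by
        unfold c3
        rw [if_pos]
        exact ⟨(mem_I3.1 hq).1, hsib.2.symm⟩
      rw [c1, c2]
      ring
    · have h3 : (I3 i C).filter (fun q' => m3 i q' = m3 i q) = {q} := by
        ext q'
        rw [mem_filter, mem_singleton]
        constructor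
        · rintro ⟨h3, h4⟩
          rcases m3_fib H hq h3 h4 with h | ⟨-, h⟩
          · exact h
          · exact absurd h hsib
        · rintro rfl
          exact ⟨hq, rfl⟩
      have c1 : c3 i C q = 2 := by unfold c3; rw [if_neg hsib]
      rw [h3, sum_singleton, c1]
  · rw [sum_image (fun a ha b hb h => mz_inj H ha hb h)]

/-- SUMS over the cores of energy two -/
theorem K5.sum2 (X : (P → ℕ) → ℤ)
    (hX : ∀ e, Spt C e → Cheap 0 i e → IsCore i ∅ (ps K psi) e → ∑ x, e x = 2 → X e = 0) :
    ∑ e ∈ Co i K psi C 2, X e = ∑ p ∈ PN i C, X (on (con i p)) := by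
  classical
  have H := Q.H
  have h1 : ∑ e ∈ Co i K psi C 2, X e = ∑ e ∈ (PN i C).image (fun p => on (con i p)), X e := by
    symm
    refine sum_subset ?_ ?_
    · intro e he
      rw [mem_image] at he
      obtain ⟨p, hp, rfl⟩ := he
      exact mem_Co.2 ⟨(c2_value H Q.hi Q.hi2 Q.hC hp).1, c2_spt H Q.hC hp, c2_core H hp⟩
    · intro e he hne
      obtain ⟨g1, g2, g3⟩ := mem_Co.1 he
      rcases Q.cls2 g3 g2 g1.le with h | ⟨-, h⟩
      · exact hX e g2 h g3 g1
      · exfalso
        apply hne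
        rw [mem_image]
        exact L2_index H g2 h
  rw [h1, sum_image (fun a ha b hb h => c2_inj H ha hb h)]

end

end Pool.Agent.GaussPoset.Win.W4
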