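import Pool.Agent.W_448w4_h10.KT

/-!
MP_448cb3_co, G2, case B, window `j`: the natural cores of energy four.  helper10.
-/

namespace Pool.Agent.GaussPoset.Win.W4

set_option linter.unusedSectionVars false

open Finset
open Pool.Agent.GaussPoset.Win.SO (PN vp con con_sub on cheap_coeff)

universe u

variable {P : Type u} [Fintype P] [PartialOrder P] [DecidableEq P] {r i : ℕ}
variable {e f : P → ℕ} {psi : P → P} {C K : Finset P} {w v : P}

/-- THE NATURAL CORES OF ENERGY FOUR -/
theorem K5.sum4 (Q : K5 r i K psi C w v) (hb : 1 ≤ (st i C).card) :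
    2 * ∑ e ∈ Co i K psi C 4, lc (st i C).card 2 (tC i C e) =
      ∑ q ∈ P4 i C, vp i q.1 * vp i q.2 - 2 * ((Z4 i C).card - (T4 i C).card : ℤ) := by
  classical
  have H := Q.H
  have hir := Q.hir
  have h1 : ∑ e ∈ Co i K psi C 4, lc (st i C).card 2 (tC i C e) =
      ∑ e ∈ (P4 i C).image (c4 i) ∪ ((Z4 i C).image (cA i) ∪ (T4 i C).image (cB i)),
        lc (st i C).card 2 (tC i C e) := by
    symm
    refine sum_subset ?_ ?_
    · intro e he
      simp only [mem_union, mem_image] at he
      rcases he with ⟨q, hq, rfl⟩ | ⟨z, hz, rfl⟩ | ⟨z, hz, rfl⟩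
      · have hv := c4_value H Q.hi Q.hi2 Q.hC hq
        exact mem_Co.2 ⟨hv.1, c4_spt H Q.hC hq, c4_core H hq⟩
      · have hv := cA_value H hir Q.hC hz
        exact mem_Co.2 ⟨hv.1, cA_spt H Q.hC hz, cA_core H hz⟩
      · have hv := cB_value H hir Q.hC hz
        exact mem_Co.2 ⟨hv.1, cB_spt H Q.hC hz, cB_core H hz⟩
    · intro e he hne
      obtain ⟨g1, g2, g3⟩ := mem_Co.1 he
      rcases Q.cls g3 g2 g1.le with h | ⟨-, h⟩
      · exact cheap_coeff H Q.hC g2 h hb
      · exfalso
        apply hne
        simp only [mem_union, mem_image]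
        rcases h with h | h | h | h | h | h | h
        · exact Or.inl (PP_index H g2 h)
        · exact Or.inl (PP_index' H g2 h)
        · exact Or.inl (PQ_index H g2 h)
        · exact Or.inr (Or.inl (A4_index H g2 h))
        · exact Or.inr (Or.inl (A4_index' H g2 h))
        · exact Or.inr (Or.inr (B4_index H g2 h))
        · exact Or.inr (Or.inr (B4_index' H g2 h))
  rw [h1, sum_union, sum_union]
  rotate_left
  · rw [disjoint_left]
    intro e he he'
    rw [mem_image] at he he'
    obtain ⟨z, hz, rfl⟩ := he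
    obtain ⟨z', hz', h⟩ := he'
    have h2 := cA_two (i := i) z
    rw [← h] at h2
    have h3 := on_le_one (con i z' ∪ cS i z') z
    unfold cB at h2
    omega
  · rw [disjoint_union_right]
    constructor
    · rw [disjoint_left]
      intro e he he'
      rw [mem_image] at he he'
      obtain ⟨q, hq, rfl⟩ := he
      obtain ⟨z, hz, h⟩ := he'
      have h2 := cA_two (i := i) z
      rw [h] at h2
      have h3 := on_le_one (con i q.1 ∪ con i q.2) z
      unfold c4 at h2
      omega
    · rw [disjoint_left]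
      intro e he he'
      rw [mem_image] at he he'
      obtain ⟨q, hq, rfl⟩ := he
      obtain ⟨z, hz, h⟩ := he'
      obtain ⟨v, hv, hv2⟩ := cB_site H hz
      rw [h, c4_site H hq hv] at hv2
      omega
  have e1 := c4_sum H Q.hi Q.hi2 Q.hC
  have e2 : ∑ e ∈ (Z4 i C).image (cA i), lc (st i C).card 2 (tC i C e) =
      - ((Z4 i C).card : ℤ) := by
    have hv : ∀ z ∈ Z4 i C, lc (st i C).card 2 (tC i C (cA i z)) = -1 :=
      fun z hz => (cA_value H hir Q.hC hz).2
    rw [sum_image (fun a _ b _ h => cA_inj h), sum_congr rfl hv, sum_const]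
    simp
  have e3 : ∑ e ∈ (T4 i C).image (cB i), lc (st i C).card 2 (tC i C e) =
      ((T4 i C).card : ℤ) := by
    have hv : ∀ z ∈ T4 i C, lc (st i C).card 2 (tC i C (cB i z)) = 1 :=
      fun z hz => (cB_value H hir Q.hC hz).2
    rw [sum_image (fun a ha b hb h => cB_inj H ha hb h), sum_congr rfl hv, sum_const]
    simp
  rw [e2, e3]
  have e4 : ∑ e ∈ (P4 i C).image (c4 i), lc (st i C).card 2 (tC i C e) =
      ∑ e ∈ (P4 i C).image (c4 i), PowerSeries.coeff (st i C).card (dd ^ 2 * tC i C e : A) := rfl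
  rw [e4]
  linarith

end Pool.Agent.GaussPoset.Win.W4
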