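import Pool.Agent.W_448w4_h10.KU

/-!
MP_448cb3_co, G2, case B, window `j`: contributions of the cores of energy two.  helper10.
-/

namespace Pool.Agent.GaussPoset.Win.W4

set_option linter.unusedSectionVars false

open Finset
open Pool.Agent.GaussPoset.Win.So (IV IV_chi IV_Fe)
open Pool.Agent.GaussPoset.Win.SO (Sde Pen TD On kS tL tU LowD UppD val_gen sde_low sde_up PN vp mem_PN
  num_PN NumG con mem_con self_con con_two_low con_two_upp con_cls con_disj on con_sub on_inj sit_PD
  sit_PU con_PD con_PU PD_data PU_data vp_PD vp_PU sit_ne nL nU BL BU mem_nL mem_nU cheap_of)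
open Pool.Agent.GaussPoset.Win.I2 (lS uS mem_lS mem_uS)

universe u

variable {P : Type u} [Fintype P] [PartialOrder P] [DecidableEq P] {r i : ℕ}
variable {e f : P → ℕ} {psi : P → P} {C K : Finset P} {w v : P}

/-- DATA of the configuration of a pendant -/
theorem pd_val (H : Gr P r) (hi : 1 ≤ i) (hi2 : i + 1 ≤ r) (hC : Part (i + 1) C) {p : P}
    (hp : p ∈ PN i C) :
    AdmL i (on (con i p)) ∧ AdmU i (on (con i p)) ∧
      Disjoint (AL i (on (con i p))) (AU i (on (con i p))) ∧
      AL i (on (con i p)) ∪ AU i (on (con i p)) = sit i p ∧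
      od (st i C).card 1 (tC i C (on (con i p))) ∧
      lc (st i C).card 1 (tC i C (on (con i p))) = vp i p := by
  have hir : i ≤ r := by omega
  obtain ⟨hpC, y, hcon, hyn, hnz, hcard, hlev, hd⟩ := PN_dat H hp
  have hl : lev p ≠ i := by rcases hd with ⟨-, h, -⟩ | ⟨-, h, -⟩ <;> omega
  obtain ⟨D, D'⟩ := SO.on_dat H hir (con_cls H hl)
  have hv := (c2_value H hi hi2 hC hp).2
  have hs := c2_spt H hC hp
  have hdis : Disjoint (AL i (on (con i p))) (AU i (on (con i p))) ∧
      AL i (on (con i p)) ∪ AU i (on (con i p)) = sit i p := by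
    rcases hd with ⟨-, h, -⟩ | ⟨-, h, -⟩
    · rw [D.AL_eq, D'.AU_eq, SO.BL_con_low H (by omega), SO.BU_con_low H (by omega),
        sit_low H (show i ≤ lev p by omega)]
      exact ⟨disjoint_empty_right _, union_empty _⟩
    · rw [D.AL_eq, D'.AU_eq, SO.BL_con_upp H (by omega), SO.BU_con_upp H (by omega),
        sit_upp H (show lev p ≤ i by omega)]
      exact ⟨disjoint_empty_left _, empty_union _⟩
  refine ⟨D.adm, D'.adm, hdis.1, hdis.2, ?_, ?_⟩
  · have hch : Cheap 1 i (on (con i p)) := by
      rcases mem_PN.1 hp with ⟨-, h | h⟩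
      · obtain ⟨y', g1, g2, g3, g4, g5⟩ := PD_data H h
        have e1 : nL i (con i p) = {y'} := by
          rw [con_PD H g2 g1]
          ext x
          rw [mem_nL, mem_insert, mem_singleton]
          constructor
          · rintro ⟨rfl | rfl, hx⟩
            · omega
            · rfl
          · rintro rfl
            exact ⟨Or.inr rfl, g3⟩
        right; right; right
        rw [D.AL_eq, D'.AU_eq, D.pL_eq, SO.BL_con_low H (by omega), SO.BU_con_low H (by omega),
          ← sit_low H (show i ≤ lev p by omega), hcard, card_empty, e1, card_singleton]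
        omega
      · obtain ⟨y', g1, g2, g3, g4, g5⟩ := PU_data H h
        have e1 : nU i (con i p) = {y'} := by
          rw [con_PU H g2 g1]
          ext x
          rw [mem_nU, mem_insert, mem_singleton]
          constructor
          · rintro ⟨rfl | rfl, hx⟩
            · omega
            · rfl
          · rintro rfl
            exact ⟨Or.inr rfl, g3⟩
        right; right; right
        rw [D.AL_eq, D'.AU_eq, D'.pU_eq, SO.BL_con_upp H (by omega), SO.BU_con_upp H (by omega),
          ← sit_upp H (show lev p ≤ i by omega), hcard, card_empty, e1, card_singleton]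
        omega
    exact SO.dvd_up (SO.cheap_dvd H hC hs hch)
  · unfold lc
    rw [pow_one]
    exact hv

/-- no site has a label -/
lemma pd_site (H : Gr P r) {p : P} (hp : p ∈ PN i C) {y : P} (hy : lev y = i) :
    on (con i p) y = 0 := by
  unfold on
  rw [if_neg]
  intro h
  exact (con_cls H (num_PN H hp).ns).ns y h hy

/-- the touched elements -/
lemma pd_tch (H : Gr P r) {p x : P} (hp : p ∈ PN i C) (hx : x ∈ Tch i (on (con i p))) :
    nz i x = sit i p := by
  obtain ⟨hpC, y, hcon, hyn, hnz, hcard, hlev, hd⟩ := PN_dat H hp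
  rw [mem_Tch] at hx
  have hxy : x = y := by
    rcases hx with ⟨l1, z, hz, hz'⟩ | ⟨l1, z, hz, hz'⟩
    · have hl := lev_cov H hz
      rw [on_pos, hcon, mem_insert, mem_singleton] at hz'
      rcases hd with ⟨-, l2, l3, u1, -⟩ | ⟨-, l2, l3, u1, -⟩
      · rcases hz' with h | h
        · rw [h, ← mem_uc, u1, mem_singleton] at hz
          exact hz
        · rw [h] at hl; omega
      · rcases hz' with h | h
        · rw [h] at hl; omega
        · rw [h] at hl; omega
    · have hl := lev_cov H hz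
      rw [on_pos, hcon, mem_insert, mem_singleton] at hz'
      rcases hd with ⟨-, l2, l3, u1, -⟩ | ⟨-, l2, l3, u1, -⟩
      · rcases hz' with h | h
        · rw [h] at hl; omega
        · rw [h] at hl; omega
      · rcases hz' with h | h
        · rw [h, ← mem_dc, u1, mem_singleton] at hz
          exact hz
        · rw [h] at hl; omega
  rw [hxy, hnz]

/-- the sites of `x` and of the pendant are disjoint -/
noncomputable def Nx (i : ℕ) (x p : P) : ℤ := if Disjoint (nz i x) (sit i p) then 1 else 0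

/-- the type -/
lemma FG_pd (H : Gr P r) (hi : 1 ≤ i) (hi2 : i + 1 ≤ r) (hC : Part (i + 1) C) {p x : P}
    (hp : p ∈ PN i C) (hx : x ∈ near P i) (h2 : (nz i x).card = 2) {a : ℕ} (ha : a ≠ 0) :
    FG i (on (con i p)) x a = Nx i x p := by
  obtain ⟨-, -, -, hT, -, -⟩ := pd_val H hi hi2 hC hp
  have hall : ∀ y ∈ nz i x, on (con i p) y < a := by
    intro y hy
    rw [pd_site H hp (nz_lev H hx hy)]
    omega
  unfold FG Nx
  by_cases hd : Disjoint (nz i x) (sit i p)
  · rw [if_pos hd, if_pos]
    exact ⟨hall, by rw [hT]; exact hd⟩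
  · rw [if_neg hd, if_neg, if_neg]
    · rintro ⟨g1, -⟩
      rw [kz_eq_iff.2 hall] at g1
      omega
    · rintro ⟨-, g2⟩
      rw [hT] at g2
      exact hd g2

/-- vacuum, killed sites and pairs -/
noncomputable def Dg (i : ℕ) (K C T : Finset P) : ℤ :=
  Vc i K C + ∑ y ∈ T, dg i K C y - mm i K C T

/-- ONE LABEL on an unmatched double and one on a free near element, next to a pendant -/
theorem x_one (H : Gr P r) (hi : 1 ≤ i) (hi2 : i + 1 ≤ r) (hM : Mat P i K psi)
    (hC : Part (i + 1) C) {p x : P} (hp : p ∈ PN i C) (hx : x ∈ near P i) (hxC : x ∈ C)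
    (hxK : x ∈ K) (h2 : (nz i x).card = 2) (hT : x ∉ Tch i (on (con i p)))
    (h0 : on (con i p) x = 0) (hd : Disjoint (nz i x) (sit i p)) :
    lc (st i C).card 2 (JK i K psi C 1 (on (con i p) + Pi.single x 1)) =
      Dg i K C (sit i p ∪ nz i x) * (sg1 i x * vp i p) := by
  classical
  have hir : i ≤ r := by omega
  obtain ⟨v1, v2, v3, v4, v5, v6⟩ := pd_val H hi hi2 hC hp
  have hs := c2_spt H hC hp
  obtain ⟨e, he⟩ : ∃ e, e = on (con i p) := ⟨_, rfl⟩
  rw [← he] at hT h0 v1 v2 v3 v4 v5 v6 hs ⊢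
  have hsite : ∀ y, lev y = i → e y = 0 := fun y hy => by rw [he]; exact pd_site H hp hy
  have hall : ∀ y ∈ nz i x, e y < 1 := by
    intro y hy
    rw [hsite y (nz_lev H hx hy)]
    omega
  have hkz : kz i e x 1 = nz i x := kz_eq_iff.2 hall
  have hF : Fx i e x 1 := ⟨hall, by rw [v4]; exact hd⟩
  obtain ⟨o1, o2⟩ := val_F H hir hC hs v3 hx hxC hT h0 h2 hF v5
  -- the data of the new configuration
  have hs' : Spt C (e + Pi.single x 1) := by
    intro y hy
    rw [Pi.add_apply, hs y hy, Pi.single_apply, if_neg, add_zero]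
    rintro rfl
    exact hy hxC
  have hAA : Disjoint (AL i (e + Pi.single x 1)) (AU i (e + Pi.single x 1)) ∧
      AL i (e + Pi.single x 1) ∪ AU i (e + Pi.single x 1) = sit i p ∪ nz i x := by
    have hd' : Disjoint (nz i x) (AL i e ∪ AU i e) := by rw [v4]; exact hd
    rw [disjoint_union_right] at hd'
    rcases mem_near.1 hx with l | l
    · rw [AL_low H l h0, AU_low H l h0, hkz]
      refine ⟨disjoint_union_left.2 ⟨v3, hd'.2⟩, ?_⟩
      rw [← v4]
      ext y
      simp only [mem_union]
      tauto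
    · rw [AL_upp H l h0, AU_upp H l h0, hkz]
      refine ⟨disjoint_union_right.2 ⟨v3, hd'.1.symm⟩, ?_⟩
      rw [← v4]
      ext y
      simp only [mem_union]
      tauto
  have hRK : RK i K psi C (e + Pi.single x 1) = RK i K psi C e := RK_add H (single_far hx 1)
  have h0' : ∀ y ∈ RK i K psi C (e + Pi.single x 1), (e + Pi.single x 1 : P → ℕ) y = 0 := by
    intro y hy
    rw [hRK] at hy
    have hyx : y ≠ x := by
      rintro rfl
      exact notMem_RK hxK hy
    have hc : IsCore i K psi e := by rw [he]; exact c2_core H hp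
    rw [Pi.add_apply, Pi.single_apply, if_neg hyx, add_zero]
    exact hc y (mem_RK.1 hy).1
  have hz' : ∀ y, lev y = i → (e + Pi.single x 1 : P → ℕ) y = 0 := by
    intro y hy
    rw [Pi.add_apply, hsite y hy, single_far hx 1 y, add_zero]
    rw [mem_near]
    omega
  rw [JK_one H hi hi2 hM hC hs' h0' hAA.1 o1, om_killed H hi hi2 hM hC hz', hAA.2, o2, v6]
  · unfold Dg
    ring
  · intro y hy hny
    rw [hRK] at hny
    obtain ⟨g1, g2, g3⟩ := mem_N0.1 hy
    rw [hAA.2]
    have h3 : y ∈ Tch i e ∨ (y ∈ dbL P i ∪ dbU P i ∧ psi y ∈ Tch i e) := by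
      by_contra hcon
      rw [not_or] at hcon
      exact hny (mem_RK.2 ⟨mem_Rst.2 ⟨g1, g3, hcon.1, hcon.2⟩, g2⟩)
    have hcard := (PN_dat H hp).2.choose_spec.2.2.2.1
    rcases h3 with h3 | ⟨h3, h4⟩
    · rw [he] at h3
      have h5 := pd_tch H hp h3
      refine ⟨?_, ?_⟩
      · by_contra hnd
        rw [mem_union, not_or] at hnd
        have := nz_one H hi hi2 g1 hnd.1 hnd.2
        rw [h5] at this
        omega
      · rw [h5]
        exact subset_union_left
    · rw [he] at h4
      have h5 := pd_tch H hp h4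
      obtain ⟨-, -, h6, -, -⟩ := psi_N0 H hM hC hy h3
      refine ⟨h3, ?_⟩
      rw [← h6, h5]
      exact subset_union_left

section

variable (Q : K5 r i K psi C w v)
include Q

/-- not of type F: no order two -/
lemma K5.pd_N_w {p : P} (hp : p ∈ PN i C) (h2 : (nz i w).card = 2)
    (hd : ¬ Disjoint (nz i w) (sit i p)) (m : ℕ) :
    lc (st i C).card 2 (Jx i K psi C w v (on (con i p)) 1 0 m) = 0 := by
  have H := Q.H
  obtain ⟨v1, v2, v3, v4, v5, v6⟩ := pd_val H Q.hi Q.hi2 Q.hC hp
  have hs := c2_spt H Q.hC hp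
  have hc : IsCore i ∅ (ps K psi) (on (con i p)) := c2_core H hp
  have hk : Cheap 1 i (on (con i p)) :=
    Q.cheap1 hc hs (by rw [(c2_value H Q.hi Q.hi2 Q.hC hp).1]; omega)
  unfold Jx
  split_ifs with h
  · obtain ⟨hw, hv⟩ := core_wv Q hc
    rw [JK_add2 Q h.1 h.2 hw hv]
    have hall : ∀ y ∈ nz i w, on (con i p) y < 1 := by
      intro y hy
      rw [pd_site H hp (nz_lev H Q.nw hy)]
      omega
    have hR := Rk_N H Q.nw (e := on (con i p)) (a := 1) (by omega) (fun _ hF => by
      have := hF.2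
      rw [v4] at this
      exact hd this) (fun hG => by
      have := hG.1
      rw [kz_eq_iff.2 hall] at this
      omega) hk
    have h1 := Rk_mul hR (Rk_mul (Rk_wt (e := on (con i p)) Q.H Q.hi Q.hi2 Q.nv 0)
      (GK_Rk Q.H Q.hi Q.hi2 Q.hM Q.hC (on (con i p)) m))
    rw [ind_zero, add_zero, add_zero] at h1
    have h3 : od (st i C).card 1 (IV (st i C) (fun S => Fe i (on (con i p)) S *
        (wt i (on (con i p)) w 1 S * (wt i (on (con i p)) v 0 S *
          GK i K psi C (on (con i p)) m S)))) := by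
      apply od_of_Rk
      refine Rk_congr (fun S _ => ?_) h1
      ring
    exact lc_of_od h3
  · exact lc_zero _ _

lemma K5.pd_N_v {p : P} (hp : p ∈ PN i C) (h2 : (nz i v).card = 2)
    (hd : ¬ Disjoint (nz i v) (sit i p)) (m : ℕ) :
    lc (st i C).card 2 (Jx i K psi C w v (on (con i p)) 0 1 m) = 0 := by
  have H := Q.H
  obtain ⟨v1, v2, v3, v4, v5, v6⟩ := pd_val H Q.hi Q.hi2 Q.hC hp
  have hs := c2_spt H Q.hC hp
  have hc : IsCore i ∅ (ps K psi) (on (con i p)) := c2_core H hp
  have hk : Cheap 1 i (on (con i p)) :=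
    Q.cheap1 hc hs (by rw [(c2_value H Q.hi Q.hi2 Q.hC hp).1]; omega)
  unfold Jx
  split_ifs with h
  · obtain ⟨hw, hv⟩ := core_wv Q hc
    rw [JK_add2 Q h.1 h.2 hw hv]
    have hall : ∀ y ∈ nz i v, on (con i p) y < 1 := by
      intro y hy
      rw [pd_site H hp (nz_lev H Q.nv hy)]
      omega
    have hR := Rk_N H Q.nv (e := on (con i p)) (a := 1) (by omega) (fun _ hF => by
      have := hF.2
      rw [v4] at this
      exact hd this) (fun hG => by
      have := hG.1
      rw [kz_eq_iff.2 hall] at this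
      omega) hk
    have h1 := Rk_mul hR (Rk_mul (Rk_wt (e := on (con i p)) Q.H Q.hi Q.hi2 Q.nw 0)
      (GK_Rk Q.H Q.hi Q.hi2 Q.hM Q.hC (on (con i p)) m))
    rw [ind_zero, add_zero, add_zero] at h1
    have h3 : od (st i C).card 1 (IV (st i C) (fun S => Fe i (on (con i p)) S *
        (wt i (on (con i p)) w 0 S * (wt i (on (con i p)) v 1 S *
          GK i K psi C (on (con i p)) m S)))) := by
      apply od_of_Rk
      refine Rk_congr (fun S _ => ?_) h1
      ring
    exact lc_of_od h3
  · exact lc_zero _ _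

/-- CONTRIBUTION of a core of energy two -/
theorem K5.L2_val (hw2 : (nz i w).card = 2) (hv2 : (nz i v).card = 2) {q : P} (hq : q ∈ uc w)
    (hq' : q ∈ dc v) {p : P} (hp : p ∈ PN i C) :
    lc (st i C).card 2 (Jx i K psi C w v (on (con i p)) 0 1 1) +
      lc (st i C).card 2 (Jx i K psi C w v (on (con i p)) 0 2 0) +
      lc (st i C).card 2 (Jx i K psi C w v (on (con i p)) 1 0 1) +
      lc (st i C).card 2 (Jx i K psi C w v (on (con i p)) 2 0 0) +
      lc (st i C).card 2 (Jx i K psi C w v (on (con i p)) 1 1 0) =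
    vp i p * (Nx i w p * (1 + Dg i K C (sit i p ∪ nz i w)) -
      Nx i v p * (1 + Dg i K C (sit i p ∪ nz i v))) := by
  have H := Q.H
  obtain ⟨v1, v2, v3, v4, v5, v6⟩ := pd_val H Q.hi Q.hi2 Q.hC hp
  have hs := c2_spt H Q.hC hp
  have hc : IsCore i ∅ (ps K psi) (on (con i p)) := c2_core H hp
  have hsite : ∀ y, lev y = i → on (con i p) y = 0 := fun y hy => pd_site H hp hy
  have lq : lev q = i := by
    have := lev_uc H hq
    have := Q.lw0
    omega
  have t1 := Q.val_w hc hs hw2 (two_ne_zero) (Or.inr hsite) v5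
  have t2 := Q.val_v hc hs hv2 (two_ne_zero) (Or.inr hsite) v5
  rw [FG_pd H Q.hi Q.hi2 Q.hC hp Q.nw hw2 two_ne_zero, v6] at t1
  rw [FG_pd H Q.hi Q.hi2 Q.hC hp Q.nv hv2 two_ne_zero, v6] at t2
  have t3 : lc (st i C).card 2 (Jx i K psi C w v (on (con i p)) 1 1 0) = 0 := by
    rw [Q.Jx_both hc hq hq' (hsite q lq) one_ne_zero one_ne_zero, lc_zero]
  have t4 : lc (st i C).card 2 (Jx i K psi C w v (on (con i p)) 1 0 1) =
      Nx i w p * (Dg i K C (sit i p ∪ nz i w) * vp i p) := by
    unfold Nx
    by_cases hd : Disjoint (nz i w) (sit i p)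
    · have hT : w ∉ Tch i (on (con i p)) := by
        intro h
        have h5 := pd_tch H hp h
        rw [h5, disjoint_self] at hd
        have := (PN_dat H hp).2.choose_spec.2.2.2.1
        rw [hd] at this
        simp at this
      have h0 := (core_wv Q hc).1 hT
      rw [if_pos hd, one_mul]
      unfold Jx
      rw [if_pos ⟨Or.inr hT, Or.inl rfl⟩, Pi.single_zero, add_zero,
        x_one H Q.hi Q.hi2 Q.hM Q.hC hp Q.nw Q.wC Q.wK hw2 hT h0 hd]
      unfold sg1
      rw [if_pos Q.lw0, one_mul]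
    · rw [if_neg hd, zero_mul]
      exact Q.pd_N_w hp hw2 hd 1
  have t5 : lc (st i C).card 2 (Jx i K psi C w v (on (con i p)) 0 1 1) =
      - Nx i v p * (Dg i K C (sit i p ∪ nz i v) * vp i p) := by
    unfold Nx
    by_cases hd : Disjoint (nz i v) (sit i p)
    · have hT : v ∉ Tch i (on (con i p)) := by
        intro h
        have h5 := pd_tch H hp h
        rw [h5, disjoint_self] at hd
        have := (PN_dat H hp).2.choose_spec.2.2.2.1
        rw [hd] at this
        simp at this
      have h0 := (core_wv Q hc).2 hT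
      rw [if_pos hd]
      unfold Jx
      rw [if_pos ⟨Or.inl rfl, Or.inr hT⟩, Pi.single_zero, add_zero,
        x_one H Q.hi Q.hi2 Q.hM Q.hC hp Q.nv Q.vC Q.vK hv2 hT h0 hd]
      unfold sg1
      rw [if_neg (by have := Q.lv0; omega)]
      ring
    · rw [if_neg hd, neg_zero, zero_mul]
      exact Q.pd_N_v hp hv2 hd 1
  rw [t3, t4, t5]
  have t1' : lc (st i C).card 2 (Jx i K psi C w v (on (con i p)) 2 0 0) = Nx i w p * vp i p := t1
  have t2' : lc (st i C).card 2 (Jx i K psi C w v (on (con i p)) 0 2 0) =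
    - Nx i v p * vp i p := t2
  rw [t1', t2']
  ring

end

end Pool.Agent.GaussPoset.Win.W4
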