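import Pool.Agent.W_448w4_h10.KV

/-!
MP_448cb3_co, G2, case B, window `j`: configurations with labels on the sites, contributions with both unmatched
doubles.  helper10.
-/

namespace Pool.Agent.GaussPoset.Win.W4

set_option linter.unusedSectionVars false

open Finset
open Pool.Agent.GaussPoset.Win.So (IV IV_chi IV_Fe)
open Pool.Agent.GaussPoset.Win.SO (LowD UppD val_gen PN vp con on)

universe u

variable {P : Type u} [Fintype P] [PartialOrder P] [DecidableEq P] {r i : ℕ}
variable {e f : P → ℕ} {psi : P → P} {C K : Finset P} {w v : P}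

/-- ONE LABEL on an unmatched double and one on a free near element, general form -/
theorem x_one_gen (H : Gr P r) (hi : 1 ≤ i) (hi2 : i + 1 ≤ r) (hM : Mat P i K psi)
    (hC : Part (i + 1) C) (hs : Spt C e) (v3 : Disjoint (AL i e) (AU i e)) {k : ℕ}
    (v5 : od (st i C).card k (tC i C e)) (hsite : ∀ y, lev y = i → e y = 0)
    (hc : IsCore i K psi e) (hR : ∀ y ∈ N0 i K C, y ∉ RK i K psi C e → y ∈ dbL P i ∪ dbU P i ∧
      nz i y ⊆ AL i e ∪ AU i e)
    {x : P} (hx : x ∈ near P i) (hxC : x ∈ C)
    (hxK : x ∈ K) (h2 : (nz i x).card = 2) (hT : x ∉ Tch i e)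
    (h0 : e x = 0) (hd : Disjoint (nz i x) (AL i e ∪ AU i e)) :
    lc (st i C).card (k + 1) (JK i K psi C 1 (e + Pi.single x 1)) =
      Dg i K C (AL i e ∪ AU i e ∪ nz i x) * (sg1 i x * lc (st i C).card k (tC i C e)) := by
  classical
  have hir : i ≤ r := by omega
  have hall : ∀ y ∈ nz i x, e y < 1 := by
    intro y hy
    rw [hsite y (nz_lev H hx hy)]
    omega
  have hkz : kz i e x 1 = nz i x := kz_eq_iff.2 hall
  have hF : Fx i e x 1 := ⟨hall, hd⟩
  obtain ⟨o1, o2⟩ := val_F H hir hC hs v3 hx hxC hT h0 h2 hF v5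
  have hs' : Spt C (e + Pi.single x 1) := by
    intro y hy
    rw [Pi.add_apply, hs y hy, Pi.single_apply, if_neg, add_zero]
    rintro rfl
    exact hy hxC
  have hAA : Disjoint (AL i (e + Pi.single x 1)) (AU i (e + Pi.single x 1)) ∧
      AL i (e + Pi.single x 1) ∪ AU i (e + Pi.single x 1) = AL i e ∪ AU i e ∪ nz i x := by
    have hd' := hd
    rw [disjoint_union_right] at hd'
    rcases mem_near.1 hx with l | l
    · rw [AL_low H l h0, AU_low H l h0, hkz]
      refine ⟨disjoint_union_left.2 ⟨v3, hd'.2⟩, ?_⟩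
      ext y
      simp only [mem_union]
      tauto
    · rw [AL_upp H l h0, AU_upp H l h0, hkz]
      refine ⟨disjoint_union_right.2 ⟨v3, hd'.1.symm⟩, ?_⟩
      ext y
      simp only [mem_union]
      tauto
  have hRK : RK i K psi C (e + Pi.single x 1) = RK i K psi C e := RK_add H (single_far hx 1)
  have h0' : ∀ y ∈ RK i K psi C (e + Pi.single x 1), (e + Pi.single x 1 : P → ℕ) y = 0 := by
    intro y hy
    rw [hRK] at hy
    have hyx : y ≠ x := by
      rintro rfl
      exact notMem_RK hxK hy
    rw [Pi.add_apply, Pi.single_apply, if_neg hyx, add_zero]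
    exact hc y (mem_RK.1 hy).1
  have hz' : ∀ y, lev y = i → (e + Pi.single x 1 : P → ℕ) y = 0 := by
    intro y hy
    rw [Pi.add_apply, hsite y hy, single_far hx 1 y, add_zero]
    rw [mem_near]
    omega
  rw [JK_one H hi hi2 hM hC hs' h0' hAA.1 o1, om_killed H hi hi2 hM hC hz', hAA.2, o2]
  · rfl
  · intro y hy hny
    rw [hRK] at hny
    rw [hAA.2]
    obtain ⟨g1, g2⟩ := hR y hy hny
    exact ⟨g1, g2.trans subset_union_left⟩

/-! ### configurations with labels on the sites only -/

/-- labels on the sites only -/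
def Sc (i : ℕ) (e : P → ℕ) : Prop := ∀ x, lev x ≠ i → e x = 0

lemma Sc.tch (H : Gr P r) (h : Sc i e) : Tch i e = ∅ := by
  rw [eq_empty_iff_forall_notMem]
  intro x hx
  rw [mem_Tch] at hx
  rcases hx with ⟨l1, z, hz, hz'⟩ | ⟨l1, z, hz, hz'⟩
  · have hl := lev_cov H hz
    have := h z (by omega)
    omega
  · have hl := lev_cov H hz
    have := h z (by omega)
    omega

lemma Sc.core (H : Gr P r) (h : Sc i e) : IsCore i K psi e := by
  intro x hx
  have := (mem_near.1 (mem_Rst.1 hx).1)
  exact h x (by omega)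

lemma Sc.RK (H : Gr P r) (h : Sc i e) : N0 i K C ⊆ RK i K psi C e := by
  intro x hx
  obtain ⟨h1, h2, h3⟩ := mem_N0.1 hx
  refine mem_RK.2 ⟨mem_Rst.2 ⟨h1, h3, ?_, ?_⟩, h2⟩
  · rw [h.tch H]; exact notMem_empty x
  · rintro ⟨-, h4⟩
    rw [h.tch H] at h4
    exact notMem_empty _ h4

/-- VALUE of a configuration with labels on the sites only -/
lemma Sc.val (H : Gr P r) (hi : 1 ≤ i) (hi2 : i + 1 ≤ r) (h : Sc i e) :
    AdmL i e ∧ AdmU i e ∧ AL i e = ∅ ∧ AU i e = ∅ ∧ od (st i C).card 0 (tC i C e) ∧
      lc (st i C).card 0 (tC i C e) = 1 := by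
  have hir : i ≤ r := by omega
  have D : LowD i e (∅ : Finset P) ∅ ∅ := SO.low_none H fun z hz => h z (by omega)
  have D' : UppD i e (∅ : Finset P) ∅ ∅ := SO.upp_none H hir fun z hz => h z (by omega)
  have e1 := D.AL_eq
  have e2 := D'.AU_eq
  have ht : tC i C e = dd ^ (st i C).card := by
    unfold tC cw
    rw [e1, e2, if_pos (disjoint_empty_left _), if_pos ⟨D.adm, D'.adm⟩, D.aL_eq, D'.aU_eq,
      D.pL_eq, D'.pU_eq, card_empty]
    simp
  refine ⟨D.adm, D'.adm, e1, e2, ?_, ?_⟩
  · rw [ht]
    unfold od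
    rw [pow_zero, one_mul]
  · rw [ht]
    unfold lc dd
    rw [pow_zero, one_mul, PowerSeries.coeff_X_pow_self]

lemma Sc.FG (H : Gr P r) (hi : 1 ≤ i) (hi2 : i + 1 ≤ r) (h : Sc i e) {x a b : P}
    (hab : a ≠ b) (hn : nz i x = {a, b}) {m : ℕ} :
    FG i e x m = if e a < m ∧ e b < m then 1 else if e a < m ∨ e b < m then -1 else 0 := by
  obtain ⟨-, -, h1, h2, -, -⟩ := h.val (C := ∅) H hi hi2
  have hc2 : (nz i x).card = 2 := by rw [hn, card_pair hab]
  unfold W4.FG
  have hF : Fx i e x m ↔ e a < m ∧ e b < m := by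
    unfold Fx
    rw [h1, h2, hn]
    constructor
    · rintro ⟨g, -⟩
      exact ⟨g a (by simp), g b (by simp)⟩
    · rintro ⟨g1, g2⟩
      refine ⟨fun y hy => ?_, ?_⟩
      · rw [mem_insert, mem_singleton] at hy
        rcases hy with rfl | rfl <;> assumption
      · rw [union_empty]
        exact disjoint_empty_right _
  by_cases hab2 : e a < m ∧ e b < m
  · rw [if_pos (hF.2 hab2), if_pos hab2]
  · rw [if_neg (fun h => hab2 (hF.1 h)), if_neg hab2]
    have hG : Gx i e x m ↔ e a < m ∨ e b < m := by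
      unfold Gx
      rw [h1, h2]
      constructor
      · rintro ⟨g1, -, -⟩
        obtain ⟨y, hy⟩ := card_eq_one.1 g1
        have hy1 : y ∈ kz i e x m := by rw [hy]; exact mem_singleton_self y
        rw [mem_kz, hn, mem_insert, mem_singleton] at hy1
        rcases hy1 with ⟨rfl | rfl, g⟩
        · exact Or.inl g
        · exact Or.inr g
      · intro g
        refine ⟨?_, hc2, by rw [union_empty]; exact disjoint_empty_right _⟩
        rcases g with g | g
        · have hb : ¬ e b < m := fun hb => hab2 ⟨g, hb⟩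
          have : kz i e x m = {a} := by
            ext y
            rw [mem_kz, hn, mem_insert, mem_singleton, mem_singleton]
            constructor
            · rintro ⟨rfl | rfl, g'⟩
              · rfl
              · exact absurd g' hb
            · rintro rfl
              exact ⟨Or.inl rfl, g⟩
          rw [this, card_singleton]
        · have ha : ¬ e a < m := fun ha => hab2 ⟨ha, g⟩
          have : kz i e x m = {b} := by
            ext y
            rw [mem_kz, hn, mem_insert, mem_singleton]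
            constructor
            · rintro ⟨rfl | rfl, g'⟩
              · exact absurd g' ha
              · rfl
            · rintro rfl
              exact ⟨Or.inr rfl, g⟩
          rw [this, card_singleton]
    by_cases hor : e a < m ∨ e b < m
    · rw [if_pos (hG.2 hor), if_pos hor]
    · rw [if_neg (fun h => hor (hG.1 h)), if_neg hor]

/-- the cores of energy zero -/
lemma Co_zero (H : Gr P r) : Co i K psi C 0 = {0} := by
  ext e
  rw [mem_Co, mem_singleton]
  constructor
  · rintro ⟨h1, -, -⟩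
    rw [sum_eq_zero_iff] at h1
    funext x
    exact h1 x (mem_univ x)
  · rintro rfl
    refine ⟨by simp, fun x _ => rfl, ?_⟩
    intro x _
    rfl

section

variable (Q : K5 r i K psi C w v) {p q s : P} (hw : uc w = {p, q}) (hv : dc v = {q, s})
  (hpq : p ≠ q) (hqs : q ≠ s) (hps : p ≠ s)
include Q hw hv hpq hqs hps

lemma K5.lpq : lev p = i ∧ lev q = i ∧ lev s = i := by
  have h1 := lev_uc Q.H (x := w) (v := p) (by rw [hw]; simp)
  have h2 := lev_uc Q.H (x := w) (v := q) (by rw [hw]; simp)
  have h3 := lev_dc Q.H (x := v) (v := s) (by rw [hv]; simp)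
  have := Q.lw0
  have := Q.lv0
  omega

lemma K5.nzw : nz i w = {p, q} := by rw [nz_low Q.lw0, hw]

lemma K5.nzv : nz i v = {q, s} := by rw [nz_upp Q.lv0, hv]

lemma K5.memC : p ∈ C ∧ q ∈ C ∧ s ∈ C := by
  refine ⟨Q.hC.up Q.wC (mem_uc.1 (by rw [hw]; simp)), Q.hC.up Q.wC (mem_uc.1 (by rw [hw]; simp)),
    Q.hC.dn Q.vC (by have := Q.lv0; omega) (mem_dc.1 (by rw [hv]; simp))⟩

/-- after a label one on `w`: the configuration -/
lemma K5.step_w (hS : Sc i e) (hs : Spt C e) (hq : 1 ≤ e q) {a : ℕ} :
    Spt C (e + Pi.single w a) ∧ w ∉ Tch i e ∧ e w = 0 ∧ v ∉ Tch i (e + Pi.single w a) ∧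
      (e + Pi.single w a : P → ℕ) v = 0 ∧ AL i (e + Pi.single w a) = kz i e w a ∧
      AU i (e + Pi.single w a) = ∅ ∧ (∀ b, kz i (e + Pi.single w a) v b = kz i e v b) := by
  obtain ⟨l1, l2, l3⟩ := Q.lpq hw hv hpq hqs hps
  obtain ⟨-, -, h1, h2, -, -⟩ := hS.val (C := C) Q.H Q.hi Q.hi2
  have hw0 : e w = 0 := hS w (by have := Q.lw0; omega)
  have hv0 : e v = 0 := hS v (by have := Q.lv0; omega)
  refine ⟨?_, ?_, hw0, ?_, ?_, ?_, ?_, ?_⟩
  · intro y hy
    rw [Pi.add_apply, hs y hy, Pi.single_apply, if_neg, add_zero]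
    rintro rfl
    exact hy Q.wC
  · rw [hS.tch Q.H]; exact notMem_empty w
  · rw [Tch_add Q.H (single_far Q.nw a), hS.tch Q.H]; exact notMem_empty v
  · rw [Pi.add_apply, hv0, Pi.single_apply, if_neg Q.ne.symm, add_zero]
  · rw [AL_low Q.H Q.lw0 hw0, h1, empty_union]
  · rw [AU_low Q.H Q.lw0 hw0, h2]
  · intro b
    exact kz_add Q.H Q.nw Q.nv

/-- label one on `w` and on `v`, labels on the sites -/
theorem K5.both_11 (hS : Sc i e) (hs : Spt C e) (hq : 1 ≤ e q) :
    od (st i C).card 2 (tC i C (e + Pi.single w 1 + Pi.single v 1)) ∧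
    lc (st i C).card 2 (tC i C (e + Pi.single w 1 + Pi.single v 1)) =
      if e p = 0 ∧ e s = 0 then -1 else 0 := by
  have H := Q.H
  have hir := Q.hir
  obtain ⟨l1, l2, l3⟩ := Q.lpq hw hv hpq hqs hps
  obtain ⟨-, -, h1, h2, o0, c0⟩ := hS.val (C := C) Q.H Q.hi Q.hi2
  obtain ⟨s1, s2, s3, s4, s5, s6, s7, s8⟩ := Q.step_w hw hv hpq hqs hps hS hs hq (a := 1)
  have nw := Q.nzw hw hv hpq hqs hps
  have nv := Q.nzv hw hv hpq hqs hps
  have kw : kz i e w 1 = if e p = 0 then {p} else ∅ := by
    ext y
    rw [mem_kz, nw, mem_insert, mem_singleton]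
    split_ifs with h
    · rw [mem_singleton]
      constructor
      · rintro ⟨rfl | rfl, g⟩
        · rfl
        · omega
      · rintro rfl
        exact ⟨Or.inl rfl, by omega⟩
    · constructor
      · rintro ⟨rfl | rfl, g⟩ <;> omega
      · intro g
        exact absurd g (notMem_empty y)
  have kv : kz i e v 1 = if e s = 0 then {s} else ∅ := by
    ext y
    rw [mem_kz, nv, mem_insert, mem_singleton]
    split_ifs with h
    · rw [mem_singleton]
      constructor
      · rintro ⟨rfl | rfl, g⟩
        · omega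
        · rfl
      · rintro rfl
        exact ⟨Or.inr rfl, by omega⟩
    · constructor
      · rintro ⟨rfl | rfl, g⟩ <;> omega
      · intro g
        exact absurd g (notMem_empty y)
  have cw2 : (nz i w).card = 2 := by rw [nw, card_pair hpq]
  have cv2 : (nz i v).card = 2 := by rw [nv, card_pair hqs]
  have hdis : Disjoint (AL i e) (AU i e) := by rw [h1]; exact disjoint_empty_left _
  have hdis1 : Disjoint (AL i (e + Pi.single w 1)) (AU i (e + Pi.single w 1)) := by
    rw [s7]; exact disjoint_empty_right _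
  have sgw : sg1 i w = 1 := by unfold sg1; rw [if_pos Q.lw0]
  have sgv : sg1 i v = -1 := by unfold sg1; rw [if_neg (by have := Q.lv0; omega)]
  by_cases hp0 : e p = 0
  · rw [if_pos hp0] at kw
    have hG : Gx i e w 1 := ⟨by rw [kw, card_singleton], cw2, by
      rw [h1, h2, union_empty]; exact disjoint_empty_right _⟩
    obtain ⟨o1, c1⟩ := val_G H hir Q.hC hs hdis Q.nw Q.wC s2 s3 hG o0
    rw [sgw, c0] at c1
    by_cases hs0 : e s = 0
    · rw [if_pos hs0] at kv
      have hG2 : Gx i (e + Pi.single w 1) v 1 := by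
        refine ⟨by rw [s8, kv, card_singleton], cv2, ?_⟩
        rw [s8, kv, s6, s7, kw, union_empty, disjoint_singleton]
        exact hps.symm
      obtain ⟨o2, c2⟩ := val_G H hir Q.hC s1 hdis1 Q.nv Q.vC s4 s5 hG2 o1
      refine ⟨o2, ?_⟩
      rw [if_pos ⟨hp0, hs0⟩, c2, c1, sgv]
      norm_num
    · rw [if_neg hs0] at kv
      have o2 := val_N H hir Q.hC s1 hdis1 Q.nv Q.vC s4 s5 (a := 1) (by omega)
        (fun _ hF => by
          have := kz_eq_iff.2 hF.1
          rw [s8, kv] at this
          rw [← this] at cv2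
          simp at cv2)
        (fun hG => by
          have := hG.1
          rw [s8, kv] at this
          simp at this) o1
      refine ⟨od_succ o2, ?_⟩
      rw [if_neg (fun h => hs0 h.2)]
      exact lc_of_od o2
  · rw [if_neg hp0] at kw
    have o1 := val_N H hir Q.hC hs hdis Q.nw Q.wC s2 s3 (a := 1) (by omega)
        (fun _ hF => by
          have := kz_eq_iff.2 hF.1
          rw [kw] at this
          rw [← this] at cw2
          simp at cw2)
        (fun hG => by
          have := hG.1
          rw [kw] at this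
          simp at this) o0
    rw [if_neg (fun h => hp0 h.1)]
    have o2 : od (st i C).card 1 (tC i C (e + Pi.single w 1 + Pi.single v 1)) := by
      by_cases hs0 : e s = 0
      · rw [if_pos hs0] at kv
        have hG2 : Gx i (e + Pi.single w 1) v 1 := by
          refine ⟨by rw [s8, kv, card_singleton], cv2, ?_⟩
          rw [s8, kv, s6, s7, kw, union_empty]
          exact disjoint_empty_right _
        exact (val_G H hir Q.hC s1 hdis1 Q.nv Q.vC s4 s5 hG2 o1).1
      · rw [if_neg hs0] at kv
        exact od_succ (val_N H hir Q.hC s1 hdis1 Q.nv Q.vC s4 s5 (a := 1) (by omega)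
          (fun _ hF => by
            have := kz_eq_iff.2 hF.1
            rw [s8, kv] at this
            rw [← this] at cv2
            simp at cv2)
          (fun hG => by
            have := hG.1
            rw [s8, kv] at this
            simp at this) o1)
    exact ⟨od_succ o2, lc_of_od o2⟩

end

end Pool.Agent.GaussPoset.Win.W4
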