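import Pool.Agent.W_448w4_h10.KY

/-!
MP_448cb3_co, G2, case B, window `j`: the cores of energy three and a label on an unmatched double.  helper10.
-/

namespace Pool.Agent.GaussPoset.Win.W4

set_option linter.unusedSectionVars false

open Finset
open Pool.Agent.GaussPoset.Win.So (IV IV_chi IV_Fe)
open Pool.Agent.GaussPoset.Win.SO (LowD UppD val_gen PN vp con on con_two_low con_two_upp)

universe u

section comb

variable {P : Type*} [DecidableEq P]

/-- the sum over the sites -/
lemma site_sum {V N S : Finset P} (hN : N ⊆ V) (hS : S ⊆ V) (cN : N.card = 2) (cS : S.card = 2) :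
    ∑ g ∈ V, (if g ∈ S then (-1 : ℤ) else 1) *
      (if g ∈ N then (if Disjoint (N.erase g) (S.erase g) then -1 else 0)
        else (if Disjoint N S then 1 else 0)) =
      (if Disjoint N S then (V.card : ℤ) - 8 else 0) + if (N ∩ S).card = 1 then 1 else 0 := by
  obtain ⟨a, b, hab, rfl⟩ := card_eq_two.1 cN
  obtain ⟨F, hF⟩ : ∃ F : P → ℤ, F = fun g => (if g ∈ S then (-1 : ℤ) else 1) *
      (if g ∈ ({a, b} : Finset P) then (if Disjoint (({a, b} : Finset P).erase g) (S.erase g)
        then -1 else 0) else (if Disjoint ({a, b} : Finset P) S then 1 else 0)) := ⟨_, rfl⟩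
  have h0 : ∑ g ∈ V, F g = ∑ g ∈ V \ {a, b}, F g + (F a + F b) := by
    rw [← sum_pair hab, sum_sdiff hN]
  have ea : ({a, b} : Finset P).erase a = {b} := by
    ext y
    simp only [mem_erase, mem_insert, mem_singleton]
    constructor
    · rintro ⟨h1, h2 | h2⟩
      · exact absurd h2 h1
      · exact h2
    · rintro rfl
      exact ⟨hab.symm, Or.inr rfl⟩
  have eb : ({a, b} : Finset P).erase b = {a} := by
    ext y
    simp only [mem_erase, mem_insert, mem_singleton]
    constructor
    · rintro ⟨h1, h2 | h2⟩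
      · exact h2
      · exact absurd h2 h1
    · rintro rfl
      exact ⟨hab, Or.inl rfl⟩
  have fa : F a = if a ∈ S then (if b ∈ S then 0 else 1) else (if b ∈ S then 0 else -1) := by
    rw [hF]
    simp only [mem_insert, mem_singleton, true_or, if_true, ea, disjoint_singleton_left,
      mem_erase]
    by_cases h1 : a ∈ S <;> by_cases h2 : b ∈ S <;> simp [h1, h2, hab.symm]
  have fb : F b = if b ∈ S then (if a ∈ S then 0 else 1) else (if a ∈ S then 0 else -1) := by
    rw [hF]
    simp only [mem_insert, mem_singleton, or_true, if_true, eb, disjoint_singleton_left,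
      mem_erase]
    by_cases h1 : a ∈ S <;> by_cases h2 : b ∈ S <;> simp [h1, h2, hab]
  have hD : Disjoint ({a, b} : Finset P) S ↔ a ∉ S ∧ b ∉ S := by
    rw [disjoint_insert_left, disjoint_singleton_left]
  have fr : ∑ g ∈ V \ {a, b}, F g = if Disjoint ({a, b} : Finset P) S then (V.card : ℤ) - 6
      else 0 := by
    have e1 : ∀ g ∈ V \ {a, b}, F g = (if g ∈ S then (-1 : ℤ) else 1) *
        (if Disjoint ({a, b} : Finset P) S then 1 else 0) := by
      intro g hg
      rw [hF]
      simp only
      rw [if_neg (mem_sdiff.1 hg).2]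
    rw [sum_congr rfl e1, ← sum_mul]
    by_cases hd : Disjoint ({a, b} : Finset P) S
    · rw [if_pos hd, if_pos hd, mul_one]
      have hSV : S ⊆ V \ {a, b} := by
        intro y hy
        refine mem_sdiff.2 ⟨hS hy, ?_⟩
        intro h
        exact disjoint_left.1 hd h hy
      have c1 := card_sdiff_add_card_eq_card hN
      rw [card_pair hab] at c1
      have e2 : ∑ g ∈ V \ {a, b}, (if g ∈ S then (-1 : ℤ) else 1) =
          ∑ g ∈ V \ {a, b}, (1 - 2 * (if g ∈ S then (1 : ℤ) else 0)) := by
        refine sum_congr rfl fun g _ => ?_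
        split_ifs <;> norm_num
      rw [e2, sum_sub_distrib, ← mul_sum, sum_const, ← sum_filter, sum_const]
      have e3 : (V \ {a, b}).filter (fun g => g ∈ S) = S := by
        ext y
        rw [mem_filter]
        exact ⟨fun h => h.2, fun h => ⟨hSV h, h⟩⟩
      rw [e3, cS]
      have : ((V \ {a, b}).card : ℤ) + 2 = V.card := by exact_mod_cast c1
      simp only [nsmul_eq_mul, mul_one]
      push_cast
      linarith
    · rw [if_neg hd, if_neg hd, mul_zero]
  have hI : (({a, b} : Finset P) ∩ S).card = (if a ∈ S then 1 else 0) + if b ∈ S then 1 else 0 := by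
    rw [← filter_mem_eq_inter, card_filter, sum_pair hab]
  have fin : ∑ g ∈ V, F g = (if Disjoint ({a, b} : Finset P) S then (V.card : ℤ) - 8 else 0) +
      if (({a, b} : Finset P) ∩ S).card = 1 then 1 else 0 := by
    rw [h0, fa, fb, fr, hI]
    by_cases h1 : a ∈ S
    · have hnd : ¬ Disjoint ({a, b} : Finset P) S := by rw [hD]; tauto
      rw [if_neg hnd, if_neg hnd]
      by_cases h2 : b ∈ S <;> simp [h1, h2]
    · by_cases h2 : b ∈ S
      · have hnd : ¬ Disjoint ({a, b} : Finset P) S := by rw [hD]; tauto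
        rw [if_neg hnd, if_neg hnd]
        simp [h1, h2]
      · rw [if_pos (hD.2 ⟨h1, h2⟩), if_pos (hD.2 ⟨h1, h2⟩)]
        simp only [h1, h2, if_false]
        norm_num
        ring
  rw [hF] at fin
  exact fin

end comb

variable {P : Type u} [Fintype P] [PartialOrder P] [DecidableEq P] {r i : ℕ}
variable {e f : P → ℕ} {psi : P → P} {C K : Finset P} {w v : P}

/-- the values of `FG` at the cores of energy three -/
lemma FG_m3 (H : Gr P r) (hir : i ≤ r) (hC : Part (i + 1) C) {t : P × P} (ht : t ∈ I3 i C)
    {x : P} (hx : x ∈ near P i) (h2 : (nz i x).card = 2) :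
    FG i (m3 i t) x 1 = if t.2 ∈ nz i x then
      (if Disjoint ((nz i x).erase t.2) ((sit i t.1).erase t.2) then -1 else 0)
        else (if Disjoint (nz i x) (sit i t.1) then 1 else 0) := by
  classical
  obtain ⟨z, g⟩ := t
  obtain ⟨v1, v2, v3, v4, -, -, -⟩ := m3_val H hir hC ht
  have hzP : z ∈ PN i C := (mem_I3.1 ht).1
  obtain ⟨hz, y0, hc, hy0, -, -, hsl, hor⟩ := PN_dat H hzP
  have hlz : lev z ≠ i ∧ lev y0 ≠ i := by
    rcases hor with ⟨-, h, h', -⟩ | ⟨-, h, h', -⟩
    · omega
    · omega
  have hval : ∀ y ∈ nz i x, m3 i (z, g) y = if y = g then 1 else 0 := by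
    intro y hy
    have hl := nz_lev H hx hy
    rw [m3_eval hc, if_neg, zero_add]
    rw [mem_insert, mem_singleton]
    rintro (rfl | rfl)
    · exact hlz.1 hl
    · exact hlz.2 hl
  have hkz : kz i (m3 i (z, g)) x 1 = (nz i x).erase g := by
    ext y
    rw [mem_kz, mem_erase]
    constructor
    · rintro ⟨h1, h2⟩
      rw [hval y h1] at h2
      refine ⟨?_, h1⟩
      rintro rfl
      rw [if_pos rfl] at h2
      omega
    · rintro ⟨h1, h2⟩
      refine ⟨h2, ?_⟩
      rw [hval y h2, if_neg h1]
      omega
  simp only at v4 ⊢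
  unfold FG
  by_cases hg : g ∈ nz i x
  · rw [if_pos hg]
    have hF : ¬ Fx i (m3 i (z, g)) x 1 := by
      rintro ⟨h, -⟩
      have := h g hg
      rw [hval g hg, if_pos rfl] at this
      omega
    rw [if_neg hF]
    refine if_congr ?_ rfl rfl
    unfold Gx
    rw [hkz, v4, card_erase_of_mem hg, h2]
    tauto
  · rw [if_neg hg]
    have hG : ¬ Gx i (m3 i (z, g)) x 1 := by
      rintro ⟨h, -⟩
      rw [hkz, erase_eq_of_notMem hg] at h
      omega
    have hd : Disjoint (nz i x) ((sit i z).erase g) ↔ Disjoint (nz i x) (sit i z) := by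
      constructor
      · intro h
        rw [disjoint_left] at h ⊢
        intro y hy hy'
        refine h hy (mem_erase.2 ⟨?_, hy'⟩)
        rintro rfl
        exact hg hy
      · intro h
        exact h.mono_right (erase_subset _ _)
    have hF : Fx i (m3 i (z, g)) x 1 ↔ Disjoint (nz i x) (sit i z) := by
      unfold Fx
      rw [v4, hd]
      constructor
      · exact fun h => h.2
      · intro h
        refine ⟨fun y hy => ?_, h⟩
        rw [hval y hy, if_neg]
        · omega
        · rintro rfl
          exact hg hy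
    rw [if_neg hG]
    exact if_congr hF rfl rfl

lemma FG_mz (H : Gr P r) (hir : i ≤ r) (hC : Part (i + 1) C) {z : P} (hz : z ∈ Z4 i C)
    {x : P} (hx : x ∈ near P i) (h2 : (nz i x).card = 2) :
    FG i (mz i z) x 1 = Nx i x z := by
  classical
  obtain ⟨v1, v2, v3, v4, -, -, -⟩ := mz_val H hir hC hz
  have hval : ∀ y ∈ nz i x, mz i z y = 0 := by
    intro y hy
    have hl := nz_lev H hx hy
    unfold mz
    by_contra h
    have h3 : y ∈ con i z := on_pos.1 (by omega)
    rcases Z4_cases hz with ⟨-, l, -⟩ | ⟨-, l, -⟩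
    · rw [con_two_low H l, mem_insert] at h3
      rcases h3 with rfl | h3
      · omega
      · have := lev_uc H h3
        omega
    · rw [con_two_upp H l, mem_insert] at h3
      rcases h3 with rfl | h3
      · omega
      · have := lev_dc H h3
        omega
  have hkz : kz i (mz i z) x 1 = nz i x := kz_eq_iff.2 fun y hy => by rw [hval y hy]; omega
  unfold FG Nx
  have hG : ¬ Gx i (mz i z) x 1 := by
    rintro ⟨h, -⟩
    rw [hkz] at h
    omega
  rw [if_neg hG]
  refine if_congr ?_ rfl rfl
  unfold Fx
  rw [v4]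
  constructor
  · exact fun h => h.2
  · exact fun h => ⟨fun y hy => by rw [hval y hy]; omega, h⟩

end Pool.Agent.GaussPoset.Win.W4
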