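import Pool.Agent.W_448w4_h10.KZ

/-!
MP_448cb3_co, G2, case B, window `j`: the sum over the cores of energy three.  helper10.
-/

namespace Pool.Agent.GaussPoset.Win.W4

set_option linter.unusedSectionVars false

open Finset
open Pool.Agent.GaussPoset.Win.So (IV IV_chi IV_Fe)
open Pool.Agent.GaussPoset.Win.SO (LowD UppD val_gen PN vp con on con_two_low con_two_upp con_sub
  mem_PN)

universe u

variable {P : Type u} [Fintype P] [PartialOrder P] [DecidableEq P] {r i : ℕ}
variable {e f : P → ℕ} {psi : P → P} {C K : Finset P} {w v : P}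

open Classical in
/-- the children of a pendant: the far elements which are joined only to it and its near element -/
noncomputable def Ch (i : ℕ) (C : Finset P) (z : P) : Finset P :=
  C.filter (fun g => Cd i z g ∧ g ≠ z)

lemma mem_Ch {z g : P} : g ∈ Ch i C z ↔ g ∈ C ∧ Cd i z g ∧ g ≠ z := by
  classical
  unfold Ch
  rw [mem_filter]

/-- the weighted number of children -/
noncomputable def ch (i : ℕ) (C : Finset P) (z : P) : ℤ := ∑ g ∈ Ch i C z, c3 i C (z, g)

/-- a double meets a pendant in one site -/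
noncomputable def Mx (i : ℕ) (x p : P) : ℤ := if (nz i x ∩ sit i p).card = 1 then 1 else 0

open Classical in
/-- the fibre of a pendant -/
noncomputable def Fb (i : ℕ) (C : Finset P) (z : P) : Finset P :=
  C.filter (fun g => lev g = i ∨ g ∈ con i z ∨ Cd i z g)

lemma mem_Fb {z g : P} : g ∈ Fb i C z ↔ g ∈ C ∧ (lev g = i ∨ g ∈ con i z ∨ Cd i z g) := by
  classical
  unfold Fb
  rw [mem_filter]

lemma fib_eq (H : Gr P r) (hC : Part (i + 1) C) {z : P} (hz : z ∈ PN i C) :
    Fb i C z = st i C ∪ (con i z ∪ Ch i C z) ∧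
      Disjoint (st i C) (con i z ∪ Ch i C z) ∧ Disjoint (con i z) (Ch i C z) := by
  classical
  obtain ⟨hzC, y, hc, hy, hny, -, hsl, hor⟩ := PN_dat H hz
  have hyn := mem_near.1 hy
  have hzl : lev z = i + 2 ∨ lev z + 2 = i := by
    rcases hor with ⟨-, h, -⟩ | ⟨-, h, -⟩
    · exact Or.inl h
    · exact Or.inr h
  have hyC : y ∈ C := by
    rcases hor with ⟨-, h, h', h4, -⟩ | ⟨-, h, h', h4, -⟩
    · exact hC.up hzC (mem_uc.1 (by rw [h4]; exact mem_singleton_self y))
    · exact hC.dn hzC (by omega) (mem_dc.1 (by rw [h4]; exact mem_singleton_self y))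
  have hcd : ∀ g, Cd i z g → i + 2 ≤ lev g ∨ lev g + 2 ≤ i := by
    rintro g (⟨-, h, -⟩ | ⟨-, h, -⟩)
    · exact Or.inl h
    · exact Or.inr h
  have hcon : ∀ g, g ∈ con i z ↔ g = z ∨ g = y := by
    intro g
    rw [hc, mem_insert, mem_singleton]
  have hself : Cd i z z := by
    rcases hor with ⟨-, h, h', h4, -⟩ | ⟨-, h, h', h4, -⟩
    · left
      refine ⟨by omega, by omega, ?_⟩
      rw [h4, hc]
      exact singleton_subset_iff.2 (by simp)
    · right
      refine ⟨by omega, by omega, ?_⟩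
      rw [h4, hc]
      exact singleton_subset_iff.2 (by simp)
  refine ⟨?_, ?_, ?_⟩
  · ext g
    rw [mem_Fb, mem_union, mem_union, mem_st, mem_Ch]
    constructor
    · rintro ⟨h1, h2 | h2 | h2⟩
      · exact Or.inl ⟨h1, h2⟩
      · exact Or.inr (Or.inl h2)
      · by_cases hgz : g = z
        · exact Or.inr (Or.inl ((hcon g).2 (Or.inl hgz)))
        · exact Or.inr (Or.inr ⟨h1, h2, hgz⟩)
    · rintro (⟨h1, h2⟩ | h1 | ⟨h1, h2, h3⟩)
      · exact ⟨h1, Or.inl h2⟩
      · refine ⟨?_, Or.inr (Or.inl h1)⟩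
        rcases (hcon g).1 h1 with rfl | rfl
        · exact hzC
        · exact hyC
      · exact ⟨h1, Or.inr (Or.inr h2)⟩
  · rw [disjoint_left]
    intro g hg h
    obtain ⟨-, hgl⟩ := mem_st.1 hg
    rw [mem_union, hcon, mem_Ch] at h
    rcases h with (rfl | rfl) | ⟨-, h, -⟩
    · omega
    · omega
    · have := hcd g h
      omega
  · rw [disjoint_left]
    intro g hg h
    obtain ⟨-, h1, h2⟩ := mem_Ch.1 h
    rcases (hcon g).1 hg with rfl | rfl
    · exact h2 rfl
    · have := hcd g h1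
      omega

lemma I3_sum (H : Gr P r) (hC : Part (i + 1) C) (G : P × P → ℤ) :
    ∑ t ∈ I3 i C, G t = ∑ z ∈ PN i C, (∑ g ∈ st i C, G (z, g) +
      (∑ g ∈ con i z, G (z, g) + ∑ g ∈ Ch i C z, G (z, g))) := by
  classical
  have h1 : I3 i C = (PN i C ×ˢ C).filter
      (fun q => lev q.2 = i ∨ q.2 ∈ con i q.1 ∨ Cd i q.1 q.2) := by
    ext q
    rw [mem_I3, mem_filter, mem_product, and_assoc]
  rw [h1, sum_filter, sum_product]
  refine sum_congr rfl fun z hz => ?_
  obtain ⟨h2, h3, h4⟩ := fib_eq H hC hz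
  rw [← sum_union h4, ← sum_union h3, ← h2]
  unfold Fb
  rw [sum_filter]

/-- THE WEIGHTED SUM over the fibre of a pendant -/
theorem fib_sum (H : Gr P r) (hir : i ≤ r) (hC : Part (i + 1) C) {z : P} (hz : z ∈ PN i C)
    {x : P} (hx : x ∈ near P i) (hxC : x ∈ C) (h2 : (nz i x).card = 2) :
    ∑ g ∈ st i C, c3 i C (z, g) * (ep3 (sit i z) z g * FG i (m3 i (z, g)) x 1) +
      (∑ g ∈ con i z, c3 i C (z, g) * (ep3 (sit i z) z g * FG i (m3 i (z, g)) x 1) +
        ∑ g ∈ Ch i C z, c3 i C (z, g) * (ep3 (sit i z) z g * FG i (m3 i (z, g)) x 1)) =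
      (2 * ((st i C).card - 8) + ch i C z) * Nx i x z + 2 * Mx i x z := by
  classical
  obtain ⟨hzC, y, hc, hy, hny, hs2, hsl, hor⟩ := PN_dat H hz
  obtain ⟨f1, f2, f3⟩ := fib_eq H hC hz
  have hyn := mem_near.1 hy
  have hzl : lev z = i + 2 ∨ lev z + 2 = i := by
    rcases hor with ⟨-, h, -⟩ | ⟨-, h, -⟩
    · exact Or.inl h
    · exact Or.inr h
  have hzy : z ≠ y := by rintro rfl; omega
  have hI : ∀ g, g ∈ st i C ∪ (con i z ∪ Ch i C z) → (z, g) ∈ I3 i C := by
    intro g hg
    rw [← f1, mem_Fb] at hg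
    exact mem_I3.2 ⟨hz, hg.1, hg.2⟩
  have hPN : ∀ g ∈ PN i C, lev g = i + 2 ∨ lev g + 2 = i := by
    intro g hg
    obtain ⟨-, y', -, -, -, -, -, hor'⟩ := PN_dat H hg
    rcases hor' with ⟨-, h, -⟩ | ⟨-, h, -⟩
    · exact Or.inl h
    · exact Or.inr h
  have hnl : ∀ g ∈ nz i x, lev g = i := fun g hg => nz_lev H hx hg
  -- the sites
  have e1 : ∑ g ∈ st i C, c3 i C (z, g) * (ep3 (sit i z) z g * FG i (m3 i (z, g)) x 1) =
      2 * ((if Disjoint (nz i x) (sit i z) then ((st i C).card : ℤ) - 8 else 0) +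
        if (nz i x ∩ sit i z).card = 1 then 1 else 0) := by
    rw [← site_sum (nz_st H hC hx hxC) (fun g hg => ?_) h2 hs2, mul_sum]
    · refine sum_congr rfl fun g hg => ?_
      obtain ⟨-, hgl⟩ := mem_st.1 hg
      have hc3 : c3 i C (z, g) = 2 := by
        unfold c3
        rw [if_neg]
        rintro ⟨h, -⟩
        have := hPN g h
        omega
      have hgz : g ≠ z := by rintro rfl; omega
      have hep : ep3 (sit i z) z g = if g ∈ sit i z then -1 else 1 := by
        unfold ep3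
        refine if_congr ?_ rfl rfl
        constructor
        · rintro (h | h)
          · exact h
          · exact absurd h hgz
        · exact Or.inl
      rw [hc3, hep, FG_m3 H hir hC (hI g (mem_union_left _ hg)) hx h2]
    · rw [← hny] at hg
      have hyC : y ∈ C := by
        have : y ∈ Fb i C z := by
          rw [f1, mem_union, mem_union, hc]
          exact Or.inr (Or.inl (by simp))
        exact (mem_Fb.1 this).1
      exact nz_st H hC hy hyC hg
  -- the pendant and its near element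
  have fgn : ∀ g, (z, g) ∈ I3 i C → lev g ≠ i → FG i (m3 i (z, g)) x 1 = Nx i x z := by
    intro g hg hgl
    rw [FG_m3 H hir hC hg hx h2]
    simp only
    rw [if_neg (fun h => hgl (hnl g h))]
    rfl
  have e2 : ∑ g ∈ con i z, c3 i C (z, g) * (ep3 (sit i z) z g * FG i (m3 i (z, g)) x 1) = 0 := by
    have hzc : z ∈ con i z := by rw [hc]; simp
    have hyc : y ∈ con i z := by rw [hc]; simp
    have g1 := fgn z (hI z (mem_union_right _ (mem_union_left _ hzc))) (by omega)
    have g2 := fgn y (hI y (mem_union_right _ (mem_union_left _ hyc))) (by omega)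
    have c1 : c3 i C (z, z) = 2 := by
      unfold c3
      rw [if_neg]
      rintro ⟨-, h⟩
      exact h rfl
    have c2 : c3 i C (z, y) = 2 := by
      unfold c3
      rw [if_neg]
      rintro ⟨h, -⟩
      have := hPN y h
      omega
    have p1 : ep3 (sit i z) z z = -1 := by
      unfold ep3
      rw [if_pos (Or.inr rfl)]
    have p2 : ep3 (sit i z) z y = 1 := by
      unfold ep3
      rw [if_neg]
      rintro (h | h)
      · have := hsl y h
        omega
      · exact hzy h.symm
    rw [hc, sum_pair hzy, g1, g2, c1, c2, p1, p2]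
    ring
  have e3 : ∑ g ∈ Ch i C z, c3 i C (z, g) * (ep3 (sit i z) z g * FG i (m3 i (z, g)) x 1) =
      ch i C z * Nx i x z := by
    unfold ch
    rw [sum_mul]
    refine sum_congr rfl fun g hg => ?_
    obtain ⟨-, h1, h3⟩ := mem_Ch.1 hg
    have hgl : lev g ≠ i := by
      rcases h1 with ⟨-, h, -⟩ | ⟨-, h, -⟩ <;> omega
    have p2 : ep3 (sit i z) z g = 1 := by
      unfold ep3
      rw [if_neg]
      rintro (h | h)
      · exact hgl (hsl g h)
      · exact h3 h
    rw [fgn g (hI g (mem_union_right _ (mem_union_right _ hg))) hgl, p2, one_mul]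
  rw [e1, e2, e3]
  unfold Nx Mx
  split_ifs <;> ring

section

variable (Q : K5 r i K psi C w v)
include Q

/-- THE CORES OF ENERGY THREE -/
theorem K5.S3 (hw2 : (nz i w).card = 2) (hv2 : (nz i v).card = 2) :
    2 * ∑ e ∈ Co i K psi C 3, (lc (st i C).card 2 (Jx i K psi C w v e 0 1 0) +
      lc (st i C).card 2 (Jx i K psi C w v e 1 0 0)) =
    ∑ z ∈ PN i C, vp i z * ((2 * ((st i C).card - 8) + ch i C z) * (Nx i w z - Nx i v z) +
      2 * (Mx i w z - Mx i v z)) + 2 * ∑ z ∈ Z4 i C, tz i z * (Nx i w z - Nx i v z) := by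
  have H := Q.H
  have hir := Q.hir
  obtain ⟨X, hX⟩ : ∃ X : (P → ℕ) → ℤ, X = fun e =>
      (FG i e w 1 - FG i e v 1) * lc (st i C).card 1 (tC i C e) := ⟨_, rfl⟩
  have h1 : ∑ e ∈ Co i K psi C 3, (lc (st i C).card 2 (Jx i K psi C w v e 0 1 0) +
      lc (st i C).card 2 (Jx i K psi C w v e 1 0 0)) = ∑ e ∈ Co i K psi C 3, X e := by
    refine sum_congr rfl fun e he => ?_
    obtain ⟨g1, g2, g3⟩ := mem_Co.1 he
    have ho : od (st i C).card 1 (tC i C e) := by
      have := Q.Jx_od g3 (Q.cheap1 g3 g2 (by omega)) 0 0 0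
      rw [Q.Jx0 g3 g2, ind_zero] at this
      exact this
    rw [Q.val_v g3 g2 hv2 one_ne_zero (Or.inl rfl) ho,
      Q.val_w g3 g2 hw2 one_ne_zero (Or.inl rfl) ho, hX]
    ring
  rw [h1, Q.sum3 X]
  · have h2 : ∑ q ∈ I3 i C, c3 i C q * X (m3 i q) = ∑ z ∈ PN i C,
        vp i z * ((2 * ((st i C).card - 8) + ch i C z) * (Nx i w z - Nx i v z) +
      2 * (Mx i w z - Mx i v z)) := by
      rw [I3_sum H Q.hC]
      refine sum_congr rfl fun z hz => ?_
      obtain ⟨f1, -, -⟩ := fib_eq H Q.hC hz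
      have hI : ∀ g, g ∈ st i C ∪ (con i z ∪ Ch i C z) → (z, g) ∈ I3 i C := by
        intro g hg
        rw [← f1, mem_Fb] at hg
        exact mem_I3.2 ⟨hz, hg.1, hg.2⟩
      have hv : ∀ g, (z, g) ∈ I3 i C → c3 i C (z, g) * X (m3 i (z, g)) =
          vp i z * (c3 i C (z, g) * (ep3 (sit i z) z g * FG i (m3 i (z, g)) w 1)) -
          vp i z * (c3 i C (z, g) * (ep3 (sit i z) z g * FG i (m3 i (z, g)) v 1)) := by
        intro g hg
        have := (m3_val H hir Q.hC hg).2.2.2.2.2.1
        simp only at this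
        rw [hX]
        simp only
        rw [this]
        ring
      rw [sum_congr rfl fun g hg => hv g (hI g (mem_union_left _ hg)),
        sum_congr rfl fun g hg => hv g (hI g (mem_union_right _ (mem_union_left _ hg))),
        sum_congr rfl fun g hg => hv g (hI g (mem_union_right _ (mem_union_right _ hg))),
        sum_sub_distrib, sum_sub_distrib, sum_sub_distrib, ← mul_sum, ← mul_sum, ← mul_sum,
        ← mul_sum, ← mul_sum, ← mul_sum]
      have a1 := fib_sum H hir Q.hC hz Q.nw Q.wC hw2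
      have a2 := fib_sum H hir Q.hC hz Q.nv Q.vC hv2
      linear_combination vp i z * a1 - vp i z * a2
    have h3 : ∑ z ∈ Z4 i C, X (mz i z) = ∑ z ∈ Z4 i C, tz i z * (Nx i w z - Nx i v z) := by
      refine sum_congr rfl fun z hz => ?_
      rw [hX]
      simp only
      rw [FG_mz H hir Q.hC hz Q.nw hw2, FG_mz H hir Q.hC hz Q.nv hv2,
        (mz_val H hir Q.hC hz).2.2.2.2.2.1]
      ring
    rw [h2, h3]
  · intro e hs h
    rw [hX]
    simp only
    rw [cheap0_lc H Q.hC hs h, mul_zero]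

end

end Pool.Agent.GaussPoset.Win.W4
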