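import Pool.Agent.W_448w4_h10.LA

/-!
MP_448cb3_co, G2, case B, window `j`: THE VALUES of the component with a lower and an upper unmatched double which
share a site.  helper10.
-/

namespace Pool.Agent.GaussPoset.Win.W4

set_option linter.unusedSectionVars false

open Finset
open Pool.Agent.GaussPoset.Win.So (IV IV_chi IV_Fe)
open Pool.Agent.GaussPoset.Win.SO (LowD UppD val_gen PN vp con on)

universe u

variable {P : Type u} [Fintype P] [PartialOrder P] [DecidableEq P] {r i : ℕ}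
variable {e f : P → ℕ} {psi : P → P} {C K : Finset P} {w v : P}

section

variable (Q : K5 r i K psi C w v) {p q s : P} (hw : uc w = {p, q}) (hv : dc v = {q, s})
  (hpq : p ≠ q) (hqs : q ≠ s) (hps : p ≠ s)
include Q hw hv hpq hqs hps

lemma K5.cards : (nz i w).card = 2 ∧ (nz i v).card = 2 ∧ q ∈ uc w ∧ q ∈ dc v := by
  refine ⟨?_, ?_, by rw [hw]; simp, by rw [hv]; simp⟩
  · rw [Q.nzw hw hv hpq hqs hps, card_pair hpq]
  · rw [Q.nzv hw hv hpq hqs hps, card_pair hqs]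

/-- THE CORES OF ENERGY TWO, fourth coefficient -/
theorem K5.S2_4 : ∑ e ∈ Co i K psi C 2, (lc (st i C).card 2 (Jx i K psi C w v e 0 1 1) +
      lc (st i C).card 2 (Jx i K psi C w v e 0 2 0) +
      lc (st i C).card 2 (Jx i K psi C w v e 1 0 1) +
      lc (st i C).card 2 (Jx i K psi C w v e 2 0 0) +
      lc (st i C).card 2 (Jx i K psi C w v e 1 1 0)) =
    ∑ z ∈ PN i C, vp i z * (Nx i w z * (1 + Dg i K C (sit i z ∪ nz i w)) -
      Nx i v z * (1 + Dg i K C (sit i z ∪ nz i v))) + (2 - ((st i C).card : ℤ)) := by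
  obtain ⟨hw2, hv2, hq, hq'⟩ := Q.cards hw hv hpq hqs hps
  obtain ⟨l1, l2, l3⟩ := Q.lpq hw hv hpq hqs hps
  rw [sum_add_distrib, Q.S2_both hw hv hpq hqs hps]
  congr 1
  rw [Q.sum2 (fun e => lc (st i C).card 2 (Jx i K psi C w v e 0 1 1) +
      lc (st i C).card 2 (Jx i K psi C w v e 0 2 0) +
      lc (st i C).card 2 (Jx i K psi C w v e 1 0 1) +
      lc (st i C).card 2 (Jx i K psi C w v e 2 0 0))]
  · refine sum_congr rfl fun z hz => ?_
    rw [← Q.L2_val hw2 hv2 hq hq' hz]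
    have h0 : Jx i K psi C w v (on (con i z)) 1 1 0 = 0 :=
      Q.Jx_both (c2_core Q.H hz) hq hq' (pd_site Q.H hz l2) one_ne_zero one_ne_zero 0
    rw [h0, lc_zero, add_zero]
  · intro e _ h hc _
    show lc (st i C).card 2 (Jx i K psi C w v e 0 1 1) +
      lc (st i C).card 2 (Jx i K psi C w v e 0 2 0) +
      lc (st i C).card 2 (Jx i K psi C w v e 1 0 1) +
      lc (st i C).card 2 (Jx i K psi C w v e 2 0 0) = 0
    rw [Q.lc_J hc h (by simp [ind]), Q.lc_J hc h (by simp [ind]), Q.lc_J hc h (by simp [ind]),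
      Q.lc_J hc h (by simp [ind])]
    norm_num

/-- THE FOURTH COEFFICIENT -/
theorem K5.be4_raw (hb : 1 ≤ (st i C).card) : 2 * lc (st i C).card 2 (ZC i C 4) =
    (∑ q ∈ P4 i C, vp i q.1 * vp i q.2 - 2 * ((Z4 i C).card - (T4 i C).card : ℤ)) +
    (∑ z ∈ PN i C, vp i z * ((2 * ((st i C).card - 8) + ch i C z) * (Nx i w z - Nx i v z) +
      2 * (Mx i w z - Mx i v z)) + 2 * ∑ z ∈ Z4 i C, tz i z * (Nx i w z - Nx i v z)) +
    2 * (∑ z ∈ PN i C, vp i z * (Nx i w z * (1 + Dg i K C (sit i z ∪ nz i w)) -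
      Nx i v z * (1 + Dg i K C (sit i z ∪ nz i v))) + (2 - ((st i C).card : ℤ))) +
    2 * (2 - (Vc i K C + dg i K C p + dg i K C s + 2 * dg i K C q - 2 * mm i K C {p, q}
        - 2 * mm i K C {q, s} - mm i K C {p, s})) := by
  obtain ⟨hw2, hv2, hq, hq'⟩ := Q.cards hw hv hpq hqs hps
  rw [Q.lc4 hq hq', Q.S2_4 hw hv hpq hqs hps, Q.S1_4 hw hv hpq hqs hps]
  linear_combination Q.sum4 hb + Q.S3 hw2 hv2

/-- THE THIRD COEFFICIENT -/
theorem K5.be3_raw : lc (st i C).card 2 (ZC i C 3) =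
    ∑ z ∈ PN i C, vp i z * (Nx i w z - Nx i v z) - 1 := by
  obtain ⟨hw2, hv2, hq, hq'⟩ := Q.cards hw hv hpq hqs hps
  rw [Q.lc3 hq hq', Q.S1_3 hw hv hpq hqs hps,
    Q.sum2 (fun e => lc (st i C).card 2 (Jx i K psi C w v e 0 1 0) +
      lc (st i C).card 2 (Jx i K psi C w v e 1 0 0))]
  · have : ∀ z ∈ PN i C, lc (st i C).card 2 (Jx i K psi C w v (on (con i z)) 0 1 0) +
      lc (st i C).card 2 (Jx i K psi C w v (on (con i z)) 1 0 0) =
        vp i z * (Nx i w z - Nx i v z) := by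
      intro z hz
      obtain ⟨-, -, -, -, v5, v6⟩ := pd_val Q.H Q.hi Q.hi2 Q.hC hz
      have hc : IsCore i ∅ (ps K psi) (on (con i z)) := c2_core Q.H hz
      have hs := c2_spt Q.H Q.hC hz
      rw [Q.val_v hc hs hv2 one_ne_zero (Or.inl rfl) v5,
        Q.val_w hc hs hw2 one_ne_zero (Or.inl rfl) v5, v6,
        FG_pd Q.H Q.hi Q.hi2 Q.hC hz Q.nw hw2 one_ne_zero,
        FG_pd Q.H Q.hi Q.hi2 Q.hC hz Q.nv hv2 one_ne_zero]
      ring
    rw [sum_congr rfl this]
    ring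
  · intro e _ h hc _
    show lc (st i C).card 2 (Jx i K psi C w v e 0 1 0) +
      lc (st i C).card 2 (Jx i K psi C w v e 1 0 0) = 0
    rw [Q.lc_J hc h (by simp [ind]), Q.lc_J hc h (by simp [ind])]
    norm_num

/-- the empty core: configurations with one label -/
lemma K5.zero_vals : lc (st i C).card 1 (Jx i K psi C w v 0 0 1 0) = -1 ∧
    lc (st i C).card 1 (Jx i K psi C w v 0 1 0 0) = 1 ∧
    lc (st i C).card 1 (Jx i K psi C w v 0 0 2 0) = -1 ∧
    lc (st i C).card 1 (Jx i K psi C w v 0 2 0 0) = 1 ∧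
    lc (st i C).card 1 (Jx i K psi C w v 0 1 0 1) = Dg i K C {p, q} ∧
    lc (st i C).card 1 (Jx i K psi C w v 0 0 1 1) = - Dg i K C {q, s} := by
  obtain ⟨hw2, hv2, hq, hq'⟩ := Q.cards hw hv hpq hqs hps
  have nw := Q.nzw hw hv hpq hqs hps
  have nv := Q.nzv hw hv hpq hqs hps
  have hS : Sc i (0 : P → ℕ) := fun x _ => rfl
  have hs : Spt C (0 : P → ℕ) := fun x _ => rfl
  obtain ⟨-, -, h1, h2, o0, c0⟩ := hS.val (C := C) Q.H Q.hi Q.hi2
  have hc : IsCore i ∅ (ps K psi) (0 : P → ℕ) := hS.core Q.H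
  have hc' : IsCore i K psi (0 : P → ℕ) := hS.core Q.H
  have hz : ∀ y, lev y = i → (0 : P → ℕ) y = 0 := fun y _ => rfl
  have fw : ∀ a, a ≠ 0 → FG i (0 : P → ℕ) w a = 1 := by
    intro a ha
    rw [hS.FG Q.H Q.hi Q.hi2 hpq nw, if_pos]
    simp only [Pi.zero_apply]
    omega
  have fv : ∀ a, a ≠ 0 → FG i (0 : P → ℕ) v a = 1 := by
    intro a ha
    rw [hS.FG Q.H Q.hi Q.hi2 hqs nv, if_pos]
    simp only [Pi.zero_apply]
    omega
  have hd0 : Disjoint (AL i (0 : P → ℕ)) (AU i (0 : P → ℕ)) := by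
    rw [h1]; exact disjoint_empty_left _
  have hR : ∀ y ∈ N0 i K C, y ∉ RK i K psi C (0 : P → ℕ) → y ∈ dbL P i ∪ dbU P i ∧
      nz i y ⊆ AL i (0 : P → ℕ) ∪ AU i (0 : P → ℕ) := by
    intro y hy h
    exact absurd (hS.RK Q.H hy) h
  have ht : ∀ x : P, x ∉ Tch i (0 : P → ℕ) := by
    intro x
    rw [hS.tch Q.H]
    exact notMem_empty x
  refine ⟨?_, ?_, ?_, ?_, ?_, ?_⟩
  · rw [Q.val_v hc hs hv2 one_ne_zero (Or.inl rfl) o0, c0, fv 1 one_ne_zero]
    norm_num
  · rw [Q.val_w hc hs hw2 one_ne_zero (Or.inl rfl) o0, c0, fw 1 one_ne_zero]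
    norm_num
  · rw [Q.val_v hc hs hv2 two_ne_zero (Or.inr hz) o0, c0, fv 2 two_ne_zero]
    norm_num
  · rw [Q.val_w hc hs hw2 two_ne_zero (Or.inr hz) o0, c0, fw 2 two_ne_zero]
    norm_num
  · rw [Q.Jx_Sc hw hv hpq hqs hps hS, Pi.single_zero, add_zero,
      x_one_gen Q.H Q.hi Q.hi2 Q.hM Q.hC hs hd0 o0 hz hc' hR Q.nw Q.wC Q.wK hw2 (ht w) rfl
        (by rw [h1, h2, union_empty]; exact disjoint_empty_right _), h1, h2, c0, nw]
    have : sg1 i w = 1 := by unfold sg1; rw [if_pos Q.lw0]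
    rw [this, empty_union, empty_union]
    ring
  · rw [Q.Jx_Sc hw hv hpq hqs hps hS, Pi.single_zero, add_zero,
      x_one_gen Q.H Q.hi Q.hi2 Q.hM Q.hC hs hd0 o0 hz hc' hR Q.nv Q.vC Q.vK hv2 (ht v) rfl
        (by rw [h1, h2, union_empty]; exact disjoint_empty_right _), h1, h2, c0, nv]
    have : sg1 i v = -1 := by unfold sg1; rw [if_neg (by have := Q.lv0; omega)]
    rw [this, empty_union, empty_union]
    ring

/-- THE FIRST COEFFICIENT -/
theorem K5.al1_raw : lc (st i C).card 1 (ZC i C 1) = 0 := by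
  obtain ⟨hw2, hv2, hq, hq'⟩ := Q.cards hw hv hpq hqs hps
  obtain ⟨z1, z2, -, -, -, -⟩ := Q.zero_vals hw hv hpq hqs hps
  rw [Q.lc1 hq hq', Co_zero Q.H, sum_singleton, z1, z2]
  norm_num

/-- a core of energy one: a label at a site, or zero -/
lemma K5.Co1_cases (he : e ∈ Co i K psi C 1) :
    (∃ f ∈ st i C, e = Pi.single f 1) ∨ ∀ a b m, Jx i K psi C w v e a b m = 0 := by
  obtain ⟨h1, h2, h3⟩ := mem_Co.1 he
  have hf : ∃ f, 0 < e f := by
    by_contra hc
    push Not at hc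
    have : ∑ x, e x = 0 := sum_eq_zero fun x _ => by have := hc x; omega
    omega
  obtain ⟨f, hef⟩ := hf
  have hf := sum_one h1 hef
  have hfC : f ∈ C := by
    by_contra h
    rw [h2 f h] at hef
    omega
  have ez : ∀ y, y ≠ f → e y = 0 := by
    intro y hy
    rw [hf, Pi.single_eq_of_ne hy]
  by_cases hlf : lev f = i
  · exact Or.inl ⟨f, mem_st.2 ⟨hfC, hlf⟩, hf⟩
  right
  by_cases hlow : i + 2 ≤ lev f
  · refine Q.Jx_zero h3 fun h => far_low Q.H hlow hef ?_ h.1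
    intro y hy
    have := lev_uc Q.H hy
    refine ez y ?_
    rintro rfl; omega
  by_cases hupp : lev f + 2 ≤ i
  · refine Q.Jx_zero h3 fun h => far_upp Q.H Q.hir hupp hef ?_ h.2.1
    intro y hy
    have := lev_dc Q.H hy
    refine ez y ?_
    rintro rfl; omega
  exfalso
  have hn : f ∈ near P i := mem_near.2 (by omega)
  have ht : Tch i e = ∅ := by
    rw [eq_empty_iff_forall_notMem]
    intro x hx
    rw [mem_Tch] at hx
    rcases hx with ⟨g1, z, hz, hz'⟩ | ⟨g1, z, hz, hz'⟩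
    · have hl := lev_cov Q.H hz
      have : e z = 0 := by
        refine ez z ?_
        rintro rfl; omega
      omega
    · have hl := lev_cov Q.H hz
      have : e z = 0 := by
        refine ez z ?_
        rintro rfl; omega
      omega
  have : e f = 0 := by
    refine h3 f (mem_Rst.2 ⟨hn, notMem_empty f, ?_, ?_⟩)
    · rw [ht]; exact notMem_empty f
    · rintro ⟨-, g⟩
      rw [ht] at g
      exact notMem_empty _ g
  omega

/-- the cores of energy one, second coefficient -/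
lemma K5.S1_2 : ∑ e ∈ Co i K psi C 1, (lc (st i C).card 1 (Jx i K psi C w v e 0 1 0) +
      lc (st i C).card 1 (Jx i K psi C w v e 1 0 0)) = 0 := by
  classical
  obtain ⟨l1, l2, l3⟩ := Q.lpq hw hv hpq hqs hps
  obtain ⟨m1, m2, m3⟩ := Q.memC hw hv hpq hqs hps
  obtain ⟨hw2, hv2, hq, hq'⟩ := Q.cards hw hv hpq hqs hps
  have nw := Q.nzw hw hv hpq hqs hps
  have nv := Q.nzv hw hv hpq hqs hps
  have key : ∀ f ∈ st i C, Sc i (Pi.single f 1 : P → ℕ) ∧ Spt C (Pi.single f 1 : P → ℕ) ∧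
      ∑ x, (Pi.single f 1 : P → ℕ) x = 1 := by
    intro f hf
    obtain ⟨f1, f2⟩ := mem_st.1 hf
    refine ⟨?_, ?_, ?_⟩
    · intro x hx
      have g2 : x ≠ f := by rintro rfl; exact hx f2
      rw [Pi.single_eq_of_ne g2]
    · intro x hx
      have g2 : x ≠ f := by rintro rfl; exact hx f1
      rw [Pi.single_eq_of_ne g2]
    · rw [sum_pi_single' f 1 univ]
      simp
  have inj : ∀ f ∈ st i C, ∀ f' ∈ st i C,
      (Pi.single f 1 : P → ℕ) = Pi.single f' 1 → f = f' := by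
    intro f _ f' _ h
    by_contra hne
    have := congrFun h f
    rw [Pi.single_eq_same, Pi.single_eq_of_ne hne] at this
    exact one_ne_zero this
  have e1 : ∑ e ∈ Co i K psi C 1, (lc (st i C).card 1 (Jx i K psi C w v e 0 1 0) +
      lc (st i C).card 1 (Jx i K psi C w v e 1 0 0)) =
      ∑ e ∈ (st i C).image (fun f => (Pi.single f 1 : P → ℕ)),
        (lc (st i C).card 1 (Jx i K psi C w v e 0 1 0) +
      lc (st i C).card 1 (Jx i K psi C w v e 1 0 0)) := by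
    symm
    refine sum_subset ?_ ?_
    · intro e he
      rw [mem_image] at he
      obtain ⟨f, hf, rfl⟩ := he
      obtain ⟨k1, k2, k3⟩ := key f hf
      exact mem_Co.2 ⟨k3, k2, k1.core Q.H⟩
    · intro e he hne
      rcases Q.Co1_cases hw hv hpq hqs hps he with ⟨f, hf, rfl⟩ | h
      · exact absurd (mem_image.2 ⟨f, hf, rfl⟩) hne
      · rw [h, h, lc_zero]
        norm_num
  rw [e1, sum_image inj]
  have e2 : ∀ f ∈ st i C, lc (st i C).card 1 (Jx i K psi C w v (Pi.single f 1) 0 1 0) +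
      lc (st i C).card 1 (Jx i K psi C w v (Pi.single f 1) 1 0 0) =
      2 * (if f ∈ ({q, s} : Finset P) then 1 else 0) -
        2 * (if f ∈ ({p, q} : Finset P) then 1 else 0) := by
    intro f hf
    obtain ⟨k1, k2, -⟩ := key f hf
    obtain ⟨-, -, -, -, o0, c0⟩ := k1.val (C := C) Q.H Q.hi Q.hi2
    have hc : IsCore i ∅ (ps K psi) (Pi.single f 1 : P → ℕ) := k1.core Q.H
    rw [Q.val_v hc k2 hv2 one_ne_zero (Or.inl rfl) o0,
      Q.val_w hc k2 hw2 one_ne_zero (Or.inl rfl) o0, c0,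
      k1.FG Q.H Q.hi Q.hi2 hpq nw, k1.FG Q.H Q.hi Q.hi2 hqs nv]
    simp only [Pi.single_apply, mem_insert, mem_singleton]
    by_cases h1 : f = p
    · subst h1
      simp [hpq, hpq.symm, hps, hps.symm]
    · by_cases h2 : f = q
      · subst h2
        simp [hpq, hpq.symm, hqs, hqs.symm]
      · by_cases h3 : f = s
        · subst h3
          simp [hqs, hqs.symm, hps, hps.symm]
        · simp [h1, h2, h3, Ne.symm h1, Ne.symm h2, Ne.symm h3]
  rw [sum_congr rfl e2, sum_sub_distrib, ← mul_sum, ← mul_sum, ← sum_filter, ← sum_filter,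
    sum_const, sum_const]
  have e3 : ∀ a b : P, a ≠ b → a ∈ st i C → b ∈ st i C →
      ((st i C).filter (fun f => f ∈ ({a, b} : Finset P))).card = 2 := by
    intro a b hab ha hb
    have : (st i C).filter (fun f => f ∈ ({a, b} : Finset P)) = {a, b} := by
      ext y
      rw [mem_filter]
      constructor
      · exact fun h => h.2
      · intro h
        refine ⟨?_, h⟩
        rw [mem_insert, mem_singleton] at h
        rcases h with rfl | rfl <;> assumption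
    rw [this, card_pair hab]
  rw [e3 q s hqs (mem_st.2 ⟨m2, l2⟩) (mem_st.2 ⟨m3, l3⟩),
    e3 p q hpq (mem_st.2 ⟨m1, l1⟩) (mem_st.2 ⟨m2, l2⟩)]
  ring

/-- THE SECOND COEFFICIENT -/
theorem K5.al2_raw : lc (st i C).card 1 (ZC i C 2) =
    ∑ z ∈ PN i C, vp i z + (dg i K C p - dg i K C s - mm i K C {p, q} + mm i K C {q, s}) := by
  obtain ⟨hw2, hv2, hq, hq'⟩ := Q.cards hw hv hpq hqs hps
  obtain ⟨-, -, z3, z4, z5, z6⟩ := Q.zero_vals hw hv hpq hqs hps
  have e1 : ∑ e ∈ Co i K psi C 2, lc (st i C).card 1 (tC i C e) = ∑ z ∈ PN i C, vp i z := by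
    rw [Q.sum2 (fun e => lc (st i C).card 1 (tC i C e))]
    · exact sum_congr rfl fun z hz => (pd_val Q.H Q.hi Q.hi2 Q.hC hz).2.2.2.2.2
    · intro e hs h _ _
      exact cheap0_lc Q.H Q.hC hs h
  rw [Q.lc2 hq hq', e1, Q.S1_2 hw hv hpq hqs hps, Co_zero Q.H, sum_singleton, z3, z4, z5, z6]
  unfold Dg
  rw [sum_pair hpq, sum_pair hqs]
  ring

end

end Pool.Agent.GaussPoset.Win.W4
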