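import Pool.Agent.W_448so_h63.GK

/-!
MP_448cb3_co, G2, case B: the identities (2,1) and (4,2) at the window `j`: the values of the extremal cross
configurations (the file of helper83, for every energy).  helper10.
-/

namespace Pool.Agent.GaussPoset.Win.K2

set_option linter.unusedSectionVars false

open Finset I2

universe u

variable {P : Type u} [Fintype P] [PartialOrder P] [DecidableEq P] {r i : ℕ}

open Classical in
/-- the leading coefficient of the extremal cross configurations -/
theorem trm_eZn (H : Gr P r) (hir : i ≤ r) {z y v : P} (hz : lev z = i + 2) (huc : uc z = {y, v})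
    (hyv : y ≠ v) (hT : (uc y ∪ uc v).card = 3) {a : ℕ} (ha : a = 1 ∨ a = 2) {M : Finset P}
    (hM : M ⊆ dbL P i ∪ dbU P i) (hMz : Disjoint M (uc z)) {n : ℕ}
    (hc : M.card + a = n) :
    dd ^ ((lv P i).card - (n - 1)) ∣ trm i (eZ a z M) +
      ((if Dj i M ∧ Disjoint (M.biUnion (ns i)) (uc y ∪ uc v) then ∏ k ∈ M, sgn i k else 0 : ℤ) : A)
        * dd ^ ((lv P i).card - n) := by
  have ha1 : 1 ≤ a := by omega
  have hcz : (uc z).card = 2 := by
    rw [huc, card_pair hyv]
  have hbu : (uc z).biUnion uc = uc y ∪ uc v := by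
    rw [huc, biUnion_insert, singleton_biUnion]
  have eAL := eZ_AL (a := a) H hz hM
  have eAU := eZ_AU (a := a) H hz hM
  rw [hbu] at eAL
  have eaL := eZ_aL (a := a) H hz hM
  have epL := eZ_pL H hz hM ha1 hMz
  have eaU := eZ_aU (a := a) H hz hM
  have epU := eZ_pU (a := a) H hir hz hM
  rw [hcz] at eaL epL
  have hMc : M.card = (M ∩ dbL P i).card + (M ∩ dbU P i).card := by
    rw [← card_union_of_disjoint]
    · congr 1
      rw [← inter_union_distrib_left]
      exact (inter_eq_left.2 hM).symm
    · rw [disjoint_left]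
      intro x h1 h2
      rw [mem_inter] at h1 h2
      have h3 := (mem_dbL.1 h1.2).1
      have h4 := (mem_dbU.1 h2.2).1
      omega
  have hMu : (M ∩ dbL P i).biUnion (ns i) ∪ (M ∩ dbU P i).biUnion (ns i) = M.biUnion (ns i) := by
    rw [← union_biUnion, ← inter_union_distrib_left, inter_eq_left.2 hM]
  have hun : AL i (eZ a z M) ∪ AU i (eZ a z M) = (uc y ∪ uc v) ∪ M.biUnion (ns i) := by
    rw [eAL, eAU, union_assoc, hMu]
  have hsum : ∑ x ∈ M, (ns i x).card = 2 * M.card := by
    rw [sum_congr rfl (fun x hx => ns_card (hM hx)), sum_const, smul_eq_mul, mul_comm]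
  have hble : (M.biUnion (ns i)).card ≤ 2 * M.card := by
    rw [← hsum]
    exact card_biUnion_le
  have hsub : AL i (eZ a z M) ∪ AU i (eZ a z M) ⊆ lv P i := by
    intro x hx
    rw [mem_lv]
    rcases mem_union.1 hx with h | h
    · exact ((NormD_mem_AL _ _ _).1 h).1
    · exact ((NormD_mem_AU _ _ _).1 h).1
  have hBle := card_le_card hsub
  by_cases hD : Disjoint (AL i (eZ a z M)) (AU i (eZ a z M))
  · have hcu : (AL i (eZ a z M) ∪ AU i (eZ a z M)).card =
        (AL i (eZ a z M)).card + (AU i (eZ a z M)).card := card_union_of_disjoint hD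
    have htrm : trm i (eZ a z M) = xx ^ aL i (eZ a z M) * xi ^ (M ∩ dbU P i).card *
        dd ^ (pL i (eZ a z M) + (M ∩ dbU P i).card) * (xx ^ (AL i (eZ a z M)).card *
        dd ^ ((lv P i).card - (AL i (eZ a z M)).card - (AU i (eZ a z M)).card)) := by
      unfold trm
      rw [if_pos hD]
      unfold cw
      rw [if_pos ⟨eZ_admL H hz hM, eZ_admU H hz hM⟩, eaU, epU, zero_add]
    by_cases hC : Dj i M ∧ Disjoint (M.biUnion (ns i)) (uc y ∪ uc v)
    · rw [if_pos hC]
      have h1 : (AL i (eZ a z M)).card = 3 + 2 * (M ∩ dbL P i).card := by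
        rw [eAL, card_union_of_disjoint, hT, Dj_bi_card hC.1 inter_subset_left]
        refine disjoint_of_subset_right ?_ hC.2.symm
        exact biUnion_subset_biUnion_of_subset_left _ inter_subset_left
      have h2 : (AU i (eZ a z M)).card = 2 * (M ∩ dbU P i).card := by
        rw [eAU, Dj_bi_card hC.1 inter_subset_left]
      have h3 : (lv P i).card - (n - 1) = ((lv P i).card - n) + 1 := by omega
      have h4 : pL i (eZ a z M) + (M ∩ dbU P i).card +
          ((lv P i).card - (AL i (eZ a z M)).card - (AU i (eZ a z M)).card) =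
          (lv P i).card - n := by
        rcases ha with rfl | rfl
        · rw [if_neg (by omega)] at epL
          omega
        · rw [if_pos (by omega)] at epL
          omega
      have h5 : trm i (eZ a z M) = dd ^ ((lv P i).card - n) *
          (xx ^ aL i (eZ a z M) * xi ^ (M ∩ dbU P i).card * xx ^ (AL i (eZ a z M)).card) := by
        rw [htrm, ← h4, pow_add dd (pL i (eZ a z M) + (M ∩ dbU P i).card)]
        ring
      rw [h5, h3, mul_comm (((∏ k ∈ M, sgn i k : ℤ)) : A), ← mul_add, pow_succ]
      refine mul_dvd_mul_left _ ?_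
      unfold dd
      rw [PowerSeries.X_dvd_iff, map_add, map_mul, map_mul, map_pow, map_pow, map_pow, cc_xx,
        cc_xi, prod_sgn, h1, eaL]
      have h6 : PowerSeries.constantCoeff ((((-1 : ℤ) ^ (M ∩ dbU P i).card : ℤ)) : A) =
          (-1 : ℤ) ^ (M ∩ dbU P i).card := by
        rw [map_intCast]
        simp
      rw [h6]
      have h7 : (-1 : ℤ) ^ (3 + 2 * (M ∩ dbL P i).card) = -1 := by
        rw [pow_add, pow_mul]
        norm_num
      rw [h7]
      rcases ha with rfl | rfl
      · rw [if_neg (by omega), pow_zero]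
        ring
      · rw [if_pos (by omega)]
        ring
    · rw [if_neg hC, Int.cast_zero, zero_mul, add_zero, htrm]
      have h1 : (AL i (eZ a z M)).card + (AU i (eZ a z M)).card ≤ 2 + 2 * M.card := by
        by_contra h
        apply hC
        have h2 : 3 + 2 * M.card ≤ ((uc y ∪ uc v) ∪ M.biUnion (ns i)).card := by
          rw [← hun]
          omega
        have h3 := card_union_add_card_inter (uc y ∪ uc v) (M.biUnion (ns i))
        have h4 : ((uc y ∪ uc v) ∩ M.biUnion (ns i)).card = 0 := by omega
        have h5 : Disjoint (uc y ∪ uc v) (M.biUnion (ns i)) := by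
          rw [disjoint_iff_inter_eq_empty]
          exact card_eq_zero.1 h4
        refine ⟨⟨hM, fun x hx x' hx' hne => ?_⟩, h5.symm⟩
        exact disj_of_card_biUnion (by rw [hsum]; omega) hx hx' hne
      have h2 : (lv P i).card - (n - 1) ≤ pL i (eZ a z M) + (M ∩ dbU P i).card +
          ((lv P i).card - (AL i (eZ a z M)).card - (AU i (eZ a z M)).card) := by
        rcases ha with rfl | rfl
        · rw [if_neg (by omega)] at epL
          omega
        · rw [if_pos (by omega)] at epL
          omega
      have h3 : xx ^ aL i (eZ a z M) * xi ^ (M ∩ dbU P i).card *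
        dd ^ (pL i (eZ a z M) + (M ∩ dbU P i).card) * (xx ^ (AL i (eZ a z M)).card *
        dd ^ ((lv P i).card - (AL i (eZ a z M)).card - (AU i (eZ a z M)).card)) =
        dd ^ (pL i (eZ a z M) + (M ∩ dbU P i).card +
          ((lv P i).card - (AL i (eZ a z M)).card - (AU i (eZ a z M)).card)) *
          (xx ^ aL i (eZ a z M) * xi ^ (M ∩ dbU P i).card * xx ^ (AL i (eZ a z M)).card) := by
        rw [pow_add dd (pL i (eZ a z M) + (M ∩ dbU P i).card)]
        ring
      rw [h3]
      exact dvd_mul_of_dvd_left (pow_dvd_pow _ h2) _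
  · have hC : ¬ (Dj i M ∧ Disjoint (M.biUnion (ns i)) (uc y ∪ uc v)) := by
      rintro ⟨h1, h2⟩
      apply hD
      rw [eAL, eAU, disjoint_union_left]
      constructor
      · refine disjoint_of_subset_right ?_ h2.symm
        exact biUnion_subset_biUnion_of_subset_left _ inter_subset_left
      · rw [disjoint_left]
        intro x hx hx'
        rw [mem_biUnion] at hx hx'
        obtain ⟨w, hw, hxw⟩ := hx
        obtain ⟨w', hw', hxw'⟩ := hx'
        rw [mem_inter] at hw hw'
        have hne : w ≠ w' := by
          rintro rfl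
          have h3 := (mem_dbL.1 hw.2).1
          have h4 := (mem_dbU.1 hw'.2).1
          omega
        exact disjoint_left.1 (h1.2 w hw.1 w' hw'.1 hne) hxw hxw'
    rw [if_neg hC, Int.cast_zero, zero_mul, add_zero]
    unfold trm
    rw [if_neg hD]
    exact dvd_zero _

end Pool.Agent.GaussPoset.Win.K2
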