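import Pool.Agent.W_448w4_h10.MA

/-!
MP_448cb3_co, G2, case B: the cross part at the energy `n + 4`, order `n + 2`, window `j` (the files of helper63 for
every energy).  helper10.
-/

namespace Pool.Agent.GaussPoset.Win.K2

set_option linter.unusedSectionVars false

open Finset I2

universe u

variable {P : Type u} [Fintype P] [PartialOrder P] [DecidableEq P] {r i : ℕ} {e : P → ℕ}

variable {ι : Type*} [DecidableEq ι] {κ : P → ι} {K : Finset P} {psi : P → P}

/-- the extremal cross configurations -/
theorem cross_gen (H : Gr P r) (hir : i ≤ r) (hq : NoQ P (i + 2))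
    (hg : ∀ m, m + 1 = i → Good P m) (hκ : Split (i + 1) κ) (hM : Mat P i K psi)
    (hL : AdmL i e) (hU : AdmU i e) (hd : Disjoint (AL i e) (AU i e)) {n : ℕ}
    (h6 : ∑ x, e x = n + 2)
    {z0 : P} (hz0 : z0 ∉ cuni (i + 1) κ) (he0 : 1 ≤ e z0) :
    (AL i e).card + (AU i e).card ≤ (n - 1) + (pL i e + pU i e) ∨
      ((AL i e).card + (AU i e).card ≤ n + (pL i e + pU i e) ∧
      ((SK i K psi e).Nonempty ∨ ∃ z y v a M, SD i κ z y v ∧ z ∉ cuni (i + 1) κ ∧
        (a = 1 ∨ a = 2) ∧ M ⊆ K ∧ Disjoint M (uc z) ∧ M.card + a = n ∧ e = eZ a z M)) := by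
  classical
  rcases cross_D H hκ hq hL hz0 he0 with ⟨D, hD3, hD⟩ | ⟨y, v, lz, huc, hk, cy, cv, ey, ev⟩
  · left
    have := ord_le H hir hq hg hL hU hD
    omega
  · have S : SD i κ z0 y v := ⟨lz, huc, hk, cy, cv⟩
    have hly := S.ly H
    have hlv := S.lv' H
    have hzv : z0 ≠ v := by rintro rfl; omega
    have hzy : z0 ≠ y := by rintro rfl; omega
    have hD : ∀ x ∈ ({z0, v} : Finset P), 1 ≤ e x ∧ Dp i x := by
      intro x hx
      rw [mem_insert, mem_singleton] at hx
      rcases hx with rfl | rfl
      · exact ⟨he0, Or.inl (by omega)⟩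
      · exact ⟨ev, Or.inr ⟨by omega, cv⟩⟩
    have h1 := ord_le H hir hq hg hL hU hD
    rw [card_pair hzv] at h1
    by_cases h2 : (AL i e).card + (AU i e).card ≤ (n - 1) + (pL i e + pU i e)
    · exact Or.inl h2
    right
    refine ⟨by omega, ?_⟩
    obtain ⟨q1, q2, q3⟩ := ord_eq H hir hq hg hL hU hD (by rw [card_pair hzv]; omega)
    have hbz : z0 ∉ bN i e := by
      intro h
      unfold bN at h
      rcases mem_union.1 h with h | h
      · have := (bL_data H hir hq hg h).1
        omega
      · have := (bU_data H hir hq hg h).1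
        omega
    have hbv : v ∉ bN i e := by
      intro h
      unfold bN at h
      rcases mem_union.1 h with h | h
      · have := (bL_data H hir hq hg h).2.1
        omega
      · have := (bU_data H hir hq hg h).1
        omega
    have hby : y ∈ bN i e := by
      apply q1 y _ ey
      rw [mem_insert, mem_singleton]
      rintro (h | h)
      · exact hzy h.symm
      · exact S.ne h
    have ha : e z0 ≤ 2 := q2 z0 (mem_insert_self _ _)
    have hv1 : e v = 1 := q3 v (mem_insert_of_mem (mem_singleton_self _)) hlv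
    have hMd : Disjoint ((bN i e).erase y) (uc z0) := by
      rw [huc, disjoint_insert_right, disjoint_singleton_right]
      exact ⟨notMem_erase _ _, fun h => hbv (mem_erase.1 h).2⟩
    have heq : e = eZ (e z0) z0 ((bN i e).erase y) := by
      funext x
      unfold eZ
      split_ifs with h3 h4
      · rw [h3]
      · rw [mem_union, huc, mem_insert, mem_singleton, mem_erase] at h4
        rcases h4 with (h4 | h4) | h4
        · rw [h4]
          exact (bN_data H hir hq hg hby).2.1
        · rw [h4, hv1]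
        · exact (bN_data H hir hq hg h4.2).2.1
      · by_contra h5
        apply h4
        rw [mem_union, huc, mem_insert, mem_singleton, mem_erase]
        by_cases h6 : x = v
        · exact Or.inl (Or.inr h6)
        by_cases h7 : x = y
        · exact Or.inl (Or.inl h7)
        right
        refine ⟨h7, q1 x ?_ (by omega)⟩
        rw [mem_insert, mem_singleton]
        rintro (h | h)
        · exact h3 h
        · exact h6 h
    have hcard : ((bN i e).erase y).card + e z0 = n := by
      have h3 : ∑ x, e x = e z0 + (uc z0 ∪ (bN i e).erase y).card := by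
        rw [← Finset.add_sum_erase univ e (mem_univ z0)]
        congr 1
        have h4 : ∀ x ∈ univ.erase z0, e x = if x ∈ uc z0 ∪ (bN i e).erase y then 1 else 0 := by
          intro x hx
          have h5 := congrFun heq x
          unfold eZ at h5
          rwa [if_neg (mem_erase.1 hx).1] at h5
        rw [Finset.sum_congr rfl h4, Finset.sum_ite_mem, Finset.sum_const, smul_eq_mul, mul_one]
        congr 1
        ext x
        rw [mem_inter, mem_erase]
        constructor
        · exact fun h => h.2
        · intro h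
          refine ⟨⟨?_, mem_univ x⟩, h⟩
          rintro rfl
          rcases mem_union.1 h with h | h
          · have := lev_uc H h
            omega
          · exact hbz (mem_erase.1 h).2
      rw [h6, card_union_of_disjoint hMd.symm, huc, card_pair S.ne] at h3
      omega
    by_cases hMK : (bN i e).erase y ⊆ K
    · right
      exact ⟨z0, y, v, e z0, (bN i e).erase y, S, hz0, by omega, hMK, hMd, hcard, heq⟩
    · left
      rw [Finset.not_subset] at hMK
      obtain ⟨k, hk1, hk2⟩ := hMK
      rw [mem_erase] at hk1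
      have hkb := hk1.2
      unfold bN at hkb
      rcases mem_union.1 hkb with h | h
      · obtain ⟨b1, -, -, -, -, -⟩ := bL_data H hir hq hg h
        refine ⟨k, (low_simple hM H hq hU hd h hk2 ?_).1⟩
        intro w hw
        by_contra hne
        have hlw := lev_dc H hw
        have h3 : w ∉ bN i e := by
          intro h4
          unfold bN at h4
          rcases mem_union.1 h4 with h4 | h4
          · have := (bL_data H hir hq hg h4).1
            omega
          · have := (bU_data H hir hq hg h4).1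
            omega
        have h4 : w = z0 := by
          by_contra h5
          refine h3 (q1 w ?_ (by omega))
          rw [mem_insert, mem_singleton]
          rintro (h6 | h6)
          · exact h5 h6
          · rw [h6] at hlw
            omega
        rw [h4] at hw
        have h5 : k ∈ uc z0 := mem_uc.2 (mem_dc.1 hw)
        rw [huc, mem_insert, mem_singleton] at h5
        rcases h5 with h5 | h5
        · exact hk1.1 h5
        · rw [h5] at hk1
          exact hbv hk1.2
      · obtain ⟨b1, -, -, -, -, -⟩ := bU_data H hir hq hg h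
        refine ⟨psi k, (up_simple hM H hir hg hL hd h hk2 ?_).2.1⟩
        intro w hw
        by_contra hne
        have hlw := lev_uc H hw
        have h3 : w ∉ bN i e := by
          intro h4
          unfold bN at h4
          rcases mem_union.1 h4 with h4 | h4
          · have := (bL_data H hir hq hg h4).1
            omega
          · have := (bU_data H hir hq hg h4).1
            omega
        refine h3 (q1 w ?_ (by omega))
        rw [mem_insert, mem_singleton]
        rintro (h6 | h6)
        · rw [h6] at hlw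
          omega
        · rw [h6] at hlw
          omega

open Classical in
/-- the index set of the extremal configurations -/
noncomputable def Sn (i : ℕ) (κ : P → ι) (K : Finset P) (n : ℕ) : Finset ((P × ℕ) × Finset P) :=
  ((Z2 i κ ×ˢ ({1, 2} : Finset ℕ)) ×ˢ K.powerset).filter
    (fun p => Disjoint p.2 (uc p.1.1) ∧ p.2.card + p.1.2 = n)

lemma mem_Sn {n : ℕ} {z : P} {a : ℕ} {M : Finset P} : ((z, a), M) ∈ Sn i κ K n ↔
    z ∈ Z2 i κ ∧ (a = 1 ∨ a = 2) ∧ M ⊆ K ∧ Disjoint M (uc z) ∧ M.card + a = n := by
  classical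
  unfold Sn
  rw [mem_filter, mem_product, mem_product, mem_powerset, mem_insert, mem_singleton]
  tauto

lemma Fn_inj (H : Gr P r) (hK : K ⊆ dbL P i ∪ dbU P i) (n : ℕ) :
    Set.InjOn F0 (↑(Sn i κ K n) : Set ((P × ℕ) × Finset P)) := by
  classical
  rintro ⟨⟨z, a⟩, M⟩ h ⟨⟨z', a'⟩, M'⟩ h' heq
  rw [mem_coe, mem_Sn] at h h'
  obtain ⟨hz, ha, hM, hd, hc⟩ := h
  obtain ⟨hz', ha', hM', hd', hc'⟩ := h'
  obtain ⟨-, y, v, S⟩ := mem_Z2.1 hz
  obtain ⟨-, y', v', S'⟩ := mem_Z2.1 hz'
  have hlz := S.lz
  have hlz' := S'.lz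
  have hnear : ∀ x ∈ K, lev x = i + 1 ∨ lev x + 1 = i := by
    intro x hx
    rcases mem_union.1 (hK hx) with h | h
    · exact Or.inl (mem_dbL'.1 h).1
    · exact Or.inr (mem_dbU'.1 h).1
  unfold F0 at heq
  simp only at heq
  have hzz : z = z' := by
    by_contra hne
    have h1 := congrFun heq z
    unfold eZ at h1
    rw [if_pos rfl, if_neg hne, if_neg] at h1
    · omega
    · intro h2
      rcases mem_union.1 h2 with h2 | h2
      · have := lev_uc H h2
        omega
      · have := hnear z (hM' h2)
        omega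
  subst hzz
  have haa : a = a' := by
    have h1 := congrFun heq z
    unfold eZ at h1
    rwa [if_pos rfl, if_pos rfl] at h1
  subst haa
  have key : ∀ {M M' : Finset P}, M ⊆ K → Disjoint M (uc z) → eZ a z M = eZ a z M' →
      M ⊆ M' := by
    intro M M' hM hd h x hx
    have hxz : x ≠ z := by
      rintro rfl
      have := hnear x (hM hx)
      omega
    have h1 := congrFun h x
    unfold eZ at h1
    rw [if_neg hxz, if_neg hxz, if_pos (mem_union_right _ hx)] at h1
    by_contra h2
    rw [if_neg] at h1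
    · omega
    · rw [mem_union]
      rintro (h3 | h3)
      · exact disjoint_left.1 hd hx h3
      · exact h2 h3
  rw [subset_antisymm (key hM hd heq) (key hM' hd' heq.symm)]

/-- the sum of the coefficients -/
theorem sum_cn (H : Gr P r) (hK : K ⊆ dbL P i ∪ dbU P i) (n : ℕ) :
    ∑ p ∈ Sn i κ K (n + 2), c0 i p =
      ∑ z ∈ Z2 i κ, (EK.Ek i K (Tz z) (n + 1) + EK.Ek i K (Tz z) n) := by
  classical
  unfold Sn
  rw [Finset.sum_filter, Finset.sum_product, Finset.sum_product]
  refine Finset.sum_congr rfl fun z hz => ?_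
  obtain ⟨-, y, v, S⟩ := mem_Z2.1 hz
  have hlz := S.lz
  have key : ∀ a k : ℕ, k + a = n + 2 → ∑ M ∈ K.powerset,
      (if Disjoint M (uc z) ∧ M.card + a = n + 2 then c0 i ((z, a), M) else 0) =
      EK.Ek i K (Tz z) k := by
    intro a k hk
    rw [EK.Ek_eq hK, Finset.sum_filter, Finset.powersetCard_eq_filter,
      Finset.sum_filter]
    refine Finset.sum_congr rfl fun M hM => ?_
    rw [mem_powerset] at hM
    unfold c0
    simp only
    by_cases h1 : M.card = k
    · rw [if_pos h1]
      by_cases h2 : Dj i M ∧ Disjoint (M.biUnion (ns i)) (Tz z)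
      · rw [if_pos h2, if_pos]
        refine ⟨?_, by omega⟩
        rw [disjoint_left]
        intro x hx hx'
        have h3 := hM hx
        have h4 : (ns i x).Nonempty := EK.ns_ne (hK h3)
        obtain ⟨s, hs⟩ := h4
        refine disjoint_left.1 h2.2 (mem_biUnion.2 ⟨x, hx, hs⟩) ?_
        unfold Tz
        rw [mem_biUnion]
        refine ⟨x, hx', ?_⟩
        have h5 := lev_uc H hx'
        unfold ns at hs
        rwa [if_pos (by omega)] at hs
      · rw [if_neg h2]
        split_ifs <;> rfl
    · rw [if_neg h1, if_neg]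
      rintro ⟨-, h2⟩
      omega
  rw [Finset.sum_pair (by norm_num : (1 : ℕ) ≠ 2), key 1 (n + 1) rfl, key 2 n rfl]

lemma sum_eZn (H : Gr P r) (hK : K ⊆ dbL P i ∪ dbU P i) {z : P} {a n : ℕ} {M : Finset P}
    (h : ((z, a), M) ∈ Sn i κ K n) : ∑ x, eZ a z M x = n + 2 := by
  classical
  rw [mem_Sn] at h
  obtain ⟨hz, ha, hM, hd, hc⟩ := h
  obtain ⟨-, y, v, S⟩ := mem_Z2.1 hz
  have hlz := S.lz
  rw [← Finset.add_sum_erase univ _ (mem_univ z), eZ_self]
  have h4 : ∀ x ∈ univ.erase z, eZ a z M x = if x ∈ uc z ∪ M then 1 else 0 := by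
    intro x hx
    unfold eZ
    rw [if_neg (mem_erase.1 hx).1]
  rw [Finset.sum_congr rfl h4, Finset.sum_ite_mem, Finset.sum_const, smul_eq_mul, mul_one]
  have h5 : univ.erase z ∩ (uc z ∪ M) = uc z ∪ M := by
    ext x
    rw [mem_inter, mem_erase]
    constructor
    · exact fun h => h.2
    · intro h
      refine ⟨⟨?_, mem_univ x⟩, h⟩
      rintro rfl
      rcases mem_union.1 h with h | h
      · have := lev_uc H h
        omega
      · have := lev_M (hM.trans hK) h
        omega
  rw [h5, card_union_of_disjoint hd.symm, S.huc, card_pair S.ne]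
  omega

open Classical in
/-- the leading coefficient of the cross part -/
theorem crossN (H : Gr P r) (hir : i ≤ r) (hq : NoQ P (i + 2))
    (hg : ∀ m, m + 1 = i → Good P m) (hκ : Split (i + 1) κ) (hM : Mat P i K psi)
    (hK : K ⊆ dbL P i ∪ dbU P i) (n : ℕ) :
    dd ^ ((lv P i).card - (n + 1)) ∣
      ∑ e ∈ ((univ : Finset P).piAntidiag (n + 4)).filter (Cr i κ), trm i e +
        ((∑ z ∈ Z2 i κ, (EK.Ek i K (Tz z) (n + 1) + EK.Ek i K (Tz z) n) : ℤ) : A) *
          dd ^ ((lv P i).card - (n + 2)) := by
  set Ω := ((univ : Finset P).piAntidiag (n + 4)).filter (Cr i κ) with hΩ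
  set Ω0 := (Sn i κ K (n + 2)).image F0 with hΩ0
  have hsub : Ω0 ⊆ Ω := by
    intro e he
    rw [hΩ0, mem_image] at he
    obtain ⟨⟨⟨z, a⟩, M⟩, hp, rfl⟩ := he
    rw [hΩ, mem_filter, mem_pa]
    refine ⟨⟨sum_eZn H hK hp, fun x hx => absurd (mem_univ x) hx⟩, z, ?_⟩
    rw [mem_Sn] at hp
    refine ⟨(mem_Z2.1 hp.1).1, ?_⟩
    unfold F0
    simp only
    rw [eZ_self]
    omega
  have h1 : dd ^ ((lv P i).card - (n + 1)) ∣ ∑ e ∈ Ω \ Ω0, trm i e := by
    have h2 : ∑ e ∈ Ω \ Ω0, trm i e = ∑ e ∈ Ω \ Ω0, tC i univ e :=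
      Finset.sum_congr rfl fun e _ => tC_univ.symm
    rw [h2]
    refine class_dvd hM H ?_ ?_
    · intro e he y hy
      rw [mem_sdiff] at he ⊢
      have hSK := SK_sw hM H hy
      obtain ⟨he1, he2⟩ := he
      rw [hΩ, mem_filter, mem_pa] at he1
      obtain ⟨⟨h3, -⟩, z, hz, hz1⟩ := he1
      constructor
      · rw [hΩ, mem_filter, mem_pa]
        refine ⟨⟨by rw [sum_sw]; exact h3, fun x hx => absurd (mem_univ x) hx⟩, z, hz, ?_⟩
        have h4 := (two_up H hκ hz).1
        have h5 := mem_SK.1 hy
        rw [sw_lev hM (mem_SK2.1 hy).1 (by omega) (by omega)]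
        exact hz1
      · intro h4
        rw [hΩ0, mem_image] at h4
        obtain ⟨⟨⟨z', a⟩, M⟩, hp, hpe⟩ := h4
        rw [mem_Sn] at hp
        obtain ⟨hz', ha, hMK, -, -⟩ := hp
        obtain ⟨-, y', v', S⟩ := mem_Z2.1 hz'
        have h5 := SK_eZ H hM S ha hMK
        have h6 : eZ a z' M = sw psi y e := hpe
        rw [h6, hSK] at h5
        rw [h5] at hy
        exact absurd hy (notMem_empty _)
    · intro e he
      rw [mem_sdiff] at he
      obtain ⟨he1, he2⟩ := he
      rw [hΩ, mem_filter, mem_pa] at he1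
      obtain ⟨⟨h3, -⟩, z, hz, hz1⟩ := he1
      have h4 := tC_dvd (C := (univ : Finset P)) (e := e) (i := i) (m := n + 1)
        (s := (SK i K psi e).card) (fun hL hU hd => by
          rcases cross_gen H hir hq hg hκ hM hL hU hd h3 hz hz1 with h | ⟨h, h5 | h5⟩
          · omega
          · have := card_pos.2 h5
            omega
          · exfalso
            obtain ⟨z', y', v', a, M, S, hz', ha, hMK, hdM, hc, heq⟩ := h5
            apply he2
            rw [hΩ0, mem_image]
            exact ⟨((z', a), M), mem_Sn.2 ⟨mem_Z2.2 ⟨hz', y', v', S⟩, ha, hMK, hdM, hc⟩, heq.symm⟩)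
      rwa [st_univ] at h4
  have h2 : ∑ e ∈ Ω, trm i e = ∑ e ∈ Ω \ Ω0, trm i e + ∑ p ∈ Sn i κ K (n + 2), trm i (F0 p) := by
    rw [← Finset.sum_image (Fn_inj H hK _), ← hΩ0, Finset.sum_sdiff hsub]
  have h3 : dd ^ ((lv P i).card - (n + 1)) ∣ ∑ p ∈ Sn i κ K (n + 2),
      (trm i (F0 p) + ((c0 i p : ℤ) : A) * dd ^ ((lv P i).card - (n + 2))) := by
    refine Finset.dvd_sum ?_
    rintro ⟨⟨z, a⟩, M⟩ hp
    rw [mem_Sn] at hp
    obtain ⟨hz, ha, hMK, hdM, hc⟩ := hp
    obtain ⟨-, y, v, S⟩ := mem_Z2.1 hz
    have h4 := trm_eZn H hir S.lz S.huc S.ne (S.card_T H hκ) ha (hMK.trans hK) hdM hc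
    unfold c0 F0
    simp only
    rw [S.Tz]
    exact h4
  rw [← sum_cn H hK n, h2]
  rw [Finset.sum_add_distrib, ← Finset.sum_mul] at h3
  push_cast
  have h5 := dvd_add h1 h3
  rwa [← add_assoc] at h5

end Pool.Agent.GaussPoset.Win.K2
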