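import Pool.Agent.W_448w4_h10.MB

/-!
MP_448cb3_co, G2, case B: THE IDENTITIES (2,1), (4,2), (5,3) at the window `j`.  helper10.
-/

namespace Pool.Agent.GaussPoset.Win.K2

set_option linter.unusedSectionVars false

open Finset I2

universe u

/-! ### algebra -/

/-- the profile of a component up to the energy five -/
structure Prof5 (b : ℕ) (V : PowerSeries A) : Prop where
  p : Prof 2 4 b V
  q : dd ^ b ∣ dd ^ 3 * PowerSeries.coeff 5 V

/-- coefficient of `q^5 d^(b-3)` -/
noncomputable def w5 (b : ℕ) (V : PowerSeries A) : ℤ :=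
  PowerSeries.coeff b (dd ^ 3 * PowerSeries.coeff 5 V : A)

theorem Prof5.mul {b b' : ℕ} {V V' : PowerSeries A} (h : Prof5 b V) (h' : Prof5 b' V') :
    Prof5 (b + b') (V * V') := by
  refine ⟨h.p.mul (by norm_num) (by norm_num) h'.p (by norm_num), ?_⟩
  rw [PowerSeries.coeff_mul, Finset.mul_sum]
  refine Finset.dvd_sum ?_
  rintro ⟨i, j⟩ hij
  rw [Finset.HasAntidiagonal.mem_antidiagonal] at hij
  simp only at hij ⊢
  rw [pow_add]
  have hc : (i = 0 ∧ j = 5) ∨ (i = 1 ∧ j = 4) ∨ (i = 2 ∧ j = 3) ∨ (i = 3 ∧ j = 2) ∨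
      (i = 4 ∧ j = 1) ∨ (i = 5 ∧ j = 0) := by omega
  rcases hc with ⟨rfl, rfl⟩ | ⟨rfl, rfl⟩ | ⟨rfl, rfl⟩ | ⟨rfl, rfl⟩ | ⟨rfl, rfl⟩ | ⟨rfl, rfl⟩
  · rw [mul_left_comm]
    exact mul_dvd_mul (h.p.lo 0 (by norm_num)) h'.q
  · have e1 : dd ^ 3 * (PowerSeries.coeff 1 V * PowerSeries.coeff 4 V') =
        dd * (PowerSeries.coeff 1 V * (dd ^ 2 * PowerSeries.coeff 4 V')) := by ring
    rw [e1]
    exact (mul_dvd_mul (h.p.lo 1 (by norm_num)) h'.p.top).mul_left _
  · have e1 : dd ^ 3 * (PowerSeries.coeff 2 V * PowerSeries.coeff 3 V') =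
        dd * ((dd * PowerSeries.coeff 2 V) * (dd * PowerSeries.coeff 3 V')) := by ring
    rw [e1]
    exact (mul_dvd_mul (h.p.mid 2 (by norm_num)) (h'.p.mid 3 (by norm_num))).mul_left _
  · have e1 : dd ^ 3 * (PowerSeries.coeff 3 V * PowerSeries.coeff 2 V') =
        dd * ((dd * PowerSeries.coeff 3 V) * (dd * PowerSeries.coeff 2 V')) := by ring
    rw [e1]
    exact (mul_dvd_mul (h.p.mid 3 (by norm_num)) (h'.p.mid 2 (by norm_num))).mul_left _
  · have e1 : dd ^ 3 * (PowerSeries.coeff 4 V * PowerSeries.coeff 1 V') =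
        dd * ((dd ^ 2 * PowerSeries.coeff 4 V) * PowerSeries.coeff 1 V') := by ring
    rw [e1]
    exact (mul_dvd_mul h.p.top (h'.p.lo 1 (by norm_num))).mul_left _
  · rw [← mul_assoc]
    exact mul_dvd_mul h.q (h'.p.lo 0 (by norm_num))

theorem w5_mul {b b' : ℕ} {V V' : PowerSeries A} (h : Prof5 b V) (h' : Prof5 b' V') :
    w5 (b + b') (V * V') = w5 b V * eps b' V' + eps b V * w5 b' V' := by
  unfold w5 eps
  rw [PowerSeries.coeff_mul 5 V V', Finset.mul_sum, map_sum]
  have hne : ((5, 0) : ℕ × ℕ) ≠ (0, 5) := by decide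
  rw [Finset.sum_eq_add (a := ((5, 0) : ℕ × ℕ)) (b := ((0, 5) : ℕ × ℕ)) hne]
  · simp only
    congr 1
    · rw [← mul_assoc]
      exact coeff_mul_of_dvd h.q (h'.p.lo 0 (by norm_num))
    · rw [mul_left_comm]
      exact coeff_mul_of_dvd (h.p.lo 0 (by norm_num)) h'.q
  · rintro ⟨i, j⟩ hij ⟨h1, h2⟩
    rw [Finset.HasAntidiagonal.mem_antidiagonal] at hij
    simp only at hij ⊢
    have hc : (i = 1 ∧ j = 4) ∨ (i = 2 ∧ j = 3) ∨ (i = 3 ∧ j = 2) ∨ (i = 4 ∧ j = 1) := by
      by_cases h3 : i = 0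
      · exact absurd (by rw [h3]; congr 1; omega) h2
      · by_cases h4 : i = 5
        · exact absurd (by rw [h4]; congr 1; omega) h1
        · omega
    apply coeff_eq_zero_of_dvd
    rw [pow_succ', pow_add]
    rcases hc with ⟨rfl, rfl⟩ | ⟨rfl, rfl⟩ | ⟨rfl, rfl⟩ | ⟨rfl, rfl⟩
    · have e1 : dd ^ 3 * (PowerSeries.coeff 1 V * PowerSeries.coeff 4 V') =
          dd * (PowerSeries.coeff 1 V * (dd ^ 2 * PowerSeries.coeff 4 V')) := by ring
      rw [e1]
      exact mul_dvd_mul_left _ (mul_dvd_mul (h.p.lo 1 (by norm_num)) h'.p.top)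
    · have e1 : dd ^ 3 * (PowerSeries.coeff 2 V * PowerSeries.coeff 3 V') =
          dd * ((dd * PowerSeries.coeff 2 V) * (dd * PowerSeries.coeff 3 V')) := by ring
      rw [e1]
      exact mul_dvd_mul_left _ (mul_dvd_mul (h.p.mid 2 (by norm_num)) (h'.p.mid 3 (by norm_num)))
    · have e1 : dd ^ 3 * (PowerSeries.coeff 3 V * PowerSeries.coeff 2 V') =
          dd * ((dd * PowerSeries.coeff 3 V) * (dd * PowerSeries.coeff 2 V')) := by ring
      rw [e1]
      exact mul_dvd_mul_left _ (mul_dvd_mul (h.p.mid 3 (by norm_num)) (h'.p.mid 2 (by norm_num)))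
    · have e1 : dd ^ 3 * (PowerSeries.coeff 4 V * PowerSeries.coeff 1 V') =
          dd * ((dd ^ 2 * PowerSeries.coeff 4 V) * PowerSeries.coeff 1 V') := by ring
      rw [e1]
      exact mul_dvd_mul_left _ (mul_dvd_mul h.p.top (h'.p.lo 1 (by norm_num)))
  · intro h1
    exact absurd (Finset.HasAntidiagonal.mem_antidiagonal.2 (by simp)) h1
  · intro h1
    exact absurd (Finset.HasAntidiagonal.mem_antidiagonal.2 (by simp)) h1

theorem prof5_one : Prof5 0 (1 : PowerSeries A) := ⟨prof_one, by simp⟩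

/-- the product over the components -/
theorem prod5 {ι : Type*} (s : Finset ι) (b : ι → ℕ) (V : ι → PowerSeries A)
    (h : ∀ c ∈ s, Prof5 (b c) (V c)) (h1 : ∀ c ∈ s, eps (b c) (V c) = 1) :
    Prof5 (∑ c ∈ s, b c) (∏ c ∈ s, V c) ∧ eps (∑ c ∈ s, b c) (∏ c ∈ s, V c) = 1 ∧
    w5 (∑ c ∈ s, b c) (∏ c ∈ s, V c) = ∑ c ∈ s, w5 (b c) (V c) := by
  classical
  induction s using Finset.induction_on with
  | empty =>
    simp only [Finset.sum_empty, Finset.prod_empty]
    refine ⟨prof5_one, by simp [eps], ?_⟩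
    simp [w5, PowerSeries.coeff_one]
  | insert a s ha ih =>
    obtain ⟨i1, i2, i3⟩ := ih (fun c hc => h c (Finset.mem_insert_of_mem hc))
      (fun c hc => h1 c (Finset.mem_insert_of_mem hc))
    have ha1 := h a (Finset.mem_insert_self a s)
    have ha2 := h1 a (Finset.mem_insert_self a s)
    rw [Finset.sum_insert ha, Finset.prod_insert ha, Finset.sum_insert ha,
      eps_mul ha1.p i1.p (by norm_num), w5_mul ha1 i1, ha2, i2, i3]
    refine ⟨ha1.mul i1, by norm_num, by ring⟩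

theorem eps_prod {ι : Type*} (s : Finset ι) (b : ι → ℕ) (V : ι → PowerSeries A)
    (h : ∀ c ∈ s, Prof 2 4 (b c) (V c)) (h1 : ∀ c ∈ s, eps (b c) (V c) = 1) :
    Prof 2 4 (∑ c ∈ s, b c) (∏ c ∈ s, V c) ∧ eps (∑ c ∈ s, b c) (∏ c ∈ s, V c) = 1 := by
  classical
  induction s using Finset.induction_on with
  | empty =>
    simp only [Finset.sum_empty, Finset.prod_empty]
    exact ⟨prof_one, by simp [eps]⟩
  | insert a s ha ih =>
    obtain ⟨i1, i2⟩ := ih (fun c hc => h c (Finset.mem_insert_of_mem hc))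
      (fun c hc => h1 c (Finset.mem_insert_of_mem hc))
    have ha1 := h a (Finset.mem_insert_self a s)
    have ha2 := h1 a (Finset.mem_insert_self a s)
    rw [Finset.sum_insert ha, Finset.prod_insert ha, eps_mul ha1 i1 (by norm_num), ha2, i2]
    exact ⟨ha1.mul (by norm_num) (by norm_num) i1 (by norm_num), by norm_num⟩

/-! ### the identities -/

variable {P : Type u} [Fintype P] [PartialOrder P] [DecidableEq P] {r i : ℕ} {e : P → ℕ}

variable {ι : Type*} [DecidableEq ι] {κ : P → ι} {K : Finset P} {psi : P → P}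

open Classical in
/-- no cross configuration of energy at most two -/
theorem cross_two (H : Gr P r) (hq : NoQ P (i + 2)) (hκ : Split (i + 1) κ) {n : ℕ}
    (hn : n ≤ 2) : ∑ e ∈ ((univ : Finset P).piAntidiag n).filter (Cr i κ), trm i e = 0 := by
  refine Finset.sum_eq_zero fun e he => ?_
  rw [mem_filter, mem_pa] at he
  obtain ⟨⟨h1, -⟩, z, hz, hz1⟩ := he
  by_cases hL : AdmL i e
  · exfalso
    have key : ∀ D : Finset P, D.card = 3 → (∀ x ∈ D, 1 ≤ e x) → False := by
      intro D hD hx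
      have h2 : D.card ≤ ∑ x ∈ D, e x := by
        rw [Finset.card_eq_sum_ones]
        exact Finset.sum_le_sum hx
      have h3 : ∑ x ∈ D, e x ≤ ∑ x, e x :=
        Finset.sum_le_sum_of_subset (Finset.subset_univ D)
      omega
    rcases cross_D H hκ hq hL hz hz1 with ⟨D, hD3, hD⟩ | ⟨y, v, lz, huc, hk, cy, cv, ey, ev⟩
    · exact key D hD3 fun x hx => (hD x hx).1
    · have S : SD i κ z y v := ⟨lz, huc, hk, cy, cv⟩
      have l1 := S.ly H
      have l2 := S.lv' H
      refine key {z, y, v} ?_ ?_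
      · rw [card_insert_of_notMem, card_pair S.ne]
        rw [mem_insert, mem_singleton]
        rintro (rfl | rfl) <;> omega
      · intro x hx
        rw [mem_insert, mem_insert, mem_singleton] at hx
        rcases hx with rfl | rfl | rfl <;> assumption
  · unfold trm cw
    simp only [hL, false_and, if_false, zero_mul, ite_self]

/-- an extracted coefficient of the product -/
theorem prod_coeff (H : Gr P r) (hir : i ≤ r) (hq : NoQ P (i + 2))
    (hg : ∀ m, m + 1 = i → Good P m) (hκ : Split (i + 1) κ) (hM : Mat P i K psi)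
    (hK : K ⊆ dbL P i ∪ dbU P i) (n : ℕ) :
    PowerSeries.coeff (lv P i).card (dd ^ (n + 2) *
      PowerSeries.coeff (n + 4) (∏ a ∈ univ.image κ, VV i (i + 1) κ a) : A) =
      ∑ z ∈ Z2 i κ, (EK.Ek i K (Tz z) (n + 1) + EK.Ek i K (Tz z) n) := by
  classical
  have htot := dvd_sum_trm H hir (n + 4)
  rw [prod_eq H hir hκ]
  have h1 := crossN (K := K) (psi := psi) H hir hq hg hκ hM hK n
  obtain ⟨E, hE⟩ : ∃ E : ℤ, E = ∑ z ∈ Z2 i κ, (EK.Ek i K (Tz z) (n + 1) + EK.Ek i K (Tz z) n) :=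
    ⟨_, rfl⟩
  obtain ⟨R, hR⟩ : ∃ R, R = ∑ e ∈ ((univ : Finset P).piAntidiag (n + 4)).filter (Cr i κ), trm i e :=
    ⟨_, rfl⟩
  obtain ⟨T, hT⟩ : ∃ T, T = ∑ e ∈ (univ : Finset P).piAntidiag (n + 4), trm i e := ⟨_, rfl⟩
  rw [← hE, ← hR] at h1
  rw [← hT] at htot
  rw [← hE, ← hR, ← hT]
  have h2 : dd ^ (n + 2) * (T - R) = dd ^ (n + 2) * (T - (R + ((E : ℤ) : A) *
      dd ^ ((lv P i).card - (n + 2)))) +
        dd ^ (n + 2) * (((E : ℤ) : A) * dd ^ ((lv P i).card - (n + 2))) := by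
    ring
  have h4 : dd ^ ((lv P i).card - (n + 1)) ∣
      T - (R + ((E : ℤ) : A) * dd ^ ((lv P i).card - (n + 2))) :=
    dvd_sub ((pow_dvd_pow dd (Nat.sub_le _ _)).trans htot) h1
  have h5 : PowerSeries.coeff (lv P i).card (dd ^ (n + 2) * (T - (R + ((E : ℤ) : A) *
      dd ^ ((lv P i).card - (n + 2)))) : A) = 0 := by
    apply coeff_zero_of_dvd (a := (lv P i).card + 1)
    · refine (pow_dvd_pow dd (show (lv P i).card + 1 ≤
        (n + 2) + ((lv P i).card - (n + 1)) by omega)).trans ?_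
      rw [pow_add]
      exact mul_dvd_mul_left _ h4
    · omega
  rw [h2, map_add, h5, zero_add]
  by_cases hb : n + 2 ≤ (lv P i).card
  · have h7 : dd ^ (n + 2) * (((E : ℤ) : A) * dd ^ ((lv P i).card - (n + 2))) =
        ((E : ℤ) : A) * dd ^ (lv P i).card := by
      have : dd ^ (lv P i).card = dd ^ (n + 2) * dd ^ ((lv P i).card - (n + 2)) := by
        rw [← pow_add]
        congr 1
        omega
      rw [this]
      ring
    rw [h7, coeff_int_dd]
  · have hE0 : E = 0 := by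
      rw [hE]
      refine Finset.sum_eq_zero fun z hz => ?_
      obtain ⟨-, y, v, S⟩ := mem_Z2.1 hz
      have hT3 := S.card_T H hκ
      have hsub : uc y ∪ uc v ⊆ lv P i := by
        intro x hx
        rw [mem_lv]
        have l1 := S.ly H
        have l2 := S.lv' H
        rcases mem_union.1 hx with h | h
        · have := lev_uc H h
          omega
        · have := lev_uc H h
          omega
      have h8 := card_le_card hsub
      have key : ∀ k, 1 ≤ k → n ≤ k → EK.Ek i K (Tz z) k = 0 := by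
        intro k hk hnk
        rw [EK.Ek_eq hK]
        refine Finset.sum_eq_zero fun M hM => ?_
        exfalso
        rw [mem_filter, mem_powersetCard] at hM
        obtain ⟨⟨h10, h11⟩, h12, h13⟩ := hM
        have h14 := Dj_bi_card h12 (subset_refl M)
        have h15 : M.biUnion (ns i) ⊆ lv P i := by
          intro x hx
          rw [mem_biUnion] at hx
          obtain ⟨y', hy', hx'⟩ := hx
          exact ns_sub H (hK (h10 hy')) hx'
        have h16 : (M.biUnion (ns i) ∪ Tz z).card ≤ (lv P i).card := by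
          refine card_le_card (union_subset h15 ?_)
          rw [S.Tz]
          exact hsub
        rw [card_union_of_disjoint h13, S.Tz, hT3] at h16
        omega
      rw [key (n + 1) (by omega) (by omega), key n (by omega) le_rfl, add_zero]
    rw [hE0]
    simp

/-- THE IDENTITIES (2,1) AND (4,2), general form -/
theorem four_two (H : Gr P r) (hir : i ≤ r) (hq : NoQ P (i + 2))
    (hg : ∀ m, m + 1 = i → Good P m) (hκ : Split (i + 1) κ) (hM : Mat P i K psi)
    (hK : K ⊆ dbL P i ∪ dbU P i)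
    (hP : ∀ a ∈ univ.image κ, Prof 2 4 (bb i (i + 1) κ a) (VV i (i + 1) κ a)) :
    ∑ a ∈ univ.image κ, al 2 (bb i (i + 1) κ a) (VV i (i + 1) κ a) = 0 ∧
    ∑ a ∈ univ.image κ, (al 2 (bb i (i + 1) κ a) (VV i (i + 1) κ a) ^ 2 -
      2 * be 4 (bb i (i + 1) κ a) (VV i (i + 1) κ a)) =
      - (2 * ∑ z ∈ Z2 i κ, (EK.Ek i K (Tz z) 1 + EK.Ek i K (Tz z) 0)) := by
  classical
  have hB : ∑ a ∈ univ.image κ, bb i (i + 1) κ a = (lv P i).card := sum_card_st (by omega) hκ
  have hE : ∀ a ∈ univ.image κ, eps (bb i (i + 1) κ a) (VV i (i + 1) κ a) = 1 :=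
    fun a _ => eps_VV H hir a
  obtain ⟨-, -, i3, i4⟩ := prod_all (univ.image κ) (e := 2) (m := 4) (by norm_num) (by norm_num)
    (by norm_num) _ _ hP (fun a ha => by rw [hE a ha]; norm_num)
  have i5 := (eps_prod (univ.image κ) _ _ hP hE).2
  rw [i5, one_mul] at i3 i4
  rw [hB] at i3 i4
  have h2 : al 2 (lv P i).card (∏ a ∈ univ.image κ, VV i (i + 1) κ a) = 0 := by
    unfold al
    apply coeff_zero_of_dvd (a := (lv P i).card + 1)
    · rw [prod_eq H hir hκ, cross_two H hq hκ le_rfl, sub_zero, pow_succ']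
      exact mul_dvd_mul_left _ (dvd_sum_trm H hir 2)
    · omega
  have h4 : be 4 (lv P i).card (∏ a ∈ univ.image κ, VV i (i + 1) κ a) =
      ∑ z ∈ Z2 i κ, (EK.Ek i K (Tz z) 1 + EK.Ek i K (Tz z) 0) :=
    prod_coeff H hir hq hg hκ hM hK 0
  constructor
  · rw [h2] at i3
    rw [i3]
    exact Finset.sum_congr rfl fun a ha => by rw [hE a ha, one_mul]
  · rw [h2, h4, if_pos rfl] at i4
    have e1 : ∑ a ∈ univ.image κ, (al 2 (bb i (i + 1) κ a) (VV i (i + 1) κ a) ^ 2 -
      2 * be 4 (bb i (i + 1) κ a) (VV i (i + 1) κ a)) =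
      ∑ c ∈ univ.image κ, ((if 4 = 2 * 2 then al 2 (bb i (i + 1) κ c) (VV i (i + 1) κ c) ^ 2
        else 0) - 2 * (eps (bb i (i + 1) κ c) (VV i (i + 1) κ c) *
          be 4 (bb i (i + 1) κ c) (VV i (i + 1) κ c))) := by
      refine Finset.sum_congr rfl fun a ha => ?_
      rw [hE a ha, one_mul, if_pos rfl]
    rw [e1, ← i4]
    ring

/-- THE IDENTITY (5,3), general form -/
theorem five_three (H : Gr P r) (hir : i ≤ r) (hq : NoQ P (i + 2))
    (hg : ∀ m, m + 1 = i → Good P m) (hκ : Split (i + 1) κ) (hM : Mat P i K psi)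
    (hK : K ⊆ dbL P i ∪ dbU P i)
    (hP : ∀ a ∈ univ.image κ, Prof5 (bb i (i + 1) κ a) (VV i (i + 1) κ a)) :
    ∑ a ∈ univ.image κ, w5 (bb i (i + 1) κ a) (VV i (i + 1) κ a) =
      ∑ z ∈ Z2 i κ, (EK.Ek i K (Tz z) 2 + EK.Ek i K (Tz z) 1) := by
  classical
  have hB : ∑ a ∈ univ.image κ, bb i (i + 1) κ a = (lv P i).card := sum_card_st (by omega) hκ
  have hE : ∀ a ∈ univ.image κ, eps (bb i (i + 1) κ a) (VV i (i + 1) κ a) = 1 :=
    fun a _ => eps_VV H hir a
  obtain ⟨-, -, i3⟩ := prod5 (univ.image κ) _ _ hP hE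
  rw [hB] at i3
  rw [← i3]
  exact prod_coeff H hir hq hg hκ hM hK 1

/-- THE PROFILE of a component with a star of unmatched elements, when `w32 = 0` -/
theorem prof_star (H : Gr P r) (hir : i ≤ r) (hq : NoQ P (i + 2))
    (hg : ∀ m, m + 1 = i → Good P m) (hκ : Split (i + 1) κ) (hM : Mat P i K psi)
    (hK : K ⊆ dbL P i ∪ dbU P i) {a : ι} (hs : Star i (cext (i + 1) κ a) K)
    (h0 : w3 (bb i (i + 1) κ a) (VV i (i + 1) κ a) = 0) :
    Prof5 (bb i (i + 1) κ a) (VV i (i + 1) κ a) := by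
  have hC : Part (i + 1) (cext (i + 1) κ a) := part_cext H le_rfl hκ a
  have hcl := K_class H hir hq hg hM hC hs
  have h1 : dd ^ (st i (cext (i + 1) κ a)).card ∣ ZC i (cext (i + 1) κ a) 1 := by
    refine K_one H hir hq hg hM hC hK ?_
    have h2 : K.filter (fun k => k ∈ cext (i + 1) κ a) = K.filter (fun k => κ k = a) := by
      refine filter_congr fun k hk => ?_
      have hl : lev k ≤ i + 1 := by
        rcases mem_union.1 (hK hk) with h | h
        · have := mem_dbL'.1 h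
          omega
        · have := mem_dbU'.1 h
          omega
      constructor
      · intro h
        exact mem_cext.1 h k le_rfl hl
      · exact fun h => mem_cext_of_le hκ hl h
    rw [h2]
    exact EK.sum_K H hir hκ hM hK a
  have hz : dd ^ (st i (cext (i + 1) κ a)).card ∣ ZC i (cext (i + 1) κ a) 0 := by
    rw [ZC_zero H hir]
  unfold w3 bb VV at h0
  rw [coeff_ZS] at h0
  unfold bb VV
  have key : ∀ n m, (n + 1) / 2 ≤ m → dd ^ (st i (cext (i + 1) κ a)).card ∣
      dd ^ m * ZC i (cext (i + 1) κ a) n := by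
    intro n m hnm
    have h3 : dd ^ m * dd ^ ((st i (cext (i + 1) κ a)).card - (n + 1) / 2) ∣
        dd ^ m * ZC i (cext (i + 1) κ a) n := mul_dvd_mul_left _ (hcl n)
    rw [← pow_add] at h3
    exact (pow_dvd_pow dd (by omega)).trans h3
  have h3 : dd ^ (st i (cext (i + 1) κ a)).card ∣ dd * ZC i (cext (i + 1) κ a) 3 := by
    have h4 := key 3 2 le_rfl
    have h5 : (dd : A) ^ ((st i (cext (i + 1) κ a)).card + 1) ∣
        dd ^ 2 * ZC i (cext (i + 1) κ a) 3 := by
      unfold dd at h4 h0 ⊢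
      rw [PowerSeries.X_pow_dvd_iff] at h4 ⊢
      intro m hm
      rcases Nat.lt_succ_iff_lt_or_eq.1 hm with h6 | h6
      · exact h4 m h6
      · rw [h6]; exact h0
    obtain ⟨Y, hY⟩ := h5
    refine ⟨Y, ?_⟩
    have h6 : dd * (dd * ZC i (cext (i + 1) κ a) 3) =
        dd * (dd ^ (st i (cext (i + 1) κ a)).card * Y) := by
      rw [← mul_assoc, ← mul_assoc, ← pow_succ', ← pow_two, hY]
    exact mul_left_cancel₀ (by unfold dd; exact PowerSeries.X_ne_zero) h6
  refine ⟨⟨?_, ?_, ?_⟩, ?_⟩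
  · intro n hn
    rw [coeff_ZS]
    have : n = 0 ∨ n = 1 := by omega
    rcases this with rfl | rfl
    · exact hz
    · exact h1
  · intro n hn
    rw [coeff_ZS]
    have : n = 0 ∨ n = 1 ∨ n = 2 ∨ n = 3 := by omega
    rcases this with rfl | rfl | rfl | rfl
    · exact hz.mul_left _
    · exact h1.mul_left _
    · have := key 2 1 (by norm_num)
      rwa [pow_one] at this
    · exact h3
  · rw [coeff_ZS]
    exact key 4 2 (by norm_num)
  · rw [coeff_ZS]
    exact key 5 3 (by norm_num)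

end Pool.Agent.GaussPoset.Win.K2
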