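import Pool.Agent.W_448w4_h10.MC

/-!
MP_448cb3_co, G2, case B: the identities (2,1), (4,2), (5,3) at the window `j` with the values of the joins.  helper10.
-/

namespace Pool.Agent.GaussPoset.Win.K2

set_option linter.unusedSectionVars false

open Finset I2

universe u

variable {P : Type u} [Fintype P] [PartialOrder P] [DecidableEq P] {r i : ℕ} {e : P → ℕ}

variable {ι : Type*} [DecidableEq ι] {κ : P → ι} {K : Finset P} {psi : P → P}

lemma Ek_zero (hK : K ⊆ dbL P i ∪ dbU P i) (T : Finset P) : EK.Ek i K T 0 = 1 := by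
  classical
  rw [EK.Ek_eq hK, powersetCard_zero, Finset.filter_singleton, if_pos, sum_singleton, prod_empty]
  refine ⟨⟨empty_subset _, fun x hx => absurd hx (notMem_empty x)⟩, ?_⟩
  rw [biUnion_empty]
  exact disjoint_empty_left _

open Classical in
lemma Ek_one (hK : K ⊆ dbL P i ∪ dbU P i) (T : Finset P) :
    EK.Ek i K T 1 = ∑ k ∈ K.filter (fun k => Disjoint (ns i k) T), sgn i k := by
  rw [EK.Ek_eq hK]
  symm
  refine Finset.sum_bij (fun k _ => ({k} : Finset P)) ?_ ?_ ?_ ?_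
  · intro k hk
    rw [mem_filter] at hk
    rw [mem_filter, mem_powersetCard]
    refine ⟨⟨singleton_subset_iff.2 hk.1, card_singleton k⟩,
      ⟨singleton_subset_iff.2 (hK hk.1), ?_⟩, ?_⟩
    · intro x hx y hy hne
      rw [mem_singleton] at hx hy
      exact absurd (hx.trans hy.symm) hne
    · rw [singleton_biUnion]
      exact hk.2
  · intro k _ k' _ h
    exact singleton_injective h
  · intro M hM
    rw [mem_filter, mem_powersetCard] at hM
    obtain ⟨⟨h1, h2⟩, -, h3⟩ := hM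
    obtain ⟨k, rfl⟩ := card_eq_one.1 h2
    rw [singleton_biUnion] at h3
    exact ⟨k, mem_filter.2 ⟨singleton_subset_iff.1 h1, h3⟩, rfl⟩
  · intro k _
    rw [prod_singleton]

/-- THE VALUE OF A JOIN -/
theorem Ek_one_SD (H : Gr P r) (hir : i ≤ r) (hκ : Split (i + 1) κ) (hM : Mat P i K psi)
    (hK : K ⊆ dbL P i ∪ dbU P i) {z y v : P} (S : SD i κ z y v) :
    EK.Ek i K (Tz z) 1 = EK.sa i κ K (uc y) (κ y) + EK.sa i κ K (uc v) (κ v) := by
  classical
  have l1 := S.ly H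
  have l2 := S.lv' H
  have ky : ∀ s ∈ uc y, κ s = κ y := fun s hs => (hκ (mem_uc.1 hs) (by omega)).symm
  have kv : ∀ s ∈ uc v, κ s = κ v := fun s hs => (hκ (mem_uc.1 hs) (by omega)).symm
  have kns : ∀ k ∈ K, ∀ s ∈ ns i k, κ s = κ k := fun k hk s hs => EK.kap_ns H hκ (hK hk) hs
  rw [Ek_one hK, S.Tz, EK.sa_eq, EK.sa_eq]
  have e0 : K.filter (fun k => Disjoint (ns i k) (uc y ∪ uc v)) =
      K.filter (fun k => κ k = κ y ∧ Disjoint (ns i k) (uc y)) ∪
      (K.filter (fun k => κ k = κ v ∧ Disjoint (ns i k) (uc v)) ∪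
        K.filter (fun k => κ k ≠ κ y ∧ κ k ≠ κ v)) := by
    ext k
    rw [mem_union, mem_union, mem_filter, mem_filter, mem_filter, mem_filter,
      disjoint_union_right]
    have far : ∀ (T : Finset P) (b : ι), k ∈ K → (∀ s ∈ T, κ s = b) → κ k ≠ b →
        Disjoint (ns i k) T := by
      intro T b hk hT hne
      rw [disjoint_left]
      intro s hs hs'
      exact hne ((kns k hk s hs).symm.trans (hT s hs'))
    constructor
    · rintro ⟨hk, h1, h2⟩
      by_cases h3 : κ k = κ y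
      · exact Or.inl ⟨hk, h3, h1⟩
      · by_cases h4 : κ k = κ v
        · exact Or.inr (Or.inl ⟨hk, h4, h2⟩)
        · exact Or.inr (Or.inr ⟨hk, h3, h4⟩)
    · rintro (⟨hk, h1, h2⟩ | ⟨hk, h1, h2⟩ | ⟨hk, h1, h2⟩)
      · exact ⟨hk, h2, far _ _ hk kv (by rw [h1]; exact S.hk)⟩
      · exact ⟨hk, far _ _ hk ky (by rw [h1]; exact S.hk.symm), h2⟩
      · exact ⟨hk, far _ _ hk ky h1, far _ _ hk kv h2⟩
  have d1 : Disjoint (K.filter (fun k => κ k = κ v ∧ Disjoint (ns i k) (uc v)))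
      (K.filter (fun k => κ k ≠ κ y ∧ κ k ≠ κ v)) := by
    rw [disjoint_left]
    intro k h h'
    exact (mem_filter.1 h').2.2 (mem_filter.1 h).2.1
  have d2 : Disjoint (K.filter (fun k => κ k = κ y ∧ Disjoint (ns i k) (uc y)))
      (K.filter (fun k => κ k = κ v ∧ Disjoint (ns i k) (uc v)) ∪
        K.filter (fun k => κ k ≠ κ y ∧ κ k ≠ κ v)) := by
    rw [disjoint_left]
    intro k h h'
    rcases mem_union.1 h' with h' | h'
    · exact S.hk ((mem_filter.1 h).2.1.symm.trans (mem_filter.1 h').2.1)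
    · exact (mem_filter.1 h').2.1 (mem_filter.1 h).2.1
  have e1 : ∑ k ∈ K.filter (fun k => κ k ≠ κ y ∧ κ k ≠ κ v), sgn i k = 0 := by
    rw [← Finset.sum_fiberwise_of_maps_to (t := univ.image κ) (g := κ)
      (fun k _ => mem_image_of_mem κ (mem_univ k))]
    refine Finset.sum_eq_zero fun a _ => ?_
    by_cases h : a ≠ κ y ∧ a ≠ κ v
    · have : (K.filter (fun k => κ k ≠ κ y ∧ κ k ≠ κ v)).filter (fun k => κ k = a) =
          K.filter (fun k => κ k = a) := by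
        ext k
        rw [mem_filter, mem_filter, mem_filter]
        constructor
        · exact fun h => ⟨h.1.1, h.2⟩
        · rintro ⟨h1, h2⟩
          exact ⟨⟨h1, by rw [h2]; exact h.1, by rw [h2]; exact h.2⟩, h2⟩
      rw [this]
      exact EK.sum_K H hir hκ hM hK a
    · rw [Finset.filter_eq_empty_iff.2, sum_empty]
      intro k hk h2
      rw [mem_filter] at hk
      rw [← h2] at h
      exact h hk.2
  rw [e0, sum_union d2, sum_union d1, e1, add_zero]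

/-- the weight of a join -/
noncomputable def cz (i : ℕ) (K : Finset P) (z : P) : ℤ := EK.Ek i K (Tz z) 1

/-- THE IDENTITY (2,1) + (4,2) -/
theorem identity_42 (H : Gr P r) (hir : i ≤ r) (hq : NoQ P (i + 2))
    (hg : ∀ m, m + 1 = i → Good P m) (hκ : Split (i + 1) κ) (hM : Mat P i K psi)
    (hK : K ⊆ dbL P i ∪ dbU P i)
    (hP : ∀ a ∈ univ.image κ, Prof 2 4 (bb i (i + 1) κ a) (VV i (i + 1) κ a)) :
    ∑ a ∈ univ.image κ, (al 2 (bb i (i + 1) κ a) (VV i (i + 1) κ a) +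
      (al 2 (bb i (i + 1) κ a) (VV i (i + 1) κ a) ^ 2 -
      2 * be 4 (bb i (i + 1) κ a) (VV i (i + 1) κ a))) +
      2 * ∑ z ∈ Z2 i κ, (1 + cz i K z) = 0 := by
  obtain ⟨h1, h2⟩ := four_two H hir hq hg hκ hM hK hP
  rw [sum_add_distrib, h1, h2]
  have : ∑ z ∈ Z2 i κ, (EK.Ek i K (Tz z) 1 + EK.Ek i K (Tz z) 0) =
      ∑ z ∈ Z2 i κ, (1 + cz i K z) := by
    refine Finset.sum_congr rfl fun z _ => ?_
    rw [Ek_zero hK, add_comm]
    rfl
  rw [this]
  ring

/-- CONSEQUENCE: all `F = 0`, and every join has weight `1 + c = 0` -/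
theorem all_zero (H : Gr P r) (hir : i ≤ r) (hq : NoQ P (i + 2))
    (hg : ∀ m, m + 1 = i → Good P m) (hκ : Split (i + 1) κ) (hM : Mat P i K psi)
    (hK : K ⊆ dbL P i ∪ dbU P i)
    (hP : ∀ a ∈ univ.image κ, Prof 2 4 (bb i (i + 1) κ a) (VV i (i + 1) κ a))
    (hF : ∀ a ∈ univ.image κ, 0 ≤ al 2 (bb i (i + 1) κ a) (VV i (i + 1) κ a) +
      (al 2 (bb i (i + 1) κ a) (VV i (i + 1) κ a) ^ 2 -
      2 * be 4 (bb i (i + 1) κ a) (VV i (i + 1) κ a)))
    (hS : ∀ z y v, SD i κ z y v → z ∉ cuni (i + 1) κ →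
      0 ≤ 1 + (EK.sa i κ K (uc y) (κ y) + EK.sa i κ K (uc v) (κ v))) :
    (∀ a ∈ univ.image κ, al 2 (bb i (i + 1) κ a) (VV i (i + 1) κ a) +
      (al 2 (bb i (i + 1) κ a) (VV i (i + 1) κ a) ^ 2 -
      2 * be 4 (bb i (i + 1) κ a) (VV i (i + 1) κ a)) = 0) ∧
    ∀ z y v, SD i κ z y v → z ∉ cuni (i + 1) κ →
      1 + (EK.sa i κ K (uc y) (κ y) + EK.sa i κ K (uc v) (κ v)) = 0 := by
  have h1 := identity_42 H hir hq hg hκ hM hK hP
  have h2 : ∀ z ∈ Z2 i κ, 0 ≤ 1 + cz i K z := by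
    intro z hz
    obtain ⟨hz1, y, v, S⟩ := mem_Z2.1 hz
    unfold cz
    rw [Ek_one_SD H hir hκ hM hK S]
    exact hS z y v S hz1
  have h3 := Finset.sum_nonneg hF
  have h4 := Finset.sum_nonneg h2
  have h5 := (Finset.sum_eq_zero_iff_of_nonneg hF).1 (by linarith)
  have h6 := (Finset.sum_eq_zero_iff_of_nonneg h2).1 (by linarith)
  refine ⟨h5, ?_⟩
  intro z y v S hz
  rw [← Ek_one_SD H hir hκ hM hK S]
  exact h6 z (mem_Z2.2 ⟨hz, y, v, S⟩)

/-- THE IDENTITY (5,3) with the values of the joins -/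
theorem identity_53 (hi : 1 ≤ i) (hir : i ≤ r) (hq : NoQ P (i + 2))
    (hg : ∀ m, m + 1 = i → Good P m) (h : EK.HK r i κ K psi)
    (hP : ∀ a ∈ univ.image κ, Prof5 (bb i (i + 1) κ a) (VV i (i + 1) κ a)) {p : P → ℤ}
    (hp : ∀ z y v, SD i κ z y v → p z =
      EK.sa i κ K (uc y) (κ y) * EK.sa i κ K (uc v) (κ v) +
        (EK.sa i κ K (uc y) (κ y) + EK.sa i κ K (uc v) (κ v))) :
    ∑ a ∈ univ.image κ, w5 (bb i (i + 1) κ a) (VV i (i + 1) κ a) = ∑ z ∈ Z2 i κ, p z := by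
  rw [five_three h.H hir hq hg h.spl h.mat h.sub hP]
  refine Finset.sum_congr rfl fun z hz => ?_
  obtain ⟨-, y, v, S⟩ := mem_Z2.1 hz
  rw [hp z y v S, (ek_SD h S).2, Ek_one_SD h.H hir h.spl h.mat h.sub S]

end Pool.Agent.GaussPoset.Win.K2
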